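import Pool.Agent.Lib.MP_8ebc20_an.B.Tr

/-!
# Part B: complementary arcs of a class
-/

set_option autoImplicit false

namespace Pool.Agent.JB

open Set

variable {Γ : ℝ → ℂ} {F : ℂ → ℂ} {x s t s' t' r : ℝ} {i : Fin 7}

theorem SA.refl (h : Γ s ≠ Γ x) : SA Γ x s s := by
  refine ⟨0, fun u hu => ?_⟩
  simp at hu
  rw [hu]; exact h

theorem Lam.SAsymm (h : Lam Γ F) (hs : SA Γ x s t) : SA Γ x t s := by
  obtain ⟨n, hn⟩ := hs
  refine ⟨-n, fun u hu => ?_⟩
  have := hn (u + n * 40353264) (by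
    rw [uIcc_comm]
    rw [mem_uIcc] at hu ⊢
    push_cast at hu
    rcases hu with hu | hu
    · left; constructor <;> linarith
    · right; constructor <;> linarith)
  rwa [h.per_int] at this

theorem Lam.SAtrans (h : Lam Γ F) (hs : SA Γ x s t) (ht : SA Γ x t r) : SA Γ x s r := by
  obtain ⟨n, hn⟩ := hs
  obtain ⟨m, hm⟩ := ht
  refine ⟨n + m, fun u hu => ?_⟩
  have h1 := uIcc_subset_uIcc_union_uIcc (a := s) (b := t + n * 40353264)
    (c := r + ((n + m : ℤ) : ℝ) * 40353264) hu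
  rcases h1 with h1 | h1
  · exact hn u h1
  · have := hm (u - n * 40353264) (by
      rw [mem_uIcc] at h1 ⊢
      push_cast at h1
      rcases h1 with h1 | h1
      · left; constructor <;> linarith
      · right; constructor <;> linarith)
    intro h2
    apply this
    rw [← h2, ← h.per_int (u - n * 40353264) n]
    congr 1
    ring

theorem SA.ne_left (hs : SA Γ x s t) : Γ s ≠ Γ x := by
  obtain ⟨n, hn⟩ := hs
  exact hn s left_mem_uIcc

theorem Lam.SAne_right (h : Lam Γ F) (hs : SA Γ x s t) : Γ t ≠ Γ x := by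
  obtain ⟨n, hn⟩ := hs
  have := hn _ right_mem_uIcc
  rwa [h.per_int] at this

/-- all angles of a class are in the same complementary arc of another class -/
theorem Lam.SAclass (h : Lam Γ F) (hs : Γ s = Γ s') (hx : Γ s ≠ Γ x) : SA Γ x s s' := by
  set k : ℤ := -⌊(s' - s) / 40353264⌋ with hk
  have hk1 : (-k : ℝ) * 40353264 ≤ s' - s := by
    have := Int.floor_le ((s' - s) / 40353264)
    rw [le_div_iff₀ (by norm_num)] at this
    rw [hk]; push_cast; linarith
  have hk2 : s' - s < (-k + 1 : ℝ) * 40353264 := by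
    have := Int.lt_floor_add_one ((s' - s) / 40353264)
    rw [div_lt_iff₀ (by norm_num)] at this
    rw [hk]; push_cast; linarith
  have g1 : s ≤ s' + k * 40353264 := by linarith
  have g2 : s' + k * 40353264 < s + 40353264 := by linarith
  by_cases c1 : ∃ u ∈ Icc s (s' + k * 40353264), Γ u = Γ x
  · obtain ⟨u, ⟨hu1, hu2⟩, hu3⟩ := c1
    by_cases c2 : ∃ v ∈ Icc (s' + k * 40353264) (s + 40353264), Γ v = Γ x
    · exfalso
      obtain ⟨v, ⟨hv1, hv2⟩, hv3⟩ := c2
      have e1 : s < u := lt_of_le_of_ne hu1 (fun e => hx (by rw [e, hu3]))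
      have e2 : u < s' + k * 40353264 := lt_of_le_of_ne hu2 (fun e => hx (by
        rw [hs, ← h.per_int s' k, ← e, hu3]))
      have e3 : s' + k * 40353264 < v := lt_of_le_of_ne hv1 (fun e => hx (by
        rw [hs, ← h.per_int s' k, e, hv3]))
      have e4 : v < s + 40353264 := lt_of_le_of_ne hv2 (fun e => hx (by
        rw [← h.per s, ← e, hv3]))
      exact hx (by
        rw [h.unl s u (s' + k * 40353264) v e1 e2 e3 e4 (by rw [h.per_int, hs])
          (by rw [hu3, hv3]), hu3])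
    · push Not at c2
      refine ⟨k - 1, fun u hu => ?_⟩
      rw [mem_uIcc] at hu
      push_cast at hu
      have hu' : s' + (k - 1) * 40353264 ≤ u ∧ u ≤ s := by
        rcases hu with hu | hu
        · constructor <;> linarith
        · exact hu
      have := c2 (u + 40353264) ⟨by linarith, by linarith⟩
      rwa [h.per] at this
  · push Not at c1
    refine ⟨k, fun u hu => ?_⟩
    rw [uIcc_of_le g1] at hu
    exact c1 u hu

theorem Lam.SA_tr (h : Lam Γ F) (hi : inO i x) (hx : Av Γ x) :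
    SA Γ x s t ↔ SA Γ (Q i x) (Q i s) (Q i t) := by
  constructor
  · rintro ⟨n, hn⟩
    refine ⟨n, fun v hv hvx => ?_⟩
    rw [← Q_add_int] at hv
    have := intermediate_value_uIcc (a := s) (b := t + n * 40353264) (Q_cont i).continuousOn hv
    obtain ⟨u, hu, rfl⟩ := this
    exact hn u hu ((h.tr hi hx u).2 hvx)
  · rintro ⟨n, hn⟩
    refine ⟨n, fun u hu hux => ?_⟩
    refine hn (Q i u) ?_ ((h.tr hi hx u).1 hux)
    rw [← Q_add_int]
    rw [mem_uIcc] at hu ⊢
    rcases hu with hu | hu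
    · exact Or.inl ⟨Q_mono i hu.1, Q_mono i hu.2⟩
    · exact Or.inr ⟨Q_mono i hu.1, Q_mono i hu.2⟩

theorem Lam.NX_tr (h : Lam Γ F) (hi : inO i x) (hx : Av Γ x) :
    NX Γ x s t ↔ NX Γ (Q i x) (Q i s) (Q i t) := by
  constructor
  · rintro ⟨n, hn, u, ⟨⟨hu1, hu2⟩, hu3⟩, huniq⟩
    have hui := h.tr_inj hi hx hu3
    refine ⟨n, ?_, Q i u, ⟨⟨Q_mono i hu1, ?_⟩, (h.tr hi hx u).1 hu3⟩, ?_⟩
    · rw [← Q_add_int]
      rcases lt_or_eq_of_le hu1 with h1 | h1
      · exact lt_of_lt_of_le (Q_lt_of_inO hui h1) (Q_mono i hu2)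
      · rw [h1]
        exact Q_gt_of_inO hui (by linarith)
    · rw [← Q_add_int]; exact Q_mono i hu2
    · rintro v ⟨hv1, hv2⟩
      rw [← Q_add_int] at hv1
      obtain ⟨w, hw, rfl⟩ := intermediate_value_Icc hn.le (Q_cont i).continuousOn hv1
      rw [huniq w ⟨hw, (h.tr hi hx w).2 hv2⟩]
  · rintro ⟨n, hn, v, ⟨hv1, hv2⟩, huniq⟩
    rw [← Q_add_int] at hn hv1
    have hst : s < t + n * 40353264 := by
      by_contra hc
      exact absurd (Q_mono i (not_lt.1 hc)) (not_le.2 hn)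
    obtain ⟨u, hu, rfl⟩ := intermediate_value_Icc hst.le (Q_cont i).continuousOn hv1
    refine ⟨n, hst, u, ⟨hu, (h.tr hi hx u).2 hv2⟩, ?_⟩
    rintro w ⟨hw1, hw2⟩
    have := huniq (Q i w) ⟨⟨Q_mono i hw1.1, by rw [← Q_add_int]; exact Q_mono i hw1.2⟩,
      (h.tr hi hx w).1 hw2⟩
    exact Q_inj_of_inO (h.tr_inj hi hx hw2) this

theorem Lam.NX_left (h : Lam Γ F) (h1 : SA Γ x s s') (h2 : NX Γ x s' t) : NX Γ x s t := by
  obtain ⟨m, hm⟩ := h1
  obtain ⟨n, hn, u, ⟨⟨hu1, hu2⟩, hu3⟩, huniq⟩ := h2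
  have hu3' : Γ (u + m * 40353264) = Γ x := by rw [h.per_int, hu3]
  have e1 : s < u + m * 40353264 := by
    by_contra hc
    exact hm (u + m * 40353264) (by
      rw [mem_uIcc]; right; constructor <;> linarith) hu3'
  have e2 : u + m * 40353264 ≤ t + (n + m : ℤ) * 40353264 := by push_cast; linarith
  refine ⟨n + m, lt_of_lt_of_le e1 e2, u + m * 40353264, ⟨⟨e1.le, e2⟩, hu3'⟩, ?_⟩
  rintro w ⟨⟨hw1, hw2⟩, hw3⟩
  have hw4 : s' + m * 40353264 < w := by
    by_contra hc
    exact hm w (by rw [mem_uIcc]; left; constructor <;> linarith) hw3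
  have := huniq (w - m * 40353264) ⟨⟨by linarith, by push_cast at hw2; linarith⟩, by
    rw [← hw3, ← h.per_int (w - m * 40353264) m]; congr 1; ring⟩
  linarith

theorem Lam.NX_right (h : Lam Γ F) (h1 : NX Γ x s t) (h2 : SA Γ x t t') : NX Γ x s t' := by
  obtain ⟨m, hm⟩ := h2
  obtain ⟨n, hn, u, ⟨⟨hu1, hu2⟩, hu3⟩, huniq⟩ := h1
  have hm' : ∀ w ∈ uIcc (t + n * 40353264) (t' + (n + m : ℤ) * 40353264), Γ w ≠ Γ x := by
    intro w hw hwx
    refine hm (w - n * 40353264) ?_ ?_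
    · rw [mem_uIcc] at hw ⊢
      push_cast at hw
      rcases hw with hw | hw
      · left; constructor <;> linarith
      · right; constructor <;> linarith
    · rw [← hwx, ← h.per_int (w - n * 40353264) n]; congr 1; ring
  have e1 : u < t' + (n + m : ℤ) * 40353264 := by
    by_contra hc
    exact hm' u (by rw [mem_uIcc]; right; constructor <;> linarith) hu3
  refine ⟨n + m, lt_of_le_of_lt hu1 e1, u, ⟨⟨hu1, e1.le⟩, hu3⟩, ?_⟩
  rintro w ⟨⟨hw1, hw2⟩, hw3⟩
  have hw4 : w < t + n * 40353264 := by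
    by_contra hc
    exact hm' w (by rw [mem_uIcc]; left; constructor <;> linarith) hw3
  exact huniq w ⟨⟨hw1, hw4.le⟩, hw3⟩

end Pool.Agent.JB
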