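import Pool.Agent.Lib.MP_8ebc20_an.B.Mark

/-!
# Part B: arcs of the base classes
-/

set_option autoImplicit false

namespace Pool.Agent.JB

open Set

variable {Γ : ℝ → ℂ} {F : ℂ → ℂ} {x y s t u b z : ℝ} {c d c' d' : ℝ}

/-- `s` is in the arc `(c, d)` modulo the period -/
def inArc (c d s : ℝ) : Prop := ∃ n : ℤ, c < s + n * 40353264 ∧ s + n * 40353264 < d

theorem not_eqv_of_lt {a : ℝ} (h1 : a < u) (h2 : u < a + 40353264) : ¬ Eqv u a := by
  rintro ⟨n, hn⟩
  have h3 : (0 : ℝ) < n := by nlinarith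
  have h4 : (n : ℝ) < 1 := by nlinarith
  have h5 : 0 < n := by exact_mod_cast h3
  have h6 : n < 1 := by exact_mod_cast h4
  omega

theorem inArc_congr (h : Eqv s t) (hs : inArc c d s) : inArc c d t := by
  obtain ⟨m, hm⟩ := h
  obtain ⟨n, hn⟩ := hs
  exact ⟨n + m, by push_cast; linarith, by push_cast; linarith⟩

theorem inArc_shift (hs : inArc c d s) : inArc (c + 40353264) (d + 40353264) s := by
  obtain ⟨n, hn⟩ := hs
  exact ⟨n + 1, by push_cast; linarith, by push_cast; linarith⟩

theorem Lam.SA_of_arc (h : Lam Γ F) (he : ∀ u, c < u → u < d → Γ u ≠ Γ z) (hs : inArc c d s)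
    (ht : inArc c d t) : SA Γ z s t := by
  obtain ⟨n, hn1, hn2⟩ := hs
  obtain ⟨m, hm1, hm2⟩ := ht
  refine ⟨m - n, fun u hu => ?_⟩
  rw [← h.per_int u n]
  rw [mem_uIcc] at hu
  push_cast at hu
  apply he
  · rcases hu with hu | hu <;> linarith
  · rcases hu with hu | hu <;> linarith

theorem Lam.NX_of_arc (h : Lam Γ F) (he : ∀ u, c < u → u < d → Γ u ≠ Γ z)
    (he' : ∀ u, d < u → u < d' → Γ u ≠ Γ z) (hd : Γ d = Γ z) (hs : inArc c d s)
    (ht : inArc d d' t) : NX Γ z s t := by
  obtain ⟨n, hn1, hn2⟩ := hs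
  obtain ⟨m, hm1, hm2⟩ := ht
  refine ⟨m - n, by push_cast; linarith, d - n * 40353264, ⟨⟨by linarith, by push_cast; linarith⟩,
    ?_⟩, ?_⟩
  · rw [← h.per_int _ n, sub_add_cancel, hd]
  · rintro v ⟨⟨hv1, hv2⟩, hv3⟩
    push_cast at hv2
    have e : Γ (v + n * 40353264) = Γ z := by rw [h.per_int, hv3]
    rcases lt_trichotomy (v + n * 40353264) d with g | g | g
    · exact absurd e (he _ (by linarith) g)
    · linarith
    · exact absurd e (he' _ g (by linarith))

theorem Lam.not_SA_of_arc (h : Lam Γ F) (hc : Γ c = Γ z) (hd : Γ d = Γ z) (h1 : d ≤ c')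
    (h2 : d' ≤ c + 40353264) (hs : inArc c d s) (ht : inArc c' d' t) : ¬ SA Γ z s t := by
  rintro ⟨k, hk⟩
  obtain ⟨n, hn1, hn2⟩ := hs
  obtain ⟨m, hm1, hm2⟩ := ht
  rcases le_or_gt 0 (k + n - m) with h3 | h3
  · have h4 : (0 : ℝ) ≤ k + n - m := by exact_mod_cast h3
    refine hk (d - n * 40353264) ?_ ?_
    · rw [mem_uIcc]; left
      constructor <;> nlinarith
    · rw [← h.per_int _ n, sub_add_cancel, hd]
  · have h4 : (k : ℝ) + n - m ≤ -1 := by
      have : k + n - m ≤ -1 := by omega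
      exact_mod_cast this
    refine hk (c - n * 40353264) ?_ ?_
    · rw [mem_uIcc]; right
      constructor <;> nlinarith
    · rw [← h.per_int _ n, sub_add_cancel, hc]

theorem Lam.not_NX_of_arc (h : Lam Γ F) (hd : Γ d = Γ z) (hc' : Γ c' = Γ z) (h1 : d < c')
    (h2 : d' ≤ c + 40353264) (hs : inArc c d s) (ht : inArc c' d' t) : ¬ NX Γ z s t := by
  rintro ⟨k, hk, u, -, huniq⟩
  obtain ⟨n, hn1, hn2⟩ := hs
  obtain ⟨m, hm1, hm2⟩ := ht
  have h3 : 0 ≤ k + n - m := by
    by_contra hc
    have : k + n - m ≤ -1 := by omega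
    have h4 : (k : ℝ) + n - m ≤ -1 := by exact_mod_cast this
    nlinarith
  have h4 : (0 : ℝ) ≤ k + n - m := by exact_mod_cast h3
  have e1 := huniq (d - n * 40353264) ⟨⟨by nlinarith, by nlinarith⟩, by
    rw [← h.per_int _ n, sub_add_cancel, hd]⟩
  have e2 := huniq (c' - n * 40353264) ⟨⟨by nlinarith, by nlinarith⟩, by
    rw [← h.per_int _ n, sub_add_cancel, hc']⟩
  linarith

/-- the arcs of `α` -/
theorem Lam.empA1 (h : Lam Γ F) : ∀ u : ℝ, 6961528 < u → u < 8377432 → Γ u ≠ Γ 6961528 := by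
  intro u h1 h2 h3
  rcases h.exactA h3 with g | g | g
  · exact not_eqv_of_lt h1 (by linarith) g
  · exact not_eqv_of_lt h2 (by linarith) g.symm
  · exact not_eqv_of_lt (a := u) (u := 18288760) (by linarith) (by linarith) g.symm

theorem Lam.empA2 (h : Lam Γ F) : ∀ u : ℝ, 8377432 < u → u < 18288760 → Γ u ≠ Γ 6961528 := by
  intro u h1 h2 h3
  rcases h.exactA h3 with g | g | g
  · exact not_eqv_of_lt (by linarith) (by linarith) g
  · exact not_eqv_of_lt h1 (by linarith) g
  · exact not_eqv_of_lt h2 (by linarith) g.symm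

theorem Lam.empA0 (h : Lam Γ F) : ∀ u : ℝ, 18288760 < u → u < 47314792 → Γ u ≠ Γ 6961528 := by
  intro u h1 h2 h3
  rcases h.exactA h3 with g | g | g
  · exact not_eqv_of_lt (by linarith) (by linarith) g
  · exact not_eqv_of_lt (by linarith) (by linarith) g
  · exact not_eqv_of_lt h1 (by linarith) g

theorem Lam.emp01 (h : Lam Γ F) : ∀ u : ℝ, 0 < u → u < 20176632 → Γ u ≠ Γ 0 := by
  intro u h1 h2 h3
  rcases h.exact0 h3 with g | g
  · exact not_eqv_of_lt h1 (by linarith) g
  · exact not_eqv_of_lt h2 (by linarith) g.symm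

theorem Lam.emp02 (h : Lam Γ F) : ∀ u : ℝ, 20176632 < u → u < 40353264 → Γ u ≠ Γ 0 := by
  intro u h1 h2 h3
  rcases h.exact0 h3 with g | g
  · exact not_eqv_of_lt (by linarith) (by linarith) g
  · exact not_eqv_of_lt h1 (by linarith) g

theorem Lam.perN (h : Lam Γ F) : Γ 40353264 = Γ 0 := by
  have := h.per 0
  rwa [zero_add] at this

theorem Lam.perA (h : Lam Γ F) : Γ 47314792 = Γ 6961528 := by
  have := h.per 6961528
  norm_num at this
  exact this

/-- index of the arc of `α` containing the integer `k`: `1, 2, 0`, or `9` in the class -/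
def arA (k : ℤ) : ℕ :=
  let r := (k - 6961528) % 40353264
  if r = 0 ∨ r = 1415904 ∨ r = 11327232 then 9
  else if r < 1415904 then 1 else if r < 11327232 then 2 else 0

/-- index of the arc of `0` containing the integer `k`: `0` (upper), `1` (lower), `9` in the class -/
def ar0 (k : ℤ) : ℕ :=
  let r := k % 40353264
  if r = 0 ∨ r = 20176632 then 9 else if r < 20176632 then 0 else 1

theorem arA_spec (k : ℤ) : (arA k = 1 → inArc 6961528 8377432 k) ∧
    (arA k = 2 → inArc 8377432 18288760 k) ∧ (arA k = 0 → inArc 18288760 47314792 k) ∧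
    (arA k = 9 → Eqv (k : ℝ) 6961528 ∨ Eqv (k : ℝ) 8377432 ∨ Eqv (k : ℝ) 18288760) ∧
    (arA k = 0 ∨ arA k = 1 ∨ arA k = 2 ∨ arA k = 9) := by
  have h1 := Int.emod_add_mul_ediv (k - 6961528) 40353264
  have h3 := Int.emod_nonneg (k - 6961528) (show (40353264 : ℤ) ≠ 0 by norm_num)
  have h4 := Int.emod_lt_of_pos (k - 6961528) (show (0 : ℤ) < 40353264 by norm_num)
  set r := (k - 6961528) % 40353264 with hr
  set m := (k - 6961528) / 40353264 with hm
  have hk : (k : ℝ) = 6961528 + r + m * 40353264 := by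
    have : k = 6961528 + r + m * 40353264 := by linarith
    exact_mod_cast this
  unfold arA
  rw [← hr]
  simp only
  split_ifs with c1 c2 c3
  · refine ⟨by simp, by simp, by simp, fun _ => ?_, by simp⟩
    rcases c1 with c1 | c1 | c1
    · exact Or.inl ⟨m, by rw [hk, c1]; push_cast; ring⟩
    · exact Or.inr (Or.inl ⟨m, by rw [hk, c1]; push_cast; ring⟩)
    · exact Or.inr (Or.inr ⟨m, by rw [hk, c1]; push_cast; ring⟩)
  · push Not at c1
    refine ⟨fun _ => ⟨-m, ?_, ?_⟩, by simp, by simp, by simp, by simp⟩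
    · have : (0 : ℝ) < r := by
        have : 0 < r := by omega
        exact_mod_cast this
      rw [hk]; push_cast; linarith
    · have : (r : ℝ) < 1415904 := by exact_mod_cast c2
      rw [hk]; push_cast; linarith
  · push Not at c1
    refine ⟨by simp, fun _ => ⟨-m, ?_, ?_⟩, by simp, by simp, by simp⟩
    · have : (1415904 : ℝ) < r := by
        have : 1415904 < r := by omega
        exact_mod_cast this
      rw [hk]; push_cast; linarith
    · have : (r : ℝ) < 11327232 := by exact_mod_cast c3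
      rw [hk]; push_cast; linarith
  · push Not at c1
    refine ⟨by simp, by simp, fun _ => ⟨-m, ?_, ?_⟩, by simp, by simp⟩
    · have : (11327232 : ℝ) < r := by
        have : 11327232 < r := by omega
        exact_mod_cast this
      rw [hk]; push_cast; linarith
    · have : (r : ℝ) < 40353264 := by exact_mod_cast h4
      rw [hk]; push_cast; linarith

theorem ar0_spec (k : ℤ) : (ar0 k = 0 → inArc 0 20176632 k) ∧
    (ar0 k = 1 → inArc 20176632 40353264 k) ∧
    (ar0 k = 9 → Eqv (k : ℝ) 0 ∨ Eqv (k : ℝ) 20176632) ∧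
    (ar0 k = 0 ∨ ar0 k = 1 ∨ ar0 k = 9) := by
  have h1 := Int.emod_add_mul_ediv k 40353264
  have h3 := Int.emod_nonneg k (show (40353264 : ℤ) ≠ 0 by norm_num)
  have h4 := Int.emod_lt_of_pos k (show (0 : ℤ) < 40353264 by norm_num)
  set r := k % 40353264 with hr
  set m := k / 40353264 with hm
  have hk : (k : ℝ) = r + m * 40353264 := by
    have : k = r + m * 40353264 := by linarith
    exact_mod_cast this
  unfold ar0
  rw [← hr]
  simp only
  split_ifs with c1 c2
  · refine ⟨by simp, by simp, fun _ => ?_, by simp⟩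
    rcases c1 with c1 | c1
    · exact Or.inl ⟨m, by rw [hk, c1]; push_cast; ring⟩
    · exact Or.inr ⟨m, by rw [hk, c1]; push_cast; ring⟩
  · push Not at c1
    refine ⟨fun _ => ⟨-m, ?_, ?_⟩, by simp, by simp, by simp⟩
    · have : (0 : ℝ) < r := by
        have : 0 < r := by omega
        exact_mod_cast this
      rw [hk]; push_cast; linarith
    · have : (r : ℝ) < 20176632 := by exact_mod_cast c2
      rw [hk]; push_cast; linarith
  · push Not at c1
    refine ⟨by simp, fun _ => ⟨-m, ?_, ?_⟩, by simp, by simp⟩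
    · have : (20176632 : ℝ) < r := by
        have : 20176632 < r := by omega
        exact_mod_cast this
      rw [hk]; push_cast; linarith
    · have : (r : ℝ) < 40353264 := by exact_mod_cast h4
      rw [hk]; push_cast; linarith

end Pool.Agent.JB
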