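import Pool.Agent.Lib.MP_8ebc20_an.B.StarL

/-!
# Part B: centres of clusters
-/

set_option autoImplicit false

namespace Pool.Agent.JB

open Set

variable {Γ : ℝ → ℂ} {F : ℂ → ℂ} {x y s t s' t' u b z m m' c c' v : ℝ} {i k : Fin 7}

/-- centres and main ends, other than `± α` and `0` -/
inductive Ctr (Γ : ℝ → ℂ) : ℝ → ℝ → Prop
  | a (i : Fin 7) (c m : ℝ) (hi : 3 < i.1) (hc : inO i c) (hm : inO i m) (hac : Av Γ c)
      (ham : Av Γ m) (hc' : Γ (Q i c) = Γ 6961528) (hm' : Γ (Q i m) = Γ 0) : Ctr Γ c m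
  | b (i : Fin 7) (c m : ℝ) (hi : i.1 < 3) (hc : inO i c) (hm : inO i m) (hac : Av Γ c)
      (ham : Av Γ m) (hc' : Γ (Q i c) = Γ 27138160) (hm' : Γ (Q i m) = Γ 0) : Ctr Γ c m
  | step (i : Fin 7) (c m : ℝ) (hc : inO i c) (hm : inO i m) (hac : Av Γ c)
      (ham : Av Γ m) (h : Ctr Γ (Q i c) (Q i m)) : Ctr Γ c m

theorem inO30 : inO 3 (0 : ℝ) := by
  have := inOB_spec (i := 3) (a := 0) (by decide +kernel)
  push_cast at this
  exact this

theorem Q30 : Q 3 (0 : ℝ) = 0 := by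
  have := Q_int 3 0
  rw [q30] at this
  push_cast at this
  exact this

theorem Lam.ctr_ne0 (h : Lam Γ F) (hc : Ctr Γ c m) : Γ m ≠ Γ 0 := by
  induction hc with
  | a i c m hi _ hm _ ham _ _ =>
    intro e
    have := inO_unique (h.tr_inj hm ham e.symm) inO30
    rw [this] at hi
    exact absurd hi (by decide)
  | b i c m hi _ hm _ ham _ _ =>
    intro e
    have := inO_unique (h.tr_inj hm ham e.symm) inO30
    rw [this] at hi
    exact absurd hi (by decide)
  | step i c m _ hm _ ham _ ih =>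
    intro e
    have h3 := inO_unique (h.tr_inj hm ham e.symm) inO30
    subst h3
    apply ih
    have := (h.tr hm ham 0).1 e.symm
    rw [← this, Q30]

theorem Lam.ctr_uniq (h : Lam Γ F) (hc : Ctr Γ c m) : ∀ c' m', Γ m = Γ m' → Ctr Γ c' m' →
    Γ c = Γ c' := by
  induction hc with
  | a i c m hi hc hm hac ham hc1 hm1 =>
    intro c' m' e h2
    cases h2 with
    | a j _ _ hj hc' hm' hac' ham' hc2 hm2 =>
      have hij : i = j := inO_unique (h.tr_inj hm ham e.symm) hm'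
      subst hij
      rw [h.tr hc' hac', hc1, hc2]
    | b j _ _ hj hc' hm' hac' ham' hc2 hm2 =>
      have hij : i = j := inO_unique (h.tr_inj hm ham e.symm) hm'
      subst hij
      omega
    | step j _ _ hc' hm' hac' ham' h3 =>
      have hij : i = j := inO_unique (h.tr_inj hm ham e.symm) hm'
      subst hij
      refine absurd ?_ (h.ctr_ne0 h3)
      rw [← (h.tr hm' ham' m).1 e, hm1]
  | b i c m hi hc hm hac ham hc1 hm1 =>
    intro c' m' e h2
    cases h2 with
    | a j _ _ hj hc' hm' hac' ham' hc2 hm2 =>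
      have hij : i = j := inO_unique (h.tr_inj hm ham e.symm) hm'
      subst hij
      omega
    | b j _ _ hj hc' hm' hac' ham' hc2 hm2 =>
      have hij : i = j := inO_unique (h.tr_inj hm ham e.symm) hm'
      subst hij
      rw [h.tr hc' hac', hc1, hc2]
    | step j _ _ hc' hm' hac' ham' h3 =>
      have hij : i = j := inO_unique (h.tr_inj hm ham e.symm) hm'
      subst hij
      refine absurd ?_ (h.ctr_ne0 h3)
      rw [← (h.tr hm' ham' m).1 e, hm1]
  | step i c m hc hm hac ham h1 ih =>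
    intro c' m' e h2
    cases h2 with
    | a j _ _ hj hc' hm' hac' ham' hc2 hm2 =>
      have hij : i = j := inO_unique (h.tr_inj hm ham e.symm) hm'
      subst hij
      refine absurd ?_ (h.ctr_ne0 h1)
      rw [(h.tr hm' ham' m).1 e, hm2]
    | b j _ _ hj hc' hm' hac' ham' hc2 hm2 =>
      have hij : i = j := inO_unique (h.tr_inj hm ham e.symm) hm'
      subst hij
      refine absurd ?_ (h.ctr_ne0 h1)
      rw [(h.tr hm' ham' m).1 e, hm2]
    | step j _ _ hc' hm' hac' ham' h3 =>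
      have hij : i = j := inO_unique (h.tr_inj hm ham e.symm) hm'
      subst hij
      rw [h.tr hc' hac']
      exact ih _ _ ((h.tr hm' ham' m).1 e) h3

/-- no mark is visible -/
def Bl (Γ : ℝ → ℂ) (c : ℝ) : Prop := ∀ m, IsM Γ m → ¬ Pi Γ c m

theorem Lam.Bl_Q (h : Lam Γ F) (hi : inO i c) (hb : Bl Γ c) : Bl Γ (Q i c) := by
  intro m hm hp
  obtain ⟨m', rfl, h1, h2, h3⟩ := h.lift_M i hm
  exact hb m' h3 (h.Pi_piece hi h1 hp)

theorem Lam.near_pi (h : Lam Γ F) (hn : Near Γ c v) (hp : Pi Γ v m)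
    (hv : ¬ (IsM Γ v ∨ IsT Γ v)) : Pi Γ c m := by
  intro x h1 h2
  have key : IsM Γ x ∨ IsT Γ x → Γ v ≠ Γ x := by
    intro hx e
    apply hv
    rcases hx with hx | hx
    · exact Or.inl (h.IsM_congr e.symm hx)
    · exact Or.inr (h.IsT_congr e.symm hx)
  constructor
  · intro hx
    have hvx := key (Or.inl hx)
    exact h.SAtrans (hn x h1 hvx (Or.inl hx)) ((hp x hvx h2).1 hx)
  · intro hx
    have hvx := key (Or.inr hx)
    have g := hn x h1 hvx (Or.inr hx)
    rcases (hp x hvx h2).2 hx with g' | g'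
    · exact Or.inl (h.SAtrans g g')
    · exact Or.inr (h.NX_left g g')

theorem Lam.V_not (h : Lam Γ F) (j : Fin 6) : ¬ (IsM Γ (V j) ∨ IsT Γ (V j)) :=
  fun hx => h.not_fx_V j (h.TM_fx hx)

theorem Aut.Two_iff {H : ℝ ≃o ℝ} (hH : Aut Γ H) : Two Γ (H s) ↔ Two Γ s := by
  constructor
  · rintro ⟨m₁, m₂, h1, h2, h3, h4, h5⟩
    refine ⟨H.symm m₁, H.symm m₂, ?_, ?_, ?_, ?_, ?_⟩
    · rw [← hH.IsM_iff, H.apply_symm_apply]; exact h1
    · rw [← hH.IsM_iff, H.apply_symm_apply]; exact h2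
    · rw [Ne, hH.rel, H.apply_symm_apply, H.apply_symm_apply]; exact h3
    · rw [← hH.Pi_iff, H.apply_symm_apply]; exact h4
    · rw [← hH.Pi_iff, H.apply_symm_apply]; exact h5
  · rintro ⟨m₁, m₂, h1, h2, h3, h4, h5⟩
    exact ⟨H m₁, H m₂, hH.IsM1 h1, hH.IsM1 h2, by rw [Ne, ← hH.rel]; exact h3, hH.Pi1 h4,
      hH.Pi1 h5⟩

theorem Aut.Bl_iff {H : ℝ ≃o ℝ} (hH : Aut Γ H) : Bl Γ (H s) ↔ Bl Γ s := by
  constructor
  · intro hb m hm hp
    exact hb (H m) (hH.IsM1 hm) (hH.Pi1 hp)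
  · intro hb m hm hp
    rw [← H.apply_symm_apply m, hH.IsM_iff] at hm
    rw [← H.apply_symm_apply m, hH.Pi_iff] at hp
    exact hb _ hm hp

theorem Lam.Bl_congr (h : Lam Γ F) (hst : Γ s = Γ t) (hb : Bl Γ s) : Bl Γ t :=
  fun m hm hp => hb m hm (h.Pi_congr hst.symm rfl hp)

theorem Lam.Two_not_Bl (_h : Lam Γ F) (ht : Two Γ s) : ¬ Bl Γ s := by
  obtain ⟨m₁, _, h1, _, _, h4, _⟩ := ht
  exact fun hb => hb m₁ h1 h4

theorem Lam.Pi_e0 (h : Lam Γ F) : Pi Γ 6759256 0 := by
  have := h.posF (a := 6759256) (b := 0) (by decide +kernel)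
  push_cast at this
  exact this

theorem Lam.e_not_Bl (h : Lam Γ F) : ¬ Bl Γ 6759256 := fun hb => hb 0 h.IsM_Z h.Pi_e0

/-- the mirror image of a statement of adjacency -/
theorem Lam.near_half (h : Lam Γ F) (hn : Near Γ s t) :
    Near Γ (s + 20176632) (t + 20176632) := by
  have := (h.hf_aut).Near1 hn
  exact this

theorem Lam.not_near_V (h : Lam Γ F) (hb : Bl Γ c) (hc : IsT Γ c) (hA : Γ c ≠ Γ 6961528)
    (hB : Γ c ≠ Γ 27138160) (j : Fin 6) : ¬ Near Γ c (V j) := by
  intro hn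
  have hv := h.V_not j
  have keyA : ∀ c, Bl Γ c → IsT Γ c → Γ c ≠ Γ 6961528 → ¬ Near Γ c 8373316 := by
    intro c hb hc hA hn
    have hn' : Near Γ ((8373316 : ℤ) : ℝ) c := by push_cast; exact h.Near_symm hn
    rcases h.sal (by decide) hc hn' with g | g | g
    · exact hA g
    · exact h.e_not_Bl (h.Bl_congr g hb)
    · exact h.Two_not_Bl g hb
  have hb' : Bl Γ (c + 20176632) := ((h.hf_aut).Bl_iff (s := c)).2 hb
  have hc' : IsT Γ (c + 20176632) := (h.hf_aut).IsT1 hc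
  have e27 : (27138160 : ℝ) = 6961528 + 20176632 := by norm_num
  have hA' : Γ (c + 20176632) ≠ Γ 6961528 := by
    intro e
    apply hB
    rw [e27, ← h.halfEq, e]
    exact h.congr ⟨-1, by norm_num⟩
  have p0 : Pi Γ 19935748 0 := by
    have := h.posF (a := 19935748) (b := 0) (by decide +kernel)
    push_cast at this
    exact this
  have p2 : Pi Γ 18495148 0 := by
    have := h.posF (a := 18495148) (b := 0) (by decide +kernel)
    push_cast at this
    exact this
  have hf0 : Γ (0 + 20176632) = Γ 0 := by rw [zero_add, h.fixz]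
  have p3 : Pi Γ 38671780 0 := by
    have := (h.hf_aut).Pi1 p2
    rw [hf_apply, hf_apply] at this
    refine h.Pi_congr ?_ hf0 this
    norm_num
  have p5 : Pi Γ 40112380 0 := by
    have := (h.hf_aut).Pi1 p0
    rw [hf_apply, hf_apply] at this
    refine h.Pi_congr ?_ hf0 this
    norm_num
  fin_cases j
  · exact hb 0 h.IsM_Z (h.near_pi hn (by simpa [V] using p0) hv)
  · exact keyA c hb hc hA (by simpa [V] using hn)
  · exact hb 0 h.IsM_Z (h.near_pi hn (by simpa [V] using p2) hv)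
  · exact hb 0 h.IsM_Z (h.near_pi hn (by simpa [V] using p3) hv)
  · have hn2 : Near Γ c 28549948 := by simpa [V] using hn
    have hn3 := h.near_half hn2
    refine keyA _ hb' hc' hA' (h.Near_congr rfl ?_ hn3)
    exact h.congr ⟨1, by norm_num⟩
  · exact hb 0 h.IsM_Z (h.near_pi hn (by simpa [V] using p5) hv)

theorem val_V (i k : Fin 7) (hik : i ≠ k) : ∃ j, val i k = V j := by
  unfold val
  split_ifs
  · exact ⟨_, rfl⟩
  · exact ⟨_, rfl⟩

end Pool.Agent.JB
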