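import Pool.Agent.Lib.MP_8ebc20_an.B.PiPos

/-!
# Part B: coinduction for `Pi` and `Near`, violations
-/

set_option autoImplicit false

namespace Pool.Agent.JB

open Set

variable {Γ : ℝ → ℂ} {F : ℂ → ℂ} {x y s t s' t' u b z : ℝ} {i : Fin 7}

/-- the symmetry -/
noncomputable def hf : ℝ ≃o ℝ := OrderIso.addRight 20176632

theorem hf_apply (x : ℝ) : hf x = x + 20176632 := rfl

theorem Lam.hf_aut (h : Lam Γ F) : Aut Γ hf := by
  constructor
  · intro x
    rw [hf_apply, hf_apply]; ring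
  · intro x y
    rw [hf_apply, hf_apply]
    exact h.halfEq.symm

theorem Aut.CP_iff {H : ℝ ≃o ℝ} (hH : Aut Γ H) : CP Γ (H x) (H s) (H t) ↔ CP Γ x s t := by
  unfold CP
  rw [hH.SA_iff, hH.NX_iff, hH.IsM_iff, hH.IsT_iff, Ne, Ne, Ne, Ne, ← hH.rel, ← hH.rel]

theorem Aut.CN_iff {H : ℝ ≃o ℝ} (hH : Aut Γ H) : CN Γ (H x) (H s) (H t) ↔ CN Γ x s t := by
  unfold CN
  rw [hH.SA_iff, hH.IsM_iff, hH.IsT_iff, Ne, Ne, Ne, Ne, ← hH.rel, ← hH.rel]

theorem Lam.powA (h : Lam Γ F) (n : ℕ) : Γ (7 ^ n * 6961528) = Γ 6961528 := by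
  induction n with
  | zero => simp
  | succ n ih => rw [← pow7, h.conjEq ih, h.fixa]

theorem Lam.pow0 (_h : Lam Γ F) (n : ℕ) : Γ (7 ^ n * 0) = Γ 0 := by simp

theorem Lam.A_ne_0 (h : Lam Γ F) : Γ 6961528 ≠ Γ 0 := by
  have := h.ne0 6961528 (by decide)
  push_cast at this
  exact this

theorem Lam.not_IsM_A (h : Lam Γ F) (hx : Γ x = Γ 6961528) : ¬ IsM Γ x := by
  intro hm
  obtain ⟨n, hn⟩ := h.IsM_ev hm
  rw [h.pow hx, h.powA] at hn
  exact h.A_ne_0 hn

def okSA (f : ℤ → ℕ) (a b : ℤ) : Bool := f a == 9 || (f b == 9 || f a == f b)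
def okNX (f : ℤ → ℕ) (a b : ℤ) : Bool := okSA f a b || (f b == (f a + 1) % 3)

theorem Lam.base0 (h : Lam Γ F) {a b : ℤ} (hp : okSA ar0 a b = true) (hx : Γ x = Γ 0) :
    CN Γ x a b := by
  intro h1 h2 _
  rw [hx] at h1 h2
  rw [SA_base hx]
  unfold okSA at hp
  simp only [Bool.or_eq_true, beq_iff_eq] at hp
  rcases hp with hp | hp | hp
  · exact absurd (h.eq0 a hp) h1
  · exact absurd (h.eq0 b hp) h2
  · exact h.sa0 (fun h9 => h1 (h.eq0 a h9)) hp

theorem Lam.baseAn (h : Lam Γ F) {a b : ℤ} (hp : okSA arA a b = true) (hx : Γ x = Γ 6961528) :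
    CN Γ x a b := by
  intro h1 h2 _
  rw [hx] at h1 h2
  rw [SA_base hx]
  unfold okSA at hp
  simp only [Bool.or_eq_true, beq_iff_eq] at hp
  rcases hp with hp | hp | hp
  · exact absurd (h.eqA a hp) h1
  · exact absurd (h.eqA b hp) h2
  · exact h.saA (fun h9 => h1 (h.eqA a h9)) hp

theorem Lam.baseA (h : Lam Γ F) {a b : ℤ} (hp : okNX arA a b = true) (hx : Γ x = Γ 6961528) :
    CP Γ x a b := by
  unfold okNX at hp
  rw [Bool.or_eq_true] at hp
  rcases hp with hp | hp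
  · exact (h.baseAn hp hx).cp
  · rw [beq_iff_eq] at hp
    intro h1 _
    rw [hx] at h1
    refine ⟨fun hm => absurd hm (h.not_IsM_A hx), fun _ => Or.inr ?_⟩
    rw [NX_base hx]
    exact h.nxA (fun h9 => h1 (h.eqA a h9)) hp

theorem Lam.baseB (h : Lam Γ F) {a b : ℤ} (hp : okNX arA (a - 20176632) (b - 20176632) = true)
    (hx : Γ x = Γ 27138160) : CP Γ x a b := by
  have hx' : Γ (x - 20176632) = Γ 6961528 := by
    rw [← h.halfEq]
    rw [sub_add_cancel, hx]
    norm_num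
  have := h.baseA hp hx'
  rw [← (h.hf_aut).CP_iff, hf_apply, hf_apply, hf_apply] at this
  push_cast at this
  simpa using this

theorem Lam.baseBn (h : Lam Γ F) {a b : ℤ} (hp : okSA arA (a - 20176632) (b - 20176632) = true)
    (hx : Γ x = Γ 27138160) : CN Γ x a b := by
  have hx' : Γ (x - 20176632) = Γ 6961528 := by
    rw [← h.halfEq]
    rw [sub_add_cancel, hx]
    norm_num
  have := h.baseAn hp hx'
  rw [← (h.hf_aut).CN_iff, hf_apply, hf_apply, hf_apply] at this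
  push_cast at this
  simpa using this

/-- base conditions for a pair of integers -/
def basePi (a b : ℤ) : Bool :=
  okSA ar0 a b && (okNX arA a b && okNX arA (a - 20176632) (b - 20176632))
def baseNe (a b : ℤ) : Bool :=
  okSA ar0 a b && (okSA arA a b && okSA arA (a - 20176632) (b - 20176632))

/-- closed under all `q i` -/
def closedL (S : List (ℤ × ℤ)) : Bool :=
  S.all fun p => (List.finRange 7).all fun i =>
    (q i p.1 % 40353264 == q i p.2 % 40353264) ||
      S.contains (q i p.1 % 40353264, q i p.2 % 40353264)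

theorem eqv_mod (k : ℤ) : Eqv ((k % 40353264 : ℤ) : ℝ) (k : ℝ) :=
  eqv_int (by omega)

theorem Lam.coind_aux (h : Lam Γ F) {S : List (ℤ × ℤ)} (hS : closedL S = true)
    {P : ℝ → ℝ → ℝ → Prop}
    (hQ : ∀ i x s t, inO i x → Av Γ x → (P x s t ↔ P (Q i x) (Q i s) (Q i t)))
    (hc : ∀ x s s' t t', Γ s = Γ s' → Γ t = Γ t' → P x s t → P x s' t')
    (hs : ∀ x s t, Γ s = Γ t → P x s t)
    (h0 : ∀ p ∈ S, ∀ x, (Γ x = Γ 0 ∨ Γ x = Γ 6961528 ∨ Γ x = Γ 27138160) → P x p.1 p.2)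
    (n : ℕ) : ∀ p ∈ S, ∀ x, Fx Γ x →
      (Γ (7 ^ n * x) = Γ 0 ∨ Γ (7 ^ n * x) = Γ 6961528 ∨ Γ (7 ^ n * x) = Γ 27138160) →
      P x p.1 p.2 := by
  induction n with
  | zero => intro p hp x _ hx; simp only [pow_zero, one_mul] at hx; exact h0 p hp x hx
  | succ n ih =>
    intro p hp x hfx hx
    have hav := h.fx_av hfx
    obtain ⟨i, hi⟩ := h.av_inO hav
    rw [hQ i x _ _ hi hav]
    have e1 : Γ (Q i x) = Γ (7 * x) := h.congr (Q_inP hi.inP)
    have hfx' : Fx Γ (Q i x) := h.fx_congr e1.symm (h.fx_seven.2 hfx)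
    have e2 : Γ (7 ^ n * Q i x) = Γ (7 ^ (n + 1) * x) := by
      rw [h.pow e1]; congr 1; ring
    rw [← e2] at hx
    unfold closedL at hS
    rw [List.all_eq_true] at hS
    have g := hS p hp
    rw [List.all_eq_true] at g
    have g := g i (List.mem_finRange i)
    rw [Bool.or_eq_true, beq_iff_eq, List.contains_iff_mem] at g
    rw [Q_int, Q_int]
    have c1 := h.congr (eqv_mod (q i p.1))
    have c2 := h.congr (eqv_mod (q i p.2))
    rcases g with g | g
    · apply hs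
      rw [← c1, ← c2, g]
    · exact hc _ _ _ _ _ c1 c2 (ih _ g _ hfx' hx)

theorem Lam.Pi_coind (h : Lam Γ F) {S : List (ℤ × ℤ)} (hS : closedL S = true)
    (hb : (S.all fun p => basePi p.1 p.2) = true) : ∀ p ∈ S, Pi Γ p.1 p.2 := by
  intro p hp x
  change CP Γ x _ _
  by_cases hx : IsM Γ x ∨ IsT Γ x
  · obtain ⟨n, hn⟩ := h.TM_ev hx
    refine h.coind_aux (P := CP Γ) hS (fun i x s t hi hav => h.CP_Q hi hav)
      (fun x s s' t t' h1 h2 => h.CP_congr h1 h2) (fun x s t h1 => (h.CN_same h1).cp) ?_ n p hp x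
      (h.TM_fx hx) hn
    intro p hp x hx
    rw [List.all_eq_true] at hb
    have := hb p hp
    unfold basePi at this
    rw [Bool.and_eq_true, Bool.and_eq_true] at this
    rcases hx with hx | hx | hx
    · exact (h.base0 this.1 hx).cp
    · exact h.baseA this.2.1 hx
    · exact h.baseB this.2.2 hx
  · exact h.CP_triv hx

theorem Lam.Near_coind (h : Lam Γ F) {S : List (ℤ × ℤ)} (hS : closedL S = true)
    (hb : (S.all fun p => baseNe p.1 p.2) = true) : ∀ p ∈ S, Near Γ p.1 p.2 := by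
  intro p hp x
  change CN Γ x _ _
  by_cases hx : IsM Γ x ∨ IsT Γ x
  · obtain ⟨n, hn⟩ := h.TM_ev hx
    refine h.coind_aux (P := CN Γ) hS (fun i x s t hi hav => h.CN_Q hi hav)
      (fun x s s' t t' h1 h2 => h.CN_congr h1 h2) (fun x s t h1 => h.CN_same h1) ?_ n p hp x
      (h.TM_fx hx) hn
    intro p hp x hx
    rw [List.all_eq_true] at hb
    have := hb p hp
    unfold baseNe at this
    rw [Bool.and_eq_true, Bool.and_eq_true] at this
    rcases hx with hx | hx | hx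
    · exact h.base0 this.1 hx
    · exact h.baseAn this.2.1 hx
    · exact h.baseBn this.2.2 hx
  · exact fun _ _ g => absurd g hx

/-! violations -/

def violA (a b : ℤ) : Bool := (!(arA a == 9)) && (!(arA b == 9) && (arA b == (arA a + 2) % 3))
def viol0 (a b : ℤ) : Bool := (ar0 a == 0 && ar0 b == 1) || (ar0 a == 1 && ar0 b == 0)
def viol (a b : ℤ) : Bool := viol0 a b || (violA a b || violA (a - 20176632) (b - 20176632))
def nPi (a b : ℤ) : Bool :=
  viol a b || (List.finRange 7).any fun i => viol (q i a) (q i b)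

theorem Lam.nPi0 (h : Lam Γ F) {a b : ℤ} (hv : viol0 a b = true) : ¬ Pi Γ a b := by
  intro hp
  unfold viol0 at hv
  simp only [Bool.or_eq_true, Bool.and_eq_true, beq_iff_eq] at hv
  rcases hv with ⟨h1, h2⟩ | ⟨h1, h2⟩
  · refine h.nsa0 h1 h2 ((hp 0 (h.ne0 a ?_) (h.ne0 b ?_)).1 h.IsM_Z)
    · rw [h1]; norm_num
    · rw [h2]; norm_num
  · refine h.nsa0 h2 h1 (h.SAsymm ((hp 0 (h.ne0 a ?_) (h.ne0 b ?_)).1 h.IsM_Z))
    · rw [h1]; norm_num
    · rw [h2]; norm_num

theorem Lam.nPiA (h : Lam Γ F) {a b : ℤ} (hv : violA a b = true) : ¬ Pi Γ a b := by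
  intro hp
  unfold violA at hv
  simp only [Bool.and_eq_true, beq_iff_eq, Bool.not_eq_true', beq_eq_false_iff_ne] at hv
  obtain ⟨h1, h2, h3⟩ := hv
  have h4 := h.n2A h1 h3
  rcases (hp 6961528 (h.neA a h1) (h.neA b h2)).2 h.IsT_A with g | g
  · exact h4.1 g
  · exact h4.2 g

theorem Lam.nPi_viol (h : Lam Γ F) {a b : ℤ} (hv : viol a b = true) : ¬ Pi Γ a b := by
  unfold viol at hv
  rw [Bool.or_eq_true, Bool.or_eq_true] at hv
  rcases hv with hv | hv | hv
  · exact h.nPi0 hv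
  · exact h.nPiA hv
  · intro hp
    refine h.nPiA hv ?_
    rw [← (h.hf_aut).Pi_iff, hf_apply, hf_apply]
    push_cast
    simpa using hp

theorem Lam.nPi_spec (h : Lam Γ F) {a b : ℤ} (hv : nPi a b = true) : ¬ Pi Γ a b := by
  unfold nPi at hv
  rw [Bool.or_eq_true] at hv
  rcases hv with hv | hv
  · exact h.nPi_viol hv
  · rw [List.any_eq_true] at hv
    obtain ⟨i, -, hi⟩ := hv
    intro hp
    have := h.Pi_Q hp i
    rw [Q_int, Q_int] at this
    exact h.nPi_viol hi this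

end Pool.Agent.JB
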