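import Pool.Agent.Lib.MP_8ebc20_an.B.ClsData

/-!
# Part B: states of real angles
-/

set_option autoImplicit false

namespace Pool.Agent.JB

open Set

variable {Γ : ℝ → ℂ} {F : ℂ → ℂ} {x y s t : ℝ} {p q r : ℕ}

/-- `x` is in the state `p` -/
def St (p : ℕ) (x : ℝ) : Prop :=
  ∃ n : ℤ, if p % 2 = 0 then x + n * 40353264 = lo p
    else (lo p : ℝ) < x + n * 40353264 ∧ x + n * 40353264 < hi p

theorem lo_hi (hp : p < 68) : lo p ≤ hi p ∧ hi p ≤ 40353264 ∧ lo p < 40353264 ∧
    (p % 2 = 0 → lo p = hi p) ∧ (p % 2 = 1 → lo p < hi p) := by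
  revert p
  decide +kernel

theorem exists_cell (f : ℕ → ℝ) (m : ℕ) (h0 : f 0 ≤ y) (h1 : y < f m) :
    ∃ i < m, f i ≤ y ∧ y < f (i + 1) := by
  induction m with
  | zero => exact absurd h1 (not_lt.2 h0)
  | succ m ih =>
    rcases lt_or_ge y (f m) with h | h
    · obtain ⟨i, hi, h2⟩ := ih h
      exact ⟨i, by omega, h2⟩
    · exact ⟨m, by omega, h, h1⟩

theorem exists_St (x : ℝ) : ∃ p < 68, St p x := by
  set m : ℤ := ⌊x / 40353264⌋ with hm
  have hm1 : (m : ℝ) * 40353264 ≤ x := by
    have := Int.floor_le (x / 40353264)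
    rw [← hm, le_div_iff₀ (by norm_num)] at this
    exact this
  have hm2 : x < (m + 1) * 40353264 := by
    have := Int.lt_floor_add_one (x / 40353264)
    rw [← hm, div_lt_iff₀ (by norm_num)] at this
    exact this
  have e0 : ((OL.getD 0 0 : ℕ) : ℝ) = 0 := by simp [OL]
  have e1 : ((OL.getD 34 0 : ℕ) : ℝ) = 40353264 := by simp [OL]
  obtain ⟨i, hi34, h1, h2⟩ := exists_cell (y := x - m * 40353264)
    (fun i => ((OL.getD i 0 : ℕ) : ℝ)) 34 (by simp only [e0]; linarith)
    (by simp only [e1]; linarith)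
  rcases eq_or_lt_of_le h1 with h | h
  · refine ⟨2 * i, by omega, -m, ?_⟩
    rw [if_pos (by omega)]
    unfold lo
    rw [show 2 * i / 2 = i by omega]
    push_cast
    linarith
  · refine ⟨2 * i + 1, by omega, -m, ?_⟩
    rw [if_neg (by omega)]
    unfold lo hi
    rw [show (2 * i + 1) / 2 = i by omega, if_neg (by omega)]
    push_cast
    constructor <;> linarith

/-- integer squeezed into `0, ..., 7` -/
theorem nat_of_int {a : ℤ} (h0 : (-1 : ℝ) < a) (h1 : (a : ℝ) < 8) : ∃ b : ℕ, b < 8 ∧ (b : ℤ) = a := by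
  have h2 : (-1 : ℤ) < a := by exact_mod_cast h0
  have h3 : a < 8 := by exact_mod_cast h1
  exact ⟨a.toNat, by omega, by omega⟩

theorem ovB_of (hp : p < 68) (hr : r < 68) {a : ℤ} {u : ℝ}
    (h1 : if p % 2 = 0 then u = 7 * lo p else (7 * lo p : ℝ) < u ∧ u < 7 * hi p)
    (h2 : if r % 2 = 0 then u = lo r + a * 40353264
      else (lo r : ℝ) + a * 40353264 < u ∧ u < hi r + a * 40353264) :
    ∃ b : ℕ, b < 8 ∧ (b : ℤ) = a ∧ ovB p r b = true := by
  obtain ⟨p1, p2, p3, p4, p5⟩ := lo_hi hp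
  obtain ⟨r1, r2, r3, r4, r5⟩ := lo_hi hr
  have p1' : (lo p : ℝ) ≤ hi p := by exact_mod_cast p1
  have p2' : (hi p : ℝ) ≤ 40353264 := by exact_mod_cast p2
  have p3' : (lo p : ℝ) < 40353264 := by exact_mod_cast p3
  have r1' : (lo r : ℝ) ≤ hi r := by exact_mod_cast r1
  have r2' : (hi r : ℝ) ≤ 40353264 := by exact_mod_cast r2
  have r3' : (lo r : ℝ) < 40353264 := by exact_mod_cast r3
  have p0 : (0 : ℝ) ≤ lo p := Nat.cast_nonneg _
  have r0 : (0 : ℝ) ≤ lo r := Nat.cast_nonneg _
  have hb : (-1 : ℝ) < a ∧ (a : ℝ) < 8 := by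
    split_ifs at h1 h2
    · constructor <;> nlinarith
    · constructor <;> nlinarith
    · constructor <;> nlinarith
    · constructor <;> nlinarith
  obtain ⟨b, hb1, hb2⟩ := nat_of_int hb.1 hb.2
  refine ⟨b, hb1, hb2, ?_⟩
  have hab : (a : ℝ) = (b : ℝ) := by rw [← hb2]; simp
  rw [hab] at h2
  unfold ovB
  split_ifs at h1 h2 ⊢ with c1 c2 c2
  · have : (7 * lo p : ℝ) = lo r + b * 40353264 := by rw [← h1, h2]
    have h3 : 7 * lo p = lo r + b * 40353264 := by exact_mod_cast this
    rw [h3]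
    exact Nat.beq_refl _
  · rw [Bool.and_eq_true, Nat.blt_eq, Nat.blt_eq]
    constructor
    · have : (lo r : ℝ) + b * 40353264 < 7 * lo p := by rw [← h1]; exact h2.1
      exact_mod_cast this
    · have : (7 * lo p : ℝ) < hi r + b * 40353264 := by rw [← h1]; exact h2.2
      exact_mod_cast this
  · rw [Bool.and_eq_true, Nat.blt_eq, Nat.blt_eq]
    constructor
    · have : (7 * lo p : ℝ) < lo r + b * 40353264 := by rw [← h2]; exact h1.1
      exact_mod_cast this
    · have : (lo r : ℝ) + b * 40353264 < 7 * hi p := by rw [← h2]; exact h1.2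
      exact_mod_cast this
  · rw [Bool.and_eq_true, Nat.blt_eq, Nat.blt_eq]
    constructor
    · have : (7 * lo p : ℝ) < hi r + b * 40353264 := lt_trans h1.1 h2.2
      exact_mod_cast this
    · have : (lo r : ℝ) + b * 40353264 < 7 * hi p := lt_trans h2.1 h1.2
      exact_mod_cast this

theorem St_ov (hp : p < 68) (hr : r < 68) {n m : ℤ}
    (h1 : if p % 2 = 0 then x + n * 40353264 = lo p
      else (lo p : ℝ) < x + n * 40353264 ∧ x + n * 40353264 < hi p)
    (h2 : if r % 2 = 0 then 7 * x + m * 40353264 = lo r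
      else (lo r : ℝ) < 7 * x + m * 40353264 ∧ 7 * x + m * 40353264 < hi r) :
    ∃ b : ℕ, b < 8 ∧ (b : ℤ) = 7 * n - m ∧ ovB p r b = true := by
  apply ovB_of hp hr (u := 7 * (x + n * 40353264))
  · split_ifs at h1 ⊢
    · rw [h1]
    · constructor <;> linarith [h1.1, h1.2]
  · push_cast
    split_ifs at h2 ⊢
    · linarith
    · constructor <;> linarith [h2.1, h2.2]

theorem St_run (hp : p < 68) (hr : r < 68) (h1 : St p x) (h2 : St r (7 * x)) :
    inRun p r = true := by
  obtain ⟨n, hn⟩ := h1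
  obtain ⟨m, hm⟩ := h2
  obtain ⟨b, hb, -, hov⟩ := St_ov hp hr hn hm
  have := chkRun_true
  unfold chkRun at this
  rw [List.all_eq_true] at this
  have := this p (List.mem_range.2 hp)
  rw [List.all_eq_true] at this
  have := this r (List.mem_range.2 hr)
  rw [Bool.or_eq_true, List.all_eq_true] at this
  rcases this with h | h
  · exact h
  · have := h b (List.mem_range.2 hb)
    rw [hov] at this
    simp at this

theorem ov_uni {i j a b : ℕ} (hi' : i < 34) (hj : j < 34) (ha : a < 8) (hab : a < b)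
    (h1 : ovB (2 * i + 1) (2 * j + 1) a = true) (h2 : ovB (2 * i + 1) (2 * j + 1) b = true) :
    False := by
  have h3 : ovB (2 * i + 1) (2 * j + 1) (a + 1) = true := by
    unfold ovB at h1 h2 ⊢
    rw [if_neg (by omega), if_neg (by omega)] at h1 h2 ⊢
    rw [Bool.and_eq_true, Nat.blt_eq, Nat.blt_eq] at h1 h2 ⊢
    constructor
    · have : (a + 1) * 40353264 = a * 40353264 + 40353264 := by ring
      omega
    · have : (a + 1) * 40353264 ≤ b * 40353264 := Nat.mul_le_mul_right _ hab
      omega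
  have := chkUni_true
  unfold chkUni at this
  rw [List.all_eq_true] at this
  have := this i (List.mem_range.2 hi')
  rw [List.all_eq_true] at this
  have := this j (List.mem_range.2 hj)
  rw [List.all_eq_true] at this
  have := this a (List.mem_range.2 ha)
  rw [h1, h3] at this
  simp at this

end Pool.Agent.JB
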