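import Pool.Agent.Lib.MP_8ebc20_an.B.ClsA

/-!
# Part B: pairs of angles of a class give records; escape from the diagonal
-/

set_option autoImplicit false

namespace Pool.Agent.JB

open Set

variable {Γ : ℝ → ℂ} {F : ℂ → ℂ} {x y s t : ℝ} {p q r : ℕ}

theorem Lam.halfInt (h : Lam Γ F) {a b : ℝ} (hab : Γ a = Γ b) {c d : ℝ} (hc : a + 20176632 = c)
    (hd : b + 20176632 = d) : Γ c = Γ d := by
  rw [← hc, ← hd]; exact h.half _ _ hab

theorem Lam.kcls_eq (h : Lam Γ F) : ∀ l ∈ kcls, ∀ p ∈ l, ∀ p' ∈ l,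
    Γ (lo p) = Γ (lo p') := by
  have a1 := h.al1
  have a2 := h.al2
  have o0 := h.om0
  have o1 := h.om1
  have o2 := h.om2
  have z := h.fixz
  have b1 := h.halfInt a1 (c := 28554064) (d := 27138160) (by norm_num) (by norm_num)
  have b2 := h.halfInt a2 (c := 38465392) (d := 27138160) (by norm_num) (by norm_num)
  have c0 := h.halfInt o0 (c := 26936476) (d := 38667076) (by norm_num) (by norm_num)
  have c1 := h.halfInt o1 (c := 27142276) (d := 28549948) (by norm_num) (by norm_num)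
  have c2 := h.halfInt o2 (c := 28582876) (d := 38436580) (by norm_num) (by norm_num)
  have n0 : ((lo 0 : ℕ) : ℝ) = 0 := by simp [lo, OL]
  have n34 : ((lo 34 : ℕ) : ℝ) = 20176632 := by simp [lo, OL]
  have n4 : ((lo 4 : ℕ) : ℝ) = 6759844 := by simp [lo, OL]
  have n26 : ((lo 26 : ℕ) : ℝ) = 18490444 := by simp [lo, OL]
  have n8 : ((lo 8 : ℕ) : ℝ) = 6961528 := by simp [lo, OL]
  have n14 : ((lo 14 : ℕ) : ℝ) = 8377432 := by simp [lo, OL]
  have n24 : ((lo 24 : ℕ) : ℝ) = 18288760 := by simp [lo, OL]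
  have n10 : ((lo 10 : ℕ) : ℝ) = 6965644 := by simp [lo, OL]
  have n12 : ((lo 12 : ℕ) : ℝ) = 8373316 := by simp [lo, OL]
  have n16 : ((lo 16 : ℕ) : ℝ) = 8406244 := by simp [lo, OL]
  have n22 : ((lo 22 : ℕ) : ℝ) = 18259948 := by simp [lo, OL]
  have n38 : ((lo 38 : ℕ) : ℝ) = 26936476 := by simp [lo, OL]
  have n60 : ((lo 60 : ℕ) : ℝ) = 38667076 := by simp [lo, OL]
  have n42 : ((lo 42 : ℕ) : ℝ) = 27138160 := by simp [lo, OL]
  have n48 : ((lo 48 : ℕ) : ℝ) = 28554064 := by simp [lo, OL]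
  have n58 : ((lo 58 : ℕ) : ℝ) = 38465392 := by simp [lo, OL]
  have n44 : ((lo 44 : ℕ) : ℝ) = 27142276 := by simp [lo, OL]
  have n46 : ((lo 46 : ℕ) : ℝ) = 28549948 := by simp [lo, OL]
  have n50 : ((lo 50 : ℕ) : ℝ) = 28582876 := by simp [lo, OL]
  have n56 : ((lo 56 : ℕ) : ℝ) = 38436580 := by simp [lo, OL]
  have key : ∀ l ∈ kcls, ∃ z : ℂ, ∀ p ∈ l, Γ (lo p) = z := by
    intro l hl
    simp only [kcls, List.mem_cons, List.not_mem_nil, or_false] at hl
    rcases hl with rfl | rfl | rfl | rfl | rfl | rfl | rfl | rfl | rfl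
    · refine ⟨Γ 0, fun p hp => ?_⟩
      simp only [List.mem_cons, List.not_mem_nil, or_false] at hp
      rcases hp with rfl | rfl
      · rw [n0]
      · rw [n34, z]
    · refine ⟨Γ 18490444, fun p hp => ?_⟩
      simp only [List.mem_cons, List.not_mem_nil, or_false] at hp
      rcases hp with rfl | rfl
      · rw [n4, o0]
      · rw [n26]
    · refine ⟨Γ 6961528, fun p hp => ?_⟩
      simp only [List.mem_cons, List.not_mem_nil, or_false] at hp
      rcases hp with rfl | rfl | rfl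
      · rw [n8]
      · rw [n14, a1]
      · rw [n24, a2]
    · refine ⟨Γ 8373316, fun p hp => ?_⟩
      simp only [List.mem_cons, List.not_mem_nil, or_false] at hp
      rcases hp with rfl | rfl
      · rw [n10, o1]
      · rw [n12]
    · refine ⟨Γ 18259948, fun p hp => ?_⟩
      simp only [List.mem_cons, List.not_mem_nil, or_false] at hp
      rcases hp with rfl | rfl
      · rw [n16, o2]
      · rw [n22]
    · refine ⟨Γ 38667076, fun p hp => ?_⟩
      simp only [List.mem_cons, List.not_mem_nil, or_false] at hp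
      rcases hp with rfl | rfl
      · rw [n38, c0]
      · rw [n60]
    · refine ⟨Γ 27138160, fun p hp => ?_⟩
      simp only [List.mem_cons, List.not_mem_nil, or_false] at hp
      rcases hp with rfl | rfl | rfl
      · rw [n42]
      · rw [n48, b1]
      · rw [n58, b2]
    · refine ⟨Γ 28549948, fun p hp => ?_⟩
      simp only [List.mem_cons, List.not_mem_nil, or_false] at hp
      rcases hp with rfl | rfl
      · rw [n44, c1]
      · rw [n46]
    · refine ⟨Γ 38436580, fun p hp => ?_⟩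
      simp only [List.mem_cons, List.not_mem_nil, or_false] at hp
      rcases hp with rfl | rfl
      · rw [n50, c2]
      · rw [n56]
  intro l hl p hp p' hp'
  obtain ⟨z, hz⟩ := key l hl
  rw [hz p hp, hz p' hp']

theorem kcls_even : ∀ l ∈ kcls, ∀ p ∈ l, p % 2 = 0 ∧ p < 68 := by decide

theorem partners_spec (p : ℕ) : partners p = [p] ∨ (partners p ∈ kcls ∧ p ∈ partners p) := by
  unfold partners
  cases hf : kcls.find? fun l => l.contains p with
  | none => left; simp
  | some l =>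
    right
    have h1 := List.mem_of_find?_eq_some hf
    have h2 : l.contains p = true :=
      List.find?_some (p := fun l : List ℕ => l.contains p) hf
    rw [Option.getD_some]
    exact ⟨h1, by simpa using h2⟩

theorem mem_partners (p : ℕ) : p ∈ partners p := by
  rcases partners_spec p with h | h
  · rw [h]; simp
  · exact h.2

theorem St_even (hp : p % 2 = 0) : St p x ↔ Eqv x (lo p) := by
  unfold St Eqv
  constructor
  · rintro ⟨n, hn⟩
    rw [if_pos hp] at hn
    exact ⟨-n, by push_cast; linarith⟩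
  · rintro ⟨n, hn⟩
    refine ⟨-n, ?_⟩
    rw [if_pos hp]
    push_cast
    linarith

theorem Lam.partner (h : Lam Γ F) (hp : St p x) {p' : ℕ} (hp' : p' ∈ partners p) :
    ∃ x', St p' x' ∧ Γ x' = Γ x := by
  rcases partners_spec p with h1 | ⟨h1, h2⟩
  · rw [h1] at hp'
    simp only [List.mem_singleton] at hp'
    exact ⟨x, by rw [hp']; exact hp, rfl⟩
  · have e1 := (kcls_even _ h1 _ h2).1
    have e2 := (kcls_even _ h1 _ hp').1
    refine ⟨lo p', (St_even e2).2 (Eqv.refl _), ?_⟩
    rw [h.kcls_eq _ h1 _ hp' _ h2]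
    exact (h.congr ((St_even e1).1 hp)).symm

theorem Lam.cutL_cut (h : Lam Γ F) : ∀ cd ∈ cutL, Cut Γ cd.1 cd.2 := by
  intro cd hcd
  have hX : Cut Γ 6960940 18490444 := h.cutX
  have hU : Cut Γ 2642164 19936420 := h.cutU
  have hW : Cut Γ 8612716 14377468 := h.cutW
  have hX' := h.cutHalf hX
  have hU' := h.cutHalf hU
  have hW' := h.cutHalf hW
  norm_num at hX' hU' hW'
  simp only [cutL, List.mem_cons, List.not_mem_nil, or_false] at hcd
  rcases hcd with rfl | rfl | rfl | rfl | rfl | rfl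
  · simpa using hX
  · simpa using hU
  · simpa using hW
  · simpa using hX'
  · simpa using hU'
  · simpa using hW'

theorem cutL_bd : ∀ cd ∈ cutL, cd.1 < cd.2 ∧ cd.2 < 40353264 := by decide

theorem inB_spec {c d : ℕ} (h : inB c d p = true) (hp : St p x) :
    ∃ n : ℤ, (c : ℝ) < x + n * 40353264 ∧ x + n * 40353264 < d := by
  obtain ⟨n, hn⟩ := hp
  refine ⟨n, ?_⟩
  unfold inB at h
  split_ifs at h hn
  · rw [Bool.and_eq_true, Nat.blt_eq, Nat.blt_eq] at h
    rw [hn]
    exact ⟨by exact_mod_cast h.1, by exact_mod_cast h.2⟩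
  · rw [Bool.and_eq_true, Nat.ble_eq, Nat.ble_eq] at h
    have h1 : (c : ℝ) ≤ lo p := by exact_mod_cast h.1
    have h2 : (hi p : ℝ) ≤ d := by exact_mod_cast h.2
    exact ⟨lt_of_le_of_lt h1 hn.1, lt_of_lt_of_le hn.2 h2⟩

theorem outB_spec {c d : ℕ} (hp' : p < 68) (hd : d < 40353264)
    (h : outB c d p = true) (hp : St p x) :
    ∃ n : ℤ, (d : ℝ) < x + n * 40353264 ∧ x + n * 40353264 < c + 40353264 := by
  obtain ⟨p1, p2, p3, p4, p5⟩ := lo_hi hp'
  have p2' : (hi p : ℝ) ≤ 40353264 := by exact_mod_cast p2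
  have p3' : (lo p : ℝ) < 40353264 := by exact_mod_cast p3
  have p0 : (0 : ℝ) ≤ lo p := Nat.cast_nonneg _
  have c0 : (0 : ℝ) ≤ c := Nat.cast_nonneg _
  have hd' : (d : ℝ) < 40353264 := by exact_mod_cast hd
  obtain ⟨n, hn⟩ := hp
  unfold outB at h
  split_ifs at h hn
  · rw [Bool.or_eq_true, Nat.blt_eq, Nat.blt_eq] at h
    rcases h with h | h
    · have h1 : (lo p : ℝ) < c := by exact_mod_cast h
      exact ⟨n + 1, by push_cast; linarith, by push_cast; linarith⟩
    · have h1 : (d : ℝ) < lo p := by exact_mod_cast h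
      exact ⟨n, by linarith, by linarith⟩
  · rw [Bool.or_eq_true, Nat.ble_eq, Nat.ble_eq] at h
    rcases h with h | h
    · have h1 : (hi p : ℝ) ≤ c := by exact_mod_cast h
      exact ⟨n + 1, by push_cast; linarith, by push_cast; linarith⟩
    · have h1 : (d : ℝ) ≤ lo p := by exact_mod_cast h
      exact ⟨n, by linarith, by linarith⟩

theorem Lam.excl (h : Lam Γ F) (hst : Γ s = Γ t) (hp : p < 68) (hq : q < 68)
    (h1 : St p s) (h2 : St q t) : exclB p q = false := by
  by_contra hc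
  rw [Bool.not_eq_false] at hc
  unfold exclB at hc
  rw [List.any_eq_true] at hc
  obtain ⟨p', hp', hc⟩ := hc
  rw [List.any_eq_true] at hc
  obtain ⟨q', hq', hc⟩ := hc
  rw [List.any_eq_true] at hc
  obtain ⟨cd, hcd, hc⟩ := hc
  obtain ⟨s', hs1, hs2⟩ := h.partner h1 hp'
  obtain ⟨t', ht1, ht2⟩ := h.partner h2 hq'
  have hst' : Γ s' = Γ t' := by rw [hs2, ht2, hst]
  have lt68 : ∀ p : ℕ, p < 68 → ∀ p' ∈ partners p, p' < 68 := by
    intro p hp p' hp'
    rcases partners_spec p with h3 | h3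
    · rw [h3] at hp'; simp only [List.mem_singleton] at hp'; omega
    · exact (kcls_even _ h3.1 _ hp').2
  have hcut := h.cutL_cut cd hcd
  have hbd := cutL_bd cd hcd
  rw [Bool.or_eq_true, Bool.and_eq_true, Bool.and_eq_true] at hc
  rcases hc with ⟨g1, g2⟩ | ⟨g1, g2⟩
  · obtain ⟨n, hn1, hn2⟩ := inB_spec g1 hs1
    obtain ⟨m, hm1, hm2⟩ := outB_spec (lt68 q hq q' hq') hbd.2 g2 ht1
    exact h.cut_int hcut hst' hn1 hn2 hm1 hm2
  · obtain ⟨n, hn1, hn2⟩ := inB_spec g2 ht1
    obtain ⟨m, hm1, hm2⟩ := outB_spec (lt68 p hp p' hp') hbd.2 g1 hs1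
    exact h.cut_int hcut hst'.symm hn1 hn2 hm1 hm2

theorem Lam.record (h : Lam Γ F) (hst : Γ s = Γ t) (hne : ¬ Eqv s t) (hp : p < 68) (hq : q < 68)
    (h1 : St p s) (h2 : St q t) (hpq : p ≠ q) : ∃ e ∈ tbl.getD p [], e.1 = q := by
  have := chkExcl_true
  unfold chkExcl at this
  rw [List.all_eq_true] at this
  have := this p (List.mem_range.2 hp)
  rw [List.all_eq_true] at this
  have := this q (List.mem_range.2 hq)
  rw [Bool.or_eq_true, Bool.or_eq_true, Bool.or_eq_true] at this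
  rcases this with ((g | g) | g) | g
  · exact absurd (Nat.eq_of_beq_eq_true g) hpq
  · unfold rec? at g
    rw [Option.isSome_iff_exists] at g
    obtain ⟨e, he⟩ := g
    have h3 : Nat.beq e.1 q = true :=
      List.find?_some (p := fun e : ℕ × ℕ × ℕ × ℕ × ℕ => Nat.beq e.1 q) he
    exact ⟨e, List.mem_of_find?_eq_some he, Nat.eq_of_beq_eq_true h3⟩
  · rw [h.excl hst hp hq h1 h2] at g
    exact absurd g (by simp)
  · exfalso
    unfold injB at g
    rw [Bool.and_eq_true, Bool.and_eq_true] at g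
    have g1 := Nat.eq_of_beq_eq_true g.1.1
    have g2 := Nat.eq_of_beq_eq_true g.1.2
    have g3 := Nat.eq_of_beq_eq_true g.2
    apply hne
    apply h.inj s t hst
    have e1 := ((St_even g1).1 h1).seven
    have e2 := ((St_even g2).1 h2).seven
    refine (e1.trans ?_).trans e2.symm
    have : ((((7 * lo p : ℕ) : ℤ) - ((7 * lo q : ℕ) : ℤ)) % 40353264 = 0) := by omega
    have := eqv_int this
    push_cast at this
    exact this

theorem Lam.inj_pow (h : Lam Γ F) (hst : Γ s = Γ t) (n : ℕ) (he : Eqv (7 ^ n * s) (7 ^ n * t)) :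
    Eqv s t := by
  induction n with
  | zero => simpa using he
  | succ n ih =>
    apply ih
    apply h.inj _ _ (h.pow hst n)
    rw [← mul_assoc, ← mul_assoc, ← pow_succ']
    exact he

end Pool.Agent.JB
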