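import Pool.Agent.Lib.MP_8ebc20_an.B.ClsB

/-!
# Part B: classification of the nontrivial classes
-/

set_option autoImplicit false

namespace Pool.Agent.JB

open Set

variable {Γ : ℝ → ℂ} {F : ℂ → ℂ} {x y s t : ℝ} {p q r : ℕ}

theorem grow {d : ℕ → ℝ} {C : ℝ} (h1 : ∀ n, d (n + 1) = 7 * d n) (h2 : ∀ n, |d n| < C) :
    d 0 = 0 := by
  by_contra hc
  have h3 : ∀ n, |d n| = 7 ^ n * |d 0| := by
    intro n
    induction n with
    | zero => simp
    | succ n ih => rw [h1, abs_mul, ih, pow_succ]; norm_num; ring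
  have h0 : 0 < |d 0| := abs_pos.2 hc
  obtain ⟨n, hn⟩ := pow_unbounded_of_one_lt (C / |d 0|) (show (1 : ℝ) < 7 by norm_num)
  rw [div_lt_iff₀ h0] at hn
  have := h2 n
  rw [h3 n] at this
  linarith

theorem pow7 (n : ℕ) (s : ℝ) : 7 * (7 ^ n * s) = 7 ^ (n + 1) * s := by ring

theorem Lam.offdiag (h : Lam Γ F) (hst : Γ s = Γ t) (hne : ¬ Eqv s t) :
    ∃ n : ℕ, ∀ p < 68, St p (7 ^ n * s) → ¬ St p (7 ^ n * t) := by
  by_contra hc
  push Not at hc
  choose P hP hPs hPt using hc
  have hodd : ∀ n, ¬ (P n % 2 = 0) := by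
    intro n hn
    exact hne (h.inj_pow hst n (((St_even hn).1 (hPs n)).trans ((St_even hn).1 (hPt n)).symm))
  choose a ha using hPs
  choose b hb using hPt
  have key := grow (d := fun n => (7 ^ n * s + a n * 40353264) - (7 ^ n * t + b n * 40353264))
    (C := 40353264) ?_ ?_
  · apply hne
    refine ⟨b 0 - a 0, ?_⟩
    simp only [pow_zero, one_mul] at key
    push_cast
    linarith
  · intro n
    have a1 := ha (n + 1)
    have b1 := hb (n + 1)
    rw [← pow7] at a1 b1
    obtain ⟨k, hk, hk1, hk2⟩ := St_ov (hP n) (hP (n + 1)) (ha n) a1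
    obtain ⟨l, hl, hl1, hl2⟩ := St_ov (hP n) (hP (n + 1)) (hb n) b1
    have e1 : P n = 2 * (P n / 2) + 1 := by have := hodd n; omega
    have e2 : P (n + 1) = 2 * (P (n + 1) / 2) + 1 := by have := hodd (n + 1); omega
    have hkl : k = l := by
      rw [e1, e2] at hk2 hl2
      have f1 := hP n
      have f2 := hP (n + 1)
      rcases lt_trichotomy k l with h1 | h1 | h1
      · exact absurd (ov_uni (by omega) (by omega) hk h1 hk2 hl2) (by simp)
      · exact h1
      · exact absurd (ov_uni (by omega) (by omega) hl h1 hl2 hk2) (by simp)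
    have hk1' : ((k : ℕ) : ℝ) = 7 * a n - a (n + 1) := by exact_mod_cast hk1
    have hl1' : ((l : ℕ) : ℝ) = 7 * b n - b (n + 1) := by exact_mod_cast hl1
    rw [hkl] at hk1'
    rw [← pow7, ← pow7]
    linarith
  · intro n
    have a1 := ha n
    have b1 := hb n
    rw [if_neg (hodd n)] at a1 b1
    obtain ⟨p1, p2, p3, p4, p5⟩ := lo_hi (hP n)
    have p2' : (hi (P n) : ℝ) ≤ 40353264 := by exact_mod_cast p2
    have p0 : (0 : ℝ) ≤ lo (P n) := Nat.cast_nonneg _
    rw [abs_lt]
    constructor <;> linarith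

/-- one step of the graph of pairs -/
theorem chkStep_spec {e e' : ℕ × ℕ × ℕ × ℕ × ℕ} (hp : p < 68) (he : e ∈ tbl.getD p [])
    (hr : r < 68) (h1 : inRun p r = true) (he' : e' ∈ tbl.getD r [])
    (h2 : inRun e.1 e'.1 = true) :
    e'.2.1 < e.2.1 ∨ (e'.2.1 = e.2.1 ∧ r = e.2.2.1 ∧ e'.1 = e.2.2.2.1 ∧ r % 2 = p % 2 ∧
      (p % 2 = 0 ∨ (7 * e.2.2.2.2) % 40353264 = e'.2.2.2.2)) := by
  have := chkStep_true
  unfold chkStep at this
  rw [List.all_eq_true] at this
  have := this p (List.mem_range.2 hp)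
  rw [List.all_eq_true] at this
  have := this e he
  rw [List.all_eq_true] at this
  have := this r (List.mem_range.2 hr)
  rw [h1] at this
  simp only [Bool.not_true, Bool.false_or, Bool.and_eq_true] at this
  have := this.2
  rw [List.all_eq_true] at this
  have := this e' he'
  rw [h2] at this
  simp only [Bool.not_true, Bool.false_or, Bool.or_eq_true, Bool.and_eq_true, Nat.blt_eq] at this
  rcases this with g | ⟨⟨⟨⟨g1, g2⟩, g3⟩, g4⟩, g5⟩
  · exact Or.inl g
  · refine Or.inr ⟨Nat.eq_of_beq_eq_true g1, Nat.eq_of_beq_eq_true g2, Nat.eq_of_beq_eq_true g3,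
      Nat.eq_of_beq_eq_true g4, ?_⟩
    rcases g5 with g | g
    · exact Or.inl (Nat.eq_of_beq_eq_true g)
    · exact Or.inr (Nat.eq_of_beq_eq_true g)

theorem chkStep_odd {e : ℕ × ℕ × ℕ × ℕ × ℕ} (hp : p < 68) (he : e ∈ tbl.getD p [])
    (hr : r < 68) (h1 : inRun p r = true) (h2 : inRun e.1 r = true) : r % 2 = 0 := by
  have := chkStep_true
  unfold chkStep at this
  rw [List.all_eq_true] at this
  have := this p (List.mem_range.2 hp)
  rw [List.all_eq_true] at this
  have := this e he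
  rw [List.all_eq_true] at this
  have := this r (List.mem_range.2 hr)
  rw [h1, h2] at this
  simp only [Bool.not_true, Bool.false_or, Bool.and_eq_true, Bool.or_false] at this
  exact Nat.eq_of_beq_eq_true this.1

theorem Lam.off_step (h : Lam Γ F) (hst : Γ s = Γ t) (hne : ¬ Eqv s t)
    (hp : p < 68) (hq : q < 68) (h1 : St p s) (h2 : St q t) (hpq : p ≠ q) (hr : r < 68)
    (h3 : St r (7 * s)) : ¬ St r (7 * t) := by
  intro h4
  obtain ⟨e, he, heq⟩ := h.record hst hne hp hq h1 h2 hpq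
  have g1 := St_run hp hr h1 h3
  have g2 := St_run hq hr h2 h4
  rw [← heq] at g2
  have g3 := chkStep_odd hp he hr g1 g2
  exact hne (h.inj _ _ hst (((St_even g3).1 h3).trans ((St_even g3).1 h4).symm))

theorem Lam.evEven (h : Lam Γ F) (hst : Γ s = Γ t) (hne : ¬ Eqv s t) {P Q : ℕ → ℕ}
    (hP : ∀ n, P n < 68) (hPs : ∀ n, St (P n) (7 ^ n * s))
    (hQ : ∀ n, Q n < 68) (hQt : ∀ n, St (Q n) (7 ^ n * t)) (hoff : ∀ n, P n ≠ Q n) :
    ∃ n₁, ∀ n ≥ n₁, P n % 2 = 0 ∧ ∃ e ∈ tbl.getD (P n) [], e.1 = Q n ∧ e.2.2.1 ≠ 99 := by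
  have hrec : ∀ n, ∃ e ∈ tbl.getD (P n) [], e.1 = Q n := fun n =>
    h.record (h.pow hst n) (fun he => hne (h.inj_pow hst n he)) (hP n) (hQ n) (hPs n) (hQt n)
      (hoff n)
  choose e he heq using hrec
  have step : ∀ n, (e (n + 1)).2.1 < (e n).2.1 ∨ ((e (n + 1)).2.1 = (e n).2.1 ∧
      P (n + 1) = (e n).2.2.1 ∧ (e (n + 1)).1 = (e n).2.2.2.1 ∧ P (n + 1) % 2 = P n % 2 ∧
      (P n % 2 = 0 ∨ (7 * (e n).2.2.2.2) % 40353264 = (e (n + 1)).2.2.2.2)) := by
    intro n
    refine chkStep_spec (hP n) (he n) (hP (n + 1)) ?_ (he (n + 1)) ?_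
    · refine St_run (hP n) (hP (n + 1)) (hPs n) ?_
      rw [pow7]; exact hPs (n + 1)
    · rw [heq, heq]
      refine St_run (hQ n) (hQ (n + 1)) (hQt n) ?_
      rw [pow7]; exact hQt (n + 1)
  have hanti : Antitone fun n => (e n).2.1 := by
    apply antitone_nat_of_succ_le
    intro n
    rcases step n with g | g
    · exact g.le
    · exact g.1.le
  obtain ⟨n₁, hn₁⟩ : ∃ n₁, ∀ n, (e n₁).2.1 ≤ (e n).2.1 := by
    classical
    have hex : ∃ k, ∃ n, (e n).2.1 = k := ⟨_, 0, rfl⟩
    obtain ⟨n₁, hn₁⟩ := Nat.find_spec hex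
    exact ⟨n₁, fun n => by rw [hn₁]; exact Nat.find_min' hex ⟨n, rfl⟩⟩
  have step2 : ∀ n ≥ n₁, P (n + 1) = (e n).2.2.1 ∧ P (n + 1) % 2 = P n % 2 ∧
      (P n % 2 = 0 ∨ (7 * (e n).2.2.2.2) % 40353264 = (e (n + 1)).2.2.2.2) := by
    intro n hn
    rcases step n with g | g
    · have g1 : (e n).2.1 ≤ (e n₁).2.1 := hanti hn
      have g2 := hn₁ (n + 1)
      omega
    · exact ⟨g.2.1, g.2.2.2.1, g.2.2.2.2⟩
  have cp : ∀ n ≥ n₁, (e n).2.2.1 ≠ 99 := by
    intro n hn
    rw [← (step2 n hn).1]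
    have := hP (n + 1)
    omega
  by_cases hpar : P n₁ % 2 = 0
  · refine ⟨n₁, fun n hn => ⟨?_, e n, he n, heq n, cp n hn⟩⟩
    induction n, hn using Nat.le_induction with
    | base => exact hpar
    | succ n hn ih => rw [(step2 n hn).2.1]; exact ih
  · exfalso
    have hpar2 : ∀ n ≥ n₁, ¬ P n % 2 = 0 := by
      intro n hn
      induction n, hn using Nat.le_induction with
      | base => exact hpar
      | succ n hn ih => rw [(step2 n hn).2.1]; exact ih
    -- distance to the reference point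
    have hD : ∀ n ≥ n₁, ∃ D : ℝ, D ≠ 0 ∧ 14 * |D| < 40353264 ∧
        Eqv D (7 ^ n * s - ((e n).2.2.2.2 : ℕ)) := by
      intro n hn
      obtain ⟨a, ha⟩ := hPs n
      rw [if_neg (hpar2 n hn)] at ha
      have g := chkRef_true
      unfold chkRef at g
      rw [List.all_eq_true] at g
      have g := g (P n) (List.mem_range.2 (hP n))
      rw [List.all_eq_true] at g
      have g := g (e n) (he n)
      rw [Bool.or_eq_true, Bool.or_eq_true, Bool.and_eq_true, Bool.or_eq_true, Nat.blt_eq] at g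
      rcases g with (g | g) | ⟨g1, g2⟩
      · exact absurd (Nat.eq_of_beq_eq_true g) (hpar2 n hn)
      · exact absurd (Nat.eq_of_beq_eq_true g) (cp n hn)
      · have g3 : (14 : ℝ) * (hi (P n) - lo (P n)) < 40353264 := by
          have h5 := (lo_hi (hP n)).1
          have : ((14 * (hi (P n) - lo (P n)) : ℕ) : ℝ) < 40353264 := by exact_mod_cast g2
          rw [Nat.cast_mul, Nat.cast_sub h5] at this
          exact_mod_cast this
        rcases g1 with g1 | g1
        · have g4 : (e n).2.2.2.2 = lo (P n) := by simpa using Nat.eq_of_beq_eq_true g1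
          refine ⟨7 ^ n * s + a * 40353264 - lo (P n), by linarith [ha.1], ?_, a, ?_⟩
          · rw [abs_of_pos (by linarith [ha.1])]; linarith [ha.2]
          · rw [g4]; ring
        · have g4 : (e n).2.2.2.2 = hi (P n) % 40353264 := Nat.eq_of_beq_eq_true g1
          obtain ⟨k, hk⟩ : ∃ k : ℕ, hi (P n) % 40353264 + 40353264 * k = hi (P n) :=
            ⟨_, Nat.mod_add_div _ _⟩
          rw [← g4] at hk
          have h6 : ((e n).2.2.2.2 : ℝ) + 40353264 * (k : ℝ) = hi (P n) := by exact_mod_cast hk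
          refine ⟨7 ^ n * s + a * 40353264 - hi (P n), by linarith [ha.2], ?_,
            a - (k : ℤ), ?_⟩
          · rw [abs_of_neg (by linarith [ha.2])]; linarith [ha.1]
          · push_cast
            linarith
    have hD' : ∀ n, ∃ D : ℝ, D ≠ 0 ∧ 14 * |D| < 40353264 ∧
        Eqv D (7 ^ (n₁ + n) * s - ((e (n₁ + n)).2.2.2.2 : ℕ)) := fun n => hD _ (by omega)
    choose D hD1 hD2 hD3 using hD'
    refine hD1 0 (grow (d := D) (C := 40353264) (fun n => ?_) (fun n => ?_))
    · have g5 : Eqv (D (n + 1)) (7 * D n) := by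
        refine (hD3 (n + 1)).trans (Eqv.trans ?_ (hD3 n).seven.symm)
        obtain ⟨-, -, g⟩ := step2 (n₁ + n) (by omega)
        rcases g with g | g
        · exact absurd g (hpar2 _ (by omega))
        · obtain ⟨k, hk⟩ : ∃ k : ℕ, (7 * (e (n₁ + n)).2.2.2.2) % 40353264 + 40353264 * k =
              7 * (e (n₁ + n)).2.2.2.2 := ⟨_, Nat.mod_add_div _ _⟩
          rw [g] at hk
          have h6 : ((e (n₁ + n + 1)).2.2.2.2 : ℝ) + 40353264 * (k : ℝ) =
              7 * (e (n₁ + n)).2.2.2.2 := by exact_mod_cast hk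
          refine ⟨(k : ℤ), ?_⟩
          rw [← add_assoc, ← pow7]
          push_cast
          linarith
      obtain ⟨k, hk⟩ := g5
      have b1 := hD2 n
      have b2 := hD2 (n + 1)
      have b3 := abs_lt.1 (show |D n| < 40353264 / 14 by linarith)
      have b4 := abs_lt.1 (show |D (n + 1)| < 40353264 / 14 by linarith)
      have hk0 : k = 0 := by
        have h7 : (k : ℝ) < 1 := by nlinarith
        have h8 : (-1 : ℝ) < k := by nlinarith
        have h9 : k < 1 := by exact_mod_cast h7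
        have h10 : -1 < k := by exact_mod_cast h8
        omega
      rw [hk0] at hk
      push_cast at hk
      linarith
    · have b1 := hD2 n
      have := abs_nonneg (D n)
      linarith

/-- CLASSIFICATION: two angles of one class are eventually in a known class -/
theorem Lam.classify (h : Lam Γ F) (hst : Γ s = Γ t) (hne : ¬ Eqv s t) :
    ∃ (n : ℕ) (p q : ℕ), p < 68 ∧ q < 68 ∧ p ≠ q ∧ p % 2 = 0 ∧ q % 2 = 0 ∧ q ∈ partners p ∧
      Eqv (7 ^ n * s) (lo p) ∧ Eqv (7 ^ n * t) (lo q) := by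
  obtain ⟨n₀, hn₀⟩ := h.offdiag hst hne
  have hst' := h.pow hst n₀
  have hne' : ¬ Eqv (7 ^ n₀ * s) (7 ^ n₀ * t) := fun he => hne (h.inj_pow hst n₀ he)
  have hex : ∀ n, ∃ p < 68, St p (7 ^ n * (7 ^ n₀ * s)) := fun n => exists_St _
  have hex' : ∀ n, ∃ p < 68, St p (7 ^ n * (7 ^ n₀ * t)) := fun n => exists_St _
  choose P hP hPs using hex
  choose Q hQ hQt using hex'
  have hoff : ∀ n, P n ≠ Q n := by
    intro n
    induction n with
    | zero =>
      intro he
      have h1 := hPs 0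
      have h2 := hQt 0
      rw [pow_zero, one_mul] at h1 h2
      rw [← he] at h2
      exact hn₀ _ (hP 0) h1 h2
    | succ n ih =>
      intro he
      have h1 := hPs (n + 1)
      have h2 := hQt (n + 1)
      rw [← pow7] at h1 h2
      rw [← he] at h2
      exact h.off_step (h.pow hst' n) (fun he => hne' (h.inj_pow hst' n he)) (hP n) (hQ n)
        (hPs n) (hQt n) ih (hP (n + 1)) h1 h2
  obtain ⟨n₁, hn₁⟩ := h.evEven hst' hne' hP hPs hQ hQt hoff
  obtain ⟨n₂, hn₂⟩ := h.evEven hst'.symm (fun he => hne' he.symm) hQ hQt hP hPs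
    (fun n => (hoff n).symm)
  set n := max n₁ n₂ with hn
  obtain ⟨e1, e, he1, he2, he3⟩ := hn₁ n (le_max_left _ _)
  obtain ⟨e2, -⟩ := hn₂ n (le_max_right _ _)
  refine ⟨n + n₀, P n, Q n, hP n, hQ n, hoff n, e1, e2, ?_, ?_, ?_⟩
  · have g := chkKnown_true
    unfold chkKnown at g
    rw [List.all_eq_true] at g
    have g := g (P n) (List.mem_range.2 (hP n))
    rw [List.all_eq_true] at g
    have g := g e he1
    rw [Bool.or_eq_true, Bool.or_eq_true, Bool.or_eq_true, Bool.not_eq_true', Bool.not_eq_true'] at g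
    rcases g with ((g | g) | g) | g
    · rw [e1] at g; simp at g
    · rw [he2, e2] at g; simp at g
    · exact absurd (Nat.eq_of_beq_eq_true g) he3
    · rw [he2] at g; simpa using g
  · have := (St_even e1).1 (hPs n)
    rw [← mul_assoc, ← pow_add] at this
    exact this
  · have := (St_even e2).1 (hQt n)
    rw [← mul_assoc, ← pow_add] at this
    exact this

end Pool.Agent.JB
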