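import Pool.Agent.Lib.MP_8ebc20_an.B.Equa

/-!
# Part B: the finite graph of pairs (data and kernel checks)

States: `2 i` is the point `OL[i]`, `2 i + 1` the open interval `(OL[i], OL[i + 1])`.  `runL`: the
image of a state under multiplication by `7` is a cyclic run of states.  `tbl`: for every pair of
states not separated by a cut: rank, successor in a cycle, reference point of the first coordinate.
-/

set_option autoImplicit false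
set_option linter.style.longLine false

namespace Pool.Agent.JB

def OL : List ℕ := [0, 2642164, 6759844, 6960940, 6961528, 6965644, 8373316, 8377432, 8406244, 8612716, 14377468, 18259948, 18288760, 18490444, 18495148, 19935748, 19936420, 20176632, 22818796, 26936476, 27137572, 27138160, 27142276, 28549948, 28554064, 28582876, 28789348, 34554100, 38436580, 38465392, 38667076, 38671780, 40112380, 40113052, 40353264]

def runL : List (ℕ × ℕ) := [(0, 1), (1, 27), (28, 1), (29, 49), (10, 1), (11, 1), (12, 1), (13, 1), (14, 1), (15, 1), (16, 1), (17, 5), (22, 1), (23, 1), (24, 1), (25, 1), (26, 1), (27, 3), (30, 1), (31, 67), (30, 1), (31, 41), (4, 1), (5, 3), (8, 1), (9, 3), (12, 1), (13, 3), (16, 1), (17, 9), (26, 1), (27, 1), (28, 1), (29, 5), (34, 1), (35, 27), (62, 1), (63, 49), (44, 1), (45, 1), (46, 1), (47, 1), (48, 1), (49, 1), (50,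 1), (51, 5), (56, 1), (57, 1), (58, 1), (59, 1), (60, 1), (61, 3), (64, 1), (65, 67), (64, 1), (65, 41), (38, 1), (39, 3), (42, 1), (43, 3), (46, 1), (47, 3), (50, 1), (51, 9), (60, 1), (61, 1), (62, 1), (63, 5)]

def kcls : List (List ℕ) := [[0, 34], [4, 26], [8, 14, 24], [10, 12], [16, 22], [38, 60], [42, 48, 58], [44, 46], [50, 56]]

def tbl : List (List (ℕ × ℕ × ℕ × ℕ × ℕ)) := [
  [(1, 1, 0, 1, 0), (2, 0, 99, 99, 0), (32, 0, 99, 99, 0), (33, 1, 0, 33, 0), (34, 0, 0, 34, 0), (35, 1, 0, 35, 0), (36, 0, 99, 99, 0), (66, 0, 99, 99, 0), (67, 1, 0, 67, 0)],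
  [(0, 1, 1, 0, 0), (2, 2, 99, 99, 0), (32, 2, 99, 99, 0), (33, 10, 1, 33, 0), (34, 1, 1, 34, 0), (35, 1, 1, 35, 0), (36, 0, 99, 99, 0), (66, 0, 99, 99, 0), (67, 1, 1, 67, 0)],
  [(0, 0, 99, 99, 0), (1, 2, 99, 99, 0), (3, 6, 99, 99, 0), (4, 0, 99, 99, 0), (5, 0, 99, 99, 0), (6, 0, 99, 99, 0), (26, 0, 99, 99, 0), (27, 0, 99, 99, 0), (28, 0, 99, 99, 0), (29, 0, 99, 99, 0), (30, 2, 99, 99, 0), (31, 2, 99, 99, 0), (33, 6, 99, 99, 0), (34, 0, 99, 99, 0), (35, 0, 99, 99, 0), (36, 0, 99, 99, 0), (66, 0, 99, 99, 0), (67, 0, 99, 99, 0)],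
  [(2, 6, 99, 99, 0), (4, 2, 99, 99, 0), (5, 2, 99, 99, 0), (6, 2, 99, 99, 0), (26, 2, 99, 99, 0), (27, 8, 99, 99, 0), (28, 1, 99, 99, 0), (29, 8, 99, 99, 0), (30, 5, 99, 99, 0), (31, 9, 99, 99, 0), (32, 6, 99, 99, 0)],
  [(2, 0, 99, 99, 0), (3, 2, 99, 99, 0), (5, 4, 10, 11, 0), (6, 1, 99, 99, 0), (26, 0, 10, 12, 0), (27, 4, 10, 13, 0), (28, 1, 99, 99, 0), (29, 2, 99, 99, 0), (30, 0, 99, 99, 0), (31, 0, 99, 99, 0), (32, 0, 99, 99, 0)],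
  [(2, 0, 99, 99, 0), (3, 2, 99, 99, 0), (4, 4, 11, 10, 6759844), (6, 5, 99, 99, 0), (26, 4, 11, 12, 6759844), (27, 6, 11, 13, 6759844), (28, 1, 99, 99, 0), (29, 2, 99, 99, 0), (30, 0, 99, 99, 0), (31, 0, 99, 99, 0), (32, 0, 99, 99, 0)],
  [(2, 0, 99, 99, 0), (3, 2, 99, 99, 0), (4, 1, 99, 99, 0), (5, 5, 99, 99, 0), (7, 5, 99, 99, 0), (8, 2, 99, 99, 0), (9, 2, 99, 99, 0), (10, 1, 99, 99, 0), (11, 1, 99, 99, 0), (12, 1, 99, 99, 0), (13, 2, 99, 99, 0), (14, 2, 99, 99, 0), (15, 2, 99, 99, 0), (16, 0, 99, 99, 0), (17, 0, 99, 99, 0), (18, 0, 99, 99, 0), (20, 0, 99, 99, 0), (21, 0, 99, 99, 0), (22, 0, 99, 99, 0), (23, 2, 99, 99, 0), (24, 2, 99, 99, 0), (25, 5, 99, 99, 0), (27, 5, 99, 99, 0), (28, 1, 99, 99, 0), (29, 2, 99, 99, 0), (30, 0, 99, 99, 0), (31, 0, 99, 99, 0), (32, 0, 99, 99, 0)],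
  [(6, 5, 99, 99, 0), (8, 3, 13, 14, 6961528), (9, 3, 13, 15, 6961528), (10, 1, 99, 99, 0), (11, 1, 99, 99, 0), (12, 1, 99, 99, 0), (13, 3, 13, 23, 6961528), (14, 3, 13, 24, 6961528), (15, 3, 13, 25, 6961528), (16, 0, 99, 99, 0), (17, 0, 99, 99, 0), (18, 0, 99, 99, 0), (20, 0, 99, 99, 0), (21, 0, 99, 99, 0), (22, 0, 99, 99, 0), (23, 3, 13, 7, 6961528), (24, 3, 13, 8, 6961528), (25, 7, 13, 9, 6961528)],
  [(6, 2, 99, 99, 0), (7, 3, 14, 13, 0), (9, 2, 14, 15, 0), (10, 1, 99, 99, 0), (11, 1, 99, 99, 0), (12, 1, 99, 99, 0), (13, 3, 14, 23, 0), (14, 0, 14, 24, 0), (15, 2, 14, 25, 0), (16, 0, 99, 99, 0), (17, 0, 99, 99, 0), (18, 0, 99, 99, 0), (20, 0, 99, 99, 0), (21, 0, 99, 99, 0), (22, 0, 99, 99, 0), (23, 3, 14, 7, 0), (24, 0, 14, 8, 0), (25, 2, 14, 9, 0)],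
  [(6, 2, 99, 99, 0), (7, 3, 15, 13, 6961528), (8, 2, 15, 14, 6961528), (10, 1, 99, 99, 0), (11, 1, 99, 99, 0), (12, 1, 99, 99, 0), (13, 7, 15, 23, 6961528), (14, 2, 15, 24, 6961528), (15, 2, 15, 25, 6961528), (16, 0, 99, 99, 0), (17, 0, 99, 99, 0), (18, 0, 99, 99, 0), (20, 0, 99, 99, 0), (21, 0, 99, 99, 0), (22, 0, 99, 99, 0), (23, 3, 15, 7, 6961528), (24, 2, 15, 8, 6961528), (25, 2, 15, 9, 6961528)],
  [(6, 1, 99, 99, 0), (7, 1, 99, 99, 0), (8, 1, 99, 99, 0), (9, 1, 99, 99, 0), (11, 4, 16, 17, 0), (12, 0, 16, 22, 0), (13, 4, 16, 23, 0), (14, 1, 99, 99, 0), (15, 1, 99, 99, 0), (16, 0, 99, 99, 0), (17, 0, 99, 99, 0), (18, 0, 99, 99, 0), (20, 0, 99, 99, 0), (21, 0, 99, 99, 0), (22, 0, 99, 99, 0), (23, 1, 99, 99, 0), (24, 1, 99, 99, 0), (25, 1, 99, 99, 0)],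
  [(6, 1, 99, 99, 0), (7, 1, 99, 99, 0), (8, 1, 99, 99, 0), (9, 1, 99, 99, 0), (10, 4, 17, 16, 6965644), (12, 4, 17, 22, 6965644), (13, 6, 17, 23, 6965644), (14, 1, 99, 99, 0), (15, 1, 99, 99, 0), (16, 0, 99, 99, 0), (17, 0, 99, 99, 0), (18, 0, 99, 99, 0), (20, 0, 99, 99, 0), (21, 0, 99, 99, 0), (22, 0, 99, 99, 0), (23, 1, 99, 99, 0), (24, 1, 99, 99, 0), (25, 1, 99, 99, 0)],
  [(6, 1, 99, 99, 0), (7, 1, 99, 99, 0), (8, 1, 99, 99, 0), (9, 1, 99, 99, 0), (10, 0, 22, 16, 0), (11, 4, 22, 17, 0), (13, 4, 22, 23, 0), (14, 1, 99, 99, 0), (15, 1, 99, 99, 0), (16, 0, 99, 99, 0), (17, 0, 99, 99, 0), (18, 0, 99, 99, 0), (20, 0, 99, 99, 0), (21, 0, 99, 99, 0), (22, 0, 99, 99, 0), (23, 1, 99, 99, 0), (24, 1, 99, 99, 0), (25, 1, 99, 99, 0)],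
  [(6, 2, 99, 99, 0), (7, 3, 23, 13, 8377432), (8, 3, 23, 14, 8377432), (9, 7, 23, 15, 8377432), (10, 4, 23, 16, 8373316), (11, 6, 23, 17, 8373316), (12, 4, 23, 22, 8373316), (14, 3, 23, 24, 8377432), (15, 3, 23, 25, 8377432), (16, 0, 99, 99, 0), (17, 0, 99, 99, 0), (18, 0, 99, 99, 0), (20, 0, 99, 99, 0), (21, 0, 99, 99, 0), (22, 0, 99, 99, 0), (23, 3, 23, 7, 8377432), (24, 3, 23, 8, 8377432), (25, 3, 23, 9, 8377432)],
  [(6, 2, 99, 99, 0), (7, 3, 24, 13, 0), (8, 0, 24, 14, 0), (9, 2, 24, 15, 0), (10, 1, 99, 99, 0), (11, 1, 99, 99, 0), (12, 1, 99, 99, 0), (13, 3, 24, 23, 0), (15, 2, 24, 25, 0), (16, 0, 99, 99, 0), (17, 0, 99, 99, 0), (18, 0, 99, 99, 0), (20, 0, 99, 99, 0), (21, 0, 99, 99, 0), (22, 0, 99, 99, 0), (23, 3, 24, 7, 0), (24, 0, 24, 8, 0), (25, 2, 24, 9, 0)],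
  [(6, 2, 99, 99, 0), (7, 3, 25, 13, 8377432), (8, 2, 25, 14, 8377432), (9, 2, 25, 15, 8377432), (10, 1, 99, 99, 0), (11, 1, 99, 99, 0), (12, 1, 99, 99, 0), (13, 3, 25, 23, 8377432), (14, 2, 25, 24, 8377432), (16, 0, 99, 99, 0), (17, 0, 99, 99, 0), (18, 0, 99, 99, 0), (20, 0, 99, 99, 0), (21, 0, 99, 99, 0), (22, 0, 99, 99, 0), (23, 7, 25, 7, 8377432), (24, 2, 25, 8, 8377432), (25, 2, 25, 9, 8377432)],
  [(6, 0, 99, 99, 0), (7, 0, 99, 99, 0), (8, 0, 99, 99, 0), (9, 0, 99, 99, 0), (10, 0, 99, 99, 0), (11, 0, 99, 99, 0), (12, 0, 99, 99, 0), (13, 0, 99, 99, 0), (14, 0, 99, 99, 0), (15, 0, 99, 99, 0), (17, 4, 26, 27, 0), (18, 1, 99, 99, 0), (20, 1, 99, 99, 0), (21, 3, 99, 99, 0), (22, 0, 26, 4, 0), (23, 4, 26, 5, 0), (24, 0, 99, 99, 0), (25, 0, 99, 99, 0)],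
  [(6, 0, 99, 99, 0), (7, 0, 99, 99, 0), (8, 0, 99, 99, 0), (9, 0, 99, 99, 0), (10, 0, 99, 99, 0), (11, 0, 99, 99, 0), (12, 0, 99, 99, 0), (13, 0, 99, 99, 0), (14, 0, 99, 99, 0), (15, 0, 99, 99, 0), (16, 4, 27, 26, 8406244), (18, 1, 99, 99, 0), (20, 1, 99, 99, 0), (21, 9, 99, 99, 0), (22, 4, 27, 4, 8406244), (23, 6, 27, 5, 8406244), (24, 0, 99, 99, 0), (25, 0, 99, 99, 0)],
  [(6, 0, 99, 99, 0), (7, 0, 99, 99, 0), (8, 0, 99, 99, 0), (9, 0, 99, 99, 0), (10, 0, 99, 99, 0), (11, 0, 99, 99, 0), (12, 0, 99, 99, 0), (13, 0, 99, 99, 0), (14, 0, 99, 99, 0), (15, 0, 99, 99, 0), (16, 1, 99, 99, 0), (17, 1, 99, 99, 0), (19, 6, 99, 99, 0), (21, 6, 99, 99, 0), (22, 1, 99, 99, 0), (23, 1, 99, 99, 0), (24, 0, 99, 99, 0), (25, 0, 99, 99, 0)],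
  [(18, 6, 99, 99, 0), (20, 6, 99, 99, 0)],
  [(6, 0, 99, 99, 0), (7, 0, 99, 99, 0), (8, 0, 99, 99, 0), (9, 0, 99, 99, 0), (10, 0, 99, 99, 0), (11, 0, 99, 99, 0), (12, 0, 99, 99, 0), (13, 0, 99, 99, 0), (14, 0, 99, 99, 0), (15, 0, 99, 99, 0), (16, 1, 99, 99, 0), (17, 1, 99, 99, 0), (19, 6, 99, 99, 0), (21, 6, 99, 99, 0), (22, 1, 99, 99, 0), (23, 1, 99, 99, 0), (24, 0, 99, 99, 0), (25, 0, 99, 99, 0)],
  [(6, 0, 99, 99, 0), (7, 0, 99, 99, 0), (8, 0, 99, 99, 0), (9, 0, 99, 99, 0), (10, 0, 99, 99, 0), (11, 0, 99, 99, 0), (12, 0, 99, 99, 0), (13, 0, 99, 99, 0), (14, 0, 99, 99, 0), (15, 0, 99, 99, 0), (16, 3, 99, 99, 0), (17, 9, 99, 99, 0), (18, 6, 99, 99, 0), (20, 6, 99, 99, 0), (22, 3, 99, 99, 0), (23, 3, 99, 99, 0), (24, 0, 99, 99, 0), (25, 0, 99, 99, 0)],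
  [(6, 0, 99, 99, 0), (7, 0, 99, 99, 0), (8, 0, 99, 99, 0), (9, 0, 99, 99, 0), (10, 0, 99, 99, 0), (11, 0, 99, 99, 0), (12, 0, 99, 99, 0), (13, 0, 99, 99, 0), (14, 0, 99, 99, 0), (15, 0, 99, 99, 0), (16, 0, 4, 26, 0), (17, 4, 4, 27, 0), (18, 1, 99, 99, 0), (20, 1, 99, 99, 0), (21, 3, 99, 99, 0), (23, 4, 4, 5, 0), (24, 0, 99, 99, 0), (25, 0, 99, 99, 0)],
  [(6, 2, 99, 99, 0), (7, 3, 7, 13, 18288760), (8, 3, 7, 14, 18288760), (9, 3, 7, 15, 18288760), (10, 1, 99, 99, 0), (11, 1, 99, 99, 0), (12, 1, 99, 99, 0), (13, 3, 7, 23, 18288760), (14, 3, 7, 24, 18288760), (15, 7, 7, 25, 18288760), (16, 4, 5, 26, 18259948), (17, 6, 5, 27, 18259948), (18, 1, 99, 99, 0), (20, 1, 99, 99, 0), (21, 3, 99, 99, 0), (22, 4, 5, 4, 18259948), (24, 3, 7, 8, 18288760), (25, 3, 7, 9, 18288760)],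
  [(6, 2, 99, 99, 0), (7, 3, 8, 13, 0), (8, 0, 8, 14, 0), (9, 2, 8, 15, 0), (10, 1, 99, 99, 0), (11, 1, 99, 99, 0), (12, 1, 99, 99, 0), (13, 3, 8, 23, 0), (14, 0, 8, 24, 0), (15, 2, 8, 25, 0), (16, 0, 99, 99, 0), (17, 0, 99, 99, 0), (18, 0, 99, 99, 0), (20, 0, 99, 99, 0), (21, 0, 99, 99, 0), (22, 0, 99, 99, 0), (23, 3, 8, 7, 0), (25, 2, 8, 9, 0)],
  [(6, 5, 99, 99, 0), (7, 7, 9, 13, 18288760), (8, 2, 9, 14, 18288760), (9, 2, 9, 15, 18288760), (10, 1, 99, 99, 0), (11, 1, 99, 99, 0), (12, 1, 99, 99, 0), (13, 3, 9, 23, 18288760), (14, 2, 9, 24, 18288760), (15, 2, 9, 25, 18288760), (16, 0, 99, 99, 0), (17, 0, 99, 99, 0), (18, 0, 99, 99, 0), (20, 0, 99, 99, 0), (21, 0, 99, 99, 0), (22, 0, 99, 99, 0), (23, 3, 9, 7, 18288760), (24, 2, 9, 8, 18288760)],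
  [(2, 0, 99, 99, 0), (3, 2, 99, 99, 0), (4, 0, 12, 10, 0), (5, 4, 12, 11, 0), (27, 4, 12, 13, 0), (28, 1, 99, 99, 0), (29, 2, 99, 99, 0), (30, 0, 99, 99, 0), (31, 0, 99, 99, 0), (32, 0, 99, 99, 0)],
  [(2, 0, 99, 99, 0), (3, 8, 99, 99, 0), (4, 4, 13, 10, 18490444), (5, 6, 13, 11, 18490444), (6, 5, 99, 99, 0), (26, 4, 13, 12, 18490444), (28, 1, 99, 99, 0), (29, 8, 99, 99, 0), (30, 0, 99, 99, 0), (31, 0, 99, 99, 0), (32, 0, 99, 99, 0)],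
  [(2, 0, 99, 99, 0), (3, 1, 99, 99, 0), (4, 1, 99, 99, 0), (5, 1, 99, 99, 0), (6, 1, 99, 99, 0), (26, 1, 99, 99, 0), (27, 1, 99, 99, 0), (29, 5, 99, 99, 0), (30, 0, 99, 99, 0), (31, 0, 99, 99, 0), (32, 0, 99, 99, 0)],
  [(2, 0, 99, 99, 0), (3, 8, 99, 99, 0), (4, 2, 99, 99, 0), (5, 2, 99, 99, 0), (6, 2, 99, 99, 0), (26, 2, 99, 99, 0), (27, 8, 99, 99, 0), (28, 5, 99, 99, 0), (30, 0, 99, 99, 0), (31, 0, 99, 99, 0), (32, 0, 99, 99, 0)],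
  [(2, 2, 99, 99, 0), (3, 5, 99, 99, 0), (4, 0, 99, 99, 0), (5, 0, 99, 99, 0), (6, 0, 99, 99, 0), (26, 0, 99, 99, 0), (27, 0, 99, 99, 0), (28, 0, 99, 99, 0), (29, 0, 99, 99, 0), (31, 5, 99, 99, 0), (32, 2, 99, 99, 0)],
  [(2, 2, 99, 99, 0), (3, 9, 99, 99, 0), (4, 0, 99, 99, 0), (5, 0, 99, 99, 0), (6, 0, 99, 99, 0), (26, 0, 99, 99, 0), (27, 0, 99, 99, 0), (28, 0, 99, 99, 0), (29, 0, 99, 99, 0), (30, 5, 99, 99, 0), (32, 2, 99, 99, 0)],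
  [(0, 0, 99, 99, 0), (1, 2, 99, 99, 0), (3, 6, 99, 99, 0), (4, 0, 99, 99, 0), (5, 0, 99, 99, 0), (6, 0, 99, 99, 0), (26, 0, 99, 99, 0), (27, 0, 99, 99, 0), (28, 0, 99, 99, 0), (29, 0, 99, 99, 0), (30, 2, 99, 99, 0), (31, 2, 99, 99, 0), (33, 6, 99, 99, 0), (34, 0, 99, 99, 0), (35, 0, 99, 99, 0), (36, 0, 99, 99, 0), (66, 0, 99, 99, 0), (67, 0, 99, 99, 0)],
  [(0, 1, 33, 0, 20176632), (1, 10, 33, 1, 20176632), (2, 6, 99, 99, 0), (32, 6, 99, 99, 0), (34, 1, 33, 34, 20176632), (35, 1, 33, 35, 20176632), (36, 0, 99, 99, 0), (66, 0, 99, 99, 0), (67, 1, 33, 67, 20176632)],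
  [(0, 0, 34, 0, 0), (1, 1, 34, 1, 0), (2, 0, 99, 99, 0), (32, 0, 99, 99, 0), (33, 1, 34, 33, 0), (35, 1, 34, 35, 0), (36, 0, 99, 99, 0), (66, 0, 99, 99, 0), (67, 1, 34, 67, 0)],
  [(0, 1, 35, 0, 20176632), (1, 1, 35, 1, 20176632), (2, 0, 99, 99, 0), (32, 0, 99, 99, 0), (33, 1, 35, 33, 20176632), (34, 1, 35, 34, 20176632), (36, 2, 99, 99, 0), (66, 2, 99, 99, 0), (67, 10, 35, 67, 20176632)],
  [(0, 0, 99, 99, 0), (1, 0, 99, 99, 0), (2, 0, 99, 99, 0), (32, 0, 99, 99, 0), (33, 0, 99, 99, 0), (34, 0, 99, 99, 0), (35, 2, 99, 99, 0), (37, 6, 99, 99, 0), (38, 0, 99, 99, 0), (39, 0, 99, 99, 0), (40, 0, 99, 99, 0), (60, 0, 99, 99, 0), (61, 0, 99, 99, 0), (62, 0, 99, 99, 0), (63, 0, 99, 99, 0), (64, 2, 99, 99, 0), (65, 2, 99, 99, 0), (67, 6, 99, 99, 0)],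
  [(36, 6, 99, 99, 0), (38, 2, 99, 99, 0), (39, 2, 99, 99, 0), (40, 2, 99, 99, 0), (60, 2, 99, 99, 0), (61, 8, 99, 99, 0), (62, 1, 99, 99, 0), (63, 8, 99, 99, 0), (64, 5, 99, 99, 0), (65, 9, 99, 99, 0), (66, 6, 99, 99, 0)],
  [(36, 0, 99, 99, 0), (37, 2, 99, 99, 0), (39, 4, 44, 45, 0), (40, 1, 99, 99, 0), (60, 0, 44, 46, 0), (61, 4, 44, 47, 0), (62, 1, 99, 99, 0), (63, 2, 99, 99, 0), (64, 0, 99, 99, 0), (65, 0, 99, 99, 0), (66, 0, 99, 99, 0)],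
  [(36, 0, 99, 99, 0), (37, 2, 99, 99, 0), (38, 4, 45, 44, 26936476), (40, 5, 99, 99, 0), (60, 4, 45, 46, 26936476), (61, 6, 45, 47, 26936476), (62, 1, 99, 99, 0), (63, 2, 99, 99, 0), (64, 0, 99, 99, 0), (65, 0, 99, 99, 0), (66, 0, 99, 99, 0)],
  [(36, 0, 99, 99, 0), (37, 2, 99, 99, 0), (38, 1, 99, 99, 0), (39, 5, 99, 99, 0), (41, 5, 99, 99, 0), (42, 2, 99, 99, 0), (43, 2, 99, 99, 0), (44, 1, 99, 99, 0), (45, 1, 99, 99, 0), (46, 1, 99, 99, 0), (47, 2, 99, 99, 0), (48, 2, 99, 99, 0), (49, 2, 99, 99, 0), (50, 0, 99, 99, 0), (51, 0, 99, 99, 0), (52, 0, 99, 99, 0), (54, 0, 99, 99, 0), (55, 0, 99, 99, 0), (56, 0, 99, 99, 0), (57, 2, 99, 99, 0), (58, 2, 99, 99, 0), (59, 5, 99, 99, 0), (61, 5, 99, 99, 0), (62, 1, 99, 99, 0), (63, 2, 99, 99, 0), (64, 0, 99, 99, 0), (65, 0, 99, 99, 0), (66, 0, 99, 99, 0)],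
  [(40, 5, 99, 99, 0), (42, 3, 47, 48, 27138160), (43, 3, 47, 49, 27138160), (44, 1, 99, 99, 0), (45, 1, 99, 99, 0), (46, 1, 99, 99, 0), (47, 3, 47, 57, 27138160), (48, 3, 47, 58, 27138160), (49, 3, 47, 59, 27138160), (50, 0, 99, 99, 0), (51, 0, 99, 99, 0), (52, 0, 99, 99, 0), (54, 0, 99, 99, 0), (55, 0, 99, 99, 0), (56, 0, 99, 99, 0), (57, 3, 47, 41, 27138160), (58, 3, 47, 42, 27138160), (59, 7, 47, 43, 27138160)],
  [(40, 2, 99, 99, 0), (41, 3, 48, 47, 0), (43, 2, 48, 49, 0), (44, 1, 99, 99, 0), (45, 1, 99, 99, 0), (46, 1, 99, 99, 0), (47, 3, 48, 57, 0), (48, 0, 48, 58, 0), (49, 2, 48, 59, 0), (50, 0, 99, 99, 0), (51, 0, 99, 99, 0), (52, 0, 99, 99, 0), (54, 0, 99, 99, 0), (55, 0, 99, 99, 0), (56, 0, 99, 99, 0), (57, 3, 48, 41, 0), (58, 0, 48, 42, 0), (59, 2, 48, 43, 0)],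
  [(40, 2, 99, 99, 0), (41, 3, 49, 47, 27138160), (42, 2, 49, 48, 27138160), (44, 1, 99, 99, 0), (45, 1, 99, 99, 0), (46, 1, 99, 99, 0), (47, 7, 49, 57, 27138160), (48, 2, 49, 58, 27138160), (49, 2, 49, 59, 27138160), (50, 0, 99, 99, 0), (51, 0, 99, 99, 0), (52, 0, 99, 99, 0), (54, 0, 99, 99, 0), (55, 0, 99, 99, 0), (56, 0, 99, 99, 0), (57, 3, 49, 41, 27138160), (58, 2, 49, 42, 27138160), (59, 2, 49, 43, 27138160)],
  [(40, 1, 99, 99, 0), (41, 1, 99, 99, 0), (42, 1, 99, 99, 0), (43, 1, 99, 99, 0), (45, 4, 50, 51, 0), (46, 0, 50, 56, 0), (47, 4, 50, 57, 0), (48, 1, 99, 99, 0), (49, 1, 99, 99, 0), (50, 0, 99, 99, 0), (51, 0, 99, 99, 0), (52, 0, 99, 99, 0), (54, 0, 99, 99, 0), (55, 0, 99, 99, 0), (56, 0, 99, 99, 0), (57, 1, 99, 99, 0), (58, 1, 99, 99, 0), (59, 1, 99, 99, 0)],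
  [(40, 1, 99, 99, 0), (41, 1, 99, 99, 0), (42, 1, 99, 99, 0), (43, 1, 99, 99, 0), (44, 4, 51, 50, 27142276), (46, 4, 51, 56, 27142276), (47, 6, 51, 57, 27142276), (48, 1, 99, 99, 0), (49, 1, 99, 99, 0), (50, 0, 99, 99, 0), (51, 0, 99, 99, 0), (52, 0, 99, 99, 0), (54, 0, 99, 99, 0), (55, 0, 99, 99, 0), (56, 0, 99, 99, 0), (57, 1, 99, 99, 0), (58, 1, 99, 99, 0), (59, 1, 99, 99, 0)],
  [(40, 1, 99, 99, 0), (41, 1, 99, 99, 0), (42, 1, 99, 99, 0), (43, 1, 99, 99, 0), (44, 0, 56, 50, 0), (45, 4, 56, 51, 0), (47, 4, 56, 57, 0), (48, 1, 99, 99, 0), (49, 1, 99, 99, 0), (50, 0, 99, 99, 0), (51, 0, 99, 99, 0), (52, 0, 99, 99, 0), (54, 0, 99, 99, 0), (55, 0, 99, 99, 0), (56, 0, 99, 99, 0), (57, 1, 99, 99, 0), (58, 1, 99, 99, 0), (59, 1, 99, 99, 0)],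
  [(40, 2, 99, 99, 0), (41, 3, 57, 47, 28554064), (42, 3, 57, 48, 28554064), (43, 7, 57, 49, 28554064), (44, 4, 57, 50, 28549948), (45, 6, 57, 51, 28549948), (46, 4, 57, 56, 28549948), (48, 3, 57, 58, 28554064), (49, 3, 57, 59, 28554064), (50, 0, 99, 99, 0), (51, 0, 99, 99, 0), (52, 0, 99, 99, 0), (54, 0, 99, 99, 0), (55, 0, 99, 99, 0), (56, 0, 99, 99, 0), (57, 3, 57, 41, 28554064), (58, 3, 57, 42, 28554064), (59, 3, 57, 43, 28554064)],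
  [(40, 2, 99, 99, 0), (41, 3, 58, 47, 0), (42, 0, 58, 48, 0), (43, 2, 58, 49, 0), (44, 1, 99, 99, 0), (45, 1, 99, 99, 0), (46, 1, 99, 99, 0), (47, 3, 58, 57, 0), (49, 2, 58, 59, 0), (50, 0, 99, 99, 0), (51, 0, 99, 99, 0), (52, 0, 99, 99, 0), (54, 0, 99, 99, 0), (55, 0, 99, 99, 0), (56, 0, 99, 99, 0), (57, 3, 58, 41, 0), (58, 0, 58, 42, 0), (59, 2, 58, 43, 0)],
  [(40, 2, 99, 99, 0), (41, 3, 59, 47, 28554064), (42, 2, 59, 48, 28554064), (43, 2, 59, 49, 28554064), (44, 1, 99, 99, 0), (45, 1, 99, 99, 0), (46, 1, 99, 99, 0), (47, 3, 59, 57, 28554064), (48, 2, 59, 58, 28554064), (50, 0, 99, 99, 0), (51, 0, 99, 99, 0), (52, 0, 99, 99, 0), (54, 0, 99, 99, 0), (55, 0, 99, 99, 0), (56, 0, 99, 99, 0), (57, 7, 59, 41, 28554064), (58, 2, 59, 42, 28554064), (59, 2, 59, 43, 28554064)],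
  [(40, 0, 99, 99, 0), (41, 0, 99, 99, 0), (42, 0, 99, 99, 0), (43, 0, 99, 99, 0), (44, 0, 99, 99, 0), (45, 0, 99, 99, 0), (46, 0, 99, 99, 0), (47, 0, 99, 99, 0), (48, 0, 99, 99, 0), (49, 0, 99, 99, 0), (51, 4, 60, 61, 0), (52, 1, 99, 99, 0), (54, 1, 99, 99, 0), (55, 3, 99, 99, 0), (56, 0, 60, 38, 0), (57, 4, 60, 39, 0), (58, 0, 99, 99, 0), (59, 0, 99, 99, 0)],
  [(40, 0, 99, 99, 0), (41, 0, 99, 99, 0), (42, 0, 99, 99, 0), (43, 0, 99, 99, 0), (44, 0, 99, 99, 0), (45, 0, 99, 99, 0), (46, 0, 99, 99, 0), (47, 0, 99, 99, 0), (48, 0, 99, 99, 0), (49, 0, 99, 99, 0), (50, 4, 61, 60, 28582876), (52, 1, 99, 99, 0), (54, 1, 99, 99, 0), (55, 9, 99, 99, 0), (56, 4, 61, 38, 28582876), (57, 6, 61, 39, 28582876), (58, 0, 99, 99, 0), (59, 0, 99, 99, 0)],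
  [(40, 0, 99, 99, 0), (41, 0, 99, 99, 0), (42, 0, 99, 99, 0), (43, 0, 99, 99, 0), (44, 0, 99, 99, 0), (45, 0, 99, 99, 0), (46, 0, 99, 99, 0), (47, 0, 99, 99, 0), (48, 0, 99, 99, 0), (49, 0, 99, 99, 0), (50, 1, 99, 99, 0), (51, 1, 99, 99, 0), (53, 6, 99, 99, 0), (55, 6, 99, 99, 0), (56, 1, 99, 99, 0), (57, 1, 99, 99, 0), (58, 0, 99, 99, 0), (59, 0, 99, 99, 0)],
  [(52, 6, 99, 99, 0), (54, 6, 99, 99, 0)],
  [(40, 0, 99, 99, 0), (41, 0, 99, 99, 0), (42, 0, 99, 99, 0), (43, 0, 99, 99, 0), (44, 0, 99, 99, 0), (45, 0, 99, 99, 0), (46, 0, 99, 99, 0), (47, 0, 99, 99, 0), (48, 0, 99, 99, 0), (49, 0, 99, 99, 0), (50, 1, 99, 99, 0), (51, 1, 99, 99, 0), (53, 6, 99, 99, 0), (55, 6, 99, 99, 0), (56, 1, 99, 99, 0), (57, 1, 99, 99, 0), (58, 0, 99, 99, 0), (59, 0, 99, 99, 0)],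
  [(40, 0, 99, 99, 0), (41, 0, 99, 99, 0), (42, 0, 99, 99, 0), (43, 0, 99, 99, 0), (44, 0, 99, 99, 0), (45, 0, 99, 99, 0), (46, 0, 99, 99, 0), (47, 0, 99, 99, 0), (48, 0, 99, 99, 0), (49, 0, 99, 99, 0), (50, 3, 99, 99, 0), (51, 9, 99, 99, 0), (52, 6, 99, 99, 0), (54, 6, 99, 99, 0), (56, 3, 99, 99, 0), (57, 3, 99, 99, 0), (58, 0, 99, 99, 0), (59, 0, 99, 99, 0)],
  [(40, 0, 99, 99, 0), (41, 0, 99, 99, 0), (42, 0, 99, 99, 0), (43, 0, 99, 99, 0), (44, 0, 99, 99, 0), (45, 0, 99, 99, 0), (46, 0, 99, 99, 0), (47, 0, 99, 99, 0), (48, 0, 99, 99, 0), (49, 0, 99, 99, 0), (50, 0, 38, 60, 0), (51, 4, 38, 61, 0), (52, 1, 99, 99, 0), (54, 1, 99, 99, 0), (55, 3, 99, 99, 0), (57, 4, 38, 39, 0), (58, 0, 99, 99, 0), (59, 0, 99, 99, 0)],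
  [(40, 2, 99, 99, 0), (41, 3, 41, 47, 38465392), (42, 3, 41, 48, 38465392), (43, 3, 41, 49, 38465392), (44, 1, 99, 99, 0), (45, 1, 99, 99, 0), (46, 1, 99, 99, 0), (47, 3, 41, 57, 38465392), (48, 3, 41, 58, 38465392), (49, 7, 41, 59, 38465392), (50, 4, 39, 60, 38436580), (51, 6, 39, 61, 38436580), (52, 1, 99, 99, 0), (54, 1, 99, 99, 0), (55, 3, 99, 99, 0), (56, 4, 39, 38, 38436580), (58, 3, 41, 42, 38465392), (59, 3, 41, 43, 38465392)],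
  [(40, 2, 99, 99, 0), (41, 3, 42, 47, 0), (42, 0, 42, 48, 0), (43, 2, 42, 49, 0), (44, 1, 99, 99, 0), (45, 1, 99, 99, 0), (46, 1, 99, 99, 0), (47, 3, 42, 57, 0), (48, 0, 42, 58, 0), (49, 2, 42, 59, 0), (50, 0, 99, 99, 0), (51, 0, 99, 99, 0), (52, 0, 99, 99, 0), (54, 0, 99, 99, 0), (55, 0, 99, 99, 0), (56, 0, 99, 99, 0), (57, 3, 42, 41, 0), (59, 2, 42, 43, 0)],
  [(40, 5, 99, 99, 0), (41, 7, 43, 47, 38465392), (42, 2, 43, 48, 38465392), (43, 2, 43, 49, 38465392), (44, 1, 99, 99, 0), (45, 1, 99, 99, 0), (46, 1, 99, 99, 0), (47, 3, 43, 57, 38465392), (48, 2, 43, 58, 38465392), (49, 2, 43, 59, 38465392), (50, 0, 99, 99, 0), (51, 0, 99, 99, 0), (52, 0, 99, 99, 0), (54, 0, 99, 99, 0), (55, 0, 99, 99, 0), (56, 0, 99, 99, 0), (57, 3, 43, 41, 38465392), (58, 2, 43, 42, 38465392)],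
  [(36, 0, 99, 99, 0), (37, 2, 99, 99, 0), (38, 0, 46, 44, 0), (39, 4, 46, 45, 0), (61, 4, 46, 47, 0), (62, 1, 99, 99, 0), (63, 2, 99, 99, 0), (64, 0, 99, 99, 0), (65, 0, 99, 99, 0), (66, 0, 99, 99, 0)],
  [(36, 0, 99, 99, 0), (37, 8, 99, 99, 0), (38, 4, 47, 44, 38667076), (39, 6, 47, 45, 38667076), (40, 5, 99, 99, 0), (60, 4, 47, 46, 38667076), (62, 1, 99, 99, 0), (63, 8, 99, 99, 0), (64, 0, 99, 99, 0), (65, 0, 99, 99, 0), (66, 0, 99, 99, 0)],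
  [(36, 0, 99, 99, 0), (37, 1, 99, 99, 0), (38, 1, 99, 99, 0), (39, 1, 99, 99, 0), (40, 1, 99, 99, 0), (60, 1, 99, 99, 0), (61, 1, 99, 99, 0), (63, 5, 99, 99, 0), (64, 0, 99, 99, 0), (65, 0, 99, 99, 0), (66, 0, 99, 99, 0)],
  [(36, 0, 99, 99, 0), (37, 8, 99, 99, 0), (38, 2, 99, 99, 0), (39, 2, 99, 99, 0), (40, 2, 99, 99, 0), (60, 2, 99, 99, 0), (61, 8, 99, 99, 0), (62, 5, 99, 99, 0), (64, 0, 99, 99, 0), (65, 0, 99, 99, 0), (66, 0, 99, 99, 0)],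
  [(36, 2, 99, 99, 0), (37, 5, 99, 99, 0), (38, 0, 99, 99, 0), (39, 0, 99, 99, 0), (40, 0, 99, 99, 0), (60, 0, 99, 99, 0), (61, 0, 99, 99, 0), (62, 0, 99, 99, 0), (63, 0, 99, 99, 0), (65, 5, 99, 99, 0), (66, 2, 99, 99, 0)],
  [(36, 2, 99, 99, 0), (37, 9, 99, 99, 0), (38, 0, 99, 99, 0), (39, 0, 99, 99, 0), (40, 0, 99, 99, 0), (60, 0, 99, 99, 0), (61, 0, 99, 99, 0), (62, 0, 99, 99, 0), (63, 0, 99, 99, 0), (64, 5, 99, 99, 0), (66, 2, 99, 99, 0)],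
  [(0, 0, 99, 99, 0), (1, 0, 99, 99, 0), (2, 0, 99, 99, 0), (32, 0, 99, 99, 0), (33, 0, 99, 99, 0), (34, 0, 99, 99, 0), (35, 2, 99, 99, 0), (37, 6, 99, 99, 0), (38, 0, 99, 99, 0), (39, 0, 99, 99, 0), (40, 0, 99, 99, 0), (60, 0, 99, 99, 0), (61, 0, 99, 99, 0), (62, 0, 99, 99, 0), (63, 0, 99, 99, 0), (64, 2, 99, 99, 0), (65, 2, 99, 99, 0), (67, 6, 99, 99, 0)],
  [(0, 1, 67, 0, 0), (1, 1, 67, 1, 0), (2, 0, 99, 99, 0), (32, 0, 99, 99, 0), (33, 1, 67, 33, 0), (34, 1, 67, 34, 0), (35, 10, 67, 35, 0), (36, 6, 99, 99, 0), (66, 6, 99, 99, 0)]]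

/-- end points of the states -/
def lo (p : ℕ) : ℕ := OL.getD (p / 2) 0

def hi (p : ℕ) : ℕ := if p % 2 = 0 then OL.getD (p / 2) 0 else OL.getD (p / 2 + 1) 0

/-- is `r` in the run of `p` -/
def inRun (p r : ℕ) : Bool :=
  match runL.getD p (0, 0) with
  | (a, l) => Nat.blt ((r + 68 - a) % 68) l

/-- `7 p` meets `r + a N` -/
def ovB (p r a : ℕ) : Bool :=
  if p % 2 = 0 then
    if r % 2 = 0 then Nat.beq (7 * lo p) (lo r + a * 40353264)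
    else Nat.blt (lo r + a * 40353264) (7 * lo p) && Nat.blt (7 * lo p) (hi r + a * 40353264)
  else
    if r % 2 = 0 then Nat.blt (7 * lo p) (lo r + a * 40353264) &&
      Nat.blt (lo r + a * 40353264) (7 * hi p)
    else Nat.blt (7 * lo p) (hi r + a * 40353264) && Nat.blt (lo r + a * 40353264) (7 * hi p)

def chkRun : Bool :=
  (List.range 68).all fun p => (List.range 68).all fun r =>
    inRun p r || (List.range 8).all fun a => !(ovB p r a)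

def chkUni : Bool :=
  (List.range 34).all fun i => (List.range 34).all fun j => (List.range 8).all fun a =>
    !(ovB (2 * i + 1) (2 * j + 1) a && ovB (2 * i + 1) (2 * j + 1) (a + 1))

def cutL : List (ℕ × ℕ) := [(6960940, 18490444), (2642164, 19936420), (8612716, 14377468),
  (27137572, 38667076), (22818796, 40113052), (28789348, 34554100)]

def inB (c d p : ℕ) : Bool :=
  if p % 2 = 0 then Nat.blt c (lo p) && Nat.blt (lo p) d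
  else Nat.ble c (lo p) && Nat.ble (hi p) d

def outB (c d p : ℕ) : Bool :=
  if p % 2 = 0 then Nat.blt (lo p) c || Nat.blt d (lo p)
  else Nat.ble (hi p) c || Nat.ble d (lo p)

def partners (p : ℕ) : List ℕ := (kcls.find? fun l => l.contains p).getD [p]

def exclB (p q : ℕ) : Bool :=
  (partners p).any fun p' => (partners q).any fun q' => cutL.any fun cd =>
    (inB cd.1 cd.2 p' && outB cd.1 cd.2 q') || (outB cd.1 cd.2 p' && inB cd.1 cd.2 q')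

def injB (p q : ℕ) : Bool :=
  Nat.beq (p % 2) 0 && Nat.beq (q % 2) 0 &&
    Nat.beq ((7 * lo p) % 40353264) ((7 * lo q) % 40353264)

/-- the record of a pair -/
def rec? (p q : ℕ) : Option (ℕ × ℕ × ℕ × ℕ × ℕ) :=
  (tbl.getD p []).find? fun e => Nat.beq e.1 q

def chkExcl : Bool :=
  (List.range 68).all fun p => (List.range 68).all fun q =>
    Nat.beq p q || (rec? p q).isSome || exclB p q || injB p q

def chkStep : Bool :=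
  (List.range 68).all fun p => (tbl.getD p []).all fun e =>
    (List.range 68).all fun r => !(inRun p r) ||
      ((Nat.beq (r % 2) 0 || !(inRun e.1 r)) &&
      (tbl.getD r []).all fun e' => !(inRun e.1 e'.1) || Nat.blt e'.2.1 e.2.1 ||
        (Nat.beq e'.2.1 e.2.1 && Nat.beq r e.2.2.1 && Nat.beq e'.1 e.2.2.2.1 &&
          Nat.beq (r % 2) (p % 2) &&
          (Nat.beq (p % 2) 0 || Nat.beq ((7 * e.2.2.2.2) % 40353264) e'.2.2.2.2)))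

/-- in a cycle: the reference point is an end point of the interval, and the interval is short -/
def chkRef : Bool :=
  (List.range 68).all fun p => (tbl.getD p []).all fun e =>
    Nat.beq (p % 2) 0 || Nat.beq e.2.2.1 99 ||
      ((Nat.beq (e.2.2.2.2 + 0) (lo p) || Nat.beq (e.2.2.2.2) (hi p % 40353264)) &&
        Nat.blt (14 * (hi p - lo p)) 40353264)

/-- pairs of points in a cycle are in a known class -/
def chkKnown : Bool :=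
  (List.range 68).all fun p => (tbl.getD p []).all fun e =>
    !(Nat.beq (p % 2) 0) || !(Nat.beq (e.1 % 2) 0) || Nat.beq e.2.2.1 99 ||
      ((partners p).contains e.1)

theorem chkRun_true : chkRun = true := by decide +kernel

theorem chkUni_true : chkUni = true := by decide +kernel

theorem chkExcl_true : chkExcl = true := by decide +kernel

theorem chkStep_true : chkStep = true := by decide +kernel

theorem chkRef_true : chkRef = true := by decide +kernel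

theorem chkKnown_true : chkKnown = true := by decide +kernel

end Pool.Agent.JB
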