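import Mathlib

/-!
# Part B: counting points of a locally finite set
-/

set_option autoImplicit false

namespace Pool.Agent.JB

open Set

variable {S : Set ℝ} {A B x y z : ℝ}

/-- signed number of points of `S` between `x` and `y` -/
noncomputable def cnt (S : Set ℝ) (x y : ℝ) : ℤ :=
  ((S ∩ Ico x y).ncard : ℤ) - ((S ∩ Ico y x).ncard : ℤ)

theorem cnt_self (S : Set ℝ) (x : ℝ) : cnt S x x = 0 := by simp [cnt]

theorem cnt_anti (S : Set ℝ) (x y : ℝ) : cnt S x y = - cnt S y x := by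
  unfold cnt; ring

theorem cnt_le (hxy : x ≤ y) : cnt S x y = ((S ∩ Ico x y).ncard : ℤ) := by
  unfold cnt
  rw [Ico_eq_empty (not_lt.2 hxy)]
  simp

theorem cnt_add1 (hf : (S ∩ Icc x z).Finite) (hxy : x ≤ y) (hyz : y ≤ z) :
    cnt S x y + cnt S y z = cnt S x z := by
  rw [cnt_le hxy, cnt_le hyz, cnt_le (hxy.trans hyz)]
  have hu : S ∩ Ico x z = (S ∩ Ico x y) ∪ (S ∩ Ico y z) := by
    rw [← inter_union_distrib_left, Ico_union_Ico_eq_Ico hxy hyz]
  have hd : Disjoint (S ∩ Ico x y) (S ∩ Ico y z) := by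
    rw [Set.disjoint_left]
    rintro a ⟨-, h1⟩ ⟨-, h2⟩
    exact absurd h1.2 (not_lt.2 h2.1)
  have f1 : (S ∩ Ico x y).Finite := hf.subset (fun a ha =>
    ⟨ha.1, ha.2.1, ha.2.2.le.trans hyz⟩)
  have f2 : (S ∩ Ico y z).Finite := hf.subset (fun a ha =>
    ⟨ha.1, hxy.trans ha.2.1, ha.2.2.le⟩)
  rw [hu, ncard_union_eq hd f1 f2]
  push_cast
  ring

theorem cnt_add (hf : ∀ x y, A < x → y < B → (S ∩ Icc x y).Finite) (hx : A < x ∧ x < B)
    (hy : A < y ∧ y < B) (hz : A < z ∧ z < B) : cnt S x y + cnt S y z = cnt S x z := by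
  rcases le_total x y with h1 | h1 <;> rcases le_total y z with h2 | h2 <;>
    rcases le_total x z with h3 | h3
  · exact cnt_add1 (hf x z hx.1 hz.2) h1 h2
  · have e1 : x = z := le_antisymm (h1.trans h2) h3
    subst e1
    have e2 : x = y := le_antisymm h1 h2
    subst e2
    rw [cnt_self]; rfl
  · have := cnt_add1 (hf x y hx.1 hy.2) h3 h2
    rw [cnt_anti S y z]; linarith
  · have := cnt_add1 (hf z y hz.1 hy.2) h3 h1
    rw [cnt_anti S y z, cnt_anti S x z]; linarith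
  · have := cnt_add1 (hf y z hy.1 hz.2) h1 h3
    rw [cnt_anti S x y]; linarith
  · have := cnt_add1 (hf y x hy.1 hx.2) h2 h3
    rw [cnt_anti S x y, cnt_anti S x z]; linarith
  · have e1 : x = z := le_antisymm h3 (h2.trans h1)
    subst e1
    have e2 : x = y := le_antisymm h2 h1
    subst e2
    rw [cnt_self]; rfl
  · have := cnt_add1 (hf z x hz.1 hx.2) h2 h1
    rw [cnt_anti S x y, cnt_anti S y z, cnt_anti S x z]; linarith

theorem cnt_map {H : ℝ ≃o ℝ} (hH : ∀ x, H x ∈ S ↔ x ∈ S) : cnt S (H x) (H y) = cnt S x y := by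
  have key : ∀ x y, (S ∩ Ico (H x) (H y)).ncard = (S ∩ Ico x y).ncard := by
    intro x y
    have : S ∩ Ico (H x) (H y) = H '' (S ∩ Ico x y) := by
      ext a
      constructor
      · rintro ⟨h1, h2, h3⟩
        refine ⟨H.symm a, ⟨?_, ?_, ?_⟩, H.apply_symm_apply a⟩
        · rw [← hH, H.apply_symm_apply]; exact h1
        · rw [OrderIso.le_symm_apply]; exact h2
        · rw [← H.lt_iff_lt, H.apply_symm_apply]; exact h3
      · rintro ⟨b, ⟨h1, h2, h3⟩, rfl⟩
        exact ⟨(hH b).2 h1, H.le_iff_le.2 h2, H.lt_iff_lt.2 h3⟩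
    rw [this, ncard_image_of_injective _ H.injective]
  unfold cnt
  rw [key, key]

/-- locally finite from isolation -/
theorem fin_of_iso (hi : ∀ p, A < p → p < B → ∃ ε > 0, ∀ s ∈ S, |s - p| < ε → s = p) :
    ∀ x y, A < x → y < B → (S ∩ Icc x y).Finite := by
  intro x y hx hy
  have hK : IsCompact (Icc x y) := isCompact_Icc
  have hch : ∀ p ∈ Icc x y, ∃ U ∈ nhds p, (S ∩ U).Finite := by
    intro p hp
    obtain ⟨ε, hε, h⟩ := hi p (lt_of_lt_of_le hx hp.1) (lt_of_le_of_lt hp.2 hy)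
    refine ⟨Metric.ball p ε, Metric.ball_mem_nhds p hε, (finite_singleton p).subset ?_⟩
    rintro s ⟨h1, h2⟩
    rw [Metric.mem_ball, Real.dist_eq] at h2
    exact h s h1 h2
  choose! U hU hUf using hch
  obtain ⟨t, ht, hc⟩ := hK.elim_nhds_subcover U hU
  refine (t.finite_toSet.biUnion (fun p hp => hUf p (ht p hp))).subset ?_
  rintro s ⟨h1, h2⟩
  obtain ⟨p, hp, hs⟩ := mem_iUnion₂.1 (hc h2)
  exact mem_iUnion₂.2 ⟨p, hp, h1, hs⟩

end Pool.Agent.JB
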