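import Mathlib

/-!
# MP_8ebc20_an, part B: the lamination of the degree seven polynomial (definitions)

Angles are measured in units of `1 / 40353264` turns, `40353264 = 343 (7 ^ 6 - 1)`, so `Γ` has period
`40353264 = N` and all special angles are integers.  `α = {6961528, 8377432, 18288760}`,
`e = {6759256, 18491032, 19906936}`, `ω = {18490444, 6759844}`, `0 = {0, 20176632}`; cuts
`(6960940, 18490444)`, `(2642164, 19936420)`, `(8612716, 14377468)` and the same plus `20176632`.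
-/

set_option autoImplicit false

namespace Pool.Agent.JB

open Set

/-- equality modulo the period -/
def Eqv (x y : ℝ) : Prop := ∃ n : ℤ, x - y = n * 40353264

/-- what part B uses of the Caratheodory loop (in units of `1 / N`) -/
structure Lam (Γ : ℝ → ℂ) (F : ℂ → ℂ) : Prop where
  cont : Continuous Γ
  per : ∀ x, Γ (x + 40353264) = Γ x
  conj : ∀ x, Γ (7 * x) = F (Γ x)
  unl : ∀ a b c e, a < b → b < c → c < e → e < a + 40353264 → Γ a = Γ c → Γ b = Γ e → Γ a = Γ b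
  inj : ∀ s t, Γ s = Γ t → Eqv (7 * s) (7 * t) → Eqv s t
  fib : ∀ x y, Γ y = F (Γ x) → ∃ x', Γ x' = Γ x ∧ Eqv (7 * x') y
  noc : ∀ a b, a < b → ∃ x ∈ Icc a b, Γ x ≠ Γ a
  half : ∀ s t, Γ s = Γ t → Γ (s + 20176632) = Γ (t + 20176632)
  fixa : Γ (7 * 6961528) = Γ 6961528
  fixz : Γ 20176632 = Γ 0
  fixw : Γ (343 * 18490444) = Γ 18490444
  cutX : ∀ s t, Γ s = Γ t → 6960940 < s → s < 18490444 → 18490444 < t →
    t < 6960940 + 40353264 → False
  cutU : ∀ s t, Γ s = Γ t → 2642164 < s → s < 19936420 → 19936420 < t →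
    t < 2642164 + 40353264 → False
  cutW : ∀ s t, Γ s = Γ t → 8612716 < s → s < 14377468 → 14377468 < t →
    t < 8612716 + 40353264 → False

/-- length of `[0, x]` inside the periodic set `[a, a + L] + N ℤ`, normalized at `a` -/
noncomputable def E (a L x : ℝ) : ℝ :=
  L * ⌊(x - a) / 40353264⌋ + min (x - a - 40353264 * ⌊(x - a) / 40353264⌋) L

/-- integer version of `E` -/
def e (a L k : ℤ) : ℤ := L * ((k - a) / 40353264) + min ((k - a) % 40353264) L

/-- the pieces: piece `i` is `[A i, A i + L i] ∪ [B i, B i + (5764752 - L i)]` modulo `N` -/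
def A : Fin 7 → ℤ := ![8612716, 6960940, 2642164, -240212, 22818796, 27137572, 28789348]
/-- length of the first arc -/
def L : Fin 7 → ℤ := ![5764752, 1651776, 4318776, 2882376, 4318776, 1651776, 5764752]
/-- second arcs -/
def B : Fin 7 → ℤ := ![14377468, 14377468, 18490444, 19936420, 38667076, 34554100, 34554100]

/-- the collapse of the circle onto the piece `i` (monotone, degree one) -/
noncomputable def Q (i : Fin 7) (x : ℝ) : ℝ :=
  7 * (E (A i) (L i) x + E (B i) (5764752 - L i) x) + 7 * A i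

/-- integer version of `Q` -/
def q (i : Fin 7) (k : ℤ) : ℤ := 7 * (e (A i) (L i) k + e (B i) (5764752 - L i) k) + 7 * A i

/-- critical values: `V j` is the value of the cut between the pieces `j` and `j + 1` -/
def V : Fin 6 → ℤ := ![19935748, 8373316, 18495148, 38671780, 28549948, 40112380]

/-- `x` is in the closed piece `i` -/
def inP (i : Fin 7) (x : ℝ) : Prop :=
  ∃ n : ℤ, (A i ≤ x + n * 40353264 ∧ x + n * 40353264 ≤ A i + L i) ∨
    (B i ≤ x + n * 40353264 ∧ x + n * 40353264 ≤ B i + (5764752 - L i))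

/-- `x` is in the open piece `i` -/
def inO (i : Fin 7) (x : ℝ) : Prop :=
  ∃ n : ℤ, (A i < x + n * 40353264 ∧ x + n * 40353264 < A i + L i) ∨
    (B i < x + n * 40353264 ∧ x + n * 40353264 < B i + (5764752 - L i))

/-- `s` and `t` are in the same complementary arc of the class of `x` -/
def SA (Γ : ℝ → ℂ) (x s t : ℝ) : Prop :=
  ∃ n : ℤ, ∀ u ∈ uIcc s (t + n * 40353264), Γ u ≠ Γ x

/-- the arc of `t` is the next one (counterclockwise) after the arc of `s` -/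
def NX (Γ : ℝ → ℂ) (x s t : ℝ) : Prop :=
  ∃ n : ℤ, s < t + n * 40353264 ∧ ∃! u, u ∈ Icc s (t + n * 40353264) ∧ Γ u = Γ x

/-- triple points: classes with exactly three angles -/
def IsT (Γ : ℝ → ℂ) (x : ℝ) : Prop :=
  ∃ b c : ℝ, ¬ Eqv x b ∧ ¬ Eqv x c ∧ ¬ Eqv b c ∧ Γ b = Γ x ∧ Γ c = Γ x ∧
    ∀ u, Γ u = Γ x → Eqv u x ∨ Eqv u b ∨ Eqv u c

/-- marks: classes with exactly two angles which are not isolated -/
def IsM (Γ : ℝ → ℂ) (x : ℝ) : Prop :=
  ∃ b : ℝ, ¬ Eqv x b ∧ Γ b = Γ x ∧ (∀ u, Γ u = Γ x → Eqv u x ∨ Eqv u b) ∧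
    ∀ ε : ℝ, 0 < ε → ∃ x' b' : ℝ, |x' - x| < ε ∧ |b' - b| < ε ∧ Γ x' = Γ b' ∧ Γ x' ≠ Γ x

/-- the path from `s` to `t` makes turn one at every triple point, and crosses no mark -/
def Pi (Γ : ℝ → ℂ) (s t : ℝ) : Prop :=
  ∀ x, Γ s ≠ Γ x → Γ t ≠ Γ x → (IsM Γ x → SA Γ x s t) ∧ (IsT Γ x → SA Γ x s t ∨ NX Γ x s t)

/-- no triple point and no mark between `s` and `t` -/
def Near (Γ : ℝ → ℂ) (s t : ℝ) : Prop :=
  ∀ x, Γ s ≠ Γ x → Γ t ≠ Γ x → IsM Γ x ∨ IsT Γ x → SA Γ x s t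

/-- automorphisms of the lamination (in units of `1 / N`) -/
structure Aut (Γ : ℝ → ℂ) (H : ℝ ≃o ℝ) : Prop where
  per : ∀ x, H (x + 40353264) = H x + 40353264
  rel : ∀ x y, Γ x = Γ y ↔ Γ (H x) = Γ (H y)

/-- `c` is the centre of a cluster with main end `m` -/
def R (Γ : ℝ → ℂ) (c m : ℝ) : Prop :=
  IsT Γ c ∧ IsM Γ m ∧ (∀ m', IsM Γ m' → ¬ Pi Γ c m') ∧
    ∃ t, IsT Γ t ∧ Γ t ≠ Γ c ∧ Near Γ c t ∧ Pi Γ t m ∧ ∀ m', IsM Γ m' → Pi Γ t m' → Γ m' = Γ m

end Pool.Agent.JB
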