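import Pool.Agent.Lib.MP_8ebc20_an.B.Arc

/-!
# Part B: equivariance under automorphisms of the lamination
-/

set_option autoImplicit false

namespace Pool.Agent.JB

open Set

variable {Γ : ℝ → ℂ} {F : ℂ → ℂ} {H : ℝ ≃o ℝ} {x y s t c m : ℝ}

theorem Aut.per_int (hH : Aut Γ H) (x : ℝ) (n : ℤ) :
    H (x + n * 40353264) = H x + n * 40353264 := by
  induction n using Int.induction_on with
  | zero => simp
  | succ n ih =>
    have := hH.per (x + (n : ℤ) * 40353264)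
    rw [ih] at this
    push_cast at this ⊢
    rw [show x + ((n : ℝ) + 1) * 40353264 = x + n * 40353264 + 40353264 by ring, this]
    ring
  | pred n ih =>
    have := hH.per (x + ((-(n : ℤ) - 1 : ℤ) : ℝ) * 40353264)
    rw [show x + ((-(n : ℤ) - 1 : ℤ) : ℝ) * 40353264 + 40353264 =
      x + ((-(n : ℤ) : ℤ) : ℝ) * 40353264 by push_cast; ring, ih] at this
    push_cast at this ⊢
    linarith

theorem Aut.symm (hH : Aut Γ H) : Aut Γ H.symm := by
  constructor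
  · intro x
    rw [OrderIso.symm_apply_eq, hH.per, OrderIso.apply_symm_apply]
  · intro x y
    have := hH.rel (H.symm x) (H.symm y)
    rw [OrderIso.apply_symm_apply, OrderIso.apply_symm_apply] at this
    exact this.symm

theorem Aut.refl (Γ : ℝ → ℂ) : Aut Γ (OrderIso.refl ℝ) := ⟨fun _ => rfl, fun _ _ => Iff.rfl⟩

theorem Aut.trans {H' : ℝ ≃o ℝ} (hH : Aut Γ H) (hH' : Aut Γ H') : Aut Γ (H.trans H') := by
  constructor
  · intro x
    simp only [OrderIso.trans_apply]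
    rw [hH.per, hH'.per]
  · intro x y
    simp only [OrderIso.trans_apply]
    rw [hH.rel, hH'.rel]

theorem Aut.eqv (hH : Aut Γ H) : Eqv (H x) (H y) ↔ Eqv x y := by
  constructor
  · rintro ⟨n, hn⟩
    refine ⟨n, ?_⟩
    have : H x = H (y + n * 40353264) := by rw [hH.per_int]; linarith
    have := H.injective this
    linarith
  · rintro ⟨n, hn⟩
    refine ⟨n, ?_⟩
    have : x = y + n * 40353264 := by linarith
    rw [this, hH.per_int]
    ring

theorem Aut.mem_uIcc (H : ℝ ≃o ℝ) {u a b : ℝ} : H u ∈ uIcc (H a) (H b) ↔ u ∈ uIcc a b := by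
  rw [Set.mem_uIcc, Set.mem_uIcc]
  simp only [OrderIso.le_iff_le]

theorem Aut.SA1 (hH : Aut Γ H) (h : SA Γ x s t) : SA Γ (H x) (H s) (H t) := by
  obtain ⟨n, hn⟩ := h
  refine ⟨n, fun u hu hux => ?_⟩
  rw [← hH.per_int, ← H.apply_symm_apply u, Aut.mem_uIcc] at hu
  refine hn _ hu ?_
  rw [hH.rel, H.apply_symm_apply]
  exact hux

theorem Aut.SA_iff (hH : Aut Γ H) : SA Γ (H x) (H s) (H t) ↔ SA Γ x s t := by
  refine ⟨fun h => ?_, hH.SA1⟩
  have := hH.symm.SA1 h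
  simpa using this

theorem Aut.NX1 (hH : Aut Γ H) (h : NX Γ x s t) : NX Γ (H x) (H s) (H t) := by
  obtain ⟨n, hn, u, ⟨⟨hu1, hu2⟩, hu3⟩, huniq⟩ := h
  refine ⟨n, ?_, H u, ⟨⟨?_, ?_⟩, ?_⟩, ?_⟩
  · rw [← hH.per_int]; exact H.lt_iff_lt.2 hn
  · exact H.le_iff_le.2 hu1
  · rw [← hH.per_int]; exact H.le_iff_le.2 hu2
  · exact (hH.rel _ _).1 hu3
  · rintro v ⟨⟨hv1, hv2⟩, hv3⟩
    rw [← hH.per_int] at hv2
    have := huniq (H.symm v) ⟨⟨by rw [OrderIso.le_symm_apply]; exact hv1,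
      by rw [OrderIso.symm_apply_le]; exact hv2⟩, by rw [hH.rel, H.apply_symm_apply]; exact hv3⟩
    rw [← this, H.apply_symm_apply]

theorem Aut.NX_iff (hH : Aut Γ H) : NX Γ (H x) (H s) (H t) ↔ NX Γ x s t := by
  refine ⟨fun h => ?_, hH.NX1⟩
  have := hH.symm.NX1 h
  simpa using this

theorem Aut.IsT1 (hH : Aut Γ H) (h : IsT Γ x) : IsT Γ (H x) := by
  obtain ⟨b, c, h1, h2, h3, h4, h5, h6⟩ := h
  refine ⟨H b, H c, by rwa [hH.eqv], by rwa [hH.eqv], by rwa [hH.eqv], (hH.rel _ _).1 h4,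
    (hH.rel _ _).1 h5, fun u hu => ?_⟩
  have hu' : Γ (H.symm u) = Γ x := by rw [hH.rel, H.apply_symm_apply]; exact hu
  have := h6 _ hu'
  rw [← hH.eqv (x := H.symm u), ← hH.eqv (x := H.symm u), ← hH.eqv (x := H.symm u),
    H.apply_symm_apply] at this
  exact this

theorem Aut.IsT_iff (hH : Aut Γ H) : IsT Γ (H x) ↔ IsT Γ x := by
  refine ⟨fun h => ?_, hH.IsT1⟩
  have := hH.symm.IsT1 h
  simpa using this

theorem Aut.IsM1 (hH : Aut Γ H) (h : IsM Γ x) : IsM Γ (H x) := by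
  obtain ⟨b, h1, h2, h3, h4⟩ := h
  refine ⟨H b, by rwa [hH.eqv], (hH.rel _ _).1 h2, fun u hu => ?_, fun ε hε => ?_⟩
  · have hu' : Γ (H.symm u) = Γ x := by rw [hH.rel, H.apply_symm_apply]; exact hu
    have := h3 _ hu'
    rw [← hH.eqv (x := H.symm u), ← hH.eqv (x := H.symm u), H.apply_symm_apply] at this
    exact this
  · have c1 := Metric.continuous_iff.1 H.continuous x ε hε
    have c2 := Metric.continuous_iff.1 H.continuous b ε hε
    obtain ⟨d1, hd1, c1⟩ := c1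
    obtain ⟨d2, hd2, c2⟩ := c2
    obtain ⟨x', b', e1, e2, e3, e4⟩ := h4 (min d1 d2) (lt_min hd1 hd2)
    refine ⟨H x', H b', ?_, ?_, (hH.rel _ _).1 e3, ?_⟩
    · exact c1 x' (lt_of_lt_of_le e1 (min_le_left _ _))
    · exact c2 b' (lt_of_lt_of_le e2 (min_le_right _ _))
    · rw [Ne, ← hH.rel]; exact e4

theorem Aut.IsM_iff (hH : Aut Γ H) : IsM Γ (H x) ↔ IsM Γ x := by
  refine ⟨fun h => ?_, hH.IsM1⟩
  have := hH.symm.IsM1 h
  simpa using this

theorem Aut.Pi1 (hH : Aut Γ H) (h : Pi Γ s t) : Pi Γ (H s) (H t) := by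
  intro x h1 h2
  have h1' : Γ s ≠ Γ (H.symm x) := by
    rw [Ne, hH.rel, H.apply_symm_apply]; exact h1
  have h2' : Γ t ≠ Γ (H.symm x) := by
    rw [Ne, hH.rel, H.apply_symm_apply]; exact h2
  obtain ⟨g1, g2⟩ := h _ h1' h2'
  rw [← hH.SA_iff, ← hH.IsM_iff, H.apply_symm_apply] at g1
  rw [← hH.SA_iff, ← hH.NX_iff, ← hH.IsT_iff, H.apply_symm_apply] at g2
  exact ⟨g1, g2⟩

theorem Aut.Pi_iff (hH : Aut Γ H) : Pi Γ (H s) (H t) ↔ Pi Γ s t := by
  refine ⟨fun h => ?_, hH.Pi1⟩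
  have := hH.symm.Pi1 h
  simpa using this

theorem Aut.Near1 (hH : Aut Γ H) (h : Near Γ s t) : Near Γ (H s) (H t) := by
  intro x h1 h2
  have h1' : Γ s ≠ Γ (H.symm x) := by
    rw [Ne, hH.rel, H.apply_symm_apply]; exact h1
  have h2' : Γ t ≠ Γ (H.symm x) := by
    rw [Ne, hH.rel, H.apply_symm_apply]; exact h2
  have g1 := h _ h1' h2'
  rw [← hH.SA_iff, ← hH.IsM_iff, ← hH.IsT_iff, H.apply_symm_apply] at g1
  exact g1

theorem Aut.Near_iff (hH : Aut Γ H) : Near Γ (H s) (H t) ↔ Near Γ s t := by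
  refine ⟨fun h => ?_, hH.Near1⟩
  have := hH.symm.Near1 h
  simpa using this

theorem Aut.R1 (hH : Aut Γ H) (h : R Γ c m) : R Γ (H c) (H m) := by
  obtain ⟨h1, h2, h3, t, h4, h5, h6, h7, h8⟩ := h
  refine ⟨hH.IsT1 h1, hH.IsM1 h2, fun m' hm' hp => ?_, H t, hH.IsT1 h4, ?_, hH.Near1 h6,
    hH.Pi1 h7, fun m' hm' hp => ?_⟩
  · rw [← H.apply_symm_apply m', hH.IsM_iff] at hm'
    rw [← H.apply_symm_apply m', hH.Pi_iff] at hp
    exact h3 _ hm' hp
  · rw [Ne, ← hH.rel]; exact h5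
  · rw [← H.apply_symm_apply m', hH.IsM_iff] at hm'
    rw [← H.apply_symm_apply m', hH.Pi_iff] at hp
    have := h8 _ hm' hp
    rw [hH.rel, H.apply_symm_apply] at this
    exact this

theorem Aut.R_iff (hH : Aut Γ H) : R Γ (H c) (H m) ↔ R Γ c m := by
  refine ⟨fun h => ?_, hH.R1⟩
  have := hH.symm.R1 h
  simpa using this

end Pool.Agent.JB
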