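import Pool.Agent.Lib.MP_8ebc20_an.B.Defs

/-!
# Part B: congruence modulo the period, the base classes
-/

set_option autoImplicit false

namespace Pool.Agent.JB

open Set

variable {Γ : ℝ → ℂ} {F : ℂ → ℂ} {x y z : ℝ}

theorem Eqv.refl (x : ℝ) : Eqv x x := ⟨0, by simp⟩

theorem Eqv.symm (h : Eqv x y) : Eqv y x := by
  obtain ⟨n, hn⟩ := h
  exact ⟨-n, by push_cast; linarith⟩

theorem Eqv.trans (h : Eqv x y) (h' : Eqv y z) : Eqv x z := by
  obtain ⟨n, hn⟩ := h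
  obtain ⟨m, hm⟩ := h'
  exact ⟨n + m, by push_cast; linarith⟩

theorem Eqv.add (h : Eqv x y) (c : ℝ) : Eqv (x + c) (y + c) := by
  obtain ⟨n, hn⟩ := h
  exact ⟨n, by linarith⟩

theorem Eqv.seven (h : Eqv x y) : Eqv (7 * x) (7 * y) := by
  obtain ⟨n, hn⟩ := h
  exact ⟨7 * n, by push_cast; linarith⟩

theorem Eqv.add_int (x : ℝ) (n : ℤ) : Eqv (x + n * 40353264) x := ⟨n, by ring⟩

theorem eqv_int {a b : ℤ} (h : (a - b) % 40353264 = 0) : Eqv (a : ℝ) (b : ℝ) := by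
  obtain ⟨n, hn⟩ := Int.dvd_of_emod_eq_zero h
  refine ⟨n, ?_⟩
  have : ((a - b : ℤ) : ℝ) = ((40353264 * n : ℤ) : ℝ) := by rw [hn]
  push_cast at this
  linarith

theorem not_eqv_int {a b : ℤ} (h : (a - b) % 40353264 ≠ 0) : ¬ Eqv (a : ℝ) (b : ℝ) := by
  rintro ⟨n, hn⟩
  apply h
  have h1 : ((a - b : ℤ) : ℝ) = ((40353264 * n : ℤ) : ℝ) := by push_cast; linarith
  have h2 : a - b = 40353264 * n := by exact_mod_cast h1
  rw [h2]
  simp

theorem Lam.per_int (h : Lam Γ F) (x : ℝ) (n : ℤ) : Γ (x + n * 40353264) = Γ x := by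
  have hp : Function.Periodic Γ 40353264 := h.per
  have := hp.int_mul n x
  simpa using this

theorem Lam.congr (h : Lam Γ F) (hxy : Eqv x y) : Γ x = Γ y := by
  obtain ⟨n, hn⟩ := hxy
  have : x = y + n * 40353264 := by linarith
  rw [this, h.per_int]

theorem Lam.conjEq (h : Lam Γ F) (hxy : Γ x = Γ y) : Γ (7 * x) = Γ (7 * y) := by
  rw [h.conj, h.conj, hxy]

theorem Lam.pow (h : Lam Γ F) (hxy : Γ x = Γ y) (n : ℕ) : Γ (7 ^ n * x) = Γ (7 ^ n * y) := by
  induction n with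
  | zero => simpa using hxy
  | succ n ih =>
    have := h.conjEq ih
    rw [← mul_assoc, ← mul_assoc, ← pow_succ'] at this
    exact this

/-- the class of `α` -/
theorem Lam.al1 (h : Lam Γ F) : Γ 8377432 = Γ 6961528 := by
  rw [← h.fixa]
  exact (h.congr ⟨1, by norm_num⟩).symm

theorem Lam.al2 (h : Lam Γ F) : Γ 18288760 = Γ 6961528 := by
  have h1 : Γ (7 * 8377432) = Γ (7 * 6961528) := h.conjEq h.al1
  rw [h.fixa] at h1
  rw [← h1]
  exact (h.congr ⟨1, by norm_num⟩).symm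

/-- the classes of the cycle of `ω` -/
theorem Lam.om0 (h : Lam Γ F) : Γ 6759844 = Γ 18490444 := by
  rw [← h.fixw]
  exact (h.congr ⟨157, by norm_num⟩).symm

theorem Lam.om1 (h : Lam Γ F) : Γ 6965644 = Γ 8373316 := by
  have h1 := h.conjEq h.om0
  rw [h.congr (x := 7 * 6759844) (y := 6965644) ⟨1, by norm_num⟩,
    h.congr (x := 7 * 18490444) (y := 8373316) ⟨3, by norm_num⟩] at h1
  exact h1

theorem Lam.om2 (h : Lam Γ F) : Γ 8406244 = Γ 18259948 := by
  have h1 := h.conjEq h.om1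
  rw [h.congr (x := 7 * 6965644) (y := 8406244) ⟨1, by norm_num⟩,
    h.congr (x := 7 * 8373316) (y := 18259948) ⟨1, by norm_num⟩] at h1
  exact h1

end Pool.Agent.JB
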