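import Pool.Agent.Lib.MP_8ebc20_an.B.Gen

/-!
# Part B: no finitely generated dense subgroup
-/

set_option autoImplicit false

namespace Pool.Agent.JB

open Set

variable {Γ : ℝ → ℂ} {F : ℂ → ℂ} {x y : ℝ} {H K : ℝ ≃o ℝ}

theorem neg_int (hneg : ∀ x, Γ (x + 20176632) = - Γ x) (a : ℤ) :
    (∀ x, Γ (x + a * 20176632) = Γ x) ∧ Even a ∨ (∀ x, Γ (x + a * 20176632) = - Γ x) ∧ Odd a := by
  have h2 : ∀ x, Γ (x + 40353264) = Γ x := by
    intro x
    rw [show x + 40353264 = x + 20176632 + 20176632 by ring, hneg, hneg, neg_neg]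
  have hper : Function.Periodic Γ 40353264 := h2
  rcases Int.even_or_odd a with ⟨b, hb⟩ | ⟨b, hb⟩
  · left
    refine ⟨fun x => ?_, ⟨b, hb⟩⟩
    have := hper.int_mul b x
    rw [← this]
    congr 1
    rw [hb]; push_cast; ring
  · right
    refine ⟨fun x => ?_, ⟨b, hb⟩⟩
    have := hper.int_mul b (x + 20176632)
    rw [hneg] at this
    rw [← this]
    congr 1
    rw [hb]; push_cast; ring

theorem Lam.tr_aut (_h : Lam Γ F) (hneg : ∀ x, Γ (x + 20176632) = - Γ x) (a : ℤ) :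
    Aut Γ (OrderIso.addRight ((a : ℝ) * 20176632)) := by
  constructor
  · intro x
    simp only [OrderIso.addRight_apply]
    ring
  · intro x y
    simp only [OrderIso.addRight_apply]
    rcases neg_int hneg a with ⟨g, -⟩ | ⟨g, -⟩
    · rw [g, g]
    · rw [g, g, neg_inj]

/-- normal form of an automorphism -/
theorem Lam.norm_form (h : Lam Γ F) (hneg : ∀ x, Γ (x + 20176632) = - Γ x) (hH : Aut Γ H) :
    ∃ (K : ℝ ≃o ℝ) (a : ℤ), G0 Γ K ∧ ∀ x, H x = K x + a * 20176632 := by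
  have h0 := (h.rigid hH).1
  have ha : ∃ a : ℤ, H 0 = a * 20176632 := by
    rcases h.exact0 h0 with ⟨n, hn⟩ | ⟨n, hn⟩
    · exact ⟨2 * n, by push_cast; linarith⟩
    · exact ⟨2 * n + 1, by push_cast; linarith⟩
  obtain ⟨a, ha⟩ := ha
  refine ⟨H.trans (OrderIso.addRight (((-a : ℤ) : ℝ) * 20176632)), a,
    ⟨hH.trans (h.tr_aut hneg (-a)), ?_⟩, fun x => ?_⟩
  · rw [OrderIso.trans_apply, OrderIso.addRight_apply, ha]
    push_cast; ring
  · rw [OrderIso.trans_apply, OrderIso.addRight_apply]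
    push_cast; ring

/-- commuting with half translations -/
theorem Lam.half_shift (h : Lam Γ F) (hH : G0 Γ H) (a : ℤ) :
    ∃ K : ℝ ≃o ℝ, G0 Γ K ∧ (∀ x, H (x + a * 20176632) = K x + a * 20176632) ∧
      ∀ k, psi Γ k K = psi Γ k H := by
  rcases Int.even_or_odd a with ⟨b, hb⟩ | ⟨b, hb⟩
  · refine ⟨H, hH, fun x => ?_, fun k => rfl⟩
    have := hH.aut.per_int x b
    rw [hb]
    push_cast
    rw [show x + ((b : ℝ) + b) * 20176632 = x + b * 40353264 by ring, this]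
    ring
  · refine ⟨cj H, hH.cj h, fun x => ?_, fun k => psi_cj k hH.aut⟩
    have := hH.aut.per_int (x + 20176632) b
    rw [cj_apply, hb]
    push_cast
    rw [show x + (2 * (b : ℝ) + 1) * 20176632 = x + 20176632 + b * 40353264 by ring, this]
    ring

/-- the vector of invariants -/
noncomputable def pv (Γ : ℝ → ℂ) (n : ℕ) (H : ℝ ≃o ℝ) : Fin n → ℚ := fun j => (psi Γ j H : ℚ)

theorem Lam.pv_trans (h : Lam Γ F) (n : ℕ) (hH : G0 Γ H) (hK : G0 Γ K) :
    pv Γ n (H.trans K) = pv Γ n H + pv Γ n K := by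
  funext j
  simp only [pv, Pi.add_apply, h.psi_trans j hH hK]
  push_cast
  rfl

theorem Lam.pv_symm (h : Lam Γ F) (n : ℕ) (hH : G0 Γ H) : pv Γ n H.symm = - pv Γ n H := by
  funext j
  simp only [pv, Pi.neg_apply, h.psi_symm j hH]
  push_cast
  rfl

theorem fin_min {n : ℕ} (e : Fin n → ℝ) (he : ∀ j, 0 < e j) (c : ℝ) (hc : 0 < c) :
    ∃ ε > 0, ε ≤ c ∧ ∀ j, ε ≤ e j := by
  induction n with
  | zero => exact ⟨c, hc, le_refl _, fun j => j.elim0⟩
  | succ n ih =>
    obtain ⟨ε, h1, h2, h3⟩ := ih (fun j => e j.succ) (fun j => he _)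
    refine ⟨min ε (e 0), lt_min h1 (he 0), (min_le_left _ _).trans h2, fun j => ?_⟩
    refine Fin.cases (min_le_right _ _) (fun j => ?_) j
    exact (min_le_left _ _).trans (h3 j)

/-- PART B: the group of homeomorphisms of `J` which lift has no finitely generated dense
subgroup -/
theorem Lam.main (h : Lam Γ F) (hneg : ∀ x, Γ (x + 20176632) = - Γ x) {J : Set ℂ}
    (hJ : ∀ x, Γ x ∈ J) (hJ' : ∀ z ∈ J, ∃ x, Γ x = z) (Ext : (J ≃ₜ J) → Prop)
    (A1 : ∀ g : J ≃ₜ J, Ext g → ∃ H : ℝ ≃o ℝ, (∀ x, H (x + 40353264) = H x + 40353264) ∧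
      ∀ x, ((g ⟨Γ x, hJ x⟩ : J) : ℂ) = Γ (H x))
    (A2 : ∀ H : ℝ ≃o ℝ, (∀ x, H (x + 40353264) = H x + 40353264) →
      (∀ x y, Γ x = Γ y ↔ Γ (H x) = Γ (H y)) →
      ∃ g : J ≃ₜ J, Ext g ∧ ∀ x, ((g ⟨Γ x, hJ x⟩ : J) : ℂ) = Γ (H x)) :
    ¬ ∃ S : Set (J ≃ₜ J), S.Finite ∧ (∀ g ∈ S, Ext g) ∧ ∀ k : J ≃ₜ J, Ext k →
      ∀ ε : ℝ, 0 < ε → ∃ g ∈ Subgroup.closure S, ∀ z : J, dist (g z : ℂ) (k z : ℂ) < ε := by
  rintro ⟨S, hS, hSE, hd⟩
  -- lifts of the generators
  have hlift : ∀ g ∈ S, ∃ (K : ℝ ≃o ℝ) (a : ℤ), G0 Γ K ∧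
      ∀ x, ((g ⟨Γ x, hJ x⟩ : J) : ℂ) = Γ (K x + a * 20176632) := by
    intro g hg
    obtain ⟨H, h1, h2⟩ := A1 g (hSE g hg)
    have hH : Aut Γ H := by
      refine ⟨h1, fun x y => ?_⟩
      rw [← h2, ← h2]
      constructor
      · intro e
        have : (⟨Γ x, hJ x⟩ : J) = ⟨Γ y, hJ y⟩ := Subtype.ext e
        rw [this]
      · intro e
        have := g.injective (Subtype.ext e)
        exact congrArg Subtype.val this
    obtain ⟨K, a, k1, k2⟩ := h.norm_form hneg hH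
    exact ⟨K, a, k1, fun x => by rw [h2, k2]⟩
  choose! L A hL1 hL2 using hlift
  set n := S.ncard + 1 with hn
  set W : Submodule ℚ (Fin n → ℚ) := Submodule.span ℚ ((fun g => pv Γ n (L g)) '' S) with hW
  have hP : ∀ g ∈ Subgroup.closure S, ∃ (K : ℝ ≃o ℝ) (a : ℤ), G0 Γ K ∧
      (∀ x, ((g ⟨Γ x, hJ x⟩ : J) : ℂ) = Γ (K x + a * 20176632)) ∧ pv Γ n K ∈ W := by
    intro g hg
    induction hg using Subgroup.closure_induction with
    | mem g hg => exact ⟨L g, A g, hL1 g hg, hL2 g hg, Submodule.subset_span ⟨g, hg, rfl⟩⟩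
    | one =>
      refine ⟨OrderIso.refl ℝ, 0, ⟨Aut.refl Γ, rfl⟩, fun x => ?_, ?_⟩
      · simp
      · have : pv Γ n (OrderIso.refl ℝ) = 0 := by
          funext j
          simp [pv, psi_refl]
        rw [this]; exact W.zero_mem
    | mul g₁ g₂ _ _ ih₁ ih₂ =>
      obtain ⟨K₁, a₁, p1, p2, p3⟩ := ih₁
      obtain ⟨K₂, a₂, q1, q2, q3⟩ := ih₂
      obtain ⟨K, r1, r2, r3⟩ := h.half_shift p1 a₂
      refine ⟨K₂.trans K, a₁ + a₂, q1.trans r1, fun x => ?_, ?_⟩
      · have e : g₂ ⟨Γ x, hJ x⟩ = ⟨Γ (K₂ x + a₂ * 20176632), hJ _⟩ := Subtype.ext (q2 x)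
        rw [Homeomorph.mul_apply, e, p2, r2, OrderIso.trans_apply]
        congr 1
        push_cast
        ring
      · rw [h.pv_trans n q1 r1]
        have e : pv Γ n K = pv Γ n K₁ := by
          funext j
          simp [pv, r3]
        rw [e]
        exact W.add_mem q3 p3
    | inv g _ ih =>
      obtain ⟨K, a, p1, p2, p3⟩ := ih
      obtain ⟨K', r1, r2, r3⟩ := h.half_shift p1.symm (-a)
      refine ⟨K', -a, r1, fun y => ?_, ?_⟩
      · have e1 : g ⟨Γ (K.symm (y + ((-a : ℤ) : ℝ) * 20176632)), hJ _⟩ = ⟨Γ y, hJ y⟩ := by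
          apply Subtype.ext
          rw [p2, K.apply_symm_apply]
          congr 1
          push_cast
          ring
        have e2 : g⁻¹ ⟨Γ y, hJ y⟩ = ⟨Γ (K.symm (y + ((-a : ℤ) : ℝ) * 20176632)), hJ _⟩ := by
          rw [← e1]
          exact g.symm_apply_apply _
        rw [e2, r2]
      · have e : pv Γ n K' = - pv Γ n K := by
          rw [← h.pv_symm n p1]
          funext j
          simp [pv, r3]
        rw [e]
        exact W.neg_mem p3
  -- density gives the coordinate vectors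
  have hA : Γ 6961528 ≠ - Γ 6961528 := by
    have := h.A_ne_B
    rw [show (27138160 : ℝ) = 6961528 + 20176632 by norm_num, hneg] at this
    exact this
  have hc : 0 < ‖- Γ 6961528 - Γ 6961528‖ := by
    rw [norm_pos_iff, sub_ne_zero]
    exact hA.symm
  have hk : ∀ k : Fin n, pv Γ n (HH k) ∈ W := by
    intro k
    have g0 := h.HH_G0 k
    obtain ⟨e, he1, he2⟩ : ∃ e : Fin n → ℝ, (∀ j, 0 < e j) ∧ ∀ j K, G0 Γ K →
        (∀ x, ‖Γ (K x) - Γ (HH k x)‖ < e j) → psi Γ j K = psi Γ j (HH k) := by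
      have := fun j : Fin n => h.psi_close hneg j g0
      choose e h1 h2 using this
      exact ⟨e, h1, h2⟩
    obtain ⟨ε, hε, hεc, hεj⟩ := fin_min e he1 _ hc
    obtain ⟨gk, gk1, gk2⟩ := A2 (HH k) (HH_per k) g0.aut.rel
    obtain ⟨g, hg1, hg2⟩ := hd gk gk1 ε hε
    obtain ⟨K, a, p1, p2, p3⟩ := hP g hg1
    have hx : ∀ x, ‖Γ (K x + a * 20176632) - Γ (HH k x)‖ < ε := by
      intro x
      have := hg2 ⟨Γ x, hJ x⟩
      rw [p2, gk2, dist_eq_norm] at this
      exact this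
    have hev : ∀ x, Γ (x + a * 20176632) = Γ x := by
      rcases neg_int hneg a with ⟨g, -⟩ | ⟨g, -⟩
      · exact g
      · exfalso
        have := hx 6961528
        rw [g, p1.A h, g0.A h] at this
        linarith
    have hfin : pv Γ n K = pv Γ n (HH k) := by
      funext j
      simp only [pv]
      rw [he2 j K p1 (fun x => ?_)]
      have := hx x
      rw [hev] at this
      exact lt_of_lt_of_le this (hεj j)
    rw [← hfin]
    exact p3
  have hbasis : ∀ k : Fin n, Pi.single k (1 : ℚ) ∈ W := by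
    intro k
    have h1 : pv Γ n (HH k) = (psi Γ k (HH k) : ℚ) • Pi.single k (1 : ℚ) := by
      funext j
      simp only [pv, Pi.smul_apply, smul_eq_mul]
      by_cases hjk : j = k
      · subst hjk; simp
      · rw [Pi.single_eq_of_ne hjk, psi_HH_ne (fun e => hjk (Fin.ext e))]
        simp
    have h2 : (psi Γ k (HH k) : ℚ) ≠ 0 := by exact_mod_cast h.psi_HH_self k
    have h3 := W.smul_mem ((psi Γ k (HH k) : ℚ)⁻¹) (hk k)
    rw [h1, smul_smul, inv_mul_cancel₀ h2, one_smul] at h3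
    exact h3
  have htop : W = ⊤ := by
    rw [eq_top_iff]
    intro v _
    rw [pi_eq_sum_univ v]
    refine W.sum_mem (fun k _ => W.smul_mem _ ?_)
    have := hbasis k
    convert this using 1
    funext j
    simp [Pi.single_apply, eq_comm]
  have hrank : Module.finrank ℚ W ≤ S.ncard := by
    have hfin : ((fun g => pv Γ n (L g)) '' S).Finite := hS.image _
    haveI := hfin.fintype
    have h1 := finrank_span_le_card (R := ℚ) ((fun g => pv Γ n (L g)) '' S)
    refine h1.trans ?_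
    rw [Set.toFinset_card, ← Nat.card_eq_fintype_card, Nat.card_coe_set_eq]
    exact Set.ncard_image_le hS
  rw [htop, finrank_top, Module.finrank_fin_fun] at hrank
  omega

end Pool.Agent.JB
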