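import Mathlib

/-!
# Part B: periodic extension of homeomorphisms of an interval
-/

set_option autoImplicit false

namespace Pool.Agent.JB

open Set

/-- floor -/
noncomputable def fl (x : ℝ) : ℤ := ⌊x / 40353264⌋

theorem fl_spec (x : ℝ) : (fl x : ℝ) * 40353264 ≤ x ∧ x < (fl x + 1) * 40353264 := by
  unfold fl
  constructor
  · have := Int.floor_le (x / 40353264)
    rwa [le_div_iff₀ (by norm_num)] at this
  · have := Int.lt_floor_add_one (x / 40353264)
    rwa [div_lt_iff₀ (by norm_num)] at this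

theorem fl_eq {x : ℝ} {n : ℤ} (h1 : (n : ℝ) * 40353264 ≤ x) (h2 : x < (n + 1) * 40353264) :
    fl x = n := by
  unfold fl
  rw [Int.floor_eq_iff]
  constructor
  · rw [le_div_iff₀ (by norm_num)]; exact h1
  · rw [div_lt_iff₀ (by norm_num)]; exact h2

/-- periodic extension -/
noncomputable def pe (f : ℝ → ℝ) (x : ℝ) : ℝ :=
  f (x - fl x * 40353264) + fl x * 40353264

variable {f g : ℝ → ℝ}

theorem pe_at (f : ℝ → ℝ) {x : ℝ} (n : ℤ) (h1 : (n : ℝ) * 40353264 ≤ x)
    (h2 : x < (n + 1) * 40353264) :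
    pe f x = f (x - n * 40353264) + n * 40353264 := by
  unfold pe
  rw [fl_eq h1 h2]

theorem pe_per (f : ℝ → ℝ) (x : ℝ) : pe f (x + 40353264) = pe f x + 40353264 := by
  obtain ⟨h1, h2⟩ := fl_spec x
  rw [pe_at f (fl x + 1) (x := x + 40353264) (by push_cast; linarith) (by push_cast; linarith)]
  unfold pe
  push_cast
  rw [show x + 40353264 - ((fl x : ℝ) + 1) * 40353264 = x - fl x * 40353264 by ring]
  ring

theorem pe_range (hf : StrictMono f) (h0 : f 0 = 0) (hN : f 40353264 = 40353264) (x : ℝ) :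
    (fl x : ℝ) * 40353264 ≤ pe f x ∧ pe f x < (fl x + 1) * 40353264 := by
  obtain ⟨h1, h2⟩ := fl_spec x
  unfold pe
  constructor
  · have : f 0 ≤ f (x - fl x * 40353264) := hf.monotone (by linarith)
    rw [h0] at this
    linarith
  · have : f (x - fl x * 40353264) < f 40353264 := hf (by linarith)
    rw [hN] at this
    linarith

theorem pe_mono (hf : StrictMono f) (h0 : f 0 = 0) (hN : f 40353264 = 40353264) :
    StrictMono (pe f) := by
  intro x y hxy
  obtain ⟨h1, h2⟩ := fl_spec x
  obtain ⟨h3, h4⟩ := fl_spec y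
  have h5 : fl x ≤ fl y := by
    unfold fl
    exact Int.floor_le_floor (by gcongr)
  rcases eq_or_lt_of_le h5 with e | e
  · unfold pe
    rw [← e]
    have := hf (show x - fl x * 40353264 < y - fl x * 40353264 by linarith)
    linarith
  · have r1 := (pe_range hf h0 hN x).2
    have r2 := (pe_range hf h0 hN y).1
    have e' : (fl x : ℝ) + 1 ≤ fl y := by exact_mod_cast e
    nlinarith

theorem pe_inv (hg : StrictMono g) (h0 : g 0 = 0) (hN : g 40353264 = 40353264)
    (hfg : ∀ x, f (g x) = x) (x : ℝ) : pe f (pe g x) = x := by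
  obtain ⟨r1, r2⟩ := pe_range hg h0 hN x
  rw [pe_at f (fl x) r1 r2]
  unfold pe
  rw [add_sub_cancel_right, hfg]
  ring

/-- periodic extension as an order isomorphism -/
noncomputable def peI (f : ℝ ≃o ℝ) (h0 : f 0 = 0) (hN : f 40353264 = 40353264) : ℝ ≃o ℝ :=
  StrictMono.orderIsoOfRightInverse (pe f) (pe_mono f.strictMono h0 hN) (pe f.symm)
    (pe_inv (f := f) (g := f.symm) f.symm.strictMono
      (by rw [OrderIso.symm_apply_eq, h0]) (by rw [OrderIso.symm_apply_eq, hN])
      (fun x => f.apply_symm_apply x))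

theorem peI_apply (f : ℝ ≃o ℝ) (h0 : f 0 = 0) (hN : f 40353264 = 40353264) (x : ℝ) :
    peI f h0 hN x = pe f x := rfl

end Pool.Agent.JB
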