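import Pool.Agent.Lib.MP_8ebc20_an.B.Pk
import Pool.Agent.Lib.MP_8ebc20_an.B.Per

/-!
# Part B: the automorphisms `HH k`
-/

set_option autoImplicit false

namespace Pool.Agent.JB

open Set

variable {Γ : ℝ → ℂ} {F : ℂ → ℂ} {x x' y s t s' t' u b z m m' c c' v w w' g g' r p q : ℝ}
  {i : Fin 7} {H K : ℝ ≃o ℝ}

noncomputable def up (p q x : ℝ) : ℝ := max x (min (p + 343 * (x - p)) (q + (x - q) / 343))
noncomputable def dn (p q x : ℝ) : ℝ := min x (max (p + (x - p) / 343) (q + 343 * (x - q)))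

theorem up_out (hx : x ≤ p ∨ q ≤ x) : up p q x = x := by
  unfold up
  apply max_eq_left
  rcases hx with hx | hx
  · exact (min_le_left _ _).trans (by linarith)
  · exact (min_le_right _ _).trans (by linarith)

theorem dn_out (hx : x ≤ p ∨ q ≤ x) : dn p q x = x := by
  unfold dn
  apply min_eq_left
  rcases hx with hx | hx
  · exact le_trans (by linarith) (le_max_left _ _)
  · exact le_trans (by linarith) (le_max_right _ _)

theorem up_mono (p q : ℝ) : StrictMono (up p q) := by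
  intro x y h
  unfold up
  exact max_lt_max h (min_lt_min (by linarith) (by linarith))

theorem dn_mono (p q : ℝ) : StrictMono (dn p q) := by
  intro x y h
  unfold dn
  exact min_lt_min h (max_lt_max (by linarith) (by linarith))

theorem up_dn (x : ℝ) : up p q (dn p q x) = x := by
  by_cases hx : x ≤ p ∨ q ≤ x
  · rw [dn_out hx, up_out hx]
  · push Not at hx
    unfold dn
    rw [min_eq_right (max_le (by linarith) (by linarith))]
    rcases le_total (p + (x - p) / 343) (q + 343 * (x - q)) with h | h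
    · rw [max_eq_right h]
      unfold up
      rw [min_eq_right (by linarith), max_eq_right (by linarith)]
      ring
    · rw [max_eq_left h]
      unfold up
      rw [min_eq_left (by linarith), max_eq_right (by linarith)]
      ring

theorem dn_up (x : ℝ) : dn p q (up p q x) = x := by
  by_cases hx : x ≤ p ∨ q ≤ x
  · rw [up_out hx, dn_out hx]
  · push Not at hx
    unfold up
    rw [max_eq_right (le_min (by linarith) (by linarith))]
    rcases le_total (p + 343 * (x - p)) (q + (x - q) / 343) with h | h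
    · rw [min_eq_left h]
      unfold dn
      rw [max_eq_left (by linarith), min_eq_right (by linarith)]
      ring
    · rw [min_eq_right h]
      unfold dn
      rw [max_eq_right (by linarith), min_eq_right (by linarith)]
      ring

noncomputable def upI (p q : ℝ) : ℝ ≃o ℝ :=
  StrictMono.orderIsoOfRightInverse (up p q) (up_mono p q) (dn p q) up_dn
noncomputable def dnI (p q : ℝ) : ℝ ≃o ℝ :=
  StrictMono.orderIsoOfRightInverse (dn p q) (dn_mono p q) (up p q) dn_up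

/-- one period of the generator -/
noncomputable def ff (k : ℕ) : ℝ ≃o ℝ :=
  (dnI (20176632 - 269696 / 7 ^ k) (20176632 - 240800 / 7 ^ k)).trans
    (upI (6730360 / 7 ^ k) (6759256 / 7 ^ k))

theorem ff_apply (k : ℕ) (x : ℝ) : ff k x = up (6730360 / 7 ^ k) (6759256 / 7 ^ k)
    (dn (20176632 - 269696 / 7 ^ k) (20176632 - 240800 / 7 ^ k) x) := rfl

theorem k_bds (k : ℕ) : 0 < (6730360 : ℝ) / 7 ^ k ∧ (6730360 : ℝ) / 7 ^ k < 6759256 / 7 ^ k ∧
    (6759256 : ℝ) / 7 ^ k ≤ 6759256 ∧ 0 < (240800 : ℝ) / 7 ^ k ∧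
    (240800 : ℝ) / 7 ^ k < 269696 / 7 ^ k ∧ (269696 : ℝ) / 7 ^ k ≤ 269696 ∧
    (1 : ℝ) ≤ 7 ^ k := by
  have h1 : (1 : ℝ) ≤ 7 ^ k := one_le_pow₀ (by norm_num)
  have h0 : (0 : ℝ) < 7 ^ k := by positivity
  refine ⟨by positivity, by gcongr; norm_num, ?_, by positivity, by gcongr; norm_num, ?_, h1⟩
  · rw [div_le_iff₀ h0]; nlinarith
  · rw [div_le_iff₀ h0]; nlinarith

theorem ff_DD {k : ℕ} (hx : DD (7 ^ k) x) : ff k x = hh (7 ^ k) x := by
  obtain ⟨b1, b2, b3, b4, b5, b6, b7⟩ := k_bds k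
  rw [ff_apply]
  rcases hx with ⟨h1, h2⟩ | ⟨h1, h2⟩
  · rw [dn_out (Or.inl (by linarith))]
    unfold hh
    rw [if_pos (by linarith)]
    rfl
  · obtain ⟨g1, g2⟩ := hL_rng h1 h2
    unfold hh
    rw [if_neg (by linarith)]
    rw [show dn (20176632 - 269696 / 7 ^ k) (20176632 - 240800 / 7 ^ k) x = hL (7 ^ k) x from rfl]
    exact up_out (Or.inr (by linarith))

theorem hh_DD {k : ℕ} (hx : DD (7 ^ k) x) : DD (7 ^ k) (hh (7 ^ k) x) := by
  obtain ⟨b1, b2, b3, b4, b5, b6, b7⟩ := k_bds k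
  rcases hx with ⟨h1, h2⟩ | ⟨h1, h2⟩
  · obtain ⟨g1, g2⟩ := hR_rng h1 h2
    unfold hh
    rw [if_pos (by linarith)]
    exact Or.inl ⟨by linarith, g2⟩
  · obtain ⟨g1, g2⟩ := hL_rng h1 h2
    unfold hh
    rw [if_neg (by linarith)]
    exact Or.inr ⟨g1, by linarith⟩

theorem ff_out {k : ℕ} (hx : ¬ DD (7 ^ k) x) : ff k x = x := by
  obtain ⟨b1, b2, b3, b4, b5, b6, b7⟩ := k_bds k
  unfold DD at hx
  push Not at hx
  obtain ⟨h1, h2⟩ := hx
  rw [ff_apply]
  have e : dn (20176632 - 269696 / 7 ^ k) (20176632 - 240800 / 7 ^ k) x = x := by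
    apply dn_out
    rcases le_or_gt x (20176632 - 269696 / 7 ^ k) with h | h
    · exact Or.inl h
    · exact Or.inr (h2 h.le).le
  rw [e]
  apply up_out
  rcases le_or_gt x (6730360 / 7 ^ k) with h | h
  · exact Or.inl h
  · exact Or.inr (h1 h.le).le

theorem ff_0 (k : ℕ) : ff k 0 = 0 := by
  obtain ⟨b1, b2, b3, b4, b5, b6, b7⟩ := k_bds k
  apply ff_out
  rintro (⟨h1, h2⟩ | ⟨h1, h2⟩) <;> linarith
theorem ff_N (k : ℕ) : ff k 40353264 = 40353264 := by
  obtain ⟨b1, b2, b3, b4, b5, b6, b7⟩ := k_bds k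
  apply ff_out
  rintro (⟨h1, h2⟩ | ⟨h1, h2⟩) <;> linarith

/-- the generator of the strip `k` -/
noncomputable def HH (k : ℕ) : ℝ ≃o ℝ := peI (ff k) (ff_0 k) (ff_N k)

theorem HH_apply (k : ℕ) (x : ℝ) (h0 : 0 ≤ x) (h1 : x < 40353264) : HH k x = ff k x := by
  unfold HH
  rw [peI_apply, pe_at (ff k) 0 (by push_cast; linarith) (by push_cast; linarith)]
  push_cast
  rw [zero_mul, sub_zero, add_zero]

theorem HH_per (k : ℕ) (x : ℝ) : HH k (x + 40353264) = HH k x + 40353264 := by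
  unfold HH
  rw [peI_apply, peI_apply, pe_per]

theorem hh_ends (k : ℕ) : DD (7 ^ k) (6730360 / 7 ^ k) ∧ DD (7 ^ k) (6759256 / 7 ^ k) ∧
    hh (7 ^ k) (6730360 / 7 ^ k) = 6730360 / 7 ^ k ∧
    hh (7 ^ k) (6759256 / 7 ^ k) = 6759256 / 7 ^ k := by
  obtain ⟨b1, b2, b3, b4, b5, b6, b7⟩ := k_bds k
  refine ⟨Or.inl ⟨le_refl _, b2.le⟩, Or.inl ⟨b2.le, le_refl _⟩, ?_, ?_⟩
  · unfold hh
    rw [if_pos (by linarith)]
    exact up_out (Or.inl (le_refl _))
  · unfold hh
    rw [if_pos (by linarith)]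
    exact up_out (Or.inr (le_refl _))

/-- a class meeting the strip and its complement is the class of an end -/
theorem Lam.ends (h : Lam Γ F) {k : ℕ} (hx : DD (7 ^ k) x) (hy : ¬ DD (7 ^ k) y)
    (h0 : 0 ≤ y) (h1 : y < 40353264) (he : Γ x = Γ y) :
    Γ x = Γ (6730360 / 7 ^ k) ∨ Γ x = Γ (6759256 / 7 ^ k) := by
  obtain ⟨b1, b2, b3, b4, b5, b6, b7⟩ := k_bds k
  obtain ⟨v1, v2, v3, v4⟩ := strip_vals k
  have e0 := (h.t_eq (2 * k)).1
  have e1 := (h.t_eq (2 * k + 1)).1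
  rw [v1, v3] at e0
  rw [v2, v4] at e1
  unfold DD at hx hy
  push Not at hy
  obtain ⟨y1, y2⟩ := hy
  rcases lt_or_ge y (6730360 / 7 ^ k) with c1 | c1
  · left
    refine h.sepLeaf (y := y) e1 ?_ ?_ (Or.inl c1.le) (by linarith) (by linarith) he
    · rcases hx with hx | hx <;> linarith [hx.1, hx.2]
    · rcases hx with hx | hx <;> linarith [hx.1, hx.2]
  · have c2 := y1 c1
    rcases lt_or_ge y (20176632 - 269696 / 7 ^ k) with c3 | c3
    · right
      rw [he]
      refine h.sepLeaf (y := x) e0 c2.le c3.le ?_ ?_ ?_ he.symm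
      · rcases hx with hx | hx
        · exact Or.inl hx.2
        · exact Or.inr hx.1
      · rcases hx with hx | hx <;> linarith [hx.1, hx.2]
      · rcases hx with hx | hx <;> linarith [hx.1, hx.2]
    · left
      have c4 := y2 c3
      refine h.sepLeaf (y := y) e1 ?_ ?_ (Or.inr c4.le) (by linarith) (by linarith) he
      · rcases hx with hx | hx <;> linarith [hx.1, hx.2]
      · rcases hx with hx | hx <;> linarith [hx.1, hx.2]

theorem Lam.HH_mix (h : Lam Γ F) {k : ℕ} (hx : DD (7 ^ k) x) (hy : ¬ DD (7 ^ k) y)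
    (h0 : 0 ≤ y) (h1 : y < 40353264) : Γ x = Γ y ↔ Γ (hh (7 ^ k) x) = Γ y := by
  obtain ⟨d1, d2, f1, f2⟩ := hh_ends k
  have p1 := h.PPk k x _ hx d1
  have p2 := h.PPk k x _ hx d2
  rw [f1] at p1
  rw [f2] at p2
  constructor
  · intro e
    rcases h.ends hx hy h0 h1 e with g | g
    · rw [p1.1 g, ← e, g]
    · rw [p2.1 g, ← e, g]
  · intro e
    rcases h.ends (hh_DD hx) hy h0 h1 e with g | g
    · rw [p1.2 g, ← e, g]
    · rw [p2.2 g, ← e, g]

theorem Lam.HH_rel0 (h : Lam Γ F) (k : ℕ) (h0 : 0 ≤ x) (h1 : x < 40353264) (h2 : 0 ≤ y)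
    (h3 : y < 40353264) : Γ x = Γ y ↔ Γ (HH k x) = Γ (HH k y) := by
  rw [HH_apply k x h0 h1, HH_apply k y h2 h3]
  by_cases hx : DD (7 ^ k) x <;> by_cases hy : DD (7 ^ k) y
  · rw [ff_DD hx, ff_DD hy]; exact h.PPk k x y hx hy
  · rw [ff_DD hx, ff_out hy]; exact h.HH_mix hx hy h2 h3
  · rw [ff_out hx, ff_DD hy, eq_comm, h.HH_mix hy hx h0 h1, eq_comm]
  · rw [ff_out hx, ff_out hy]

theorem HH_per_int (k : ℕ) (x : ℝ) (n : ℤ) :
    HH k (x + n * 40353264) = HH k x + n * 40353264 := by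
  induction n using Int.induction_on with
  | zero => simp
  | succ n ih =>
    have := HH_per k (x + (n : ℤ) * 40353264)
    rw [ih] at this
    push_cast at this ⊢
    rw [show x + ((n : ℝ) + 1) * 40353264 = x + n * 40353264 + 40353264 by ring, this]
    ring
  | pred n ih =>
    have := HH_per k (x + ((-(n : ℤ) - 1 : ℤ) : ℝ) * 40353264)
    rw [show x + ((-(n : ℤ) - 1 : ℤ) : ℝ) * 40353264 + 40353264 =
      x + ((-(n : ℤ) : ℤ) : ℝ) * 40353264 by push_cast; ring, ih] at this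
    push_cast at this ⊢
    linarith

theorem Lam.HH_G0 (h : Lam Γ F) (k : ℕ) : G0 Γ (HH k) := by
  refine ⟨⟨HH_per k, fun x y => ?_⟩, ?_⟩
  · obtain ⟨x1, x2⟩ := fl_spec x
    obtain ⟨y1, y2⟩ := fl_spec y
    have key := h.HH_rel0 k (x := x - fl x * 40353264) (y := y - fl y * 40353264)
      (by linarith) (by linarith) (by linarith) (by linarith)
    have ex : ∀ w : ℝ, Γ (w - fl w * 40353264) = Γ w := by
      intro w
      rw [← h.per_int (w - fl w * 40353264) (fl w), sub_add_cancel]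
    have eh : ∀ w : ℝ, Γ (HH k (w - fl w * 40353264)) = Γ (HH k w) := by
      intro w
      have := HH_per_int k (w - fl w * 40353264) (fl w)
      rw [sub_add_cancel] at this
      rw [this, h.per_int]
    rw [ex, ex, eh, eh] at key
    exact key
  · rw [HH_apply k 0 (le_refl _) (by norm_num), ff_0]

theorem HH_fix {k : ℕ} (h0 : 0 ≤ x) (h1 : x < 40353264) (hx : ¬ DD (7 ^ k) x) :
    HH k x = x := by
  rw [HH_apply k x h0 h1, ff_out hx]

theorem tau_cj_HH (j k : ℕ) : tau Γ j (cj (HH k)) = 0 := by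
  have b := omL_bd j
  obtain ⟨b1, b2, b3, b4, b5, b6, b7⟩ := k_bds k
  have e : cj (HH k) (omL j) = omL j := by
    rw [cj_apply, HH_fix (by linarith) (by linarith), add_sub_cancel_right]
    rintro (⟨h1, h2⟩ | ⟨h1, h2⟩) <;> linarith
  unfold tau
  rw [e, cnt_self]

theorem pow_sep {j k : ℕ} (hjk : j < k) (a : ℝ) (ha : 0 < a) : 7 * (a / 7 ^ k) ≤ a / 7 ^ j := by
  obtain ⟨l, rfl⟩ := Nat.exists_eq_add_of_lt hjk
  have h1 : (1 : ℝ) ≤ 7 ^ l := one_le_pow₀ (by norm_num)
  rw [pow_succ, pow_add]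
  rw [← mul_div_assoc, div_le_div_iff₀ (by positivity) (by positivity)]
  have h2 : (0 : ℝ) < a * 7 ^ j := by positivity
  nlinarith

theorem tau_HH_ne {j k : ℕ} (hjk : j ≠ k) : tau Γ j (HH k) = 0 := by
  have b := omL_bd j
  obtain ⟨b1, b2, b3, b4, b5, b6, b7⟩ := k_bds k
  have e : HH k (omL j) = omL j := by
    apply HH_fix (by linarith) (by linarith)
    rintro (⟨h1, h2⟩ | ⟨h1, h2⟩)
    · linarith
    · unfold omL at h1 h2
      rcases lt_or_gt_of_ne hjk with g | g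
      · have s := pow_sep g 240884 (by norm_num)
        have s2 : (269696 : ℝ) / 7 ^ k < 7 * (240884 / 7 ^ k) := by
          rw [← mul_div_assoc]; gcongr; norm_num
        linarith
      · have s := pow_sep g 240884 (by norm_num)
        have s2 : (240884 : ℝ) / 7 ^ k < 7 * (240800 / 7 ^ k) := by
          rw [← mul_div_assoc]; gcongr; norm_num
        linarith
  unfold tau
  rw [e, cnt_self]

theorem Lam.tau_HH_self (h : Lam Γ F) (k : ℕ) : tau Γ k (HH k) ≠ 0 := by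
  have b := omL_bd k
  have m := h.om_mem k
  have mH := ((h.HH_G0 k).Sig_iff h k _).2 m
  obtain ⟨v1, v2, v3, v4⟩ := strip_vals k
  have hDD : DD (7 ^ k) (omL k) := by
    refine Or.inr ⟨?_, ?_⟩
    · have := m.1; rw [v1] at this; exact this.le
    · have := m.2.1; rw [v2] at this; exact this.le
  have hlt : HH k (omL k) < omL k := by
    rw [HH_apply k _ (by linarith) (by linarith), ff_DD hDD]
    unfold hh hL
    rw [if_neg (by linarith)]
    have g1 := m.1
    have g2 := m.2.1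
    rw [v1] at g1
    rw [v2] at g2
    exact lt_of_le_of_lt (min_le_right _ _) (max_lt (by linarith) (by linarith))
  unfold tau
  rw [cnt_anti, cnt_le hlt.le]
  have hfin : (Sig Γ k ∩ Ico (HH k (omL k)) (omL k)).Finite :=
    (h.Sig_fin k _ _ mH.1 m.2.1).subset (fun a ha => ⟨ha.1, ha.2.1, ha.2.2.le⟩)
  have hpos : 0 < (Sig Γ k ∩ Ico (HH k (omL k)) (omL k)).ncard := by
    rw [Set.ncard_pos hfin]
    exact ⟨HH k (omL k), mH, le_refl _, hlt⟩
  omega

/-- INDEPENDENCE -/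
theorem psi_HH_ne {j k : ℕ} (hjk : j ≠ k) : psi Γ j (HH k) = 0 := by
  unfold psi
  rw [tau_HH_ne hjk, tau_cj_HH]
  rfl

theorem Lam.psi_HH_self (h : Lam Γ F) (k : ℕ) : psi Γ k (HH k) ≠ 0 := by
  unfold psi
  rw [tau_cj_HH, add_zero]
  exact h.tau_HH_self k

end Pool.Agent.JB
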