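import Pool.Agent.Lib.MP_8ebc20_an.B.Base

/-!
# Part B: triple points and marks under the maps `Q i`
-/

set_option autoImplicit false

namespace Pool.Agent.JB

open Set

variable {Γ : ℝ → ℂ} {F : ℂ → ℂ} {x y s t u b z : ℝ} {i : Fin 7}

theorem mkAO (i : Fin 7) (n a b : ℤ) (ha : A i = a) (hb : A i + L i = b)
    (h1 : (a : ℝ) < x + n * 40353264) (h2 : x + n * 40353264 < (b : ℝ)) : inO i x := by
  refine ⟨n, Or.inl ⟨by rw [ha]; exact h1, ?_⟩⟩
  have : (A i : ℝ) + L i = b := by exact_mod_cast hb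
  rw [this]; exact h2

theorem mkBO (i : Fin 7) (n a b : ℤ) (ha : B i = a) (hb : B i + (5764752 - L i) = b)
    (h1 : (a : ℝ) < x + n * 40353264) (h2 : x + n * 40353264 < (b : ℝ)) : inO i x := by
  refine ⟨n, Or.inr ⟨by rw [ha]; exact h1, ?_⟩⟩
  have : (B i : ℝ) + (5764752 - L i) = b := by exact_mod_cast hb
  rw [this]; exact h2

theorem local_affine (hx : inO i x) :
    ∃ δ : ℝ, 0 < δ ∧ ∀ v, |v - x| < δ → inO i v ∧ Q i v = Q i x + 7 * (v - x) := by
  obtain ⟨n, ⟨h1, h2⟩ | ⟨h1, h2⟩⟩ := hx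
  · refine ⟨min (x + n * 40353264 - A i) (A i + L i - (x + n * 40353264)),
      lt_min (by linarith) (by linarith), fun v hv => ?_⟩
    obtain ⟨a1, a2⟩ := abs_lt.1 hv
    have b1 := min_le_left (x + n * 40353264 - A i) (A i + L i - (x + n * 40353264))
    have b2 := min_le_right (x + n * 40353264 - A i) (A i + L i - (x + n * 40353264))
    have c1 : (A i : ℝ) < v + n * 40353264 := by linarith
    have c2 : v + n * 40353264 < (A i : ℝ) + L i := by linarith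
    refine ⟨⟨n, Or.inl ⟨c1, c2⟩⟩, ?_⟩
    have e1 := Q_first i c1.le c2.le
    have e2 := Q_first i h1.le h2.le
    rw [Q_add_int] at e1 e2
    linarith
  · refine ⟨min (x + n * 40353264 - B i) (B i + (5764752 - L i) - (x + n * 40353264)),
      lt_min (by linarith) (by linarith), fun v hv => ?_⟩
    obtain ⟨a1, a2⟩ := abs_lt.1 hv
    have b1 := min_le_left (x + n * 40353264 - B i) (B i + (5764752 - L i) - (x + n * 40353264))
    have b2 := min_le_right (x + n * 40353264 - B i) (B i + (5764752 - L i) - (x + n * 40353264))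
    have c1 : (B i : ℝ) < v + n * 40353264 := by linarith
    have c2 : v + n * 40353264 < (B i : ℝ) + (5764752 - L i) := by linarith
    refine ⟨⟨n, Or.inr ⟨c1, c2⟩⟩, ?_⟩
    have e1 := Q_second i c1.le c2.le
    have e2 := Q_second i h1.le h2.le
    rw [Q_add_int] at e1 e2
    linarith

theorem Q_eqv_iff (hx : inO i x) : Eqv (Q i x) (Q i y) ↔ Eqv x y := by
  constructor
  · rintro ⟨n, hn⟩
    have h2 : Q i x = Q i (y + n * 40353264) := by rw [Q_add_int]; linarith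
    exact ⟨n, by have := Q_inj_of_inO hx h2; linarith⟩
  · exact Q_eqv i

theorem Lam.fixA' (h : Lam Γ F) : Fx Γ 6961528 := ⟨0, by
  have := h.fixa
  norm_num at this ⊢
  exact this⟩

theorem Lam.fixB' (h : Lam Γ F) : Fx Γ 27138160 := ⟨0, by
  have := h.congr (x := 7 * 27138160) (y := 28554064) ⟨4, by norm_num⟩
  rw [h.be1] at this
  norm_num at this ⊢
  exact this⟩

theorem Lam.fixZ' (_h : Lam Γ F) : Fx Γ 0 := ⟨0, by simp⟩

theorem Lam.fx_pow (h : Lam Γ F) {n : ℕ} (hx : Fx Γ (7 ^ n * x)) : Fx Γ x := by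
  induction n with
  | zero => simpa using hx
  | succ n ih =>
    rw [← pow7, h.fx_seven] at hx
    exact ih hx

theorem Lam.TM_ev (h : Lam Γ F) (hx : IsM Γ x ∨ IsT Γ x) :
    ∃ n : ℕ, Γ (7 ^ n * x) = Γ 0 ∨ Γ (7 ^ n * x) = Γ 6961528 ∨ Γ (7 ^ n * x) = Γ 27138160 := by
  rcases hx with hx | hx
  · obtain ⟨n, hn⟩ := h.IsM_ev hx
    exact ⟨n, Or.inl hn⟩
  · obtain ⟨n, hn⟩ := h.IsT_ev hx
    exact ⟨n, Or.inr hn⟩

theorem Lam.TM_fx (h : Lam Γ F) (hx : IsM Γ x ∨ IsT Γ x) : Fx Γ x := by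
  obtain ⟨n, hn | hn | hn⟩ := h.TM_ev hx
  · exact h.fx_pow (h.fx_congr hn.symm h.fixZ')
  · exact h.fx_pow (h.fx_congr hn.symm h.fixA')
  · exact h.fx_pow (h.fx_congr hn.symm h.fixB')

theorem Lam.TM_av (h : Lam Γ F) (hx : IsM Γ x ∨ IsT Γ x) : Av Γ x := h.fx_av (h.TM_fx hx)

theorem Lam.Q_lift (h : Lam Γ F) (i : Fin 7) (hy : Fx Γ y) :
    ∃ x, Q i x = y ∧ inO i x ∧ Av Γ x := by
  obtain ⟨x, hx⟩ := Q_surj i y
  by_cases hP : inP i x
  · have e1 : Γ (7 * x) = Γ y := by rw [← h.congr (Q_inP hP), hx]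
    have hav : Av Γ x := fun j => by rw [e1]; exact h.fx_ne_V hy j
    rcases bdry hP with g | ⟨j, hj⟩
    · exact ⟨x, hx, g, hav⟩
    · exact absurd (h.congr hj) (hav j)
  · obtain ⟨j, hj⟩ := Q_gapV hP
    rw [hx] at hj
    exact absurd (h.congr hj) (h.fx_ne_V hy j)

theorem Lam.IsT_Q (h : Lam Γ F) (hi : inO i x) (hx : Av Γ x) : IsT Γ (Q i x) ↔ IsT Γ x := by
  have hin : ∀ v, Γ v = Γ x → inO i v := fun v hv => h.tr_inj hi hx hv
  constructor
  · rintro ⟨b, c, h1, h2, h3, h4, h5, h6⟩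
    obtain ⟨b', rfl⟩ := Q_surj i b
    obtain ⟨c', rfl⟩ := Q_surj i c
    have hb' := (h.tr hi hx b').2 h4
    have hc' := (h.tr hi hx c').2 h5
    refine ⟨b', c', ?_, ?_, ?_, hb', hc', fun u hu => ?_⟩
    · rwa [Q_eqv_iff hi] at h1
    · rwa [Q_eqv_iff hi] at h2
    · rwa [Q_eqv_iff (hin _ hb')] at h3
    · have := h6 _ ((h.tr hi hx u).1 hu)
      rw [Q_eqv_iff (hin _ hu), Q_eqv_iff (hin _ hu), Q_eqv_iff (hin _ hu)] at this
      exact this
  · rintro ⟨b, c, h1, h2, h3, h4, h5, h6⟩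
    refine ⟨Q i b, Q i c, ?_, ?_, ?_, (h.tr hi hx b).1 h4, (h.tr hi hx c).1 h5, fun u hu => ?_⟩
    · rwa [Q_eqv_iff hi]
    · rwa [Q_eqv_iff hi]
    · rwa [Q_eqv_iff (hin _ h4)]
    · obtain ⟨u', rfl⟩ := Q_surj i u
      have hu' := (h.tr hi hx u').2 hu
      have := h6 _ hu'
      rw [Q_eqv_iff (hin _ hu'), Q_eqv_iff (hin _ hu'), Q_eqv_iff (hin _ hu')]
      exact this

theorem Lam.IsM_Q (h : Lam Γ F) (hi : inO i x) (hx : Av Γ x) : IsM Γ (Q i x) ↔ IsM Γ x := by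
  have hin : ∀ v, Γ v = Γ x → inO i v := fun v hv => h.tr_inj hi hx hv
  obtain ⟨δ, hδ, hδ'⟩ := local_affine hi
  constructor
  · rintro ⟨b, h1, h2, h3, h4⟩
    obtain ⟨b', rfl⟩ := Q_surj i b
    have hb' := (h.tr hi hx b').2 h2
    obtain ⟨η, hη, hη'⟩ := local_affine (hin _ hb')
    refine ⟨b', ?_, hb', fun u hu => ?_, fun ε hε => ?_⟩
    · rwa [Q_eqv_iff hi] at h1
    · have := h3 _ ((h.tr hi hx u).1 hu)
      rw [Q_eqv_iff (hin _ hu), Q_eqv_iff (hin _ hu)] at this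
      exact this
    · obtain ⟨y', c', e1, e2, e3, e4⟩ := h4 (min ε (min δ η)) (lt_min hε (lt_min hδ hη))
      have m1 := min_le_left ε (min δ η)
      have m2 := min_le_right ε (min δ η)
      have m3 := min_le_left δ η
      have m4 := min_le_right δ η
      obtain ⟨a1, a2⟩ := abs_lt.1 e1
      obtain ⟨a3, a4⟩ := abs_lt.1 e2
      obtain ⟨f1, f2⟩ := hδ' (x + (y' - Q i x) / 7) (abs_lt.2 ⟨by linarith, by linarith⟩)
      obtain ⟨f3, f4⟩ := hη' (b' + (c' - Q i b') / 7) (abs_lt.2 ⟨by linarith, by linarith⟩)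
      have f2' : Q i (x + (y' - Q i x) / 7) = y' := by rw [f2]; ring
      have f4' : Q i (b' + (c' - Q i b') / 7) = c' := by rw [f4]; ring
      refine ⟨x + (y' - Q i x) / 7, b' + (c' - Q i b') / 7, abs_lt.2 ⟨by linarith, by linarith⟩,
        abs_lt.2 ⟨by linarith, by linarith⟩, ?_, ?_⟩
      · apply h.lp f1 f3
        rw [← h.congr (Q_inP f1.inP), ← h.congr (Q_inP f3.inP), f2', f4', e3]
      · intro hc
        apply e4
        rw [← f2']
        exact (h.tr hi hx _).1 hc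
  · rintro ⟨b, h1, h2, h3, h4⟩
    obtain ⟨η, hη, hη'⟩ := local_affine (hin _ h2)
    refine ⟨Q i b, ?_, (h.tr hi hx b).1 h2, fun u hu => ?_, fun ε hε => ?_⟩
    · rwa [Q_eqv_iff hi]
    · obtain ⟨u', rfl⟩ := Q_surj i u
      have hu' := (h.tr hi hx u').2 hu
      have := h3 _ hu'
      rw [Q_eqv_iff (hin _ hu'), Q_eqv_iff (hin _ hu')]
      exact this
    · obtain ⟨x', b', e1, e2, e3, e4⟩ := h4 (min (ε / 7) (min δ η))
        (lt_min (by positivity) (lt_min hδ hη))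
      have m1 := min_le_left (ε / 7) (min δ η)
      have m2 := min_le_right (ε / 7) (min δ η)
      have m3 := min_le_left δ η
      have m4 := min_le_right δ η
      obtain ⟨a1, a2⟩ := abs_lt.1 e1
      obtain ⟨a3, a4⟩ := abs_lt.1 e2
      obtain ⟨f1, f2⟩ := hδ' x' (abs_lt.2 ⟨by linarith, by linarith⟩)
      obtain ⟨f3, f4⟩ := hη' b' (abs_lt.2 ⟨by linarith, by linarith⟩)
      refine ⟨Q i x', Q i b', ?_, ?_, ?_, ?_⟩
      · rw [f2]; exact abs_lt.2 ⟨by linarith, by linarith⟩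
      · rw [f4]; exact abs_lt.2 ⟨by linarith, by linarith⟩
      · rw [h.congr (Q_inP f1.inP), h.congr (Q_inP f3.inP)]
        exact h.conjEq e3
      · intro hc
        exact e4 ((h.tr hi hx x').2 hc)

theorem Lam.IsT_A (h : Lam Γ F) : IsT Γ 6961528 := by
  refine ⟨8377432, 18288760, ?_, ?_, ?_, h.al1, h.al2, fun u hu => h.exactA hu⟩
  · exact_mod_cast not_eqv_int (a := 6961528) (b := 8377432) (by norm_num)
  · exact_mod_cast not_eqv_int (a := 6961528) (b := 18288760) (by norm_num)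
  · exact_mod_cast not_eqv_int (a := 8377432) (b := 18288760) (by norm_num)

theorem Lam.IsT_B (h : Lam Γ F) : IsT Γ 27138160 := by
  refine ⟨28554064, 38465392, ?_, ?_, ?_, h.be1, h.be2, fun u hu => h.exactB hu⟩
  · exact_mod_cast not_eqv_int (a := 27138160) (b := 28554064) (by norm_num)
  · exact_mod_cast not_eqv_int (a := 27138160) (b := 38465392) (by norm_num)
  · exact_mod_cast not_eqv_int (a := 28554064) (b := 38465392) (by norm_num)

/-- the class of `e` -/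
theorem Lam.cle (h : Lam Γ F) : Γ 6759256 = Γ 19906936 := by
  have i1 : inO 2 (6759256 : ℝ) := mkAO 2 0 2642164 6960940 rfl rfl (by norm_num) (by norm_num)
  have i2 : inO 2 (19906936 : ℝ) := mkBO 2 0 18490444 19936420 rfl rfl (by norm_num) (by norm_num)
  apply h.lp i1 i2
  rw [h.congr (x := 7 * 6759256) (y := 6961528) ⟨1, by norm_num⟩,
    h.congr (x := 7 * 19906936) (y := 18288760) ⟨3, by norm_num⟩, h.al2]

theorem Lam.cle' (h : Lam Γ F) : Γ 6759256 = Γ 18491032 := by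
  have i1 : inO 2 (6759256 : ℝ) := mkAO 2 0 2642164 6960940 rfl rfl (by norm_num) (by norm_num)
  have i2 : inO 2 (18491032 : ℝ) := mkBO 2 0 18490444 19936420 rfl rfl (by norm_num) (by norm_num)
  apply h.lp i1 i2
  rw [h.congr (x := 7 * 6759256) (y := 6961528) ⟨1, by norm_num⟩,
    h.congr (x := 7 * 18491032) (y := 8377432) ⟨3, by norm_num⟩, h.al1]

theorem Lam.seqZ (h : Lam Γ F) (k : ℕ) :
    Γ (6759256 / 7 ^ k) = Γ (20176632 - 269696 / 7 ^ k) := by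
  induction k with
  | zero => norm_num; exact h.cle
  | succ k ih =>
    have h7 : (1 : ℝ) ≤ 7 ^ k := one_le_pow₀ (by norm_num)
    have h7' : (0 : ℝ) < 7 ^ k := by positivity
    have p1 : (6759256 : ℝ) / 7 ^ (k + 1) ≤ 965608 := by
      rw [pow_succ, div_le_iff₀ (by positivity)]; nlinarith
    have p2 : (269696 : ℝ) / 7 ^ (k + 1) ≤ 38528 := by
      rw [pow_succ, div_le_iff₀ (by positivity)]; nlinarith
    have p3 : (0 : ℝ) < 6759256 / 7 ^ (k + 1) := by positivity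
    have p4 : (0 : ℝ) < 269696 / 7 ^ (k + 1) := by positivity
    have i1 : inO 3 ((6759256 : ℝ) / 7 ^ (k + 1)) :=
      mkAO 3 0 (-240212) 2642164 rfl rfl (by push_cast; linarith) (by push_cast; linarith)
    have i2 : inO 3 (20176632 - (269696 : ℝ) / 7 ^ (k + 1)) :=
      mkBO 3 0 19936420 22818796 rfl rfl (by push_cast; linarith) (by push_cast; linarith)
    apply h.lp i1 i2
    have e1 : 7 * ((6759256 : ℝ) / 7 ^ (k + 1)) = 6759256 / 7 ^ k := by
      rw [pow_succ]; field_simp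
    have e2 : 7 * (20176632 - (269696 : ℝ) / 7 ^ (k + 1)) =
        20176632 - 269696 / 7 ^ k + 3 * 40353264 := by
      rw [pow_succ]; field_simp; ring
    rw [e1, e2, h.congr (x := 20176632 - 269696 / 7 ^ k + 3 * 40353264)
      (y := 20176632 - 269696 / 7 ^ k) ⟨3, by push_cast; ring⟩, ih]

theorem Lam.IsM_Z (h : Lam Γ F) : IsM Γ 0 := by
  refine ⟨20176632, ?_, h.fixz, fun u hu => h.exact0 hu, fun ε hε => ?_⟩
  · have := not_eqv_int (a := 0) (b := 20176632) (by norm_num)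
    push_cast at this
    exact this
  · obtain ⟨k, hk⟩ := pow_unbounded_of_one_lt (6759256 / ε) (show (1 : ℝ) < 7 by norm_num)
    have h7' : (0 : ℝ) < 7 ^ k := by positivity
    have h7 : (1 : ℝ) ≤ 7 ^ k := one_le_pow₀ (by norm_num)
    rw [div_lt_iff₀ hε] at hk
    have q1 : (6759256 : ℝ) / 7 ^ k < ε := by
      rw [div_lt_iff₀ h7']; linarith
    have q2 : (269696 : ℝ) / 7 ^ k < ε := by
      rw [div_lt_iff₀ h7']; linarith
    have p3 : (0 : ℝ) < 6759256 / 7 ^ k := by positivity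
    have p4 : (0 : ℝ) < 269696 / 7 ^ k := by positivity
    have p5 : (6759256 : ℝ) / 7 ^ k ≤ 6759256 := by
      rw [div_le_iff₀ h7']; nlinarith
    refine ⟨6759256 / 7 ^ k, 20176632 - 269696 / 7 ^ k, ?_, ?_, h.seqZ k,
      h.emp01 _ p3 (by linarith)⟩
    · rw [sub_zero, abs_of_pos p3]; exact q1
    · rw [show 20176632 - (269696 : ℝ) / 7 ^ k - 20176632 = -(269696 / 7 ^ k) by ring, abs_neg,
        abs_of_pos p4]
      exact q2

/-- the condition at `x` in the definition of `Pi` -/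
def CP (Γ : ℝ → ℂ) (x s t : ℝ) : Prop :=
  Γ s ≠ Γ x → Γ t ≠ Γ x → (IsM Γ x → SA Γ x s t) ∧ (IsT Γ x → SA Γ x s t ∨ NX Γ x s t)

/-- the condition at `x` in the definition of `Near` -/
def CN (Γ : ℝ → ℂ) (x s t : ℝ) : Prop :=
  Γ s ≠ Γ x → Γ t ≠ Γ x → IsM Γ x ∨ IsT Γ x → SA Γ x s t

theorem Lam.CP_Q (h : Lam Γ F) (hi : inO i x) (hx : Av Γ x) :
    CP Γ x s t ↔ CP Γ (Q i x) (Q i s) (Q i t) := by
  unfold CP
  rw [← h.SA_tr hi hx, ← h.NX_tr hi hx, h.IsT_Q hi hx, h.IsM_Q hi hx]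
  rw [Ne, Ne, Ne, Ne, h.tr hi hx s, h.tr hi hx t]

theorem Lam.CN_Q (h : Lam Γ F) (hi : inO i x) (hx : Av Γ x) :
    CN Γ x s t ↔ CN Γ (Q i x) (Q i s) (Q i t) := by
  unfold CN
  rw [← h.SA_tr hi hx, h.IsT_Q hi hx, h.IsM_Q hi hx]
  rw [Ne, Ne, Ne, Ne, h.tr hi hx s, h.tr hi hx t]

theorem Lam.CP_triv (_h : Lam Γ F) (hx : ¬ (IsM Γ x ∨ IsT Γ x)) : CP Γ x s t := by
  push Not at hx
  exact fun _ _ => ⟨fun g => absurd g hx.1, fun g => absurd g hx.2⟩

theorem Lam.Pi_Q (h : Lam Γ F) (hp : Pi Γ s t) (i : Fin 7) : Pi Γ (Q i s) (Q i t) := by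
  intro y
  change CP Γ y _ _
  by_cases hy : IsM Γ y ∨ IsT Γ y
  · obtain ⟨x, rfl, hi, hx⟩ := h.Q_lift i (h.TM_fx hy)
    exact (h.CP_Q hi hx).1 (hp x)
  · exact h.CP_triv hy

theorem Lam.Near_Q (h : Lam Γ F) (hp : Near Γ s t) (i : Fin 7) : Near Γ (Q i s) (Q i t) := by
  intro y
  change CN Γ y _ _
  by_cases hy : IsM Γ y ∨ IsT Γ y
  · obtain ⟨x, rfl, hi, hx⟩ := h.Q_lift i (h.TM_fx hy)
    exact (h.CN_Q hi hx).1 (hp x)
  · exact fun _ _ g => absurd g hy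

theorem Lam.Pi_of_Q (h : Lam Γ F) (hp : ∀ i, Pi Γ (Q i s) (Q i t)) : Pi Γ s t := by
  intro x
  change CP Γ x _ _
  by_cases hx : IsM Γ x ∨ IsT Γ x
  · obtain ⟨i, hi⟩ := h.av_inO (h.TM_av hx)
    exact (h.CP_Q hi (h.TM_av hx)).2 (hp i _)
  · exact h.CP_triv hx

theorem Lam.Near_of_Q (h : Lam Γ F) (hp : ∀ i, Near Γ (Q i s) (Q i t)) : Near Γ s t := by
  intro x
  change CN Γ x _ _
  by_cases hx : IsM Γ x ∨ IsT Γ x
  · obtain ⟨i, hi⟩ := h.av_inO (h.TM_av hx)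
    exact (h.CN_Q hi (h.TM_av hx)).2 (hp i _)
  · exact fun _ _ g => absurd g hx

end Pool.Agent.JB
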