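import Pool.Agent.Lib.MP_8ebc20_an.B.TM

/-!
# Part B: marks are preimages of `0`
-/

set_option autoImplicit false

namespace Pool.Agent.JB

open Set

variable {Γ : ℝ → ℂ} {F : ℂ → ℂ} {x y s t u b : ℝ} {p q r : ℕ}

theorem small_eqv {a d : ℝ} (h : Eqv a d) (h1 : |a - d| < 40353264) : a = d := by
  obtain ⟨n, hn⟩ := h
  rw [hn, abs_mul] at h1
  have h2 : |(n : ℝ)| < 1 := by
    rw [abs_of_pos (show (0 : ℝ) < 40353264 by norm_num)] at h1
    nlinarith [abs_nonneg (n : ℝ)]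
  have h3 : |n| < 1 := by exact_mod_cast h2
  have h4 : n = 0 := Int.abs_lt_one_iff.1 h3
  rw [h4] at hn
  push_cast at hn
  linarith

/-- the leaf of `ω` is isolated (any representatives) -/
theorem Lam.iso_om' (h : Lam Γ F) {w v x' b' : ℝ} (hw : Eqv w 18490444) (hv : Eqv v 6759844)
    (h1 : |x' - w| < 100) (h2 : |b' - v| < 100) (h3 : Γ x' = Γ b') : x' = w := by
  obtain ⟨n, hn⟩ := hw
  obtain ⟨m, hm⟩ := hv
  have e1 : Γ (x' + ((-n : ℤ) : ℝ) * 40353264) = Γ (b' + ((-m : ℤ) : ℝ) * 40353264) := by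
    rw [h.per_int, h.per_int, h3]
  have a1 := abs_lt.1 h1
  have a2 := abs_lt.1 h2
  have e2 := h.iso_om (x' := x' + ((-n : ℤ) : ℝ) * 40353264)
    (b' := b' + ((-m : ℤ) : ℝ) * 40353264)
    (abs_lt.2 ⟨by push_cast; linarith [a1.1], by push_cast; linarith [a1.2]⟩)
    (abs_lt.2 ⟨by push_cast; linarith [a2.1], by push_cast; linarith [a2.2]⟩) e1
  rcases h.exactO e2 with e3 | e3
  · exfalso
    have := small_eqv e3 (abs_lt.2 ⟨by push_cast; linarith [a1.1], by push_cast; linarith [a1.2]⟩)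
    push_cast at this
    linarith [a1.1]
  · have := small_eqv e3 (abs_lt.2 ⟨by push_cast; linarith [a1.1], by push_cast; linarith [a1.2]⟩)
    push_cast at this
    linarith

/-- a class with two angles which is eventually the class of `ω` is isolated -/
theorem Lam.iso_pre (h : Lam Γ F) (k : ℕ) (hx : Eqv (7 ^ k * x) 18490444 ∧
    Eqv (7 ^ k * b) 6759844 ∨ Eqv (7 ^ k * x) 38667076 ∧ Eqv (7 ^ k * b) 26936476) :
    ∃ ε : ℝ, 0 < ε ∧ ∀ x' b', |x' - x| < ε → |b' - b| < ε → Γ x' = Γ b' → x' = x := by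
  have h7 : (0 : ℝ) < 7 ^ k := by positivity
  refine ⟨100 / 7 ^ k, by positivity, fun x' b' h1 h2 h3 => ?_⟩
  have g1 : |7 ^ k * x' - 7 ^ k * x| < 100 := by
    rw [← mul_sub, abs_mul, abs_of_pos h7, mul_comm]
    rwa [lt_div_iff₀ h7] at h1
  have g2 : |7 ^ k * b' - 7 ^ k * b| < 100 := by
    rw [← mul_sub, abs_mul, abs_of_pos h7, mul_comm]
    rwa [lt_div_iff₀ h7] at h2
  have g3 := h.pow h3 k
  have key : 7 ^ k * x' = 7 ^ k * x := by
    rcases hx with ⟨e1, e2⟩ | ⟨e1, e2⟩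
    · exact h.iso_om' e1 e2 g1 g2 g3
    · have f1 : Eqv (7 ^ k * x + 20176632) 18490444 := (e1.add _).trans ⟨1, by norm_num⟩
      have f2 : Eqv (7 ^ k * b + 20176632) 6759844 := (e2.add _).trans ⟨1, by norm_num⟩
      have := h.iso_om' f1 f2 (x' := 7 ^ k * x' + 20176632) (b' := 7 ^ k * b' + 20176632)
        (by rw [show 7 ^ k * x' + 20176632 - (7 ^ k * x + 20176632) = 7 ^ k * x' - 7 ^ k * x by
          ring]; exact g1)
        (by rw [show 7 ^ k * b' + 20176632 - (7 ^ k * b + 20176632) = 7 ^ k * b' - 7 ^ k * b by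
          ring]; exact g2) (h.half _ _ g3)
      linarith
  exact mul_left_cancel₀ h7.ne' key

theorem Lam.two_om (h : Lam Γ F) (k : ℕ) (hne : ¬ Eqv x b) (hb : Γ b = Γ x)
    (hk : Eqv (7 ^ k * x) (lo 26) ∨ Eqv (7 ^ k * x) (lo 60)) :
    Eqv (7 ^ k * x) 18490444 ∧ Eqv (7 ^ k * b) 6759844 ∨
      Eqv (7 ^ k * x) 38667076 ∧ Eqv (7 ^ k * b) 26936476 := by
  rcases hk with hk | hk
  · rw [n26] at hk
    left
    refine ⟨hk, ?_⟩
    rcases h.exactO (u := 7 ^ k * b) (by rw [h.pow hb, h.congr hk]) with h1 | h1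
    · exact h1
    · exact absurd (h.inj_pow hb.symm k (hk.trans h1.symm)) hne
  · rw [n60] at hk
    right
    refine ⟨hk, ?_⟩
    rcases h.exactO' (u := 7 ^ k * b) (by rw [h.pow hb, h.congr hk]) with h1 | h1
    · exact h1
    · exact absurd (h.inj_pow hb.symm k (hk.trans h1.symm)) hne

/-- two inequivalent angles: eventually `0`, eventually `± α`, or eventually `ω` -/
theorem Lam.two_cases (h : Lam Γ F) (hne : ¬ Eqv x b) (hb : Γ b = Γ x) :
    (∃ n : ℕ, Γ (7 ^ n * x) = Γ 0) ∨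
    (∃ n : ℕ, Γ (7 ^ n * x) = Γ 6961528 ∨ Γ (7 ^ n * x) = Γ 27138160) ∨
    ∃ k : ℕ, Eqv (7 ^ k * x) 18490444 ∧ Eqv (7 ^ k * b) 6759844 ∨
      Eqv (7 ^ k * x) 38667076 ∧ Eqv (7 ^ k * b) 26936476 := by
  obtain ⟨n, p, q, hp, hq, hpq, e1, e2, hqp, g1, g2⟩ := h.classify hb.symm hne
  have hpp : partners p ≠ [p] := by
    intro h4
    rw [h4] at hqp
    simp only [List.mem_singleton] at hqp
    exact hpq hqp.symm
  have hxp : Γ (7 ^ n * x) = Γ (lo p) := h.congr g1
  rcases kcls_cases p hp e1 hpp with (h4 | h4 | h4) | ⟨m, hm⟩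
  · left
    refine ⟨n, ?_⟩
    have := mem_partners p
    rw [h4] at this
    simp only [List.mem_cons, List.not_mem_nil, or_false] at this
    rcases this with rfl | rfl
    · rw [hxp, n0]
    · rw [hxp, n34, h.fixz]
  · right; left
    refine ⟨n, Or.inl ?_⟩
    have := mem_partners p
    rw [h4] at this
    simp only [List.mem_cons, List.not_mem_nil, or_false] at this
    rcases this with rfl | rfl | rfl
    · rw [hxp, n8]
    · rw [hxp, n14, h.al1]
    · rw [hxp, n24, h.al2]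
  · right; left
    refine ⟨n, Or.inr ?_⟩
    have := mem_partners p
    rw [h4] at this
    simp only [List.mem_cons, List.not_mem_nil, or_false] at this
    rcases this with rfl | rfl | rfl
    · rw [hxp, n42]
    · rw [hxp, n48, h.be1]
    · rw [hxp, n58, h.be2]
  · right; right
    refine ⟨m + n, h.two_om (m + n) hne hb ?_⟩
    obtain ⟨-, -, k3⟩ := eqv_lo_pow m p hp e1
    have k4 : Eqv (7 ^ (m + n) * x) (lo (nxt^[m] p)) := by
      refine Eqv.trans ?_ k3
      obtain ⟨j, hj⟩ := g1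
      exact ⟨7 ^ m * j, by push_cast; rw [pow_add]; linear_combination 7 ^ m * hj⟩
    rcases hm with hm | hm
    · rw [hm] at k4; exact Or.inl k4
    · rw [hm] at k4; exact Or.inr k4

theorem Lam.IsM_ev (h : Lam Γ F) (hx : IsM Γ x) : ∃ n : ℕ, Γ (7 ^ n * x) = Γ 0 := by
  obtain ⟨b, h1, h2, h3, h4⟩ := hx
  rcases h.two_cases h1 h2 with g | ⟨n, g⟩ | ⟨k, g⟩
  · exact g
  · exfalso
    have key : ∀ y, Γ y = Γ (7 ^ n * x) → Eqv y (7 ^ n * x) ∨ Eqv y (7 ^ n * b) := by
      intro y hy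
      obtain ⟨x', k1, k2⟩ := h.fib_pow n hy
      have aux : ∀ c, Eqv x' c → Eqv y (7 ^ n * c) := by
        rintro c ⟨j, hj⟩
        refine k2.symm.trans ⟨7 ^ n * j, by push_cast; linear_combination 7 ^ n * hj⟩
      rcases h3 _ k1 with k3 | k3
      · exact Or.inl (aux _ k3)
      · exact Or.inr (aux _ k3)
    have pig : ∀ y₁ y₂ y₃ : ℝ, Γ y₁ = Γ (7 ^ n * x) → Γ y₂ = Γ (7 ^ n * x) →
        Γ y₃ = Γ (7 ^ n * x) → ¬ Eqv y₁ y₂ → ¬ Eqv y₁ y₃ → ¬ Eqv y₂ y₃ → False := by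
      intro y₁ y₂ y₃ a1 a2 a3 c1 c2 c3
      rcases key _ a1 with k1 | k1 <;> rcases key _ a2 with k2 | k2 <;>
        rcases key _ a3 with k3 | k3
      · exact c1 (k1.trans k2.symm)
      · exact c1 (k1.trans k2.symm)
      · exact c2 (k1.trans k3.symm)
      · exact c3 (k2.trans k3.symm)
      · exact c3 (k2.trans k3.symm)
      · exact c2 (k1.trans k3.symm)
      · exact c1 (k1.trans k2.symm)
      · exact c1 (k1.trans k2.symm)
    have d : ∀ a c : ℤ, (a - c) % 40353264 ≠ 0 → ¬ Eqv (a : ℝ) (c : ℝ) := fun a c => not_eqv_int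
    rcases g with g | g
    · refine pig 6961528 8377432 18288760 g.symm (by rw [g, h.al1]) (by rw [g, h.al2]) ?_ ?_ ?_
      · exact_mod_cast d 6961528 8377432 (by norm_num)
      · exact_mod_cast d 6961528 18288760 (by norm_num)
      · exact_mod_cast d 8377432 18288760 (by norm_num)
    · refine pig 27138160 28554064 38465392 g.symm (by rw [g, h.be1]) (by rw [g, h.be2]) ?_ ?_ ?_
      · exact_mod_cast d 27138160 28554064 (by norm_num)
      · exact_mod_cast d 27138160 38465392 (by norm_num)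
      · exact_mod_cast d 28554064 38465392 (by norm_num)
  · exfalso
    obtain ⟨ε, hε, hiso⟩ := h.iso_pre k g
    obtain ⟨x', b', e1, e2, e3, e4⟩ := h4 ε hε
    exact e4 (by rw [hiso x' b' e1 e2 e3])

end Pool.Agent.JB
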