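import Pool.Agent.Lib.MP_8ebc20_an.B.Cent

/-!
# Part B: mirror images of the pieces; neighbours of a centre (one step)
-/

set_option autoImplicit false

namespace Pool.Agent.JB

open Set

variable {Γ : ℝ → ℂ} {F : ℂ → ℂ} {x y s t s' t' u b z m m' c c' v : ℝ} {i k : Fin 7}

theorem E_shift (a L x k : ℝ) : E (a + k) L (x + k) = E a L x := by
  unfold E
  rw [add_sub_add_right_eq_sub]

theorem E_shiftN (a L x : ℝ) : E (a - 20176632) L (x + 20176632) = E a L x + L := by
  have h1 := E_shift (a - 20176632) L x 20176632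
  have h2 := E_add (a - 20176632) L x
  have h3 := E_shift (a - 20176632) L (x + 20176632) 20176632
  rw [sub_add_cancel] at h3
  rw [← h3]
  have : x + 20176632 + 20176632 = x + 40353264 := by ring
  rw [this, E_add]

theorem Q_mir_lt (x : ℝ) : Q 6 (x + 20176632) = Q 0 x + 7 * 20176632 ∧
    Q 5 (x + 20176632) = Q 1 x + 7 * 20176632 ∧ Q 4 (x + 20176632) = Q 2 x + 7 * 20176632 := by
  have a6 : (A 6 : ℝ) = A 0 + 20176632 := by simp [A]; norm_num
  have a5 : (A 5 : ℝ) = A 1 + 20176632 := by simp [A]; norm_num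
  have a4 : (A 4 : ℝ) = A 2 + 20176632 := by simp [A]; norm_num
  have b6 : (B 6 : ℝ) = B 0 + 20176632 := by simp [B]; norm_num
  have b5 : (B 5 : ℝ) = B 1 + 20176632 := by simp [B]; norm_num
  have b4 : (B 4 : ℝ) = B 2 + 20176632 := by simp [B]; norm_num
  have l6 : L 6 = L 0 := by decide
  have l5 : L 5 = L 1 := by decide
  have l4 : L 4 = L 2 := by decide
  unfold Q
  refine ⟨?_, ?_, ?_⟩
  · rw [a6, b6, l6, E_shift, E_shift]; ring
  · rw [a5, b5, l5, E_shift, E_shift]; ring
  · rw [a4, b4, l4, E_shift, E_shift]; ring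

theorem Q_mir (i : Fin 7) (hi : i ≠ 3) (x : ℝ) :
    Eqv (Q i.rev (x + 20176632)) (Q i x + 20176632) := by
  have key : ∀ j k : Fin 7, (∀ x, Q k (x + 20176632) = Q j x + 7 * 20176632) → ∀ x,
      Eqv (Q k (x + 20176632)) (Q j x + 20176632) ∧
      Eqv (Q j (x + 20176632)) (Q k x + 20176632) := by
    intro j k hjk x
    refine ⟨⟨3, by rw [hjk]; push_cast; ring⟩, ?_⟩
    have h1 := hjk (x + 20176632)
    have h2 : x + 20176632 + 20176632 = x + 40353264 := by ring
    rw [h2, Q_add] at h1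
    exact ⟨-3, by push_cast; linarith⟩
  have k0 := key 0 6 (fun x => (Q_mir_lt x).1) x
  have k1 := key 1 5 (fun x => (Q_mir_lt x).2.1) x
  have k2 := key 2 4 (fun x => (Q_mir_lt x).2.2) x
  fin_cases i
  · exact k0.1
  · exact k1.1
  · exact k2.1
  · exact absurd rfl hi
  · exact k2.2
  · exact k1.2
  · exact k0.2

/-- an arc of a piece and its mirror image -/
theorem inO_mir (hx : inO i x) : inO i.rev (x + 20176632) := by
  have key : ∀ (j k : Fin 7) (a b c d : ℤ), A j = a → A j + L j = b → B j = c →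
      B j + (5764752 - L j) = d → A k = a + 20176632 → A k + L k = b + 20176632 →
      B k = c + 20176632 → B k + (5764752 - L k) = d + 20176632 → ∀ x,
      (inO j x → inO k (x + 20176632)) ∧ (inO k x → inO j (x + 20176632)) := by
    intro j k a b c d h1 h2 h3 h4 h5 h6 h7 h8 x
    have h2' : (A j : ℝ) + L j = b := by exact_mod_cast h2
    have h4' : (B j : ℝ) + (5764752 - L j) = d := by exact_mod_cast h4
    have h5' : (A k : ℝ) = a + 20176632 := by exact_mod_cast h5
    have h6' : (A k : ℝ) + L k = b + 20176632 := by exact_mod_cast h6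
    have h7' : (B k : ℝ) = c + 20176632 := by exact_mod_cast h7
    have h8' : (B k : ℝ) + (5764752 - L k) = d + 20176632 := by exact_mod_cast h8
    constructor
    · rintro ⟨n, ⟨g1, g2⟩ | ⟨g1, g2⟩⟩
      · rw [h1] at g1; rw [h2'] at g2
        exact ⟨n, Or.inl ⟨by rw [h5']; linarith, by rw [h6']; linarith⟩⟩
      · rw [h3] at g1; rw [h4'] at g2
        exact ⟨n, Or.inr ⟨by rw [h7']; linarith, by rw [h8']; linarith⟩⟩
    · rintro ⟨n, ⟨g1, g2⟩ | ⟨g1, g2⟩⟩
      · rw [h5'] at g1; rw [h6'] at g2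
        exact ⟨n - 1, Or.inl ⟨by rw [h1]; push_cast; linarith, by rw [h2']; push_cast; linarith⟩⟩
      · rw [h7'] at g1; rw [h8'] at g2
        exact ⟨n - 1, Or.inr ⟨by rw [h3]; push_cast; linarith, by rw [h4']; push_cast; linarith⟩⟩
  have k0 := key 0 6 8612716 14377468 14377468 14377468 rfl rfl rfl rfl rfl rfl rfl rfl x
  have k1 := key 1 5 6960940 8612716 14377468 18490444 rfl rfl rfl rfl rfl rfl rfl rfl x
  have k2 := key 2 4 2642164 6960940 18490444 19936420 rfl rfl rfl rfl rfl rfl rfl rfl x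
  fin_cases i
  · exact k0.1 hx
  · exact k1.1 hx
  · exact k2.1 hx
  · change inO 3 (x + 20176632)
    have hx' : inO 3 x := hx
    obtain ⟨n, ⟨g1, g2⟩ | ⟨g1, g2⟩⟩ := hx'
    · refine mkBO 3 n 19936420 22818796 rfl rfl ?_ ?_
      · have : (A 3 : ℝ) = -240212 := by simp [A]
        rw [this] at g1; push_cast; linarith
      · have : (A 3 : ℝ) + L 3 = 2642164 := by simp [A, L]; norm_num
        rw [this] at g2; push_cast; linarith
    · refine mkAO 3 (n - 1) (-240212) 2642164 rfl rfl ?_ ?_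
      · have : (B 3 : ℝ) = 19936420 := by simp [B]
        rw [this] at g1; push_cast; linarith
      · have : (B 3 : ℝ) + (5764752 - L 3) = 22818796 := by simp [B, L]; norm_num
        rw [this] at g2; push_cast; linarith
  · exact k2.2 hx
  · exact k1.2 hx
  · exact k0.2 hx

theorem Lam.av_mir (h : Lam Γ F) (hx : Av Γ x) : Av Γ (x + 20176632) := by
  have key : ∀ j : Fin 6, Eqv ((V j : ℝ) + 20176632) (V j.rev) := by
    intro j
    have := eqv_int (a := V j + 20176632) (b := V j.rev) (by revert j; decide)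
    push_cast at this
    exact this
  intro j e
  apply hx j.rev
  have e1 : Γ (7 * (x + 20176632)) = Γ (7 * x + 20176632) := by
    have := h.congr (half_pow 1 x)
    simpa using this
  rw [e1] at e
  rw [← h.halfEq, e]
  have := h.congr (key j.rev)
  rw [this]
  simp

theorem chkV : ∀ i k : Fin 7, i ≠ k → (i = 0 ∨ 3 < i.1) → nPi 6961528 (val i k) = true := by
  decide +kernel

theorem Lam.eB : (27138160 : ℝ) = 6961528 + 20176632 := by norm_num

/-- one step: `Q i c` is `α` -/
theorem Lam.stepA (h : Lam Γ F) (hi : inO i c) (hcA : Γ c ≠ Γ 6961528) (hT : IsT Γ c)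
    (hb : Bl Γ c) (hQ : Γ (Q i c) = Γ 6961528) (ht : IsT Γ t) (htc : Γ t ≠ Γ c)
    (hn : Near Γ c t) :
    (3 < i.1 ∧ ∃ m, inO i m ∧ Av Γ m ∧ IsM Γ m ∧ Γ (Q i m) = Γ 0 ∧ Pi Γ t m) ∨ Two Γ t := by
  have hav := h.TM_av (Or.inr hT)
  have hi1 : i ≠ 1 := by
    rintro rfl
    apply hcA
    have := h.eq_of_Q (a := 6961528) (c := 48730696) hi hav (by decide +kernel)
      (by rw [hQ]; exact (h.eqA 48730696 (by decide +kernel)).symm)
    rw [this]; norm_num
  have hi2 : i ≠ 2 := by
    rintro rfl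
    have := h.eq_of_Q (a := 6759256) (c := 6961528) hi hav (by decide +kernel)
      (by rw [hQ]; norm_num)
    refine h.e_not_Bl (h.Bl_congr (t := 6759256) ?_ hb)
    rw [this]; norm_num
  have hi3 : i ≠ 3 := by
    rintro rfl
    have := h.eq_of_Q (a := 994504) (c := 6961528) hi hav (by decide +kernel)
      (by rw [hQ]; norm_num)
    exact hb _ h.M20 (h.Pi_congr this.symm rfl (h.posF (by decide +kernel)))
  have hi4 : i = 0 ∨ 3 < i.1 := by
    clear * - hi1 hi2 hi3
    revert i; decide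
  obtain ⟨k, hk⟩ := h.av_inO (h.TM_av (Or.inr ht))
  by_cases hik : i = k
  · subst hik
    have hnQ : Near Γ ((6961528 : ℤ) : ℝ) (Q i t) := by
      refine h.Near_congr ?_ rfl (h.Near_Q hn i)
      rw [hQ]; norm_num
    have hT' := (h.IsT_Q hk (h.TM_av (Or.inr ht))).2 ht
    rcases h.sal (by decide) hT' hnQ with g | g | g
    · exact absurd ((h.tr hi hav t).2 (by rw [g, hQ])) htc
    · rcases hi4 with rfl | hi4
      · right
        refine h.Two_congr ?_ h.two0e
        exact (h.eq_of_Q (a := 12495112) (c := 6759256) hk (h.TM_av (Or.inr ht))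
          (by decide +kernel) (by rw [g]; norm_num)).symm
      · left
        refine ⟨hi4, ?_⟩
        obtain ⟨m, hm1, hm2, hm3, hm4⟩ := h.lift_M i h.IsM_Z
        refine ⟨m, hm2, hm3, hm4, by rw [hm1], h.Pi_piece hk hm2 ?_⟩
        rw [hm1]
        exact h.Pi_congr g.symm rfl h.Pi_e0
    · exact Or.inr (h.Two_lift hk g)
  · exfalso
    have h1 := h.Near_Qo hn hik hk
    have h2 := h.nPi_spec (chkV i k hik hi4)
    push_cast at h2
    exact h2 (h.Pi_congr hQ rfl h1.pi)

/-- one step: `Q i c` is `- α` -/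
theorem Lam.stepB (h : Lam Γ F) (hi : inO i c) (hcB : Γ c ≠ Γ 27138160) (hT : IsT Γ c)
    (hb : Bl Γ c) (hQ : Γ (Q i c) = Γ 27138160) (ht : IsT Γ t) (htc : Γ t ≠ Γ c)
    (hn : Near Γ c t) :
    (i.1 < 3 ∧ ∃ m, inO i m ∧ Av Γ m ∧ IsM Γ m ∧ Γ (Q i m) = Γ 0 ∧ Pi Γ t m) ∨ Two Γ t := by
  have hH := h.hf_aut
  have hshift : ∀ v, Γ (v + 20176632 + 20176632) = Γ v := by
    intro v
    rw [show v + 20176632 + 20176632 = v + 40353264 by ring, h.per]
  have c1 : Γ (c + 20176632) ≠ Γ 6961528 := by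
    intro e
    apply hcB
    rw [Lam.eB, ← h.halfEq, e, hshift]
  by_cases hi3 : i = 3
  · -- the piece `3` is its own mirror image
    exfalso
    subst hi3
    have hq : Γ (Q 3 (c + 20176632)) = Γ 6961528 := by
      have e1 := h.congr (Q_inP (inO_mir hi).inP)
      have e2 := h.congr (Q_inP hi.inP)
      change Γ (Q 3 (c + 20176632)) = Γ (7 * (c + 20176632)) at e1
      rw [e1]
      have e3 : Γ (7 * (c + 20176632)) = Γ (7 * c + 20176632) := by
        have := h.congr (half_pow 1 c)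
        simpa using this
      rw [e3, ← hshift 6961528, ← Lam.eB, h.halfEq, ← e2, hQ]
    rcases h.stepA (i := 3) (inO_mir hi) c1 (hH.IsT1 hT) (hH.Bl_iff.2 hb) hq (hH.IsT1 ht)
      (fun e => htc (h.halfEq.1 e)) (h.near_half hn) with g | g
    · exact absurd g.1 (by decide)
    · have hm := h.eq_of_Q (a := 994504) (c := 6961528) (i := 3) (s := c + 20176632)
        (inO_mir hi) (h.av_mir (h.TM_av (Or.inr hT))) (by decide +kernel) (by rw [hq]; norm_num)
      have hb' : Bl Γ (c + 20176632) := hH.Bl_iff.2 hb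
      exact hb' _ h.M20 (h.Pi_congr hm.symm rfl (h.posF (by decide +kernel)))
  · have hq : Γ (Q i.rev (c + 20176632)) = Γ 6961528 := by
      rw [h.congr (Q_mir i hi3 c), ← hshift 6961528, ← Lam.eB, h.halfEq, hQ]
    rcases h.stepA (inO_mir hi) c1 (hH.IsT1 hT) (hH.Bl_iff.2 hb) hq (hH.IsT1 ht)
      (fun e => htc (h.halfEq.1 e)) (h.near_half hn) with g | g
    · left
      obtain ⟨g1, m, g2, g3, g4, g5, g6⟩ := g
      have hir : i.rev.rev = i := Fin.rev_rev i
      have hi3' : i.rev ≠ 3 := by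
        intro e
        apply hi3
        rw [← hir, e]; rfl
      refine ⟨?_, m + 20176632, ?_, h.av_mir g3, hH.IsM1 g4, ?_, ?_⟩
      · have := Fin.val_rev i
        omega
      · have := inO_mir g2
        rwa [hir] at this
      · have := h.congr (Q_mir i.rev hi3' m)
        rw [hir] at this
        rw [this, ← h.fixz]
        have e0 : (20176632 : ℝ) = 0 + 20176632 := by norm_num
        rw [e0, ← e0]
        nth_rewrite 2 [e0]
        rw [h.halfEq, g5]
      · have := hH.Pi1 g6
        rw [hf_apply, hf_apply] at this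
        refine h.Pi_congr ?_ rfl this
        exact hshift t
    · exact Or.inr (hH.Two_iff.1 g)

end Pool.Agent.JB
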