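import Pool.Agent.Lib.MP_8ebc20_an.B.Tau

/-!
# Part B: the class `ω'`; exact classes on the cycle of `ω`
-/

set_option autoImplicit false

namespace Pool.Agent.JB

open Set

variable {Γ : ℝ → ℂ} {F : ℂ → ℂ} {x y s t s' t' u b z m m' c c' v : ℝ} {i : Fin 7}
  {H K : ℝ ≃o ℝ}

theorem pre7 (h : Eqv (7 * x) (7 * c)) : ∃ j : ℕ, j < 7 ∧ Eqv x (c + 5764752 * j) := by
  obtain ⟨n, hn⟩ := h
  have h1 := Int.emod_add_mul_ediv n 7
  have h2 := Int.emod_nonneg n (show (7 : ℤ) ≠ 0 by norm_num)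
  have h3 := Int.emod_lt_of_pos n (show (0 : ℤ) < 7 by norm_num)
  refine ⟨(n % 7).toNat, by omega, n / 7, ?_⟩
  have h4 : (((n % 7).toNat : ℕ) : ℝ) = ((n % 7 : ℤ) : ℝ) := by
    have : (((n % 7).toNat : ℕ) : ℤ) = n % 7 := Int.toNat_of_nonneg h2
    exact_mod_cast this
  rw [h4]
  have h5 : (n : ℝ) = ((n % 7 : ℤ) : ℝ) + 7 * ((n / 7 : ℤ) : ℝ) := by exact_mod_cast h1.symm
  rw [h5] at hn
  linarith

theorem Lam.exactC1 (h : Lam Γ F) (hu : Γ u = Γ 8373316) :
    Eqv u 6965644 ∨ Eqv u 8373316 := by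
  have n10 : ((lo 10 : ℕ) : ℝ) = 6965644 := by simp [lo, OL]
  have n12 : ((lo 12 : ℕ) : ℝ) = 8373316 := by simp [lo, OL]
  have part12 : partners 12 = [10, 12] := by decide
  obtain ⟨q, hq, hqu⟩ := h.exact (u := u) (p := 12) (by norm_num) (by norm_num) (by decide)
    (by rw [n12]; exact hu)
  rw [part12] at hq
  simp only [List.mem_cons, List.not_mem_nil, or_false] at hq
  rcases hq with rfl | rfl
  · rw [n10] at hqu; exact Or.inl hqu
  · rw [n12] at hqu; exact Or.inr hqu

theorem Lam.V1_eq (h : Lam Γ F) : Γ (7 * 6960940) = Γ 8373316 ∧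
    Γ (7 * 18289348) = Γ 8373316 := by
  constructor
  · exact h.congr ⟨1, by norm_num⟩
  · rw [← h.om1]; exact h.congr ⟨3, by norm_num⟩

/-- the class `ω'` -/
theorem Lam.omp (h : Lam Γ F) : Γ 18289348 = Γ 6960940 := by
  obtain ⟨hv1, hv2⟩ := h.V1_eq
  obtain ⟨x', h1, h2⟩ := h.fib 6960940 (7 * 18289348) (by rw [hv2, ← hv1, h.conj])
  obtain ⟨j, hj, h3⟩ := pre7 h2
  have h4 : Γ (18289348 + 5764752 * j) = Γ 6960940 := by rw [← h.congr h3, h1]
  have hU : Cut Γ 2642164 19936420 := h.cutU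
  have hW : Cut Γ 8612716 14377468 := h.cutW
  interval_cases j
  · norm_num at h4; exact h4
  · exfalso
    norm_num at h4
    exact h.cut_int hU h4.symm (n := 0) (m := 0) (by norm_num) (by norm_num) (by norm_num)
      (by norm_num)
  · exfalso
    norm_num at h4
    exact h.cut_int hU h4.symm (n := 0) (m := 0) (by norm_num) (by norm_num) (by norm_num)
      (by norm_num)
  · exfalso
    norm_num at h4
    exact h.cut_int hU h4.symm (n := 0) (m := 0) (by norm_num) (by norm_num) (by norm_num)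
      (by norm_num)
  · exfalso
    norm_num at h4
    exact h.cut_int hU h4.symm (n := 0) (m := 0) (by norm_num) (by norm_num) (by norm_num)
      (by norm_num)
  · exfalso
    norm_num at h4
    have e : Γ 47113108 = Γ 18490444 := by
      rw [← h.om0]; exact h.congr ⟨1, by norm_num⟩
    rw [e] at h4
    rcases h.exactO h4.symm with g | g
    · exact not_eqv_of_lt (by norm_num) (by norm_num) g
    · exact not_eqv_of_lt (a := 6960940) (by norm_num) (by norm_num) g.symm
  · exfalso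
    norm_num at h4
    exact h.cut_int hW h4 (n := -1) (m := 1) (by norm_num) (by norm_num) (by norm_num)
      (by norm_num)

theorem Lam.exactOp (h : Lam Γ F) (hu : Γ u = Γ 6960940) :
    Eqv u 6960940 ∨ Eqv u 18289348 := by
  obtain ⟨hv1, hv2⟩ := h.V1_eq
  have h7 : Γ (7 * u) = Γ 8373316 := by rw [h.conjEq hu, hv1]
  rcases h.exactC1 h7 with g | g
  · right
    apply h.inj u 18289348 (by rw [hu, h.omp])
    exact g.trans ⟨-3, by norm_num⟩
  · left
    apply h.inj u 6960940 hu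
    exact g.trans ⟨-1, by norm_num⟩

theorem eqv_near (h : Eqv x y) (h1 : x - y < 40353264) (h2 : y - x < 40353264) : x = y :=
  small_eqv h (abs_lt.2 ⟨by linarith, by linarith⟩)

end Pool.Agent.JB
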