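import Pool.Agent.Lib.MP_8ebc20_an.B.RhoM

/-!
# Part B: the generator on the strip `0`
-/

set_option autoImplicit false

namespace Pool.Agent.JB

open Set

variable {Γ : ℝ → ℂ} {F : ℂ → ℂ} {x x' y s t s' t' u b z m m' c c' v w w' g g' : ℝ} {i : Fin 7}
  {H K : ℝ ≃o ℝ}

/-- data for the contracting part -/
def D1 (Γ : ℝ → ℂ) (x g : ℝ) : Prop :=
  ∃ y y₂ s, inO 2 x ∧ inO 2 g ∧ Eqv (7 * g) y ∧ (inO 1 y ∨ Γ (7 * y) = Γ 8373316) ∧
    (Γ (7 * y) = Γ 8373316 → Γ y = Γ 6960940) ∧ Eqv (7 * y) y₂ ∧ inO 1 y₂ ∧ Eqv (7 * y₂) s ∧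
    inO 1 s ∧ Eqv (7 * s) (7 * x)

/-- data for the expanding part -/
def D2 (Γ : ℝ → ℂ) (x g : ℝ) : Prop :=
  ∃ y y₂ s w, inO 2 x ∧ inO 2 g ∧ Eqv (7 * x) y ∧ (inO 2 y ∨ Γ (7 * y) = Γ 8373316) ∧
    (Γ (7 * y) = Γ 8373316 → Γ y = Γ 18490444) ∧ Eqv (7 * y) y₂ ∧ inO 1 y₂ ∧ Eqv (7 * y₂) s ∧
    inO 1 s ∧ Eqv (7 * g) w ∧ Dp w ∧ Eqv (7 * s) (rh w)

theorem Lam.D1_iso (h : Lam Γ F) (h1 : D1 Γ x g) (h2 : D1 Γ x' g') :
    Γ x = Γ x' ↔ Γ g = Γ g' := by
  obtain ⟨y, y₂, s, a1, a2, a3, a4, a5, a6, a7, a8, a9, a10⟩ := h1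
  obtain ⟨z, z₂, r, b1, b2, b3, b4, b5, b6, b7, b8, b9, b10⟩ := h2
  rw [h.seven a1 b1, ← h.congr a10, ← h.congr b10, ← h.seven a9 b9, ← h.congr a8, ← h.congr b8,
    ← h.seven a7 b7, ← h.congr a6, ← h.congr b6, ← h.seven_bd a4 b4 a5 b5, ← h.congr a3,
    ← h.congr b3, ← h.seven a2 b2]

theorem Lam.D2_iso (h : Lam Γ F) (h1 : D2 Γ x g) (h2 : D2 Γ x' g') :
    Γ x = Γ x' ↔ Γ g = Γ g' := by
  obtain ⟨y, y₂, s, w, a1, a2, a3, a4, a5, a6, a7, a8, a9, a10, a11, a12⟩ := h1
  obtain ⟨z, z₂, r, v, b1, b2, b3, b4, b5, b6, b7, b8, b9, b10, b11, b12⟩ := h2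
  rw [h.seven a1 b1, h.congr a3, h.congr b3, h.seven_bd a4 b4 a5 b5, h.congr a6, h.congr b6,
    h.seven a7 b7, h.congr a8, h.congr b8, h.seven a9 b9, h.congr a12, h.congr b12,
    ← h.rho_iso a11 b11, ← h.congr a10, ← h.congr b10, ← h.seven a2 b2]

theorem Lam.V1_cls (h : Lam Γ F) (h1 : Γ (7 * y) = Γ 8373316) {y₂ : ℝ} (h2 : Eqv (7 * y) y₂)
    (h3 : 6961528 ≤ y₂) (h4 : y₂ ≤ 8377432) : y₂ = 6965644 ∨ y₂ = 8373316 := by
  rw [h.congr h2] at h1
  rcases h.exactC1 h1 with g | g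
  · exact Or.inl (eqv_near g (by linarith) (by linarith))
  · exact Or.inr (eqv_near g (by linarith) (by linarith))

theorem Lam.D1_R (h : Lam Γ F) (hu0 : 0 ≤ u) (hu : u ≤ 28812) :
    D1 Γ (6759256 - u) (6759256 - u / 343) := by
  refine ⟨6961528 - u / 49, 8377432 - u / 7, 18288760 - u, inO2_lo (by linarith) (by linarith),
    inO2_lo (by linarith) (by linarith), ⟨1, by push_cast; ring⟩, ?_, ?_, ⟨1, by push_cast; ring⟩,
    inO1_lo (by linarith) (by linarith), ⟨1, by push_cast; ring⟩,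
    inO1_hi (by linarith) (by linarith), ⟨2, by push_cast; ring⟩⟩
  · rcases eq_or_lt_of_le hu with e | e
    · right
      have : (6961528 : ℝ) - u / 49 = 6960940 := by rw [e]; norm_num
      rw [this]; exact h.V1_eq.1
    · exact Or.inl (inO1_lo (by linarith) (by linarith))
  · intro e
    rcases h.V1_cls e (y₂ := 8377432 - u / 7) ⟨1, by push_cast; ring⟩ (by linarith)
      (by linarith) with g | g
    · exfalso; linarith
    · have : (6961528 : ℝ) - u / 49 = 6960940 := by linarith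
      rw [this]

theorem Lam.D1_L (h : Lam Γ F) (hu0 : 0 ≤ u) (hu : u ≤ 28812) :
    D1 Γ (19906936 + u) (19906936 + u / 343) := by
  refine ⟨18288760 + u / 49, 6961528 + u / 7, 8377432 + u, inO2_hi (by linarith) (by linarith),
    inO2_hi (by linarith) (by linarith), ⟨3, by push_cast; ring⟩, ?_, ?_, ⟨3, by push_cast; ring⟩,
    inO1_lo (by linarith) (by linarith), ⟨1, by push_cast; ring⟩,
    inO1_lo (by linarith) (by linarith), ⟨-2, by push_cast; ring⟩⟩
  · exact Or.inl (inO1_hi (by linarith) (by linarith))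
  · intro e
    rcases h.V1_cls e (y₂ := 6961528 + u / 7) ⟨3, by push_cast; ring⟩ (by linarith)
      (by linarith) with g | g
    · have : (18288760 : ℝ) + u / 49 = 18289348 := by linarith
      rw [this, h.omp]
    · exfalso; linarith

theorem Lam.D2_R (h : Lam Γ F) (hu0 : 0 ≤ u) (hu : u ≤ 84) :
    D2 Γ (6730360 + u) (6730360 + 343 * u) := by
  have hr : rh (6759256 + 2401 * u) = 18288760 + 2401 * u := by
    rw [rh_lo (by linarith)]; ring
  refine ⟨6759256 + 7 * u, 6961528 + 49 * u, 8377432 + 343 * u, 6759256 + 2401 * u,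
    inO2_lo (by linarith) (by linarith), inO2_lo (by linarith) (by linarith),
    ⟨1, by push_cast; ring⟩, Or.inl (inO2_lo (by linarith) (by linarith)), ?_,
    ⟨1, by push_cast; ring⟩, inO1_lo (by linarith) (by linarith), ⟨1, by push_cast; ring⟩,
    inO1_lo (by linarith) (by linarith), ⟨1, by push_cast; ring⟩, ?_, ?_⟩
  · intro e
    rcases h.V1_cls e (y₂ := 6961528 + 49 * u) ⟨1, by push_cast; ring⟩ (by linarith)
      (by linarith) with g | g
    · have : (6759256 : ℝ) + 7 * u = 6759844 := by linarith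
      rw [this, h.om0]
    · exfalso; linarith
  · exact Or.inl ⟨by linarith, by linarith⟩
  · rw [hr]; exact ⟨1, by push_cast; ring⟩

theorem Lam.D2_L (h : Lam Γ F) (hu0 : 0 ≤ u) (hu : u ≤ 84) :
    D2 Γ (19935832 - u) (19935832 - 343 * u) := by
  have hr : rh (18491032 - 2401 * u) = 6961528 - 2401 * u := by
    rw [rh_hi (by linarith)]; ring
  refine ⟨18491032 - 7 * u, 8377432 - 49 * u, 18288760 - 343 * u, 18491032 - 2401 * u,
    inO2_hi (by linarith) (by linarith), inO2_hi (by linarith) (by linarith),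
    ⟨3, by push_cast; ring⟩, ?_, ?_,
    ⟨3, by push_cast; ring⟩, inO1_lo (by linarith) (by linarith), ⟨1, by push_cast; ring⟩,
    inO1_hi (by linarith) (by linarith), ⟨3, by push_cast; ring⟩, ?_, ?_⟩
  · rcases eq_or_lt_of_le hu with e | e
    · right
      have : (18491032 : ℝ) - 7 * u = 18490444 := by rw [e]; norm_num
      rw [this]; exact h.congr ⟨3, by norm_num⟩
    · exact Or.inl (inO2_hi (by linarith) (by linarith))
  · intro e
    rcases h.V1_cls e (y₂ := 8377432 - 49 * u) ⟨3, by push_cast; ring⟩ (by linarith)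
      (by linarith) with g | g
    · exfalso; linarith
    · have : (18491032 : ℝ) - 7 * u = 18490444 := by linarith
      rw [this]
  · exact Or.inr ⟨by linarith, by linarith⟩
  · rw [hr]; exact ⟨3, by push_cast; ring⟩

/-- the generator on the right and on the left of the strip (scale `r`) -/
noncomputable def hR (r x : ℝ) : ℝ :=
  max x (min (6730360 / r + 343 * (x - 6730360 / r)) (6759256 / r + (x - 6759256 / r) / 343))
noncomputable def hL (r x : ℝ) : ℝ :=
  min x (max (20176632 - 269696 / r + (x - (20176632 - 269696 / r)) / 343)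
    (20176632 - 240800 / r + 343 * (x - (20176632 - 240800 / r))))
noncomputable def hh (r x : ℝ) : ℝ := if x ≤ 10000000 then hR r x else hL r x

/-- the strip -/
def DD (r x : ℝ) : Prop := (6730360 / r ≤ x ∧ x ≤ 6759256 / r) ∨
  (20176632 - 269696 / r ≤ x ∧ x ≤ 20176632 - 240800 / r)

theorem hh_RU (h1 : 6730444 ≤ x) (h2 : x ≤ 6759256) :
    hh 1 x = 6759256 - (6759256 - x) / 343 := by
  unfold hh hR
  rw [if_pos (by linarith)]
  simp only [div_one]
  rw [min_eq_right (by linarith), max_eq_right (by linarith)]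
  ring
theorem hh_RL (h1 : 6730360 ≤ x) (h2 : x ≤ 6730444) :
    hh 1 x = 6730360 + 343 * (x - 6730360) := by
  unfold hh hR
  rw [if_pos (by linarith)]
  simp only [div_one]
  rw [min_eq_left (by linarith), max_eq_right (by linarith)]
theorem hh_LL (h1 : 19906936 ≤ x) (h2 : x ≤ 19935748) :
    hh 1 x = 19906936 + (x - 19906936) / 343 := by
  unfold hh hL
  rw [if_neg (by linarith)]
  simp only [div_one]
  rw [max_eq_left (by linarith), min_eq_right (by linarith)]
  norm_num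
theorem hh_LU (h1 : 19935748 ≤ x) (h2 : x ≤ 19935832) :
    hh 1 x = 19935832 - 343 * (19935832 - x) := by
  unfold hh hL
  rw [if_neg (by linarith)]
  simp only [div_one]
  rw [max_eq_right (by linarith), min_eq_right (by linarith)]
  ring

/-- inner and outer part of the strip -/
def R1 (x : ℝ) : Prop := (6730444 ≤ x ∧ x ≤ 6759256) ∨ (19906936 ≤ x ∧ x ≤ 19935748)
def R2 (x : ℝ) : Prop := (6730360 ≤ x ∧ x ≤ 6730444) ∨ (19935748 ≤ x ∧ x ≤ 19935832)

theorem DD_cases (hx : DD 1 x) : R1 x ∨ R2 x := by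
  unfold DD at hx
  simp only [div_one] at hx
  rcases hx with ⟨h1, h2⟩ | ⟨h1, h2⟩
  · rcases le_total x 6730444 with g | g
    · exact Or.inr (Or.inl ⟨h1, g⟩)
    · exact Or.inl (Or.inl ⟨g, h2⟩)
  · rcases le_total x 19935748 with g | g
    · exact Or.inl (Or.inr ⟨by linarith, g⟩)
    · exact Or.inr (Or.inr ⟨g, by linarith⟩)

theorem Lam.R1_D (h : Lam Γ F) (hx : R1 x) : D1 Γ x (hh 1 x) := by
  rcases hx with ⟨h1, h2⟩ | ⟨h1, h2⟩
  · rw [hh_RU h1 h2]
    have := h.D1_R (u := 6759256 - x) (by linarith) (by linarith)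
    rwa [show 6759256 - (6759256 - x) = x by ring] at this
  · rw [hh_LL h1 h2]
    have := h.D1_L (u := x - 19906936) (by linarith) (by linarith)
    rwa [show 19906936 + (x - 19906936) = x by ring] at this

theorem Lam.R2_D (h : Lam Γ F) (hx : R2 x) : D2 Γ x (hh 1 x) := by
  rcases hx with ⟨h1, h2⟩ | ⟨h1, h2⟩
  · rw [hh_RL h1 h2]
    have := h.D2_R (u := x - 6730360) (by linarith) (by linarith)
    rwa [show 6730360 + (x - 6730360) = x by ring] at this
  · rw [hh_LU h1 h2]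
    have := h.D2_L (u := 19935832 - x) (by linarith) (by linarith)
    rwa [show 19935832 - (19935832 - x) = x by ring] at this

theorem Lam.sepLeaf (h : Lam Γ F) {a b : ℝ} (hab : Γ a = Γ b) (h1 : a ≤ x) (h2 : x ≤ b)
    (h3 : y ≤ a ∨ b ≤ y) (h4 : b - 40353264 < y) (h5 : y < a + 40353264) (he : Γ x = Γ y) :
    Γ x = Γ a := by
  rcases eq_or_lt_of_le h1 with e | h1
  · rw [e]
  rcases eq_or_lt_of_le h2 with e | h2
  · rw [e, hab]
  rcases h3 with h3 | h3
  · rcases eq_or_lt_of_le h3 with e | h3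
    · rw [he, e]
    · exact (h.unl a x b (y + 40353264) h1 h2 (by linarith) (by linarith) hab
        (by rw [h.per, he])).symm
  · rcases eq_or_lt_of_le h3 with e | h3
    · rw [he, ← e, hab]
    · exact (h.unl a x b y h1 h2 h3 (by linarith) hab he).symm

theorem Lam.mix (h : Lam Γ F) (hx : R1 x) (hy : R2 y) :
    Γ x = Γ y ↔ Γ (hh 1 x) = Γ (hh 1 y) := by
  have m1 : R1 19935748 := Or.inr ⟨by norm_num, by norm_num⟩
  have m1' : R1 6730444 := Or.inl ⟨by norm_num, by norm_num⟩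
  have m2 : R2 19935748 := Or.inr ⟨by norm_num, by norm_num⟩
  have e1 : omL 0 = 19935748 := by unfold omL; norm_num
  have e2 : omR 0 = 6730444 := by unfold omR; norm_num
  have hm : Γ 6730444 = Γ 19935748 := by
    have := h.om_leaf 0
    rw [e1, e2] at this
    exact this.symm
  have v1 : hh 1 19935748 = 19907020 := by
    rw [hh_LL (by norm_num) (by norm_num)]; norm_num
  have v2 : hh 1 6730444 = 6759172 := by
    rw [hh_RU (by norm_num) (by norm_num)]; norm_num
  have hm' : Γ 6759172 = Γ 19907020 := by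
    rw [← v1, ← v2]
    exact (h.D1_iso (h.R1_D m1') (h.R1_D m1)).1 hm
  have i1 := h.D1_iso (h.R1_D hx) (h.R1_D m1)
  have i2 := h.D2_iso (h.R2_D hy) (h.R2_D m2)
  rw [v1] at i1 i2
  constructor
  · intro e
    have k : Γ x = Γ 6730444 := by
      refine h.sepLeaf (y := y) hm ?_ ?_ ?_ ?_ ?_ e
      · rcases hx with hx | hx <;> linarith [hx.1, hx.2]
      · rcases hx with hx | hx <;> linarith [hx.1, hx.2]
      · rcases hy with hy | hy
        · exact Or.inl hy.2
        · exact Or.inr hy.1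
      · rcases hy with hy | hy <;> linarith [hy.1, hy.2]
      · rcases hy with hy | hy <;> linarith [hy.1, hy.2]
    rw [i1.1 (by rw [k, hm]), i2.1 (by rw [← e, k, hm])]
  · intro e
    have k : Γ (hh 1 x) = Γ 6759172 := by
      refine h.sepLeaf (y := hh 1 y) hm' ?_ ?_ ?_ ?_ ?_ e
      · rcases hx with hx | hx
        · rw [hh_RU hx.1 hx.2]; linarith [hx.1, hx.2]
        · rw [hh_LL hx.1 hx.2]; linarith [hx.1, hx.2]
      · rcases hx with hx | hx
        · rw [hh_RU hx.1 hx.2]; linarith [hx.1, hx.2]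
        · rw [hh_LL hx.1 hx.2]; linarith [hx.1, hx.2]
      · rcases hy with hy | hy
        · rw [hh_RL hy.1 hy.2]; left; linarith [hy.1, hy.2]
        · rw [hh_LU hy.1 hy.2]; right; linarith [hy.1, hy.2]
      · rcases hy with hy | hy
        · rw [hh_RL hy.1 hy.2]; linarith [hy.1, hy.2]
        · rw [hh_LU hy.1 hy.2]; linarith [hy.1, hy.2]
      · rcases hy with hy | hy
        · rw [hh_RL hy.1 hy.2]; linarith [hy.1, hy.2]
        · rw [hh_LU hy.1 hy.2]; linarith [hy.1, hy.2]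
    rw [i1.2 (by rw [k, hm']), i2.2 (by rw [← e, k, hm'])]

/-- the generator preserves the classes of the strip -/
theorem Lam.PP0 (h : Lam Γ F) (hx : DD 1 x) (hy : DD 1 y) :
    Γ x = Γ y ↔ Γ (hh 1 x) = Γ (hh 1 y) := by
  rcases DD_cases hx with hx | hx <;> rcases DD_cases hy with hy | hy
  · exact h.D1_iso (h.R1_D hx) (h.R1_D hy)
  · exact h.mix hx hy
  · rw [eq_comm, h.mix hy hx, eq_comm]
  · exact h.D2_iso (h.R2_D hx) (h.R2_D hy)

end Pool.Agent.JB
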