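import Pool.Agent.Lib.MP_8ebc20_an.B.Lift

/-!
# Part B: finite checks for `Pi` and `Near`
-/

set_option autoImplicit false

namespace Pool.Agent.JB

open Set

variable {Γ : ℝ → ℂ} {F : ℂ → ℂ} {x y s t s' t' u b z : ℝ} {i : Fin 7}

theorem Lam.CP_congr (h : Lam Γ F) (hs : Γ s = Γ s') (ht : Γ t = Γ t') (hp : CP Γ x s t) :
    CP Γ x s' t' := by
  intro h1 h2
  have h1' : Γ s ≠ Γ x := by rw [hs]; exact h1
  have h2' : Γ t ≠ Γ x := by rw [ht]; exact h2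
  have g1 := h.SAclass hs.symm h1
  have g2 := h.SAclass ht h2'
  obtain ⟨k1, k2⟩ := hp h1' h2'
  refine ⟨fun hm => h.SAtrans (h.SAtrans g1 (k1 hm)) g2, fun hm => ?_⟩
  rcases k2 hm with k | k
  · exact Or.inl (h.SAtrans (h.SAtrans g1 k) g2)
  · exact Or.inr (h.NX_right (h.NX_left g1 k) g2)

theorem Lam.CN_congr (h : Lam Γ F) (hs : Γ s = Γ s') (ht : Γ t = Γ t') (hp : CN Γ x s t) :
    CN Γ x s' t' := by
  intro h1 h2 hm
  have h1' : Γ s ≠ Γ x := by rw [hs]; exact h1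
  have h2' : Γ t ≠ Γ x := by rw [ht]; exact h2
  have g1 := h.SAclass hs.symm h1
  have g2 := h.SAclass ht h2'
  exact h.SAtrans (h.SAtrans g1 (hp h1' h2' hm)) g2

theorem Lam.CN_symm (h : Lam Γ F) (hp : CN Γ x s t) : CN Γ x t s :=
  fun h1 h2 hm => h.SAsymm (hp h2 h1 hm)

theorem CN.cp (hp : CN Γ x s t) : CP Γ x s t :=
  fun h1 h2 => ⟨fun hm => hp h1 h2 (Or.inl hm), fun hm => Or.inl (hp h1 h2 (Or.inr hm))⟩

theorem Near.pi (hp : Near Γ s t) : Pi Γ s t := fun x => CN.cp (hp x)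

theorem Lam.Near_symm (h : Lam Γ F) (hp : Near Γ s t) : Near Γ t s := fun x => h.CN_symm (hp x)

theorem Lam.Pi_congr (h : Lam Γ F) (hs : Γ s = Γ s') (ht : Γ t = Γ t') (hp : Pi Γ s t) :
    Pi Γ s' t' := fun x => h.CP_congr hs ht (hp x)

theorem Lam.Near_congr (h : Lam Γ F) (hs : Γ s = Γ s') (ht : Γ t = Γ t') (hp : Near Γ s t) :
    Near Γ s' t' := fun x => h.CN_congr hs ht (hp x)

theorem Lam.CN_same (h : Lam Γ F) (hs : Γ s = Γ t) : CN Γ x s t :=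
  fun h1 _ _ => h.SAclass hs h1

theorem Lam.Near_same (h : Lam Γ F) (hs : Γ s = Γ t) : Near Γ s t := fun _ => h.CN_same hs

theorem Lam.Pi_same (h : Lam Γ F) (hs : Γ s = Γ t) : Pi Γ s t := (h.Near_same hs).pi

theorem SA_base (hx : Γ x = Γ z) : SA Γ x s t ↔ SA Γ z s t := by
  unfold SA; rw [hx]

theorem NX_base (hx : Γ x = Γ z) : NX Γ x s t ↔ NX Γ z s t := by
  unfold NX; rw [hx]

/-! the arcs -/

theorem Lam.eqA (h : Lam Γ F) (k : ℤ) (hk : arA k = 9) : Γ k = Γ 6961528 := by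
  rcases (arA_spec k).2.2.2.1 hk with g | g | g
  · exact h.congr g
  · rw [h.congr g, h.al1]
  · rw [h.congr g, h.al2]

theorem Lam.eq0 (h : Lam Γ F) (k : ℤ) (hk : ar0 k = 9) : Γ k = Γ 0 := by
  rcases (ar0_spec k).2.2.1 hk with g | g
  · exact h.congr g
  · rw [h.congr g, h.fixz]

theorem Lam.neA (h : Lam Γ F) (k : ℤ) (hk : arA k ≠ 9) : Γ k ≠ Γ 6961528 := by
  obtain ⟨h1, h2, h0, -, h4⟩ := arA_spec k
  rcases h4 with g | g | g | g
  · obtain ⟨n, hn⟩ := h0 g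
    have := h.empA0 _ hn.1 hn.2
    rwa [h.per_int] at this
  · obtain ⟨n, hn⟩ := h1 g
    have := h.empA1 _ hn.1 hn.2
    rwa [h.per_int] at this
  · obtain ⟨n, hn⟩ := h2 g
    have := h.empA2 _ hn.1 hn.2
    rwa [h.per_int] at this
  · exact absurd g hk

theorem Lam.ne0 (h : Lam Γ F) (k : ℤ) (hk : ar0 k ≠ 9) : Γ k ≠ Γ 0 := by
  obtain ⟨h1, h2, -, h4⟩ := ar0_spec k
  rcases h4 with g | g | g
  · obtain ⟨n, hn⟩ := h1 g
    have := h.emp01 _ hn.1 hn.2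
    rwa [h.per_int] at this
  · obtain ⟨n, hn⟩ := h2 g
    have := h.emp02 _ hn.1 hn.2
    rwa [h.per_int] at this
  · exact absurd g hk

theorem Lam.saA (h : Lam Γ F) {k l : ℤ} (hk : arA k ≠ 9) (hkl : arA k = arA l) :
    SA Γ 6961528 k l := by
  obtain ⟨h1, h2, h0, -, h4⟩ := arA_spec k
  obtain ⟨g1, g2, g0, -, g4⟩ := arA_spec l
  rcases h4 with g | g | g | g
  · exact h.SA_of_arc h.empA0 (h0 g) (g0 (hkl ▸ g))
  · exact h.SA_of_arc h.empA1 (h1 g) (g1 (hkl ▸ g))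
  · exact h.SA_of_arc h.empA2 (h2 g) (g2 (hkl ▸ g))
  · exact absurd g hk

theorem Lam.sa0 (h : Lam Γ F) {k l : ℤ} (hk : ar0 k ≠ 9) (hkl : ar0 k = ar0 l) :
    SA Γ 0 k l := by
  obtain ⟨h1, h2, -, h4⟩ := ar0_spec k
  obtain ⟨g1, g2, -, g4⟩ := ar0_spec l
  rcases h4 with g | g | g
  · exact h.SA_of_arc h.emp01 (h1 g) (g1 (hkl ▸ g))
  · exact h.SA_of_arc h.emp02 (h2 g) (g2 (hkl ▸ g))
  · exact absurd g hk

theorem Lam.empA1' (h : Lam Γ F) : ∀ u : ℝ, 47314792 < u → u < 48730696 → Γ u ≠ Γ 6961528 := by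
  intro u h1 h2
  have := h.empA1 (u - 40353264) (by linarith) (by linarith)
  rwa [← h.per, sub_add_cancel] at this

theorem Lam.nxA (h : Lam Γ F) {k l : ℤ} (hk : arA k ≠ 9) (hkl : arA l = (arA k + 1) % 3) :
    NX Γ 6961528 k l := by
  obtain ⟨h1, h2, h0, -, h4⟩ := arA_spec k
  obtain ⟨g1, g2, g0, -, g4⟩ := arA_spec l
  rcases h4 with g | g | g | g
  · rw [g] at hkl
    have h5 := inArc_shift (g1 hkl)
    norm_num at h5
    exact h.NX_of_arc h.empA0 h.empA1' h.perA (h0 g) h5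
  · rw [g] at hkl
    exact h.NX_of_arc h.empA1 h.empA2 h.al1 (h1 g) (g2 hkl)
  · rw [g] at hkl
    exact h.NX_of_arc h.empA2 h.empA0 h.al2 (h2 g) (g0 hkl)
  · exact absurd g hk

theorem Lam.nsa0 (h : Lam Γ F) {k l : ℤ} (hk : ar0 k = 0) (hl : ar0 l = 1) :
    ¬ SA Γ 0 k l := by
  obtain ⟨h1, h2, -, h4⟩ := ar0_spec k
  obtain ⟨g1, g2, -, g4⟩ := ar0_spec l
  exact h.not_SA_of_arc rfl h.fixz (le_refl _) (by norm_num) (h1 hk) (g2 hl)

/-- turn two -/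
theorem Lam.n2A (h : Lam Γ F) {k l : ℤ} (hk : arA k ≠ 9) (hkl : arA l = (arA k + 2) % 3) :
    ¬ SA Γ 6961528 k l ∧ ¬ NX Γ 6961528 k l := by
  obtain ⟨h1, h2, h0, -, h4⟩ := arA_spec k
  obtain ⟨g1, g2, g0, -, g4⟩ := arA_spec l
  have e3 : Γ 48730696 = Γ 6961528 := by
    have := h.per 8377432
    norm_num at this
    rw [this, h.al1]
  have e4 : Γ 58642024 = Γ 6961528 := by
    have := h.per 18288760
    norm_num at this
    rw [this, h.al2]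
  rcases h4 with g | g | g | g
  · rw [g] at hkl
    have h5 := inArc_shift (g2 hkl)
    norm_num at h5
    exact ⟨h.not_SA_of_arc h.al2 h.perA (by norm_num) (by norm_num) (h0 g) h5,
      h.not_NX_of_arc h.perA e3 (by norm_num) (by norm_num) (h0 g) h5⟩
  · rw [g] at hkl
    exact ⟨h.not_SA_of_arc rfl h.al1 (by norm_num) (by norm_num) (h1 g) (g0 hkl),
      h.not_NX_of_arc h.al1 h.al2 (by norm_num) (by norm_num) (h1 g) (g0 hkl)⟩
  · rw [g] at hkl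
    have h5 := inArc_shift (g1 hkl)
    norm_num at h5
    exact ⟨h.not_SA_of_arc h.al1 h.al2 (by norm_num) (by norm_num) (h2 g) h5,
      h.not_NX_of_arc h.al2 h.perA (by norm_num) (by norm_num) (h2 g) h5⟩
  · exact absurd g hk

end Pool.Agent.JB
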