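import Pool.Agent.Lib.MP_8ebc20_an.B.QArc

/-!
# Part B: classes lie in one piece, multiplication by `7` on a piece
-/

set_option autoImplicit false

namespace Pool.Agent.JB

open Set

variable {Γ : ℝ → ℂ} {F : ℂ → ℂ} {x y s t : ℝ} {i : Fin 7}

/-- no class separates `c` from `d` -/
def Cut (Γ : ℝ → ℂ) (c d : ℝ) : Prop :=
  ∀ s t, Γ s = Γ t → c < s → s < d → d < t → t < c + 40353264 → False

theorem Lam.cutSwap (h : Lam Γ F) {c d : ℝ} (hc : Cut Γ c d) : Cut Γ d (c + 40353264) := by
  intro s t hst h1 h2 h3 h4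
  refine hc (t - 40353264) s ?_ (by linarith) (by linarith) h1 h2
  rw [hst, ← h.per (t - 40353264)]
  congr 1
  ring

theorem Lam.cutHalf (h : Lam Γ F) {c d : ℝ} (hc : Cut Γ c d) :
    Cut Γ (c + 20176632) (d + 20176632) := by
  intro s t hst h1 h2 h3 h4
  have h5 := h.half _ _ hst
  refine hc (s + 20176632 - 40353264) (t + 20176632 - 40353264) ?_ (by linarith) (by linarith)
    (by linarith) (by linarith)
  rw [← h.per (s + 20176632 - 40353264), ← h.per (t + 20176632 - 40353264)]
  simpa using h5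

theorem Lam.cutG1 (h : Lam Γ F) (i : Fin 7) : Cut Γ ((A i : ℝ) + L i) (B i) := by
  have hX : Cut Γ 6960940 18490444 := h.cutX
  have hU : Cut Γ 2642164 19936420 := h.cutU
  have hW : Cut Γ 8612716 14377468 := h.cutW
  have hX' := h.cutHalf hX
  have hU' := h.cutHalf hU
  have hW' := h.cutHalf hW
  fin_cases i <;> simp only [A, B, L] <;> norm_num <;> norm_num at hX' hU' hW'
  · intro s t _ h1 h2; linarith
  · exact hW
  · exact hX
  · exact hU
  · exact hX'
  · exact hW'
  · intro s t _ h1 h2; linarith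

theorem Lam.cutG2 (h : Lam Γ F) (i : Fin 7) :
    Cut Γ ((B i : ℝ) + (5764752 - L i)) (A i + 40353264) := by
  have hX : Cut Γ 6960940 18490444 := h.cutX
  have hU : Cut Γ 2642164 19936420 := h.cutU
  have hW : Cut Γ 8612716 14377468 := h.cutW
  have hX' := h.cutHalf hX
  have hU' := h.cutHalf hU
  have hW' := h.cutHalf hW
  have sX := h.cutSwap hX
  have sU := h.cutSwap hU
  have sW := h.cutSwap hW
  have sX' := h.cutSwap hX'
  have sU' := h.cutSwap hU'
  have sW' := h.cutSwap hW'
  fin_cases i <;> simp only [A, B, L] <;> norm_num <;>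
    norm_num at hX' hU' hW' sX sU sW sX' sU' sW'
  · exact sW
  · exact sX
  · exact sU
  · exact hU'
  · exact sU'
  · exact sX'
  · exact sW'

theorem Lam.cut_int (h : Lam Γ F) {c d : ℝ} (hc : Cut Γ c d) {s t : ℝ} (hst : Γ s = Γ t)
    {n m : ℤ} (h1 : c < s + n * 40353264) (h2 : s + n * 40353264 < d)
    (h3 : d < t + m * 40353264) (h4 : t + m * 40353264 < c + 40353264) : False :=
  hc _ _ (by rw [h.per_int, h.per_int]; exact hst) h1 h2 h3 h4

theorem inO.inP (h : inO i x) : inP i x := by
  obtain ⟨n, hn | hn⟩ := h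
  · exact ⟨n, Or.inl ⟨hn.1.le, hn.2.le⟩⟩
  · exact ⟨n, Or.inr ⟨hn.1.le, hn.2.le⟩⟩

/-- the class of a point of an open piece is in the closed piece -/
theorem Lam.same (h : Lam Γ F) (hs : inO i s) (hst : Γ s = Γ t) : inP i t := by
  obtain ⟨p1, p2, p3, p4, p5⟩ := piece_arith i
  have p1' : (0 : ℝ) ≤ L i := by exact_mod_cast p1
  have p2' : (L i : ℝ) ≤ 5764752 := by exact_mod_cast p2
  have p3' : (A i : ℝ) + L i ≤ B i := by exact_mod_cast p3
  have p4' : (B i : ℝ) + (5764752 - L i) ≤ A i + 40353264 := by exact_mod_cast p4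
  rcases Q_not i t with ht | ⟨m, ht⟩ | ⟨m, ht⟩
  · exact ht
  · exfalso
    obtain ⟨n, hn | hn⟩ := hs
    · exact h.cut_int (h.cutG1 i) hst.symm ht.1 ht.2 (m := n + 1) (by push_cast; linarith)
        (by push_cast; linarith)
    · exact h.cut_int (h.cutG1 i) hst.symm ht.1 ht.2 (m := n) (by linarith)
        (by linarith)
  · exfalso
    obtain ⟨n, hn | hn⟩ := hs
    · exact h.cut_int (h.cutG2 i) hst.symm ht.1 ht.2 (m := n + 1) (by push_cast; linarith)
        (by push_cast; linarith)
    · exact h.cut_int (h.cutG2 i) hst.symm ht.1 ht.2 (m := n + 1) (by push_cast; linarith)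
        (by push_cast; linarith)

theorem Q_lt_of_inO (hx : inO i x) {y : ℝ} (hy : y < x) : Q i y < Q i x := by
  obtain ⟨n, hn | hn⟩ := hx
  · set z := max (y + n * 40353264) (A i) with hz
    have h1 : Q i (y + n * 40353264) ≤ Q i z := Q_mono i (le_max_left _ _)
    have hzx : z < x + n * 40353264 := max_lt (by linarith) hn.1
    have h2 := Q_first i (x := z) (le_max_right _ _) (by linarith)
    have h3 := Q_first i (x := x + n * 40353264) hn.1.le hn.2.le
    rw [Q_add_int] at h1 h3
    linarith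
  · set z := max (y + n * 40353264) (B i) with hz
    have h1 : Q i (y + n * 40353264) ≤ Q i z := Q_mono i (le_max_left _ _)
    have hzx : z < x + n * 40353264 := max_lt (by linarith) hn.1
    have h2 := Q_second i (x := z) (le_max_right _ _) (by linarith)
    have h3 := Q_second i (x := x + n * 40353264) hn.1.le hn.2.le
    rw [Q_add_int] at h1 h3
    linarith

theorem Q_gt_of_inO (hx : inO i x) {y : ℝ} (hy : x < y) : Q i x < Q i y := by
  obtain ⟨n, hn | hn⟩ := hx
  · set z := min (y + n * 40353264) (A i + L i) with hz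
    have h1 : Q i z ≤ Q i (y + n * 40353264) := Q_mono i (min_le_left _ _)
    have hzx : x + n * 40353264 < z := lt_min (by linarith) hn.2
    have h2 := Q_first i (x := z) (by linarith) (min_le_right _ _)
    have h3 := Q_first i (x := x + n * 40353264) hn.1.le hn.2.le
    rw [Q_add_int] at h1 h3
    linarith
  · set z := min (y + n * 40353264) (B i + (5764752 - L i)) with hz
    have h1 : Q i z ≤ Q i (y + n * 40353264) := Q_mono i (min_le_left _ _)
    have hzx : x + n * 40353264 < z := lt_min (by linarith) hn.2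
    have h2 := Q_second i (x := z) (by linarith) (min_le_right _ _)
    have h3 := Q_second i (x := x + n * 40353264) hn.1.le hn.2.le
    rw [Q_add_int] at h1 h3
    linarith

theorem Q_inj_of_inO (hx : inO i x) (h : Q i x = Q i y) : x = y := by
  rcases lt_trichotomy x y with h1 | h1 | h1
  · have := Q_gt_of_inO hx h1; linarith
  · exact h1
  · have := Q_lt_of_inO hx h1; linarith

theorem inO_congr (h : Eqv x y) (hx : inO i x) : inO i y := by
  obtain ⟨m, hm⟩ := h
  obtain ⟨n, hn | hn⟩ := hx
  · exact ⟨n + m, Or.inl ⟨by push_cast; linarith, by push_cast; linarith⟩⟩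
  · exact ⟨n + m, Or.inr ⟨by push_cast; linarith, by push_cast; linarith⟩⟩

theorem inP_congr (h : Eqv x y) (hx : inP i x) : inP i y := by
  obtain ⟨m, hm⟩ := h
  obtain ⟨n, hn | hn⟩ := hx
  · exact ⟨n + m, Or.inl ⟨by push_cast; linarith, by push_cast; linarith⟩⟩
  · exact ⟨n + m, Or.inr ⟨by push_cast; linarith, by push_cast; linarith⟩⟩

/-- `×7` is injective on a piece -/
theorem inj7 (hx : inO i x) (hy : inP i y) (h : Eqv (7 * x) (7 * y)) : Eqv x y := by
  have h1 : Eqv (Q i x) (Q i y) := ((Q_inP hx.inP).trans h).trans (Q_inP hy).symm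
  obtain ⟨n, hn⟩ := h1
  have h2 : Q i x = Q i (y + n * 40353264) := by rw [Q_add_int]; linarith
  have h3 := Q_inj_of_inO hx h2
  exact ⟨n, by linarith⟩

theorem Lam.lp (h : Lam Γ F) (hs : inO i s) (ht : inO i t) (hst : Γ (7 * s) = Γ (7 * t)) :
    Γ s = Γ t := by
  obtain ⟨x', h1, h2⟩ := h.fib s (7 * t) (by rw [← hst, h.conj])
  have h3 := h.same hs h1.symm
  have h4 := inj7 ht h3 h2.symm
  rw [h.congr h4, h1]

end Pool.Agent.JB
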