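import Pool.Agent.Lib.MP_8ebc20_an.B.P0

/-!
# Part B: the generator on all strips
-/

set_option autoImplicit false

namespace Pool.Agent.JB

open Set

variable {Γ : ℝ → ℂ} {F : ℂ → ℂ} {x x' y s t s' t' u b z m m' c c' v w w' g g' r : ℝ}
  {i : Fin 7} {H K : ℝ ≃o ℝ}

theorem hR_rng (h1 : 6730360 / r ≤ x) (h2 : x ≤ 6759256 / r) :
    x ≤ hR r x ∧ hR r x ≤ 6759256 / r := by
  unfold hR
  refine ⟨le_max_left _ _, max_le h2 ((min_le_right _ _).trans (by linarith))⟩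

theorem hL_rng (h1 : 20176632 - 269696 / r ≤ x) (h2 : x ≤ 20176632 - 240800 / r) :
    20176632 - 269696 / r ≤ hL r x ∧ hL r x ≤ x := by
  unfold hL
  refine ⟨le_min h1 (le_trans ?_ (le_max_left _ _)), min_le_left _ _⟩
  linarith

theorem hR_scale (hr : 1 ≤ r) (x : ℝ) : 7 * hR (7 * r) x = hR r (7 * x) := by
  have h0 : (0 : ℝ) < r := by linarith
  unfold hR
  rw [mul_max_of_nonneg _ _ (by norm_num : (0 : ℝ) ≤ 7), mul_min_of_nonneg _ _ (by norm_num : (0 : ℝ) ≤ 7)]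
  congr 1
  congr 1
  · field_simp
  · field_simp

theorem hL_scale (hr : 1 ≤ r) (x : ℝ) :
    7 * hL (7 * r) x - 3 * 40353264 = hL r (7 * x - 3 * 40353264) := by
  have h0 : (0 : ℝ) < r := by linarith
  unfold hL
  rw [mul_min_of_nonneg _ _ (by norm_num : (0 : ℝ) ≤ 7), mul_max_of_nonneg _ _ (by norm_num : (0 : ℝ) ≤ 7),
    ← min_sub_sub_right, ← max_sub_sub_right]
  congr 1
  congr 1
  · field_simp; ring
  · field_simp; ring

theorem div_small {a : ℝ} (ha : 0 < a) (hr : 1 ≤ r) : 0 < a / r ∧ a / r ≤ a ∧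
    0 < a / (7 * r) ∧ a / (7 * r) ≤ a / 7 ∧ 7 * (a / (7 * r)) = a / r := by
  have h0 : (0 : ℝ) < r := by linarith
  refine ⟨by positivity, ?_, by positivity, ?_, ?_⟩
  · rw [div_le_iff₀ h0]; nlinarith
  · rw [div_le_div_iff₀ (by positivity) (by norm_num)]; nlinarith
  · field_simp

theorem scal (hr : 1 ≤ r) (hx : DD (7 * r) x) : ∃ sx, DD r sx ∧ Eqv (7 * x) sx ∧
    Eqv (7 * hh (7 * r) x) (hh r sx) ∧ inO 3 x ∧ inO 3 (hh (7 * r) x) := by
  obtain ⟨a1, a2, a3, a4, a5⟩ := div_small (a := 6730360) (by norm_num) hr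
  obtain ⟨b1, b2, b3, b4, b5⟩ := div_small (a := 6759256) (by norm_num) hr
  obtain ⟨c1, c2, c3, c4, c5⟩ := div_small (a := 269696) (by norm_num) hr
  obtain ⟨d1, d2, d3, d4, d5⟩ := div_small (a := 240800) (by norm_num) hr
  rcases hx with ⟨h1, h2⟩ | ⟨h1, h2⟩
  · have e1 : hh (7 * r) x = hR (7 * r) x := if_pos (by linarith)
    have e2 : hh r (7 * x) = hR r (7 * x) := if_pos (by linarith)
    obtain ⟨g1, g2⟩ := hR_rng h1 h2
    refine ⟨7 * x, Or.inl ⟨by linarith, by linarith⟩, Eqv.refl _, ?_,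
      inO3_lo (by linarith) (by linarith), ?_⟩
    · rw [e1, e2, hR_scale hr]; exact Eqv.refl _
    · rw [e1]; exact inO3_lo (by linarith) (by linarith)
  · have e1 : hh (7 * r) x = hL (7 * r) x := if_neg (by linarith)
    have e2 : hh r (7 * x - 3 * 40353264) = hL r (7 * x - 3 * 40353264) :=
      if_neg (by linarith)
    obtain ⟨g1, g2⟩ := hL_rng h1 h2
    refine ⟨7 * x - 3 * 40353264, Or.inr ⟨by linarith, by linarith⟩, ⟨3, by push_cast; ring⟩,
      ?_, inO3_hi (by linarith) (by linarith), ?_⟩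
    · rw [e1, e2, ← hL_scale hr]; exact ⟨3, by push_cast; ring⟩
    · rw [e1]; exact inO3_hi (by linarith) (by linarith)

/-- the generator preserves the classes of the strip `k` -/
theorem Lam.PPk (h : Lam Γ F) (k : ℕ) : ∀ x y, DD (7 ^ k) x → DD (7 ^ k) y →
    (Γ x = Γ y ↔ Γ (hh (7 ^ k) x) = Γ (hh (7 ^ k) y)) := by
  induction k with
  | zero => intro x y hx hy; rw [pow_zero] at hx hy ⊢; exact h.PP0 hx hy
  | succ k ih =>
    intro x y hx hy
    have hr : (1 : ℝ) ≤ 7 ^ k := one_le_pow₀ (by norm_num)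
    rw [pow_succ'] at hx hy ⊢
    obtain ⟨sx, a1, a2, a3, a4, a5⟩ := scal hr hx
    obtain ⟨sy, b1, b2, b3, b4, b5⟩ := scal hr hy
    rw [h.seven a4 b4, h.congr a2, h.congr b2, ih _ _ a1 b1, ← h.congr a3, ← h.congr b3,
      ← h.seven a5 b5]

end Pool.Agent.JB
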