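import Pool.Agent.Lib.MP_8ebc20_an.B.Chk

/-!
# Part B: visible pairs
-/

set_option autoImplicit false

namespace Pool.Agent.JB

open Set

variable {Γ : ℝ → ℂ} {F : ℂ → ℂ} {x y s t s' t' u b z : ℝ} {i : Fin 7}

def posL : List (ℤ × ℤ) :=
  [(994504, 5764752), (6730360, 0), (6730360, 5764752), (6759256, 0), (6759256, 18495148),
  (6759256, 19935748), (6759844, 8373316), (6759844, 18490444), (6961528, 6759844), (6961528,
  8406244), (6961528, 18259948), (6961528, 18490444), (6961528, 18495148), (6965644, 8373316),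
  (8373316, 6965644), (8373316, 8406244), (8373316, 18259948), (8377432, 6759844), (8377432,
  8373316), (8377432, 18490444), (8406244, 18259948), (8406244, 18495148), (12495112, 11529504),
  (12495112, 17294256), (18259864, 11529504), (18259864, 17294256), (18259948, 6759844),
  (18259948, 8406244), (18259948, 18490444), (18288760, 8373316), (18288760, 18259948),
  (18490444, 6759844), (18490444, 8373316), (18490444, 18495148), (18495148, 0), (19935748, 0)]

def neaL : List (ℤ × ℤ) :=
  [(6759844, 18288760), (6759844, 18490444), (6961528, 6759256), (6961528, 6759844), (6965644,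
  8373316), (8373316, 6961528), (8373316, 6965644), (8377432, 8373316), (8406244, 18259948),
  (18259948, 8377432), (18259948, 8406244), (18288760, 18259948), (18490444, 6759844)]

theorem posL_closed : closedL posL = true := by decide +kernel
theorem posL_base : (posL.all fun p => basePi p.1 p.2) = true := by decide +kernel
theorem neaL_closed : closedL neaL = true := by decide +kernel
theorem neaL_base : (neaL.all fun p => baseNe p.1 p.2) = true := by decide +kernel

theorem Lam.posF (h : Lam Γ F) {a b : ℤ} (hab : (a, b) ∈ posL) : Pi Γ a b :=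
  h.Pi_coind posL_closed posL_base _ hab

theorem Lam.neaF (h : Lam Γ F) {a b : ℤ} (hab : (a, b) ∈ neaL) : Near Γ a b :=
  h.Near_coind neaL_closed neaL_base _ hab

/-- the value of `Q i` on the piece `k` -/
def val (i k : Fin 7) : ℤ :=
  if k.1 < i.1 then V ⟨i.1 - 1, by omega⟩ else V ⟨i.1 % 6, by omega⟩

/-- the arc `[a, b]` is in a gap of the piece `i` -/
def gapB (i k : Fin 7) (a b : ℤ) : Bool :=
  ([-1, 0, 1] : List ℤ).any fun n =>
    (decide (A i + L i ≤ a + n * 40353264) && (decide (b + n * 40353264 ≤ B i) &&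
      ((7 * (A i + L i) - val i k) % 40353264 == 0))) ||
    (decide (B i + (5764752 - L i) ≤ a + n * 40353264) &&
      (decide (b + n * 40353264 ≤ A i + 40353264) && ((7 * A i - val i k) % 40353264 == 0)))

theorem gapB_all : ∀ i k : Fin 7, i ≠ k → gapB i k (A k) (A k + L k) = true ∧
    gapB i k (B k) (B k + (5764752 - L k)) = true := by
  decide +kernel

theorem gapB_spec {i k : Fin 7} {a b : ℤ} (h : gapB i k a b = true) {m : ℤ}
    (h1 : (a : ℝ) ≤ x + m * 40353264) (h2 : x + m * 40353264 ≤ (b : ℝ)) :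
    Eqv (Q i x) (val i k) := by
  unfold gapB at h
  rw [List.any_eq_true] at h
  obtain ⟨n, -, hn⟩ := h
  simp only [Bool.or_eq_true, Bool.and_eq_true, decide_eq_true_eq, beq_iff_eq] at hn
  rcases hn with ⟨g1, g2, g3⟩ | ⟨g1, g2, g3⟩
  · have g1' : (A i : ℝ) + L i ≤ a + n * 40353264 := by exact_mod_cast g1
    have g2' : (b : ℝ) + n * 40353264 ≤ B i := by exact_mod_cast g2
    have e := Q_gap1 i (x := x + ((m + n : ℤ) : ℝ) * 40353264) (by push_cast; linarith)
      (by push_cast; linarith)
    rw [Q_add_int] at e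
    have g4 := eqv_int g3
    refine Eqv.trans ?_ g4
    exact ⟨-(m + n), by push_cast at e ⊢; linarith⟩
  · have g1' : (B i : ℝ) + (5764752 - L i) ≤ a + n * 40353264 := by exact_mod_cast g1
    have g2' : (b : ℝ) + n * 40353264 ≤ A i + 40353264 := by exact_mod_cast g2
    have e := Q_gap2 i (x := x + ((m + n : ℤ) : ℝ) * 40353264) (by push_cast; linarith)
      (by push_cast; linarith)
    rw [Q_add_int] at e
    have g4 := eqv_int g3
    refine Eqv.trans ?_ g4
    exact ⟨1 - (m + n), by push_cast at e ⊢; linarith⟩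

theorem Q_other {i k : Fin 7} (hik : i ≠ k) (hx : inO k x) : Eqv (Q i x) (val i k) := by
  obtain ⟨g1, g2⟩ := gapB_all i k hik
  obtain ⟨m, ⟨h1, h2⟩ | ⟨h1, h2⟩⟩ := hx
  · exact gapB_spec g1 h1.le (by push_cast; exact h2.le)
  · exact gapB_spec g2 h1.le (by push_cast; exact h2.le)

/-- open pieces are disjoint -/
theorem inO_unique {j k : Fin 7} (hj : inO j x) (hk : inO k x) : j = k := by
  by_contra hjk
  obtain ⟨δ, hδ, hδ'⟩ := local_affine hj
  obtain ⟨ε, hε, hε'⟩ := local_affine hk
  have hm : 0 < min δ ε := lt_min hδ hε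
  set v := x + min (min δ ε) 1 / 14 with hv
  have h1 : min (min δ ε) 1 ≤ min δ ε := min_le_left _ _
  have h2 : min δ ε ≤ δ := min_le_left _ _
  have h3 : min δ ε ≤ ε := min_le_right _ _
  have h0 : 0 < min (min δ ε) 1 := lt_min hm one_pos
  have h4 : min (min δ ε) 1 ≤ 1 := min_le_right _ _
  have hvx : |v - x| < min δ ε := by
    rw [hv, add_sub_cancel_left, abs_of_pos (by positivity)]
    linarith
  obtain ⟨a1, a2⟩ := hδ' v (by linarith)
  obtain ⟨b1, b2⟩ := hε' v (by linarith)
  have c1 := Q_other hjk b1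
  have c2 := Q_other hjk hk
  have c3 : Eqv (Q j v) (Q j x) := c1.trans c2.symm
  have c4 := small_eqv c3 (by
    rw [a2, hv, abs_of_pos (by linarith)]
    linarith)
  rw [a2, hv] at c4
  linarith

/-- both points in the same piece -/
theorem Lam.Pi_piece (h : Lam Γ F) (hs : inO i s) (ht : inO i t)
    (hp : Pi Γ (Q i s) (Q i t)) : Pi Γ s t := by
  apply h.Pi_of_Q
  intro j
  by_cases hj : j = i
  · rw [hj]; exact hp
  · exact h.Pi_same (h.congr ((Q_other hj hs).trans (Q_other hj ht).symm))

theorem Lam.Pi_Qo (h : Lam Γ F) (hp : Pi Γ s t) {k : Fin 7} (hik : i ≠ k) (ht : inO k t) :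
    Pi Γ (Q i s) (val i k) :=
  h.Pi_congr rfl (h.congr (Q_other hik ht)) (h.Pi_Q hp i)

theorem Lam.Near_Qo (h : Lam Γ F) (hp : Near Γ s t) {k : Fin 7} (hik : i ≠ k) (ht : inO k t) :
    Near Γ (Q i s) (val i k) :=
  h.Near_congr rfl (h.congr (Q_other hik ht)) (h.Near_Q hp i)

end Pool.Agent.JB
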