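import Pool.Agent.Lib.MP_8ebc20_an.B.QMap

/-!
# Part B: values of `Q i` on the pieces
-/

set_option autoImplicit false

namespace Pool.Agent.JB

open Set

variable {x y : ℝ}

theorem E_in {a L : ℝ} (h1 : a ≤ x) (h2 : x ≤ a + L) (hL : L < 40353264) :
    E a L x = x - a := by
  unfold E
  have : ⌊(x - a) / 40353264⌋ = 0 := by
    rw [Int.floor_eq_iff]
    constructor
    · push_cast; apply div_nonneg <;> linarith
    · rw [div_lt_iff₀ (by norm_num)]; push_cast; linarith
  rw [this]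
  push_cast
  rw [min_eq_left (by linarith)]
  ring

theorem E_out {a L : ℝ} (n : ℤ) (h0 : 0 ≤ L) (h1 : a + L + n * 40353264 ≤ x)
    (h2 : x ≤ a + (n + 1) * 40353264) : E a L x = L * (n + 1) := by
  rcases eq_or_lt_of_le h2 with h | h
  · have h3 : E a L (a + ((n : ℝ) + 1) * 40353264) = L * (n + 1) := by
      unfold E
      have : ⌊(a + ((n : ℝ) + 1) * 40353264 - a) / 40353264⌋ = n + 1 := by
        rw [show (a + ((n : ℝ) + 1) * 40353264 - a) / 40353264 = ((n + 1 : ℤ) : ℝ) by
          push_cast; field_simp; ring]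
        exact Int.floor_intCast _
      rw [this]
      push_cast
      rw [show a + ((n : ℝ) + 1) * 40353264 - a - 40353264 * ((n : ℝ) + 1) = 0 by ring,
        min_eq_left h0]
      ring
    rw [h]; exact h3
  · unfold E
    have : ⌊(x - a) / 40353264⌋ = n := by
      rw [Int.floor_eq_iff]
      constructor
      · rw [le_div_iff₀ (by norm_num)]; linarith
      · rw [div_lt_iff₀ (by norm_num)]; linarith
    rw [this, min_eq_right (by linarith)]
    ring

/-- arithmetic of the pieces -/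
theorem piece_arith (i : Fin 7) : 0 ≤ JB.L i ∧ JB.L i ≤ 5764752 ∧ A i + JB.L i ≤ B i ∧
    B i + (5764752 - JB.L i) ≤ A i + 40353264 ∧ (7 * (A i + JB.L i - B i)) % 40353264 = 0 := by
  fin_cases i <;> simp [JB.L, A, B]

theorem Q_first (i : Fin 7) (h1 : (A i : ℝ) ≤ x) (h2 : x ≤ A i + JB.L i) : Q i x = 7 * x := by
  obtain ⟨p1, p2, p3, p4, p5⟩ := piece_arith i
  have p1' : (0 : ℝ) ≤ JB.L i := by exact_mod_cast p1
  have p2' : (JB.L i : ℝ) ≤ 5764752 := by exact_mod_cast p2
  have p3' : (A i : ℝ) + JB.L i ≤ B i := by exact_mod_cast p3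
  have p4' : (B i : ℝ) + (5764752 - JB.L i) ≤ A i + 40353264 := by exact_mod_cast p4
  have e1 := E_in h1 h2 (by linarith)
  have e2 := E_out (x := x) (a := B i) (L := 5764752 - JB.L i) (-1) (by linarith)
    (by push_cast; linarith) (by push_cast; linarith)
  unfold Q
  rw [e1, e2]
  push_cast
  ring

theorem Q_second (i : Fin 7) (h1 : (B i : ℝ) ≤ x) (h2 : x ≤ B i + (5764752 - JB.L i)) :
    Q i x = 7 * x + 7 * (A i + JB.L i - B i) := by
  obtain ⟨p1, p2, p3, p4, p5⟩ := piece_arith i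
  have p1' : (0 : ℝ) ≤ JB.L i := by exact_mod_cast p1
  have p2' : (JB.L i : ℝ) ≤ 5764752 := by exact_mod_cast p2
  have p3' : (A i : ℝ) + JB.L i ≤ B i := by exact_mod_cast p3
  have p4' : (B i : ℝ) + (5764752 - JB.L i) ≤ A i + 40353264 := by exact_mod_cast p4
  have e1 := E_in h1 h2 (by linarith)
  have e2 := E_out (x := x) (a := A i) (L := JB.L i) 0 (by linarith)
    (by push_cast; linarith) (by push_cast; linarith)
  unfold Q
  rw [e1, e2]
  push_cast
  ring

theorem Q_gap1 (i : Fin 7) (h1 : (A i : ℝ) + JB.L i ≤ x) (h2 : x ≤ B i) :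
    Q i x = 7 * (A i + JB.L i) := by
  obtain ⟨p1, p2, p3, p4, p5⟩ := piece_arith i
  have p1' : (0 : ℝ) ≤ JB.L i := by exact_mod_cast p1
  have p2' : (JB.L i : ℝ) ≤ 5764752 := by exact_mod_cast p2
  have p3' : (A i : ℝ) + JB.L i ≤ B i := by exact_mod_cast p3
  have p4' : (B i : ℝ) + (5764752 - JB.L i) ≤ A i + 40353264 := by exact_mod_cast p4
  have e1 := E_out (x := x) (a := A i) (L := JB.L i) 0 (by linarith)
    (by push_cast; linarith) (by push_cast; linarith)
  have e2 := E_out (x := x) (a := B i) (L := 5764752 - JB.L i) (-1) (by linarith)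
    (by push_cast; linarith) (by push_cast; linarith)
  unfold Q
  rw [e1, e2]
  push_cast
  ring

theorem Q_gap2 (i : Fin 7) (h1 : (B i : ℝ) + (5764752 - JB.L i) ≤ x) (h2 : x ≤ A i + 40353264) :
    Q i x = 7 * A i + 40353264 := by
  obtain ⟨p1, p2, p3, p4, p5⟩ := piece_arith i
  have p1' : (0 : ℝ) ≤ JB.L i := by exact_mod_cast p1
  have p2' : (JB.L i : ℝ) ≤ 5764752 := by exact_mod_cast p2
  have p3' : (A i : ℝ) + JB.L i ≤ B i := by exact_mod_cast p3
  have p4' : (B i : ℝ) + (5764752 - JB.L i) ≤ A i + 40353264 := by exact_mod_cast p4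
  have e1 := E_out (x := x) (a := A i) (L := JB.L i) 0 (by linarith)
    (by push_cast; linarith) (by push_cast; linarith)
  have e2 := E_out (x := x) (a := B i) (L := 5764752 - JB.L i) 0 (by linarith)
    (by push_cast; linarith) (by push_cast; linarith)
  unfold Q
  rw [e1, e2]
  push_cast
  ring

theorem Q_inP {i : Fin 7} (h : inP i x) : Eqv (Q i x) (7 * x) := by
  obtain ⟨n, hn | hn⟩ := h
  · have := Q_first i hn.1 hn.2
    rw [Q_add_int] at this
    exact ⟨6 * n, by push_cast; linarith⟩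
  · have h1 := Q_second i hn.1 hn.2
    rw [Q_add_int] at h1
    obtain ⟨m, hm⟩ := Int.dvd_of_emod_eq_zero (piece_arith i).2.2.2.2
    have hm' : (7 : ℝ) * (A i + JB.L i - B i) = 40353264 * m := by exact_mod_cast hm
    exact ⟨6 * n + m, by push_cast; linarith⟩

/-- the complement of a closed piece is mapped to the two critical values -/
theorem Q_not (i : Fin 7) (x : ℝ) : inP i x ∨
    (∃ n : ℤ, (A i : ℝ) + JB.L i < x + n * 40353264 ∧ x + n * 40353264 < B i) ∨
    (∃ n : ℤ, (B i : ℝ) + (5764752 - JB.L i) < x + n * 40353264 ∧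
      x + n * 40353264 < A i + 40353264) := by
  set m : ℤ := ⌊(x - A i) / 40353264⌋ with hm
  have hm1 : (m : ℝ) * 40353264 ≤ x - A i := by
    have := Int.floor_le ((x - A i) / 40353264)
    rw [← hm, le_div_iff₀ (by norm_num)] at this
    exact this
  have hm2 : x - A i < (m + 1) * 40353264 := by
    have := Int.lt_floor_add_one ((x - A i) / 40353264)
    rw [← hm, div_lt_iff₀ (by norm_num)] at this
    exact this
  rcases le_or_gt (x + ((-m : ℤ) : ℝ) * 40353264) (A i + JB.L i) with h1 | h1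
  · exact Or.inl ⟨-m, Or.inl ⟨by push_cast; linarith, h1⟩⟩
  rcases lt_or_ge (x + ((-m : ℤ) : ℝ) * 40353264) (B i) with h2 | h2
  · exact Or.inr (Or.inl ⟨-m, h1, h2⟩)
  rcases le_or_gt (x + ((-m : ℤ) : ℝ) * 40353264) (B i + (5764752 - JB.L i)) with h3 | h3
  · exact Or.inl ⟨-m, Or.inr ⟨h2, h3⟩⟩
  · exact Or.inr (Or.inr ⟨-m, h3, by push_cast; linarith⟩)

end Pool.Agent.JB
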