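import Pool.Agent.Lib.MP_8ebc20_an.B.Eqv

/-!
# Part B: the maps `Q i` are monotone, continuous, of degree one
-/

set_option autoImplicit false

namespace Pool.Agent.JB

open Set

variable {a L x y : ℝ}

theorem E_bd (h0 : 0 ≤ L) (h1 : L ≤ 40353264) (hxy : x ≤ y) :
    0 ≤ E a L y - E a L x ∧ 40353264 * (E a L y - E a L x) ≤ 40353264 * (y - x) := by
  unfold E
  set n : ℤ := ⌊(x - a) / 40353264⌋ with hn
  set m : ℤ := ⌊(y - a) / 40353264⌋ with hm
  have hn1 : (n : ℝ) * 40353264 ≤ x - a := by
    have := Int.floor_le ((x - a) / 40353264)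
    rw [← hn, le_div_iff₀ (by norm_num)] at this
    exact this
  have hn2 : x - a < (n + 1) * 40353264 := by
    have := Int.lt_floor_add_one ((x - a) / 40353264)
    rw [← hn, div_lt_iff₀ (by norm_num)] at this
    exact this
  have hm1 : (m : ℝ) * 40353264 ≤ y - a := by
    have := Int.floor_le ((y - a) / 40353264)
    rw [← hm, le_div_iff₀ (by norm_num)] at this
    exact this
  have hm2 : y - a < (m + 1) * 40353264 := by
    have := Int.lt_floor_add_one ((y - a) / 40353264)
    rw [← hm, div_lt_iff₀ (by norm_num)] at this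
    exact this
  have hnm : n ≤ m := Int.floor_le_floor (by gcongr)
  rcases eq_or_lt_of_le hnm with h | h
  · rw [← h]
    constructor
    · have : min (x - a - 40353264 * n) L ≤ min (y - a - 40353264 * n) L :=
        min_le_min_right _ (by linarith)
      linarith
    · have : min (y - a - 40353264 * n) L ≤ min (x - a - 40353264 * n) L + (y - x) := by
        rw [← min_add_add_right]
        exact min_le_min (by linarith) (by linarith)
      linarith
  · have hk : (n : ℝ) + 1 ≤ m := by exact_mod_cast h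
    have hLk : L * (n + 1) ≤ L * m := mul_le_mul_of_nonneg_left hk h0
    have hLk' : (40353264 - L) * (n + 1) ≤ (40353264 - L) * m :=
      mul_le_mul_of_nonneg_left hk (by linarith)
    constructor
    · have h3 : min (x - a - 40353264 * n) L ≤ L := min_le_right _ _
      have h4 : 0 ≤ min (y - a - 40353264 * m) L := le_min (by linarith) h0
      nlinarith
    · have h3 : min (y - a - 40353264 * m) L ≤ y - a - 40353264 * m := min_le_left _ _
      rcases le_total (x - a - 40353264 * n) L with h4 | h4
      · rw [min_eq_left h4]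
        nlinarith
      · rw [min_eq_right h4]
        nlinarith

theorem E_add (a L x : ℝ) : E a L (x + 40353264) = E a L x + L := by
  unfold E
  have : (x + 40353264 - a) / 40353264 = (x - a) / 40353264 + 1 := by
    field_simp; ring
  rw [this, Int.floor_add_one]
  push_cast
  have h2 : x + 40353264 - a - 40353264 * ((⌊(x - a) / 40353264⌋ : ℝ) + 1) =
      x - a - 40353264 * ⌊(x - a) / 40353264⌋ := by ring
  rw [h2]
  ring

theorem E_int (a L k : ℤ) : E (a : ℝ) (L : ℝ) (k : ℝ) = (e a L k : ℤ) := by
  unfold E e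
  have h1 : ⌊((k : ℝ) - a) / 40353264⌋ = (k - a) / 40353264 := by
    rw [Int.floor_eq_iff]
    have h2 := Int.emod_add_mul_ediv (k - a) 40353264
    have h3 := Int.emod_nonneg (k - a) (show (40353264 : ℤ) ≠ 0 by norm_num)
    have h4 := Int.emod_lt_of_pos (k - a) (show (0 : ℤ) < 40353264 by norm_num)
    constructor
    · rw [le_div_iff₀ (by norm_num)]
      have : ((k - a) / 40353264) * 40353264 ≤ k - a := by linarith
      exact_mod_cast this
    · rw [div_lt_iff₀ (by norm_num)]
      have : k - a < ((k - a) / 40353264 + 1) * 40353264 := by linarith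
      exact_mod_cast this
  rw [h1]
  have h2 := Int.emod_add_mul_ediv (k - a) 40353264
  have h3 : (k : ℝ) - a - 40353264 * (((k - a) / 40353264 : ℤ) : ℝ) =
      (((k - a) % 40353264 : ℤ) : ℝ) := by
    have : k - a - 40353264 * ((k - a) / 40353264) = (k - a) % 40353264 := by linarith
    exact_mod_cast this
  rw [h3]
  push_cast
  rfl

theorem L_bd (i : Fin 7) : 0 ≤ JB.L i ∧ JB.L i ≤ 5764752 := by
  fin_cases i <;> simp [JB.L]

theorem Q_bd (i : Fin 7) (hxy : x ≤ y) : 0 ≤ Q i y - Q i x ∧ Q i y - Q i x ≤ 14 * (y - x) := by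
  have hL := L_bd i
  have h0 : (0 : ℝ) ≤ JB.L i := by exact_mod_cast hL.1
  have h1 : (JB.L i : ℝ) ≤ 5764752 := by exact_mod_cast hL.2
  have h2 := E_bd (a := (A i : ℝ)) (L := (JB.L i : ℝ)) h0 (by linarith) hxy
  have h3 := E_bd (a := (B i : ℝ)) (L := (5764752 - JB.L i : ℝ)) (by linarith) (by linarith) hxy
  unfold Q
  constructor <;> linarith [h2.1, h2.2, h3.1, h3.2]

theorem Q_mono (i : Fin 7) : Monotone (Q i) := fun _ _ h => by linarith [(Q_bd i h).1]

theorem Q_cont (i : Fin 7) : Continuous (Q i) := by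
  have : LipschitzWith 14 (Q i) := by
    apply LipschitzWith.of_dist_le_mul
    intro x y
    rw [Real.dist_eq, Real.dist_eq]
    rcases le_total x y with h | h
    · have := Q_bd i h
      rw [abs_sub_comm, abs_of_nonneg this.1, abs_sub_comm x y, abs_of_nonneg (by linarith)]
      exact this.2
    · have := Q_bd i h
      rw [abs_of_nonneg this.1, abs_of_nonneg (by linarith)]
      exact this.2
  exact this.continuous

theorem Q_add (i : Fin 7) (x : ℝ) : Q i (x + 40353264) = Q i x + 40353264 := by
  unfold Q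
  rw [E_add, E_add]
  ring

theorem Q_add_int (i : Fin 7) (x : ℝ) (n : ℤ) :
    Q i (x + n * 40353264) = Q i x + n * 40353264 := by
  induction n using Int.induction_on with
  | zero => simp
  | succ n ih =>
    have := Q_add i (x + (n : ℤ) * 40353264)
    rw [ih] at this
    push_cast at this ⊢
    rw [show x + ((n : ℝ) + 1) * 40353264 = x + n * 40353264 + 40353264 by ring, this]
    ring
  | pred n ih =>
    have := Q_add i (x + ((-(n : ℤ) - 1 : ℤ) : ℝ) * 40353264)
    rw [show x + ((-(n : ℤ) - 1 : ℤ) : ℝ) * 40353264 + 40353264 =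
      x + ((-(n : ℤ) : ℤ) : ℝ) * 40353264 by push_cast; ring, ih] at this
    push_cast at this ⊢
    linarith

theorem Q_eqv (i : Fin 7) (h : Eqv x y) : Eqv (Q i x) (Q i y) := by
  obtain ⟨n, hn⟩ := h
  have : x = y + n * 40353264 := by linarith
  rw [this, Q_add_int]
  exact Eqv.add_int _ _

theorem Q_int (i : Fin 7) (k : ℤ) : Q i (k : ℝ) = (q i k : ℤ) := by
  unfold Q q
  have h1 := E_int (A i) (JB.L i) k
  have h2 := E_int (B i) (5764752 - JB.L i) k
  push_cast at h1 h2 ⊢
  rw [h1, h2]

theorem Q_surj (i : Fin 7) (y : ℝ) : ∃ x, Q i x = y := by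
  obtain ⟨n, hn⟩ := exists_int_gt ((y - Q i 0) / 40353264)
  obtain ⟨m, hm⟩ := exists_int_lt ((y - Q i 0) / 40353264)
  rw [div_lt_iff₀ (by norm_num)] at hn
  rw [lt_div_iff₀ (by norm_num)] at hm
  have h1 := Q_add_int i 0 n
  have h2 := Q_add_int i 0 m
  have hmn : (0 : ℝ) + m * 40353264 ≤ 0 + n * 40353264 := by linarith
  have := intermediate_value_Icc hmn (Q_cont i).continuousOn
  obtain ⟨x, -, hx⟩ := this (show y ∈ Icc _ _ from ⟨by linarith, by linarith⟩)
  exact ⟨x, hx⟩

end Pool.Agent.JB
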