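import Pool.Agent.Lib.MP_8ebc20_an.B.Omp

/-!
# Part B: the symmetry of the critical gap
-/

set_option autoImplicit false

namespace Pool.Agent.JB

open Set

variable {Γ : ℝ → ℂ} {F : ℂ → ℂ} {x y s t s' t' u b z m m' c c' v w w' : ℝ} {i : Fin 7}
  {H K : ℝ ≃o ℝ}

theorem Lam.seven (h : Lam Γ F) (hs : inO i s) (ht : inO i t) :
    Γ s = Γ t ↔ Γ (7 * s) = Γ (7 * t) := ⟨h.conjEq, h.lp hs ht⟩

/-- the region between `e` and `ω'` -/
def Dp (w : ℝ) : Prop := (6759256 ≤ w ∧ w ≤ 6960940) ∨ (18289348 ≤ w ∧ w ≤ 18491032)

/-- the symmetry of the critical gap -/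
noncomputable def rh (w : ℝ) : ℝ := if w ≤ 10000000 then w + 11529504 else w - 11529504

theorem rh_lo (h : w ≤ 10000000) : rh w = w + 11529504 := if_pos h
theorem rh_hi (h : 10000000 < w) : rh w = w - 11529504 := if_neg (not_le.2 h)

theorem rh_seven (hw : Dp w) : Eqv (7 * rh w) (7 * w) := by
  rcases hw with hw | hw
  · rw [rh_lo (by linarith [hw.2])]; exact ⟨2, by push_cast; ring⟩
  · rw [rh_hi (by linarith [hw.1])]; exact ⟨-2, by push_cast; ring⟩

theorem Dp_cases (hw : Dp w) : w = 18490444 ∨ w = 6960940 ∨
    (inO 2 w ∧ inO 1 (rh w) ∧ 6960940 < rh w ∧ rh w < 18490444 ∧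
      ∃ n : ℤ, 18490444 < w + n * 40353264 ∧ w + n * 40353264 < 6960940 + 40353264) ∨
    (inO 1 w ∧ inO 2 (rh w) ∧ 6960940 < w ∧ w < 18490444 ∧
      ∃ n : ℤ, 18490444 < rh w + n * 40353264 ∧ rh w + n * 40353264 < 6960940 + 40353264) := by
  rcases hw with ⟨h1, h2⟩ | ⟨h1, h2⟩
  · rw [rh_lo (by linarith)]
    rcases eq_or_lt_of_le h2 with e | e
    · exact Or.inr (Or.inl e)
    · refine Or.inr (Or.inr (Or.inl ⟨inO2_lo (by linarith) e, inO1_hi (by linarith) (by linarith),
        by linarith, by linarith, 1, by push_cast; linarith, by push_cast; linarith⟩))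
  · rw [rh_hi (by linarith)]
    rcases lt_trichotomy w 18490444 with e | e | e
    · refine Or.inr (Or.inr (Or.inr ⟨inO1_hi (by linarith) e, inO2_lo (by linarith) (by linarith),
        by linarith, e, 1, by push_cast; linarith, by push_cast; linarith⟩))
    · exact Or.inl e
    · refine Or.inr (Or.inr (Or.inl ⟨inO2_hi e (by linarith), inO1_lo (by linarith) (by linarith),
        by linarith, by linarith, 0, by push_cast; linarith, by push_cast; linarith⟩))

theorem Lam.rhoA (h : Lam Γ F) (hw : Dp w) : Γ w = Γ 18490444 ↔ Γ (rh w) = Γ 6960940 := by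
  constructor
  · intro e
    rcases h.exactO e with g | g
    · have hw' : w = 6759844 := by
        rcases hw with hw | hw
        · exact eqv_near g (by linarith [hw.1, hw.2]) (by linarith [hw.1, hw.2])
        · exact eqv_near g (by linarith [hw.1, hw.2]) (by linarith [hw.1, hw.2])
      rw [hw', rh_lo (by norm_num)]
      norm_num
      exact h.omp
    · have hw' : w = 18490444 := by
        rcases hw with hw | hw
        · exact eqv_near g (by linarith [hw.1, hw.2]) (by linarith [hw.1, hw.2])
        · exact eqv_near g (by linarith [hw.1, hw.2]) (by linarith [hw.1, hw.2])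
      rw [hw', rh_hi (by norm_num)]
      norm_num
  · intro e
    have key : rh w = 6960940 ∨ rh w = 18289348 := by
      rcases hw with hw | hw
      · have r := rh_lo (w := w) (by linarith [hw.2])
        rcases h.exactOp e with g | g
        · exact Or.inl (eqv_near g (by linarith [hw.1, hw.2]) (by linarith [hw.1, hw.2]))
        · exact Or.inr (eqv_near g (by linarith [hw.1, hw.2]) (by linarith [hw.1, hw.2]))
      · have r := rh_hi (w := w) (by linarith [hw.1])
        rcases h.exactOp e with g | g
        · exact Or.inl (eqv_near g (by linarith [hw.1, hw.2]) (by linarith [hw.1, hw.2]))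
        · exact Or.inr (eqv_near g (by linarith [hw.1, hw.2]) (by linarith [hw.1, hw.2]))
    rcases hw with hw | hw
    · have r := rh_lo (w := w) (by linarith [hw.2])
      rcases key with k | k
      · linarith [hw.1]
      · have : w = 6759844 := by linarith
        rw [this, h.om0]
    · have r := rh_hi (w := w) (by linarith [hw.1])
      rcases key with k | k
      · have : w = 18490444 := by linarith
        rw [this]
      · linarith [hw.2]

theorem Lam.rhoB (h : Lam Γ F) (hw : Dp w) : Γ w = Γ 6960940 ↔ Γ (rh w) = Γ 18490444 := by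
  constructor
  · intro e
    rcases h.exactOp e with g | g
    · have hw' : w = 6960940 := by
        rcases hw with hw | hw
        · exact eqv_near g (by linarith [hw.1, hw.2]) (by linarith [hw.1, hw.2])
        · exact eqv_near g (by linarith [hw.1, hw.2]) (by linarith [hw.1, hw.2])
      rw [hw', rh_lo (by norm_num)]
      norm_num
    · have hw' : w = 18289348 := by
        rcases hw with hw | hw
        · exact eqv_near g (by linarith [hw.1, hw.2]) (by linarith [hw.1, hw.2])
        · exact eqv_near g (by linarith [hw.1, hw.2]) (by linarith [hw.1, hw.2])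
      rw [hw', rh_hi (by norm_num)]
      norm_num
      exact h.om0
  · intro e
    have key : rh w = 6759844 ∨ rh w = 18490444 := by
      rcases hw with hw | hw
      · have r := rh_lo (w := w) (by linarith [hw.2])
        rcases h.exactO e with g | g
        · exact Or.inl (eqv_near g (by linarith [hw.1, hw.2]) (by linarith [hw.1, hw.2]))
        · exact Or.inr (eqv_near g (by linarith [hw.1, hw.2]) (by linarith [hw.1, hw.2]))
      · have r := rh_hi (w := w) (by linarith [hw.1])
        rcases h.exactO e with g | g
        · exact Or.inl (eqv_near g (by linarith [hw.1, hw.2]) (by linarith [hw.1, hw.2]))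
        · exact Or.inr (eqv_near g (by linarith [hw.1, hw.2]) (by linarith [hw.1, hw.2]))
    rcases hw with hw | hw
    · have r := rh_lo (w := w) (by linarith [hw.2])
      rcases key with k | k
      · linarith [hw.1]
      · have : w = 6960940 := by linarith
        rw [this]
    · have r := rh_hi (w := w) (by linarith [hw.1])
      rcases key with k | k
      · have : w = 18289348 := by linarith
        rw [this, h.omp]
      · linarith [hw.2]

/-- the symmetry of the critical gap preserves the classes of `Dp` -/
theorem Lam.rho_iso (h : Lam Γ F) (hw : Dp w) (hw' : Dp w') :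
    Γ w = Γ w' ↔ Γ (rh w) = Γ (rh w') := by
  have rA : rh 18490444 = 6960940 := by rw [rh_hi (by norm_num)]; norm_num
  have rB : rh 6960940 = 18490444 := by rw [rh_lo (by norm_num)]; norm_num
  have hX : Cut Γ 6960940 18490444 := h.cutX
  have e7 := h.congr (rh_seven hw)
  have e7' := h.congr (rh_seven hw')
  rcases Dp_cases hw with e | e | ⟨a1, a2, a3, a4, n, a5, a6⟩ | ⟨a1, a2, a3, a4, n, a5, a6⟩
  · rw [e, rA, eq_comm, eq_comm (a := Γ 6960940)]
    exact h.rhoA hw'
  · rw [e, rB, eq_comm, eq_comm (a := Γ 18490444)]
    exact h.rhoB hw'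
  · rcases Dp_cases hw' with e | e | ⟨b1, b2, b3, b4, m, b5, b6⟩ | ⟨b1, b2, b3, b4, m, b5, b6⟩
    · rw [e, rA]; exact h.rhoA hw
    · rw [e, rB]; exact h.rhoB hw
    · rw [h.seven a1 b1, h.seven a2 b2, e7, e7']
    · constructor
      · intro e
        exact absurd (h.cut_int hX e.symm (n := 0) (m := n) (by push_cast; linarith)
          (by push_cast; linarith) a5 a6) id
      · intro e
        exact absurd (h.cut_int hX e (n := 0) (m := m) (by push_cast; linarith)
          (by push_cast; linarith) b5 b6) id
  · rcases Dp_cases hw' with e | e | ⟨b1, b2, b3, b4, m, b5, b6⟩ | ⟨b1, b2, b3, b4, m, b5, b6⟩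
    · rw [e, rA]; exact h.rhoA hw
    · rw [e, rB]; exact h.rhoB hw
    · constructor
      · intro e
        exact absurd (h.cut_int hX e (n := 0) (m := m) (by push_cast; linarith)
          (by push_cast; linarith) b5 b6) id
      · intro e
        exact absurd (h.cut_int hX e.symm (n := 0) (m := n) (by push_cast; linarith)
          (by push_cast; linarith) a5 a6) id
    · rw [h.seven a1 b1, h.seven a2 b2, e7, e7']

/-- multiplication by `7` up to the boundary of a piece -/
theorem Lam.seven_bd (h : Lam Γ F)
    (hs : inO i s ∨ Γ (7 * s) = Γ 8373316) (ht : inO i t ∨ Γ (7 * t) = Γ 8373316)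
    (hs' : Γ (7 * s) = Γ 8373316 → Γ s = Γ c) (ht' : Γ (7 * t) = Γ 8373316 → Γ t = Γ c) :
    Γ s = Γ t ↔ Γ (7 * s) = Γ (7 * t) := by
  refine ⟨h.conjEq, fun e => ?_⟩
  rcases hs with hs | hs
  · rcases ht with ht | ht
    · exact h.lp hs ht e
    · rw [hs' (by rw [e, ht]), ht' ht]
  · rw [hs' hs, ht' (by rw [← e, hs])]

end Pool.Agent.JB
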