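import Pool.Agent.Lib.MP_8ebc20_an.B.Mir

/-!
# Part B: rigidity of `0` and `± α`
-/

set_option autoImplicit false

namespace Pool.Agent.JB

open Set

variable {Γ : ℝ → ℂ} {F : ℂ → ℂ} {x y s t s' t' u b z m m' c c' v : ℝ} {i k : Fin 7}

/-- status of a centre and a mark -/
def Stt (Γ : ℝ → ℂ) (c m : ℝ) : Prop :=
  ((Γ c = Γ 6961528 ∨ Γ c = Γ 27138160) ∧ Γ m = Γ 0) ∨ Ctr Γ c m

theorem Lam.near_A (h : Lam Γ F) (hc : Γ c = Γ 6961528) (ht : IsT Γ t) (htc : Γ t ≠ Γ c)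
    (hn : Near Γ c t) : Pi Γ t 0 ∨ Two Γ t := by
  have hn' : Near Γ ((6961528 : ℤ) : ℝ) t := by
    refine h.Near_congr ?_ rfl hn
    rw [hc]; norm_num
  rcases h.sal (by decide) ht hn' with g | g | g
  · exact absurd (by rw [g, hc]) htc
  · exact Or.inl (h.Pi_congr g.symm rfl h.Pi_e0)
  · exact Or.inr g

theorem Lam.near_B (h : Lam Γ F) (hc : Γ c = Γ 27138160) (ht : IsT Γ t) (htc : Γ t ≠ Γ c)
    (hn : Near Γ c t) : Pi Γ t 0 ∨ Two Γ t := by
  have hH := h.hf_aut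
  have hshift : ∀ v, Γ (v + 20176632 + 20176632) = Γ v := by
    intro v
    rw [show v + 20176632 + 20176632 = v + 40353264 by ring, h.per]
  have hc' : Γ (c + 20176632) = Γ 6961528 := by
    rw [← hshift 6961528, ← Lam.eB, h.halfEq, hc]
  rcases h.near_A hc' (hH.IsT1 ht) (fun e => htc (h.halfEq.1 e)) (h.near_half hn) with g | g
  · left
    have := hH.Pi1 g
    refine h.Pi_congr (hshift t) ?_ this
    rw [hf_apply, zero_add, h.fixz]
  · exact Or.inr (hH.Two_iff.1 g)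

theorem Lam.ctr_aux (h : Lam Γ F) (n : ℕ) : ∀ c, IsT Γ c →
    (Γ (7 ^ n * c) = Γ 6961528 ∨ Γ (7 ^ n * c) = Γ 27138160) → Bl Γ c →
    ∀ t, IsT Γ t → Γ t ≠ Γ c → Near Γ c t →
    (∃ m, IsM Γ m ∧ Pi Γ t m ∧ Stt Γ c m) ∨ Two Γ t := by
  induction n with
  | zero =>
    intro c _ hn _ t ht htc hnear
    simp only [pow_zero, one_mul] at hn
    rcases hn with hn | hn
    · rcases h.near_A hn ht htc hnear with g | g
      · exact Or.inl ⟨0, h.IsM_Z, g, Or.inl ⟨Or.inl hn, rfl⟩⟩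
      · exact Or.inr g
    · rcases h.near_B hn ht htc hnear with g | g
      · exact Or.inl ⟨0, h.IsM_Z, g, Or.inl ⟨Or.inr hn, rfl⟩⟩
      · exact Or.inr g
  | succ n ih =>
    intro c hT hn hb t ht htc hnear
    by_cases hcA : Γ c = Γ 6961528
    · rcases h.near_A hcA ht htc hnear with g | g
      · exact Or.inl ⟨0, h.IsM_Z, g, Or.inl ⟨Or.inl hcA, rfl⟩⟩
      · exact Or.inr g
    by_cases hcB : Γ c = Γ 27138160
    · rcases h.near_B hcB ht htc hnear with g | g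
      · exact Or.inl ⟨0, h.IsM_Z, g, Or.inl ⟨Or.inr hcB, rfl⟩⟩
      · exact Or.inr g
    obtain ⟨i, hi, hav, hn'⟩ := h.step (P := fun c => c = Γ 6961528 ∨ c = Γ 27138160)
      (Or.inr hT) hn
    by_cases hQA : Γ (Q i c) = Γ 6961528
    · rcases h.stepA hi hcA hT hb hQA ht htc hnear with ⟨g1, m, g2, g3, g4, g5, g6⟩ | g
      · exact Or.inl ⟨m, g4, g6, Or.inr (Ctr.a i c m g1 hi g2 hav g3 hQA g5)⟩
      · exact Or.inr g
    by_cases hQB : Γ (Q i c) = Γ 27138160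
    · rcases h.stepB hi hcB hT hb hQB ht htc hnear with ⟨g1, m, g2, g3, g4, g5, g6⟩ | g
      · exact Or.inl ⟨m, g4, g6, Or.inr (Ctr.b i c m g1 hi g2 hav g3 hQB g5)⟩
      · exact Or.inr g
    have hT' := (h.IsT_Q hi hav).2 hT
    have hb' := h.Bl_Q hi hb
    obtain ⟨k, hk⟩ := h.av_inO (h.TM_av (Or.inr ht))
    by_cases hik : i = k
    · subst hik
      have htc' : Γ (Q i t) ≠ Γ (Q i c) := fun e => htc ((h.tr hi hav t).2 e)
      rcases ih _ hT' hn' hb' _ ((h.IsT_Q hk (h.TM_av (Or.inr ht))).2 ht) htc'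
        (h.Near_Q hnear i) with ⟨m, g1, g2, g3⟩ | g
      · obtain ⟨m', rfl, a2, a3, a4⟩ := h.lift_M i g1
        refine Or.inl ⟨m', a4, h.Pi_piece hk a2 g2, ?_⟩
        rcases g3 with ⟨g3 | g3, -⟩ | g3
        · exact absurd g3 hQA
        · exact absurd g3 hQB
        · exact Or.inr (Ctr.step i c m' hi a2 hav a3 g3)
      · exact Or.inr (h.Two_lift hk g)
    · exfalso
      have h1 := h.Near_Qo hnear hik hk
      obtain ⟨j, hj⟩ := val_V i k hik
      rw [hj] at h1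
      exact h.not_near_V hb' hT' hQA hQB j h1

/-- CLASSIFICATION of centres and main ends -/
theorem Lam.R_cls (h : Lam Γ F) (hR : R Γ c m) : ∃ m', Γ m' = Γ m ∧ Stt Γ c m' := by
  obtain ⟨hT, hM, hb, t, ht, htc, hn, hp, hu⟩ := hR
  obtain ⟨n, hn'⟩ := h.IsT_ev hT
  rcases h.ctr_aux n c hT hn' hb t ht htc hn with ⟨m', g1, g2, g3⟩ | ⟨m₁, m₂, h1, h2, h3, h4, h5⟩
  · exact ⟨m', hu m' g1 g2, g3⟩
  · exact absurd (by rw [hu m₁ h1 h4, hu m₂ h2 h5]) h3

theorem Lam.IsT_E (h : Lam Γ F) : IsT Γ 6759256 := by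
  have hi : inO 2 ((6759256 : ℤ) : ℝ) := inOB_spec (by decide +kernel)
  have e1 : Γ (Q 2 ((6759256 : ℤ) : ℝ)) = Γ 6961528 := by
    rw [Q_int]
    have := h.congr (eqv_int (a := q 2 6759256) (b := 6961528) (by decide +kernel))
    rw [this]; norm_num
  have e2 : IsT Γ (Q 2 ((6759256 : ℤ) : ℝ)) := h.IsT_congr e1.symm h.IsT_A
  have hav : Av Γ ((6759256 : ℤ) : ℝ) := by
    intro j
    rw [← h.congr (Q_inP hi.inP), e1]
    exact h.fx_ne_V h.fixA' j
  rw [h.IsT_Q hi hav] at e2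
  push_cast at e2
  exact e2

/-- `α` is a centre with main end `0` -/
theorem Lam.R_A (h : Lam Γ F) : R Γ 6961528 0 := by
  have b1 : Bl Γ 6961528 := by
    intro m hm
    have := h.blind (s := 6961528) (by decide) hm
    push_cast at this
    exact this
  have hnear : Near Γ 6961528 6759256 := by
    have := h.neaF (a := 6961528) (b := 6759256) (by decide +kernel)
    push_cast at this
    exact this
  refine ⟨h.IsT_A, h.IsM_Z, b1, 6759256, h.IsT_E, ?_, hnear, h.Pi_e0, fun m' hm' hp => ?_⟩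
  · have := h.neA 6759256 (by decide)
    push_cast at this
    exact this
  · refine h.eye (s := 6759256) (by decide) hm' ?_
    push_cast
    exact hp

theorem Lam.A_ne_B (h : Lam Γ F) : Γ 6961528 ≠ Γ 27138160 := by
  have := h.neA 27138160 (by decide)
  push_cast at this
  exact this.symm

/-- RIGIDITY: an automorphism fixes `0` and preserves `{α, - α}` -/
theorem Lam.rigid (h : Lam Γ F) {H : ℝ ≃o ℝ} (hH : Aut Γ H) :
    Γ (H 0) = Γ 0 ∧ (Γ (H 6961528) = Γ 6961528 ∨ Γ (H 6961528) = Γ 27138160) := by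
  have r1 : R Γ (H 6961528) (H 0) := hH.R1 h.R_A
  have r2 : R Γ (H 27138160) (H 20176632) := by
    have := hH.R1 ((h.hf_aut).R1 h.R_A)
    rw [hf_apply, hf_apply] at this
    norm_num at this
    exact this
  have e0 : Γ (H 20176632) = Γ (H 0) := (hH.rel _ _).1 h.fixz
  have hne : Γ (H 6961528) ≠ Γ (H 27138160) := by
    rw [Ne, ← hH.rel]; exact h.A_ne_B
  obtain ⟨m₁, a1, a2⟩ := h.R_cls r1
  obtain ⟨m₂, b1, b2⟩ := h.R_cls r2
  rcases a2 with ⟨a2, a3⟩ | a2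
  · exact ⟨by rw [← a1, a3], a2⟩
  · exfalso
    rcases b2 with ⟨-, b3⟩ | b2
    · exact h.ctr_ne0 a2 (by rw [a1, ← e0, ← b1, b3])
    · exact hne (h.ctr_uniq a2 _ _ (by rw [a1, b1, e0]) b2)

end Pool.Agent.JB
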