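import Pool.Agent.Lib.MP_8ebc20_an.B.Rig

/-!
# Part B: the triple points separating `α` and `0`
-/

set_option autoImplicit false

namespace Pool.Agent.JB

open Set

variable {Γ : ℝ → ℂ} {F : ℂ → ℂ} {x y s t s' t' u b z m m' c c' v : ℝ} {i k : Fin 7}

/-- the angles of the triple points between `α` and `0` -/
noncomputable def lam (k : ℕ) : ℝ := 20176632 - (if k % 2 = 0 then 269696 else 240800) / 7 ^ (k / 2)
noncomputable def rho (k : ℕ) : ℝ := (if k % 2 = 0 then 6759256 else 6730360) / 7 ^ (k / 2)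
noncomputable def thd (k : ℕ) : ℝ := (if k % 2 = 0 then 18491032 else 2843848) / 7 ^ (k / 2)

theorem lam0 : lam 0 = 19906936 := by unfold lam; norm_num
theorem lam1 : lam 1 = 19935832 := by unfold lam; norm_num
theorem rho0 : rho 0 = 6759256 := by unfold rho; norm_num
theorem rho1 : rho 1 = 6730360 := by unfold rho; norm_num
theorem thd0 : thd 0 = 18491032 := by unfold thd; norm_num
theorem thd1 : thd 1 = 2843848 := by unfold thd; norm_num

theorem k2 (k : ℕ) : (k + 2) % 2 = k % 2 ∧ (k + 2) / 2 = k / 2 + 1 := by omega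

theorem lam_step (k : ℕ) : 7 * lam (k + 2) = lam k + 3 * 40353264 := by
  unfold lam
  rw [(k2 k).1, (k2 k).2, pow_succ]
  field_simp
  ring
theorem rho_step (k : ℕ) : 7 * rho (k + 2) = rho k := by
  unfold rho
  rw [(k2 k).1, (k2 k).2, pow_succ]
  field_simp
theorem thd_step (k : ℕ) : 7 * thd (k + 2) = thd k := by
  unfold thd
  rw [(k2 k).1, (k2 k).2, pow_succ]
  field_simp

theorem k_cases (P : ℕ → Prop) (h0 : P 0) (h1 : P 1) (h2 : ∀ k, P k → P (k + 2)) (k : ℕ) : P k := by
  induction k using Nat.twoStepInduction with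
  | zero => exact h0
  | one => exact h1
  | more k ih _ => exact h2 k ih

theorem lam_bd (k : ℕ) : 19906936 ≤ lam k ∧ lam k < 20176632 := by
  refine k_cases (fun k => 19906936 ≤ lam k ∧ lam k < 20176632) ?_ ?_ ?_ k
  · rw [lam0]; norm_num
  · rw [lam1]; norm_num
  · rintro k ⟨h1, h2⟩
    have := lam_step k
    constructor <;> linarith
theorem lam_bd2 (k : ℕ) : 20138104 ≤ lam (k + 2) ∧ lam (k + 2) < 20176632 := by
  have h := lam_bd k
  have := lam_step k
  constructor <;> linarith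
theorem rho_bd (k : ℕ) : 0 < rho k ∧ rho k ≤ 6759256 := by
  refine k_cases (fun k => 0 < rho k ∧ rho k ≤ 6759256) ?_ ?_ ?_ k
  · rw [rho0]; norm_num
  · rw [rho1]; norm_num
  · rintro k ⟨h1, h2⟩
    have := rho_step k
    constructor <;> linarith
theorem rho_bd2 (k : ℕ) : 0 < rho (k + 2) ∧ rho (k + 2) ≤ 965608 := by
  have h := rho_bd k
  have := rho_step k
  constructor <;> linarith
theorem thd_bd (k : ℕ) : 0 < thd k ∧ thd k ≤ 18491032 := by
  refine k_cases (fun k => 0 < thd k ∧ thd k ≤ 18491032) ?_ ?_ ?_ k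
  · rw [thd0]; norm_num
  · rw [thd1]; norm_num
  · rintro k ⟨h1, h2⟩
    have := thd_step k
    constructor <;> linarith
theorem thd_bd2 (k : ℕ) : 0 < thd (k + 2) ∧ thd (k + 2) ≤ 2641576 := by
  have h := thd_bd k
  have := thd_step k
  constructor <;> linarith

theorem inO3_lo {x : ℝ} (h1 : 0 < x) (h2 : x < 2642164) : inO 3 x :=
  mkAO 3 0 (-240212) 2642164 rfl rfl (by push_cast; linarith) (by push_cast; linarith)
theorem inO3_hi {x : ℝ} (h1 : 19936420 < x) (h2 : x < 20176632) : inO 3 x :=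
  mkBO 3 0 19936420 22818796 rfl rfl (by push_cast; linarith) (by push_cast; linarith)
theorem inO2_lo {x : ℝ} (h1 : 2642164 < x) (h2 : x < 6960940) : inO 2 x :=
  mkAO 2 0 2642164 6960940 rfl rfl (by push_cast; linarith) (by push_cast; linarith)
theorem inO2_hi {x : ℝ} (h1 : 18490444 < x) (h2 : x < 19936420) : inO 2 x :=
  mkBO 2 0 18490444 19936420 rfl rfl (by push_cast; linarith) (by push_cast; linarith)
theorem inO1_lo {x : ℝ} (h1 : 6960940 < x) (h2 : x < 8612716) : inO 1 x :=
  mkAO 1 0 6960940 8612716 rfl rfl (by push_cast; linarith) (by push_cast; linarith)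
theorem inO1_hi {x : ℝ} (h1 : 14377468 < x) (h2 : x < 18490444) : inO 1 x :=
  mkBO 1 0 14377468 18490444 rfl rfl (by push_cast; linarith) (by push_cast; linarith)

theorem Lam.t_eq (h : Lam Γ F) (k : ℕ) : Γ (rho k) = Γ (lam k) ∧ Γ (thd k) = Γ (lam k) := by
  refine k_cases (fun k => Γ (rho k) = Γ (lam k) ∧ Γ (thd k) = Γ (lam k)) ?_ ?_ ?_ k
  · rw [lam0, rho0, thd0]
    exact ⟨h.cle, by rw [← h.cle', h.cle]⟩
  · rw [lam1, rho1, thd1]
    constructor
    · apply h.lp (i := 2) (inO2_lo (by norm_num) (by norm_num)) (inO2_hi (by norm_num) (by norm_num))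
      rw [h.congr (x := 7 * 6730360) (y := 6759256) ⟨1, by norm_num⟩,
        h.congr (x := 7 * 19935832) (y := 18491032) ⟨3, by norm_num⟩, h.cle']
    · apply h.lp (i := 2) (inO2_lo (by norm_num) (by norm_num)) (inO2_hi (by norm_num) (by norm_num))
      rw [h.congr (x := 7 * 2843848) (y := 19906936) ⟨0, by norm_num⟩,
        h.congr (x := 7 * 19935832) (y := 18491032) ⟨3, by norm_num⟩, ← h.cle, h.cle']
  · rintro k ⟨h1, h2⟩
    have b1 := lam_bd2 k
    have b2 := rho_bd2 k
    have b3 := thd_bd2 k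
    have i1 : inO 3 (lam (k + 2)) := inO3_hi (by linarith) b1.2
    have i2 : inO 3 (rho (k + 2)) := inO3_lo b2.1 (by linarith)
    have i3 : inO 3 (thd (k + 2)) := inO3_lo b3.1 (by linarith)
    have e1 : Γ (7 * lam (k + 2)) = Γ (lam k) := by
      rw [lam_step]; exact h.congr ⟨3, by push_cast; ring⟩
    constructor
    · apply h.lp i2 i1
      rw [e1, rho_step, h1]
    · apply h.lp i3 i1
      rw [e1, thd_step, h2]

theorem Lam.IsT_lam (h : Lam Γ F) (k : ℕ) : IsT Γ (lam k) := by
  refine k_cases (fun k => IsT Γ (lam k)) ?_ ?_ ?_ k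
  · rw [lam0]; exact h.IsT_congr h.cle h.IsT_E
  · have e := (h.t_eq 1).1
    rw [lam1, rho1] at e
    rw [lam1]
    refine h.IsT_congr e ?_
    have hi : inO 2 ((6730360 : ℤ) : ℝ) := inOB_spec (by decide +kernel)
    have e1 : Γ (Q 2 ((6730360 : ℤ) : ℝ)) = Γ 6759256 := by
      rw [Q_int]
      have := h.congr (eqv_int (a := q 2 6730360) (b := 6759256) (by decide +kernel))
      rw [this]; norm_num
    have e2 : IsT Γ (Q 2 ((6730360 : ℤ) : ℝ)) := h.IsT_congr e1.symm h.IsT_E
    have hav : Av Γ ((6730360 : ℤ) : ℝ) := by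
      intro j
      rw [← h.congr (Q_inP hi.inP), e1]
      exact h.fx_ne_V (h.TM_fx (Or.inr h.IsT_E)) j
    rw [h.IsT_Q hi hav] at e2
    push_cast at e2
    exact e2
  · intro k hk
    have b1 := lam_bd2 k
    have i1 : inO 3 (lam (k + 2)) := inO3_hi (by linarith) b1.2
    have e1 : Γ (7 * lam (k + 2)) = Γ (lam k) := by
      rw [lam_step]; exact h.congr ⟨3, by push_cast; ring⟩
    have e2 : Γ (Q 3 (lam (k + 2))) = Γ (lam k) := by
      rw [← e1]; exact h.congr (Q_inP i1.inP)
    have hav : Av Γ (lam (k + 2)) := by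
      intro j
      rw [e1]
      exact h.fx_ne_V (h.TM_fx (Or.inr hk)) j
    rw [← h.IsT_Q i1 hav]
    exact h.IsT_congr e2.symm hk

def sepT : List (ℤ × ℤ × ℕ) := [
  (6759844, 18490444, 3), (6961528, 6759844, 3), (6965644, 8373316, 3), (8373316, 6965644, 3),
  (8377432, 8373316, 3), (8406244, 18259948, 3), (18259948, 8406244, 3), (18288760, 18259948, 3),
  (18490444, 6759844, 3),
  (6759844, 8373316, 0), (6759844, 18259948, 0), (8373316, 6759844, 0), (8373316, 8406244, 0),
  (8373316, 18259948, 0), (18259948, 6759844, 0), (18259948, 8373316, 0),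
  (18259948, 18490444, 0), (18490444, 8373316, 0),
  (8373316, 18495148, 1), (8406244, 18495148, 1), (6961528, 0, 2), (18495148, 0, 2)]

/-- allowed transitions of flags -/
def trF (f k f' : ℕ) : Bool := f' == 3 || ((f == 0 && (k == 1 && f' == 0)) ||
  ((f == 1 && ((k == 1 || k == 2) && f' == 0)) || ((f == 2 && (k == 2 && f' == 1)) ||
    (f == 2 && (k == 3 && f' == 2)))))

def sepC : Bool := sepT.all fun e =>
  okSA arA (e.1 - 20176632) (e.2.1 - 20176632) &&
  ((e.2.2 == 0 || (e.2.2 == 1 || okSA arA e.1 e.2.1)) &&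
  (List.finRange 7).all fun k => (q k e.1 % 40353264 == q k e.2.1 % 40353264) ||
    [0, 1, 2, 3].any fun f' => trF e.2.2 k.1 f' &&
      sepT.contains (q k e.1 % 40353264, q k e.2.1 % 40353264, f'))

theorem sepC_true : sepC = true := by decide +kernel

def SetF (Γ : ℝ → ℂ) (f : ℕ) (x : ℝ) : Prop :=
  ((f = 0 ∨ f = 1) ∧ Γ x = Γ 6961528) ∨ (f = 1 ∧ Γ x = Γ 6759256) ∨
    (f = 2 ∧ ∃ k, Γ x = Γ (lam k))

theorem Lam.sep_aux (h : Lam Γ F) (n : ℕ) : ∀ e ∈ sepT, ∀ x, IsT Γ x →
    (Γ (7 ^ n * x) = Γ 6961528 ∨ Γ (7 ^ n * x) = Γ 27138160) → ¬ CN Γ x e.1 e.2.1 →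
    SetF Γ e.2.2 x := by
  induction n with
  | zero =>
    intro e he x hT hx hn
    simp only [pow_zero, one_mul] at hx
    have g := sepC_true
    unfold sepC at g
    rw [List.all_eq_true] at g
    have g := g e he
    rw [Bool.and_eq_true, Bool.and_eq_true, Bool.or_eq_true, Bool.or_eq_true, beq_iff_eq,
      beq_iff_eq] at g
    rcases hx with hx | hx
    · rcases g.2.1 with g | g | g
      · exact Or.inl ⟨Or.inl g, hx⟩
      · exact Or.inl ⟨Or.inr g, hx⟩
      · exact absurd (h.baseAn g hx) hn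
    · exact absurd (h.baseBn g.1 hx) hn
  | succ n ih =>
    intro e he x hT hx hn
    obtain ⟨k, hk, hav, hx'⟩ := h.step (P := fun c => c = Γ 6961528 ∨ c = Γ 27138160)
      (Or.inr hT) hx
    have hT' := (h.IsT_Q hk hav).2 hT
    rw [h.CN_Q hk hav, Q_int, Q_int] at hn
    have c1 := h.congr (eqv_mod (q k e.1))
    have c2 := h.congr (eqv_mod (q k e.2.1))
    have hn' : ¬ CN Γ (Q k x) ((q k e.1 % 40353264 : ℤ) : ℝ) ((q k e.2.1 % 40353264 : ℤ) : ℝ) :=
      fun hc => hn (h.CN_congr c1 c2 hc)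
    have g := sepC_true
    unfold sepC at g
    rw [List.all_eq_true] at g
    have g := g e he
    rw [Bool.and_eq_true, Bool.and_eq_true, List.all_eq_true] at g
    have g := g.2.2 k (List.mem_finRange k)
    rw [Bool.or_eq_true, beq_iff_eq, List.any_eq_true] at g
    rcases g with g | ⟨f', -, g⟩
    · rw [g] at hn'
      exact absurd (h.CN_same rfl) hn'
    · rw [Bool.and_eq_true, List.contains_iff_mem] at g
      have r := ih _ g.2 (Q k x) hT' hx' hn'
      simp only at r
      have g1 := g.1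
      unfold trF at g1
      simp only [Bool.or_eq_true, Bool.and_eq_true, beq_iff_eq] at g1
      have cA1 : k = 1 → Γ (Q k x) = Γ 6961528 → Γ x = Γ 6961528 := by
        rintro rfl e1
        have := h.eq_of_Q (a := 6961528) (c := 48730696) hk hav (by decide +kernel)
          (by rw [e1]; exact (h.eqA 48730696 (by decide +kernel)).symm)
        rw [this]; norm_num
      have cA2 : k = 2 → Γ (Q k x) = Γ 6961528 → Γ x = Γ 6759256 := by
        rintro rfl e1
        have := h.eq_of_Q (a := 6759256) (c := 6961528) hk hav (by decide +kernel)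
          (by rw [e1]; norm_num)
        rw [this]; norm_num
      have cE2 : k = 2 → Γ (Q k x) = Γ 6759256 → Γ x = Γ 6730360 := by
        rintro rfl e1
        have := h.eq_of_Q (a := 6730360) (c := 6759256) hk hav (by decide +kernel)
          (by rw [e1]; norm_num)
        rw [this]; norm_num
      unfold SetF at r ⊢
      rcases g1 with g1 | ⟨g0, g1, g2⟩ | ⟨g0, g1, g2⟩ | ⟨g0, g1, g2⟩ | ⟨g0, g1, g2⟩
      · exfalso
        rw [g1] at r
        omega
      · have hk1 : k = 1 := Fin.ext g1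
        rw [g2] at r
        rcases r with ⟨-, r⟩ | ⟨r, -⟩ | ⟨r, -⟩
        · exact Or.inl ⟨Or.inl g0, cA1 hk1 r⟩
        · omega
        · omega
      · rw [g2] at r
        rcases r with ⟨-, r⟩ | ⟨r, -⟩ | ⟨r, -⟩
        · rcases g1 with g1 | g1
          · exact Or.inl ⟨Or.inr g0, cA1 (Fin.ext g1) r⟩
          · exact Or.inr (Or.inl ⟨g0, cA2 (Fin.ext g1) r⟩)
        · omega
        · omega
      · rw [g2] at r
        have e0 := h.t_eq 0
        have e1 := h.t_eq 1
        rw [rho0, lam0] at e0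
        rw [rho1, lam1] at e1
        rcases r with ⟨-, r⟩ | ⟨-, r⟩ | ⟨r, -⟩
        · refine Or.inr (Or.inr ⟨g0, 0, ?_⟩)
          rw [cA2 (Fin.ext g1) r, lam0, e0.1]
        · refine Or.inr (Or.inr ⟨g0, 1, ?_⟩)
          rw [cE2 (Fin.ext g1) r, lam1, e1.1]
        · omega
      · rw [g2] at r
        have hk3 : k = 3 := Fin.ext g1
        subst hk3
        rcases r with ⟨r, -⟩ | ⟨r, -⟩ | ⟨-, j, r⟩
        · omega
        · omega
        · refine Or.inr (Or.inr ⟨g0, j + 2, ?_⟩)
          have b1 := lam_bd2 j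
          have i1 : inO 3 (lam (j + 2)) := inO3_hi (by linarith) b1.2
          symm
          rw [h.tr hk hav, r, h.congr (Q_inP i1.inP), lam_step]
          exact h.congr ⟨3, by push_cast; ring⟩

/-- triple points separating `α` from `0` -/
theorem Lam.sep_cls (h : Lam Γ F) (hT : IsT Γ x) (hn : ¬ CN Γ x 6961528 0) :
    ∃ k, Γ x = Γ (lam k) := by
  obtain ⟨n, hx⟩ := h.IsT_ev hT
  have hn' : ¬ CN Γ x ((6961528 : ℤ) : ℝ) ((0 : ℤ) : ℝ) := by push_cast; exact hn
  have := h.sep_aux n (6961528, 0, 2) (by decide) x hT hx hn'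
  rcases this with ⟨r, -⟩ | ⟨r, -⟩ | ⟨-, r⟩
  · simp at r
  · simp at r
  · exact r

end Pool.Agent.JB
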