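import Pool.Agent.Lib.MP_8ebc20_an.B.Strip
import Pool.Agent.Lib.MP_8ebc20_an.B.Cnt

/-!
# Part B: the leaves crossing a strip
-/

set_option autoImplicit false

namespace Pool.Agent.JB

open Set Filter Topology

variable {Γ : ℝ → ℂ} {F : ℂ → ℂ} {x y s t s' t' u b z m m' c c' v : ℝ} {i : Fin 7} {H : ℝ ≃o ℝ}

theorem Lam.Near_piece (h : Lam Γ F) (hs : inO i s) (ht : inO i t)
    (hp : Near Γ (Q i s) (Q i t)) : Near Γ s t := by
  apply h.Near_of_Q
  intro j
  by_cases hj : j = i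
  · rw [hj]; exact hp
  · exact h.Near_same (h.congr ((Q_other hj hs).trans (Q_other hj ht).symm))

/-- `t_{2k}` and `t_{2k+1}` are adjacent -/
theorem Lam.Near_t (h : Lam Γ F) (k : ℕ) : Near Γ (lam (2 * k)) (lam (2 * k + 1)) := by
  induction k with
  | zero =>
    have e0 := h.t_eq 0
    have e1 := h.t_eq 1
    rw [rho0, lam0] at e0
    rw [rho1, lam1] at e1
    rw [show 2 * 0 = 0 by rfl, show 0 + 1 = 1 by rfl, lam0, lam1]
    refine h.Near_congr e0.1 e1.1 ?_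
    have i1 : inO 2 ((6759256 : ℤ) : ℝ) := inOB_spec (by decide +kernel)
    have i2 : inO 2 ((6730360 : ℤ) : ℝ) := inOB_spec (by decide +kernel)
    have key : Near Γ ((6759256 : ℤ) : ℝ) ((6730360 : ℤ) : ℝ) := by
      apply h.Near_piece i1 i2
      rw [Q_int, Q_int]
      have c1 := h.congr (eqv_int (a := q 2 6759256) (b := 6961528) (by decide +kernel))
      have c2 := h.congr (eqv_int (a := q 2 6730360) (b := 6759256) (by decide +kernel))
      exact h.Near_congr c1.symm c2.symm (h.neaF (by decide +kernel))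
    push_cast at key
    exact key
  | succ k ih =>
    have b1 := lam_bd2 (2 * k)
    have b2 := lam_bd2 (2 * k + 1)
    have e1 : 2 * (k + 1) = 2 * k + 2 := by ring
    have e2 : 2 * k + 2 + 1 = 2 * k + 1 + 2 := by ring
    rw [e1, e2]
    have i1 : inO 3 (lam (2 * k + 2)) := inO3_hi (by linarith) b1.2
    have i2 : inO 3 (lam (2 * k + 1 + 2)) := inO3_hi (by linarith) b2.2
    apply h.Near_piece i1 i2
    have c1 : Γ (lam (2 * k)) = Γ (Q 3 (lam (2 * k + 2))) := by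
      rw [h.congr (Q_inP i1.inP), lam_step]
      exact (h.congr ⟨3, by push_cast; ring⟩).symm
    have c2 : Γ (lam (2 * k + 1)) = Γ (Q 3 (lam (2 * k + 1 + 2))) := by
      rw [h.congr (Q_inP i2.inP), lam_step]
      exact (h.congr ⟨3, by push_cast; ring⟩).symm
    exact h.Near_congr c1 c2 ih

/-- the left angles of the leaves crossing the strip between `t_{2k}` and `t_{2k+1}` -/
def Sig (Γ : ℝ → ℂ) (k : ℕ) : Set ℝ :=
  {s | lam (2 * k) < s ∧ s < lam (2 * k + 1) ∧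
    ∃ t, rho (2 * k + 1) ≤ t ∧ t ≤ rho (2 * k) ∧ Γ s = Γ t}

theorem rho_lt (k : ℕ) : rho (2 * k + 1) < rho (2 * k) := by
  unfold rho
  rw [if_neg (by omega), if_pos (by omega), show (2 * k + 1) / 2 = k by omega,
    show 2 * k / 2 = k by omega]
  have : (0 : ℝ) < 7 ^ k := by positivity
  gcongr
  norm_num

theorem thd_odd (k : ℕ) : thd (2 * k + 1) < rho (2 * k + 1) := by
  unfold thd rho
  rw [if_neg (by omega), if_neg (by omega)]
  gcongr
  norm_num

theorem G0.Sig_iff (hH : G0 Γ H) (h : Lam Γ F) (k : ℕ) (s : ℝ) :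
    H s ∈ Sig Γ k ↔ s ∈ Sig Γ k := by
  have key : ∀ {H : ℝ ≃o ℝ}, G0 Γ H → ∀ s, s ∈ Sig Γ k → H s ∈ Sig Γ k := by
    rintro H hH s ⟨h1, h2, t, h3, h4, h5⟩
    refine ⟨?_, ?_, H t, ?_, ?_, (hH.aut.rel _ _).1 h5⟩
    · rw [← hH.lam h]; exact H.lt_iff_lt.2 h1
    · rw [← hH.lam h]; exact H.lt_iff_lt.2 h2
    · rw [← hH.rho h]; exact H.le_iff_le.2 h3
    · rw [← hH.rho h]; exact H.le_iff_le.2 h4
  refine ⟨fun hs => ?_, key hH s⟩
  have := key hH.symm _ hs
  rwa [H.symm_apply_apply] at this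

theorem Lam.TM_of_ev (h : Lam Γ F) (n : ℕ) : ∀ x, (Γ (7 ^ n * x) = Γ 0 ∨
    Γ (7 ^ n * x) = Γ 6961528 ∨ Γ (7 ^ n * x) = Γ 27138160) → IsM Γ x ∨ IsT Γ x := by
  induction n with
  | zero =>
    intro x hx
    simp only [pow_zero, one_mul] at hx
    rcases hx with hx | hx | hx
    · exact Or.inl (h.IsM_congr hx.symm h.IsM_Z)
    · exact Or.inr (h.IsT_congr hx.symm h.IsT_A)
    · exact Or.inr (h.IsT_congr hx.symm h.IsT_B)
  | succ n ih =>
    intro x hx
    have hfx : Fx Γ x := by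
      rcases hx with hx | hx | hx
      · exact h.fx_pow (h.fx_congr hx.symm h.fixZ')
      · exact h.fx_pow (h.fx_congr hx.symm h.fixA')
      · exact h.fx_pow (h.fx_congr hx.symm h.fixB')
    have hav := h.fx_av hfx
    obtain ⟨i, hi⟩ := h.av_inO hav
    have e1 : Γ (Q i x) = Γ (7 * x) := h.congr (Q_inP hi.inP)
    have e2 : Γ (7 ^ n * Q i x) = Γ (7 ^ (n + 1) * x) := by
      rw [h.pow e1]; congr 1; ring
    rw [← e2] at hx
    have := ih _ hx
    rwa [h.IsM_Q hi hav, h.IsT_Q hi hav] at this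

/-- leaves crossing the strip are preimages of `ω`: isolated, with exactly two angles -/
theorem Lam.Sig_cls (h : Lam Γ F) {k : ℕ} (h1 : lam (2 * k) < s) (h2 : s < lam (2 * k + 1))
    (h3 : rho (2 * k + 1) ≤ t) (h4 : t ≤ rho (2 * k)) (hst : Γ s = Γ t) :
    (∀ u, Γ u = Γ s → Eqv u s ∨ Eqv u t) ∧
    ∃ ε : ℝ, 0 < ε ∧ ∀ x' b', |x' - s| < ε → |b' - t| < ε → Γ x' = Γ b' → x' = s := by
  have b1 := lam_bd (2 * k)
  have b2 := lam_bd (2 * k + 1)
  have b3 := rho_bd (2 * k)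
  have b4 := rho_bd (2 * k + 1)
  have b5 := thd_bd (2 * k)
  have b6 := thd_odd k
  have b7 := rt_ne (2 * k)
  have hne : ¬ Eqv s t := by
    intro e
    have := small_eqv e (abs_lt.2 ⟨by linarith, by linarith⟩)
    linarith
  have hnTM : ¬ (IsM Γ s ∨ IsT Γ s) := by
    intro hx
    have g1 : Γ (lam (2 * k)) ≠ Γ s := by
      intro e
      rcases h.t_cls' e.symm (by linarith) (by linarith) with g | g | g
      · linarith
      · linarith
      · linarith
    have g2 : Γ (lam (2 * k + 1)) ≠ Γ s := by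
      intro e
      rcases h.t_cls' e.symm (by linarith) (by linarith) with g | g | g
      · linarith
      · linarith
      · linarith
    obtain ⟨n, hn⟩ := h.Near_t k s g1 g2 hx
    rcases le_or_gt 0 n with hn0 | hn0
    · have : (0 : ℝ) ≤ n := by exact_mod_cast hn0
      exact hn s (by rw [mem_uIcc]; left; constructor <;> linarith) rfl
    · have hn1 : n ≤ -1 := by omega
      have : (n : ℝ) ≤ -1 := by exact_mod_cast hn1
      exact hn t (by rw [mem_uIcc]; right; constructor <;> linarith) hst.symm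
  rcases h.two_cases hne hst.symm with ⟨n, g⟩ | ⟨n, g⟩ | ⟨n, g⟩
  · exact absurd (h.TM_of_ev n s (Or.inl g)) hnTM
  · exact absurd (h.TM_of_ev n s (Or.inr g)) hnTM
  · refine ⟨fun u hu => ?_, h.iso_pre n g⟩
    have hu7 := h.pow hu n
    rcases g with ⟨g1, g2⟩ | ⟨g1, g2⟩
    · rcases h.exactO (u := 7 ^ n * u) (by rw [hu7, h.congr g1]) with e | e
      · exact Or.inr (h.inj_pow (by rw [hu, hst]) n (e.trans g2.symm))
      · exact Or.inl (h.inj_pow hu n (e.trans g1.symm))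
    · rcases h.exactO' (u := 7 ^ n * u) (by rw [hu7, h.congr g1]) with e | e
      · exact Or.inr (h.inj_pow (by rw [hu, hst]) n (e.trans g2.symm))
      · exact Or.inl (h.inj_pow hu n (e.trans g1.symm))

/-- `Sig` is locally finite -/
theorem Lam.Sig_iso (h : Lam Γ F) (k : ℕ) : ∀ p, lam (2 * k) < p → p < lam (2 * k + 1) →
    ∃ ε > 0, ∀ s ∈ Sig Γ k, |s - p| < ε → s = p := by
  intro p hp1 hp2
  by_contra hc
  push Not at hc
  have hc' : ∀ n : ℕ, ∃ s ∈ Sig Γ k, |s - p| < 1 / ((n : ℝ) + 1) ∧ s ≠ p :=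
    fun n => hc _ (by positivity)
  choose f hf1 hf2 hf3 using hc'
  have hg : ∀ n, ∃ t ∈ Icc (rho (2 * k + 1)) (rho (2 * k)), Γ (f n) = Γ t := by
    intro n
    obtain ⟨-, -, t, h3, h4, h5⟩ := hf1 n
    exact ⟨t, ⟨h3, h4⟩, h5⟩
  choose g hg1 hg2 using hg
  have hlim : Tendsto f atTop (𝓝 p) := by
    rw [tendsto_iff_dist_tendsto_zero]
    refine squeeze_zero (fun n => dist_nonneg) (fun n => ?_) tendsto_one_div_add_atTop_nhds_zero_nat
    rw [Real.dist_eq]
    exact (hf2 n).le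
  obtain ⟨t, ht, φ, hφ, hlim2⟩ := isCompact_Icc.tendsto_subseq hg1
  have hlim1 : Tendsto (f ∘ φ) atTop (𝓝 p) := hlim.comp hφ.tendsto_atTop
  have hpt : Γ p = Γ t := by
    have l1 : Tendsto (fun n => Γ (f (φ n))) atTop (𝓝 (Γ p)) :=
      (h.cont.tendsto p).comp hlim1
    have l2 : Tendsto (fun n => Γ (g (φ n))) atTop (𝓝 (Γ t)) :=
      (h.cont.tendsto t).comp hlim2
    refine tendsto_nhds_unique l1 (l2.congr (fun n => (hg2 (φ n)).symm))
  obtain ⟨-, ε, hε, hiso⟩ := h.Sig_cls hp1 hp2 ht.1 ht.2 hpt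
  have e1 : ∀ᶠ n in atTop, |f (φ n) - p| < ε := by
    have := (Metric.tendsto_nhds.1 hlim1) ε hε
    exact this
  have e2 : ∀ᶠ n in atTop, |g (φ n) - t| < ε := by
    have := (Metric.tendsto_nhds.1 hlim2) ε hε
    exact this
  obtain ⟨n, hn1, hn2⟩ := (e1.and e2).exists
  exact hf3 (φ n) (hiso _ _ hn1 hn2 (hg2 (φ n)))

theorem Lam.Sig_fin (h : Lam Γ F) (k : ℕ) : ∀ x y, lam (2 * k) < x → y < lam (2 * k + 1) →
    (Sig Γ k ∩ Icc x y).Finite := fin_of_iso (h.Sig_iso k)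

/-- points of `Sig` are determined by approximate position in the plane -/
theorem Lam.Sig_sep (h : Lam Γ F) (k : ℕ) (hp : y ∈ Sig Γ k) :
    ∃ ε > 0, ∀ s ∈ Sig Γ k, ‖Γ s - Γ y‖ < ε → s = y := by
  obtain ⟨hp1, hp2, t, h3, h4, h5⟩ := hp
  obtain ⟨ε₁, hε₁, hi⟩ := h.Sig_iso k y hp1 hp2
  have hcls := (h.Sig_cls hp1 hp2 h3 h4 h5).1
  have b1 := lam_bd (2 * k)
  have b2 := lam_bd (2 * k + 1)
  have b3 := rho_bd (2 * k)
  have b4 := rho_bd (2 * k + 1)
  set K : Set ℝ := Icc (lam (2 * k)) (lam (2 * k + 1)) \ Metric.ball y ε₁ with hK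
  have hKc : IsCompact K := isCompact_Icc.diff Metric.isOpen_ball
  have hpos : ∀ s ∈ K, 0 < ‖Γ s - Γ y‖ := by
    rintro s ⟨hs1, hs2⟩
    rw [norm_pos_iff, sub_ne_zero]
    intro e
    rcases hcls s e with g | g
    · have := small_eqv g (abs_lt.2 ⟨by linarith [hs1.1, hs1.2], by linarith [hs1.1, hs1.2]⟩)
      rw [this] at hs2
      exact hs2 (Metric.mem_ball_self hε₁)
    · have := small_eqv g (abs_lt.2 ⟨by linarith [hs1.1, hs1.2], by linarith [hs1.1, hs1.2]⟩)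
      linarith [hs1.1]
  have hex : ∃ ε > 0, ∀ s ∈ K, ε ≤ ‖Γ s - Γ y‖ := by
    rcases K.eq_empty_or_nonempty with he | hne
    · exact ⟨1, one_pos, fun s hs => by rw [he] at hs; exact absurd hs (Set.notMem_empty s)⟩
    · have hcont : ContinuousOn (fun s => ‖Γ s - Γ y‖) K :=
        ((h.cont.sub continuous_const).norm).continuousOn
      obtain ⟨s₀, hs₀, hmin⟩ := hKc.exists_isMinOn hne hcont
      exact ⟨_, hpos s₀ hs₀, fun s hs => hmin hs⟩
  obtain ⟨ε, hε, hle⟩ := hex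
  refine ⟨ε, hε, fun s hs hlt => ?_⟩
  by_contra hne
  have hsK : s ∈ K := by
    refine ⟨⟨hs.1.le, hs.2.1.le⟩, fun hb => ?_⟩
    rw [Metric.mem_ball, Real.dist_eq] at hb
    exact hne (hi s hs hb)
  exact absurd (hle s hsK) (not_le.2 hlt)

end Pool.Agent.JB
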