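import Pool.Agent.Lib.MP_8ebc20_an.B.ClsC

/-!
# Part B: exact base classes, eventually fixed classes
-/

set_option autoImplicit false

namespace Pool.Agent.JB

open Set

variable {Γ : ℝ → ℂ} {F : ℂ → ℂ} {x y s t u b : ℝ} {p q r : ℕ}

/-- the class of `x` is eventually a fixed class -/
def Fx (Γ : ℝ → ℂ) (x : ℝ) : Prop := ∃ n : ℕ, Γ (7 ^ (n + 1) * x) = Γ (7 ^ n * x)

theorem Lam.fx_ge (h : Lam Γ F) {n : ℕ} (hx : Γ (7 ^ (n + 1) * x) = Γ (7 ^ n * x)) (m : ℕ) :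
    Γ (7 ^ (n + m + 1) * x) = Γ (7 ^ (n + m) * x) := by
  have := h.pow hx m
  rw [← mul_assoc, ← mul_assoc, ← pow_add, ← pow_add] at this
  rw [show n + m + 1 = m + (n + 1) by ring, show n + m = m + n by ring]
  exact this

theorem Lam.fx_congr (h : Lam Γ F) (hxy : Γ x = Γ y) (hx : Fx Γ x) : Fx Γ y := by
  obtain ⟨n, hn⟩ := hx
  exact ⟨n, by rw [← h.pow hxy, ← h.pow hxy]; exact hn⟩

theorem Lam.fx_seven (h : Lam Γ F) : Fx Γ (7 * x) ↔ Fx Γ x := by
  constructor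
  · rintro ⟨n, hn⟩
    refine ⟨n + 1, ?_⟩
    rw [← mul_assoc, ← mul_assoc, ← pow_succ, ← pow_succ] at hn
    exact hn
  · rintro ⟨n, hn⟩
    refine ⟨n, ?_⟩
    have := h.fx_ge hn 1
    rw [← mul_assoc, ← mul_assoc, ← pow_succ, ← pow_succ]
    exact this

theorem Lam.om_ne (h : Lam Γ F) : Γ (7 * 18490444) ≠ Γ 18490444 := by
  intro hc
  rw [← h.om0] at hc
  have hX : Cut Γ 6960940 18490444 := h.cutX
  refine h.cut_int hX hc (n := -3) (m := 1) ?_ ?_ ?_ ?_ <;> norm_num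

theorem Lam.om_pow (h : Lam Γ F) (m : ℕ) : Γ (7 ^ (3 * m) * 18490444) = Γ 18490444 := by
  induction m with
  | zero => simp
  | succ m ih =>
    have := h.pow ih 3
    rw [← mul_assoc, ← pow_add] at this
    rw [show 3 * (m + 1) = 3 + 3 * m by ring, this]
    have h2 := h.fixw
    norm_num at h2 ⊢
    exact h2

theorem Lam.not_fx_om (h : Lam Γ F) : ¬ Fx Γ 18490444 := by
  rintro ⟨m, hm⟩
  have h1 := h.fx_ge hm (2 * m)
  have e1 : m + 2 * m = 3 * m := by ring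
  rw [e1, h.om_pow, ← pow7, h.conjEq (h.om_pow m)] at h1
  exact h.om_ne h1

theorem Lam.halfEq (h : Lam Γ F) {a b : ℝ} :
    Γ (a + 20176632) = Γ (b + 20176632) ↔ Γ a = Γ b := by
  refine ⟨fun h1 => ?_, h.half a b⟩
  have := h.half _ _ h1
  rw [show a + 20176632 + 20176632 = a + 40353264 by ring,
    show b + 20176632 + 20176632 = b + 40353264 by ring, h.per, h.per] at this
  exact this

theorem half_pow (n : ℕ) (x : ℝ) : Eqv (7 ^ n * (x + 20176632)) (7 ^ n * x + 20176632) := by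
  induction n with
  | zero => simp; exact Eqv.refl _
  | succ n ih =>
    have h1 := ih.seven
    rw [pow7] at h1
    refine h1.trans ?_
    rw [← pow7]
    exact ⟨3, by ring⟩

theorem Lam.fx_half (h : Lam Γ F) (hx : Fx Γ (x + 20176632)) : Fx Γ x := by
  obtain ⟨n, hn⟩ := hx
  refine ⟨n, ?_⟩
  rw [h.congr (half_pow (n + 1) x), h.congr (half_pow n x)] at hn
  exact h.halfEq.1 hn

theorem Lam.not_fx_V (h : Lam Γ F) (j : Fin 6) : ¬ Fx Γ (V j) := by
  have hom := h.not_fx_om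
  have h0 : ¬ Fx Γ 19935748 := by
    intro hc
    rw [← h.fx_seven] at hc
    exact hom (h.fx_congr (h.congr ⟨3, by norm_num⟩) hc)
  have h1 : ¬ Fx Γ 8373316 := by
    intro hc
    refine hom ?_
    rw [← h.fx_seven]
    exact h.fx_congr (h.congr ⟨-3, by norm_num⟩) hc
  have h2 : ¬ Fx Γ 18495148 := by
    intro hc
    rw [← h.fx_seven, ← h.fx_seven] at hc
    exact hom (h.fx_congr (h.congr ⟨22, by norm_num⟩) hc)
  fin_cases j
  · simpa [V] using h0
  · simpa [V] using h1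
  · simpa [V] using h2
  · intro hc
    refine h2 (h.fx_half (h.fx_congr (h.congr ?_) hc))
    simp only [V]
    exact ⟨0, by norm_num [V]⟩
  · intro hc
    refine h1 (h.fx_half (h.fx_congr (h.congr ?_) hc))
    exact ⟨0, by norm_num [V]⟩
  · intro hc
    refine h0 (h.fx_half (h.fx_congr (h.congr ?_) hc))
    exact ⟨0, by norm_num [V]⟩

theorem Lam.fx_ne_V (h : Lam Γ F) (hx : Fx Γ x) (j : Fin 6) : Γ x ≠ Γ (V j) :=
  fun hc => h.not_fx_V j (h.fx_congr hc hx)

theorem Lam.fx_av (h : Lam Γ F) (hx : Fx Γ x) : Av Γ x :=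
  fun j => h.fx_ne_V (h.fx_seven.2 hx) j

/-- next state of a point -/
def nxt (p : ℕ) : ℕ := (runL.getD p (0, 0)).1

theorem nxt_spec : ∀ p < 68, p % 2 = 0 → nxt p < 68 ∧ nxt p % 2 = 0 ∧
    (7 * (lo p : ℤ) - lo (nxt p)) % 40353264 = 0 := by
  decide +kernel

theorem lo_inj : ∀ p < 68, ∀ q < 68, p % 2 = 0 → q % 2 = 0 →
    ((lo p : ℤ) - lo q) % 40353264 = 0 → p = q := by
  decide +kernel

theorem partners_eq : ∀ p < 68, ∀ q ∈ partners p, partners q = partners p ∧ q < 68 := by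
  decide +kernel

theorem partners_nxt : ∀ p < 68, p % 2 = 0 → partners p ≠ [p] →
    ∀ q' ∈ partners (nxt p), ∃ q ∈ partners p, nxt q = q' := by
  decide +kernel

theorem partners_nxt' : ∀ p < 68, p % 2 = 0 → partners p ≠ [p] →
    partners (nxt p) ≠ [nxt p] := by
  decide +kernel

theorem eqv_lo (hp : p < 68) (hp2 : p % 2 = 0) : Eqv (7 * (lo p : ℝ)) (lo (nxt p)) := by
  have := eqv_int (nxt_spec p hp hp2).2.2
  push_cast at this
  exact this

theorem lo_eqv_inj (hp : p < 68) (hq : q < 68) (hp2 : p % 2 = 0) (hq2 : q % 2 = 0)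
    (h : Eqv (lo p : ℝ) (lo q)) : p = q := by
  apply lo_inj p hp q hq hp2 hq2
  by_contra hc
  have := not_eqv_int hc
  push_cast at this
  exact this h

/-- iterates of the points -/
theorem eqv_lo_pow (n : ℕ) : ∀ p < 68, p % 2 = 0 → nxt^[n] p < 68 ∧ nxt^[n] p % 2 = 0 ∧
    Eqv (7 ^ n * (lo p : ℝ)) (lo (nxt^[n] p)) := by
  induction n with
  | zero => intro p hp hp2; exact ⟨hp, hp2, by simp; exact Eqv.refl _⟩
  | succ n ih =>
    intro p hp hp2
    obtain ⟨h1, h2, h3⟩ := nxt_spec p hp hp2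
    obtain ⟨g1, g2, g3⟩ := ih (nxt p) h1 h2
    rw [Function.iterate_succ_apply]
    refine ⟨g1, g2, Eqv.trans ?_ g3⟩
    have h4 := eqv_lo hp hp2
    obtain ⟨k, hk⟩ := h4
    exact ⟨7 ^ n * k, by push_cast; rw [pow_succ]; linear_combination 7 ^ n * hk⟩

theorem partners_pow (n : ℕ) : ∀ p < 68, p % 2 = 0 → partners p ≠ [p] →
    ∀ q' ∈ partners (nxt^[n] p), ∃ q ∈ partners p, nxt^[n] q = q' := by
  induction n with
  | zero => intro p hp hp2 _ q' hq'; exact ⟨q', hq', rfl⟩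
  | succ n ih =>
    intro p hp hp2 hpp q' hq'
    obtain ⟨h1, h2, -⟩ := nxt_spec p hp hp2
    rw [Function.iterate_succ_apply] at hq'
    obtain ⟨q₁, h3, h4⟩ := ih (nxt p) h1 h2 (partners_nxt' p hp hp2 hpp) q' hq'
    obtain ⟨q, h5, h6⟩ := partners_nxt p hp hp2 hpp q₁ h3
    exact ⟨q, h5, by rw [Function.iterate_succ_apply, h6, h4]⟩

/-- a known class contains no other angles -/
theorem Lam.exact (h : Lam Γ F) (hp : p < 68) (hp2 : p % 2 = 0) (hpp : partners p ≠ [p])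
    (hu : Γ u = Γ (lo p)) : ∃ q ∈ partners p, Eqv u (lo q) := by
  by_cases hc : Eqv u (lo p)
  · exact ⟨p, mem_partners p, hc⟩
  obtain ⟨n, p', q', hp', hq', -, e1, e2, hq'p, g1, g2⟩ := h.classify hu.symm
    (fun he => hc he.symm)
  obtain ⟨k1, k2, k3⟩ := eqv_lo_pow n p hp hp2
  have h1 : nxt^[n] p = p' := lo_eqv_inj k1 hp' k2 e1 (k3.symm.trans g1)
  rw [← h1] at hq'p
  obtain ⟨q, hq, hqn⟩ := partners_pow n p hp hp2 hpp q' hq'p
  refine ⟨q, hq, ?_⟩
  have hl : partners p ∈ kcls := by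
    rcases partners_spec p with h3 | h3
    · exact absurd h3 hpp
    · exact h3.1
  have hq2 := kcls_even _ hl _ hq
  apply h.inj_pow (n := n)
  · rw [hu]; exact h.kcls_eq _ hl _ (mem_partners p) _ hq
  · have := (eqv_lo_pow n q hq2.2 hq2.1).2.2
    rw [hqn] at this
    exact g2.trans this.symm

end Pool.Agent.JB
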