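import Pool.Agent.Lib.MP_8ebc20_an.B.Vis

/-!
# Part B: triple points adjacent to the star
-/

set_option autoImplicit false

namespace Pool.Agent.JB

open Set

variable {Γ : ℝ → ℂ} {F : ℂ → ℂ} {x y s t s' t' u b z m : ℝ} {i k : Fin 7}

theorem Lam.IsT_congr (h : Lam Γ F) (hxy : Γ x = Γ y) (hx : IsT Γ x) : IsT Γ y := by
  obtain ⟨b, c, h1, h2, h3, h4, h5, h6⟩ := hx
  rcases h6 y hxy.symm with g | g | g
  · exact ⟨b, c, fun e => h1 (g.symm.trans e), fun e => h2 (g.symm.trans e), h3,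
      by rw [h4, hxy], by rw [h5, hxy], fun u hu => by
        rcases h6 u (by rw [hu, hxy]) with k | k | k
        · exact Or.inl (k.trans g.symm)
        · exact Or.inr (Or.inl k)
        · exact Or.inr (Or.inr k)⟩
  · exact ⟨x, c, fun e => h1 (g.symm.trans e).symm, fun e => h3 (g.symm.trans e), h2,
      hxy, by rw [h5, hxy], fun u hu => by
        rcases h6 u (by rw [hu, hxy]) with k | k | k
        · exact Or.inr (Or.inl k)
        · exact Or.inl (k.trans g.symm)
        · exact Or.inr (Or.inr k)⟩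
  · exact ⟨x, b, fun e => h2 (g.symm.trans e).symm, fun e => h3 (g.symm.trans e).symm, h1,
      hxy, by rw [h4, hxy], fun u hu => by
        rcases h6 u (by rw [hu, hxy]) with k | k | k
        · exact Or.inr (Or.inl k)
        · exact Or.inr (Or.inr k)
        · exact Or.inl (k.trans g.symm)⟩

theorem Lam.IsM_congr (h : Lam Γ F) (hxy : Γ x = Γ y) (hx : IsM Γ x) : IsM Γ y := by
  obtain ⟨b, h1, h2, h3, h4⟩ := hx
  rcases h3 y hxy.symm with g | g
  · refine ⟨b, fun e => h1 (g.symm.trans e), by rw [h2, hxy], fun u hu => ?_, fun ε hε => ?_⟩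
    · rcases h3 u (by rw [hu, hxy]) with k | k
      · exact Or.inl (k.trans g.symm)
      · exact Or.inr k
    · obtain ⟨x', b', e1, e2, e3, e4⟩ := h4 ε hε
      obtain ⟨n, hn⟩ := g
      refine ⟨x' + n * 40353264, b', ?_, e2, by rw [h.per_int, e3], ?_⟩
      · rw [show x' + n * 40353264 - y = x' - x by linarith]; exact e1
      · rw [h.per_int, ← hxy]; exact e4
  · refine ⟨x, fun e => h1 (g.symm.trans e).symm, hxy, fun u hu => ?_, fun ε hε => ?_⟩
    · rcases h3 u (by rw [hu, hxy]) with k | k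
      · exact Or.inr k
      · exact Or.inl (k.trans g.symm)
    · obtain ⟨x', b', e1, e2, e3, e4⟩ := h4 ε hε
      obtain ⟨n, hn⟩ := g
      refine ⟨b' + n * 40353264, x', ?_, e1, by rw [h.per_int, e3], ?_⟩
      · rw [show b' + n * 40353264 - y = b' - b by linarith]; exact e2
      · rw [h.per_int, ← e3, ← hxy]; exact e4

/-- two different visible marks -/
def Two (Γ : ℝ → ℂ) (s : ℝ) : Prop :=
  ∃ m₁ m₂, IsM Γ m₁ ∧ IsM Γ m₂ ∧ Γ m₁ ≠ Γ m₂ ∧ Pi Γ s m₁ ∧ Pi Γ s m₂

/-- lifting marks in a piece -/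
theorem Lam.lift_M (h : Lam Γ F) (i : Fin 7) (hm : IsM Γ y) :
    ∃ x, Q i x = y ∧ inO i x ∧ Av Γ x ∧ IsM Γ x := by
  obtain ⟨x, h1, h2, h3⟩ := h.Q_lift i (h.TM_fx (Or.inl hm))
  exact ⟨x, h1, h2, h3, by rw [← h.IsM_Q h2 h3, h1]; exact hm⟩

theorem Lam.Pi_inO (h : Lam Γ F) (hs : inO i s) (ht : inO i t)
    (hp : Pi Γ (Q i s) (Q i t)) : Pi Γ s t := h.Pi_piece hs ht hp

theorem Lam.Two_lift (h : Lam Γ F) (hs : inO i s) (ht : Two Γ (Q i s)) : Two Γ s := by
  obtain ⟨m₁, m₂, h1, h2, h3, h4, h5⟩ := ht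
  obtain ⟨n₁, rfl, a2, a3, a4⟩ := h.lift_M i h1
  obtain ⟨n₂, rfl, b2, b3, b4⟩ := h.lift_M i h2
  exact ⟨n₁, n₂, a4, b4, fun e => h3 ((h.tr b2 b3 n₁).1 e), h.Pi_piece hs a2 h4,
    h.Pi_piece hs b2 h5⟩

theorem Lam.Two_congr (h : Lam Γ F) (hst : Γ s = Γ t) (hs : Two Γ s) : Two Γ t := by
  obtain ⟨m₁, m₂, h1, h2, h3, h4, h5⟩ := hs
  exact ⟨m₁, m₂, h1, h2, h3, h.Pi_congr hst rfl h4, h.Pi_congr hst rfl h5⟩

/-- explicit lifts of integers -/
theorem Lam.eq_of_Q (h : Lam Γ F) {a c : ℤ} (hs : inO i s) (hav : Av Γ s)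
    (hq : (q i a - c) % 40353264 = 0) (hc : Γ (Q i s) = Γ c) : Γ s = Γ a := by
  symm
  rw [h.tr hs hav, hc, Q_int]
  exact h.congr (eqv_int hq)

theorem Lam.IsM_of_Q (h : Lam Γ F) {a : ℤ} (hs : inO i (a : ℝ))
    (hq : q i a % 40353264 = 0) : IsM Γ a := by
  have e1 : Γ (Q i (a : ℝ)) = Γ 0 := by
    rw [Q_int]
    have := eqv_int (a := q i a) (b := 0) (by rw [sub_zero]; exact hq)
    push_cast at this
    exact h.congr this
  have e2 : IsM Γ (Q i (a : ℝ)) := h.IsM_congr e1.symm h.IsM_Z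
  have hav : Av Γ (a : ℝ) := by
    intro j
    rw [← h.congr (Q_inP hs.inP), e1]
    exact h.fx_ne_V h.fixZ' j
  rwa [h.IsM_Q hs hav] at e2

/-- decidable membership -/
def inOB (i : Fin 7) (a : ℤ) : Bool :=
  (decide (0 < (a - A i) % 40353264) && decide ((a - A i) % 40353264 < L i)) ||
    (decide (0 < (a - B i) % 40353264) && decide ((a - B i) % 40353264 < 5764752 - L i))

theorem inOB_spec {a : ℤ} (h : inOB i a = true) : inO i (a : ℝ) := by
  unfold inOB at h
  simp only [Bool.or_eq_true, Bool.and_eq_true, decide_eq_true_eq] at h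
  rcases h with ⟨h1, h2⟩ | ⟨h1, h2⟩
  · have e := Int.emod_add_mul_ediv (a - A i) 40353264
    refine ⟨-((a - A i) / 40353264), Or.inl ⟨?_, ?_⟩⟩
    · have : A i < a + (-((a - A i) / 40353264)) * 40353264 := by linarith
      exact_mod_cast this
    · have : a + (-((a - A i) / 40353264)) * 40353264 < A i + L i := by linarith
      exact_mod_cast this
  · have e := Int.emod_add_mul_ediv (a - B i) 40353264
    refine ⟨-((a - B i) / 40353264), Or.inr ⟨?_, ?_⟩⟩
    · have : B i < a + (-((a - B i) / 40353264)) * 40353264 := by linarith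
      exact_mod_cast this
    · have : a + (-((a - B i) / 40353264)) * 40353264 < B i + (5764752 - L i) := by linarith
      exact_mod_cast this

theorem Lam.M00 (h : Lam Γ F) : IsM Γ ((11529504 : ℤ) : ℝ) :=
  h.IsM_of_Q (i := 0) (inOB_spec (by decide +kernel)) (by decide +kernel)
theorem Lam.M10 (h : Lam Γ F) : IsM Γ ((17294256 : ℤ) : ℝ) :=
  h.IsM_of_Q (i := 1) (inOB_spec (by decide +kernel)) (by decide +kernel)
theorem Lam.M20 (h : Lam Γ F) : IsM Γ ((5764752 : ℤ) : ℝ) :=
  h.IsM_of_Q (i := 2) (inOB_spec (by decide +kernel)) (by decide +kernel)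

theorem ne_pieces {j k : Fin 7} {c d : ℝ} (h : Lam Γ F) (hj : inO j c) (hk : inO k d)
    (hav : Av Γ c) (hjk : j ≠ k) : Γ c ≠ Γ d := by
  intro e
  exact hjk (inO_unique (h.tr_inj hj hav e.symm) hk)

theorem Lam.ne_00_10 (h : Lam Γ F) : Γ ((11529504 : ℤ) : ℝ) ≠ Γ ((17294256 : ℤ) : ℝ) :=
  ne_pieces h (j := 0) (k := 1) (inOB_spec (by decide +kernel)) (inOB_spec (by decide +kernel))
    (h.TM_av (Or.inl h.M00)) (by decide)
theorem Lam.ne_20_0 (h : Lam Γ F) : Γ ((5764752 : ℤ) : ℝ) ≠ Γ 0 := by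
  have := ne_pieces h (j := 2) (k := 3) (c := ((5764752 : ℤ) : ℝ)) (d := ((0 : ℤ) : ℝ))
    (inOB_spec (by decide +kernel)) (inOB_spec (by decide +kernel))
    (h.TM_av (Or.inl h.M20)) (by decide)
  push_cast at this ⊢
  exact this

theorem Lam.two0e (h : Lam Γ F) : Two Γ ((12495112 : ℤ) : ℝ) :=
  ⟨_, _, h.M00, h.M10, h.ne_00_10, h.posF (by decide +kernel), h.posF (by decide +kernel)⟩
theorem Lam.two1e (h : Lam Γ F) : Two Γ ((18259864 : ℤ) : ℝ) :=
  ⟨_, _, h.M00, h.M10, h.ne_00_10, h.posF (by decide +kernel), h.posF (by decide +kernel)⟩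
theorem Lam.two2e (h : Lam Γ F) : Two Γ ((6730360 : ℤ) : ℝ) := by
  refine ⟨_, _, h.M20, h.IsM_Z, h.ne_20_0, h.posF (by decide +kernel), ?_⟩
  have := h.posF (a := 6730360) (b := 0) (by decide +kernel)
  push_cast at this ⊢
  exact this

theorem starB : (star.all fun s => nPi s 27138160) = true := by decide +kernel

theorem Lam.sal_aux (h : Lam Γ F) (n : ℕ) : ∀ o ∈ star, ∀ s, IsT Γ s →
    (Γ (7 ^ n * s) = Γ 6961528 ∨ Γ (7 ^ n * s) = Γ 27138160) → Near Γ o s →
    Γ s = Γ 6961528 ∨ Γ s = Γ 6759256 ∨ Two Γ s := by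
  induction n with
  | zero =>
    intro o ho s _ hs hn
    simp only [pow_zero, one_mul] at hs
    rcases hs with hs | hs
    · exact Or.inl hs
    · exfalso
      have g := starB
      rw [List.all_eq_true] at g
      have g := h.nPi_spec (g o ho)
      push_cast at g
      exact g (h.Pi_congr rfl hs hn.pi)
  | succ n ih =>
    intro o ho s hT hs hn
    obtain ⟨k, hk, hav, hn'⟩ := h.step (P := fun c => c = Γ 6961528 ∨ c = Γ 27138160)
      (Or.inr hT) hs
    have hT' := (h.IsT_Q hk hav).2 hT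
    have hnQ : Near Γ ((q k o % 40353264 : ℤ) : ℝ) (Q k s) := by
      refine h.Near_congr ?_ rfl (h.Near_Q hn k)
      rw [Q_int]
      exact (h.congr (eqv_mod _)).symm
    have g := starChk'_true
    unfold starChk' at g
    rw [List.all_eq_true] at g
    have g := g o ho
    rw [List.all_eq_true] at g
    have g := g k (List.mem_finRange k)
    by_cases hk12 : (k == 1 || k == 2) = true
    · rw [if_pos hk12, List.contains_iff_mem] at g
      have g := ih _ g (Q k s) hT' hn' hnQ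
      rw [Bool.or_eq_true, beq_iff_eq, beq_iff_eq] at hk12
      rcases hk12 with rfl | rfl
      · rcases g with g | g | g
        · left
          have := h.eq_of_Q (a := 6961528) (c := 48730696) hk hav (by decide +kernel)
            (by rw [g]; exact (h.eqA 48730696 (by decide +kernel)).symm)
          rw [this]; norm_num
        · right; right
          refine h.Two_congr ?_ h.two1e
          exact (h.eq_of_Q (a := 18259864) (c := 6759256) hk hav (by decide +kernel)
            (by rw [g]; norm_num)).symm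
        · exact Or.inr (Or.inr (h.Two_lift hk g))
      · rcases g with g | g | g
        · right; left
          have := h.eq_of_Q (a := 6759256) (c := 6961528) hk hav (by decide +kernel)
            (by rw [g]; norm_num)
          rw [this]; norm_num
        · right; right
          refine h.Two_congr ?_ h.two2e
          exact (h.eq_of_Q (a := 6730360) (c := 6759256) hk hav (by decide +kernel)
            (by rw [g]; norm_num)).symm
        · exact Or.inr (Or.inr (h.Two_lift hk g))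
    · rw [if_neg hk12] at g
      exact absurd hn.pi (h.hid_spec g hk)

/-- triple points adjacent to the star: `α`, `e`, or two marks are visible -/
theorem Lam.sal (h : Lam Γ F) {o : ℤ} (ho : o ∈ star) (hs : IsT Γ s) (hn : Near Γ o s) :
    Γ s = Γ 6961528 ∨ Γ s = Γ 6759256 ∨ Two Γ s := by
  obtain ⟨n, hn'⟩ := h.IsT_ev hs
  exact h.sal_aux n o ho s hs hn' hn

end Pool.Agent.JB
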