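import Pool.Agent.Lib.MP_8ebc20_an.B.Eqv

/-!
# Part B: from weak to strict cuts (1)

`LamW` is what parts A and R provide.  The leaf of `ω` has exactly two angles, by the order lemma and
the weak cuts.
-/

set_option autoImplicit false

namespace Pool.Agent.JB

open Set

variable {Γ : ℝ → ℂ} {F : ℂ → ℂ} {x y s t u : ℝ}

/-- weak cut -/
def WCut (Γ : ℝ → ℂ) (c d : ℝ) : Prop :=
  ∀ s t, Γ s = Γ t → c < s → s < d → d < t → t < c + 40353264 → Γ s = Γ c ∨ Γ s = Γ d

/-- what the parts A and R provide -/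
structure LamW (Γ : ℝ → ℂ) (F : ℂ → ℂ) : Prop where
  cont : Continuous Γ
  per : ∀ x, Γ (x + 40353264) = Γ x
  conj : ∀ x, Γ (7 * x) = F (Γ x)
  unl : ∀ a b c e, a < b → b < c → c < e → e < a + 40353264 → Γ a = Γ c → Γ b = Γ e → Γ a = Γ b
  inj : ∀ s t, Γ s = Γ t → Eqv (7 * s) (7 * t) → Eqv s t
  fib : ∀ x y, Γ y = F (Γ x) → ∃ x', Γ x' = Γ x ∧ Eqv (7 * x') y
  noc : ∀ a b, a < b → ∃ x ∈ Icc a b, Γ x ≠ Γ a
  half : ∀ s t, Γ s = Γ t → Γ (s + 20176632) = Γ (t + 20176632)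
  fixa : Γ (7 * 6961528) = Γ 6961528
  fixz : Γ 20176632 = Γ 0
  fixw : Γ (343 * 18490444) = Γ 18490444
  ord : ∀ s u t, s < u → u < t → t < s + 40353264 → Γ s = Γ u → Γ u = Γ t →
    ∃ m n : ℤ, 7 * s < 7 * u + m * 40353264 ∧ 7 * u + m * 40353264 < 7 * t + n * 40353264 ∧
      7 * t + n * 40353264 < 7 * s + 40353264
  wX : WCut Γ 6960940 18490444
  wU : WCut Γ 2642164 19936420
  wW : WCut Γ 8612716 14377468

namespace LamW

theorem per_int (h : LamW Γ F) (x : ℝ) (n : ℤ) : Γ (x + n * 40353264) = Γ x := by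
  have hp : Function.Periodic Γ 40353264 := h.per
  have := hp.int_mul n x
  simpa using this

theorem congr (h : LamW Γ F) (hxy : Eqv x y) : Γ x = Γ y := by
  obtain ⟨n, hn⟩ := hxy
  have : x = y + n * 40353264 := by linarith
  rw [this, h.per_int]

theorem conjEq (h : LamW Γ F) (hxy : Γ x = Γ y) : Γ (7 * x) = Γ (7 * y) := by
  rw [h.conj, h.conj, hxy]

theorem pow (h : LamW Γ F) (hxy : Γ x = Γ y) (n : ℕ) : Γ (7 ^ n * x) = Γ (7 ^ n * y) := by
  induction n with
  | zero => simpa using hxy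
  | succ n ih =>
    have := h.conjEq ih
    rw [← mul_assoc, ← mul_assoc, ← pow_succ'] at this
    exact this

theorem inj_pow (h : LamW Γ F) (hst : Γ s = Γ t) (n : ℕ) (he : Eqv (7 ^ n * s) (7 ^ n * t)) :
    Eqv s t := by
  induction n with
  | zero => simpa using he
  | succ n ih =>
    apply ih
    apply h.inj _ _ (h.pow hst n)
    rw [pow_succ', mul_assoc, mul_assoc] at he
    exact he

theorem wcut (h : LamW Γ F) {c d : ℝ} (hc : WCut Γ c d) {s t : ℝ} (hst : Γ s = Γ t)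
    {n m : ℤ} (h1 : c < s + n * 40353264) (h2 : s + n * 40353264 < d)
    (h3 : d < t + m * 40353264) (h4 : t + m * 40353264 < c + 40353264)
    (g1 : Γ s ≠ Γ c) (g2 : Γ s ≠ Γ d) : False := by
  rcases hc _ _ (by rw [h.per_int, h.per_int]; exact hst) h1 h2 h3 h4 with g | g
  · rw [h.per_int] at g; exact g1 g
  · rw [h.per_int] at g; exact g2 g

theorem om0 (h : LamW Γ F) : Γ 6759844 = Γ 18490444 := by
  rw [← h.fixw]
  exact (h.congr ⟨157, by norm_num⟩).symm

theorem om1 (h : LamW Γ F) : Γ 6965644 = Γ 8373316 := by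
  have h1 := h.conjEq h.om0
  rw [h.congr (x := 7 * 6759844) (y := 6965644) ⟨1, by norm_num⟩,
    h.congr (x := 7 * 18490444) (y := 8373316) ⟨3, by norm_num⟩] at h1
  exact h1

theorem om2 (h : LamW Γ F) : Γ 8406244 = Γ 18259948 := by
  have h1 := h.conjEq h.om1
  rw [h.congr (x := 7 * 6965644) (y := 8406244) ⟨1, by norm_num⟩,
    h.congr (x := 7 * 8373316) (y := 18259948) ⟨1, by norm_num⟩] at h1
  exact h1

theorem s01 (h : LamW Γ F) (hx : Γ x = Γ 18490444) : Γ (7 * x) = Γ 8373316 := by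
  rw [h.conjEq hx]; exact h.congr ⟨3, by norm_num⟩
theorem s12 (h : LamW Γ F) (hx : Γ x = Γ 8373316) : Γ (7 * x) = Γ 18259948 := by
  rw [h.conjEq hx]; exact h.congr ⟨1, by norm_num⟩
theorem s20 (h : LamW Γ F) (hx : Γ x = Γ 18259948) : Γ (7 * x) = Γ 18490444 := by
  rw [h.conjEq hx, ← h.om0]; exact h.congr ⟨3, by norm_num⟩

/-- `ω` is not fixed -/
theorem ne01 (h : LamW Γ F) : Γ 18490444 ≠ Γ 8373316 := by
  intro e
  obtain ⟨m, n, h1, h2, h3⟩ := h.ord 6759844 6965644 18490444 (by norm_num) (by norm_num)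
    (by norm_num) (by rw [h.om0, h.om1, e]) (by rw [h.om1, e])
  have a1 : 0 ≤ m := by
    by_contra hc
    have : (m : ℝ) ≤ -1 := by exact_mod_cast (by omega : m ≤ -1)
    linarith
  have a2 : (0 : ℝ) ≤ m := by exact_mod_cast a1
  have a3 : -1 ≤ n := by
    by_contra hc
    have : (n : ℝ) ≤ -2 := by exact_mod_cast (by omega : n ≤ -2)
    linarith
  have a4 : (-1 : ℝ) ≤ n := by exact_mod_cast a3
  linarith

theorem ne20 (h : LamW Γ F) : Γ 18259948 ≠ Γ 18490444 := by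
  intro e
  have e1 := h.s20 e.symm
  have e2 := h.s01 (x := 18490444) rfl
  exact h.ne01 (by rw [← e1, e2])

theorem ne12 (h : LamW Γ F) : Γ 8373316 ≠ Γ 18259948 := by
  intro e
  have e1 := h.s20 e
  have e2 := h.s12 (x := 8373316) rfl
  exact h.ne20 (by rw [← e1, e2])

/-- the ends of the chords are not in the cycle of `ω` -/
theorem neU (h : LamW Γ F) {θ : ℝ} (hθ : Eqv (7 ^ 2 * θ) 8406244) (hne : ¬ Eqv θ 6759844) :
    Γ 18490444 ≠ Γ θ := by
  intro e
  apply hne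
  apply h.inj_pow (n := 2) (by rw [← e, h.om0])
  exact hθ.trans ⟨-8, by norm_num⟩

theorem neW (h : LamW Γ F) {θ : ℝ} (hθ : Eqv (7 ^ 2 * θ) 18490444) (hne : ¬ Eqv θ 6965644) :
    Γ 18490444 ≠ Γ θ ∧ Γ 8373316 ≠ Γ θ ∧ Γ 18259948 ≠ Γ θ := by
  have k : Γ (7 * (7 * θ)) = Γ 18490444 := by
    rw [← h.congr hθ]; congr 1; ring
  refine ⟨fun e => ?_, fun e => ?_, fun e => ?_⟩
  · have := h.s12 (h.s01 e.symm)
    rw [k] at this
    exact h.ne20 this.symm
  · apply hne
    apply h.inj_pow (n := 2) (by rw [← e, h.om1])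
    exact hθ.trans ⟨-8, by norm_num⟩
  · have := h.s01 (h.s20 e.symm)
    rw [k] at this
    exact h.ne01 this

theorem neX (h : LamW Γ F) : Γ 18490444 ≠ Γ 6960940 ∧ Γ 8373316 ≠ Γ 6960940 ∧
    Γ 18259948 ≠ Γ 6960940 := by
  have k : Γ (7 * 6960940) = Γ 8373316 := h.congr ⟨1, by norm_num⟩
  refine ⟨fun e => ?_, fun e => ?_, fun e => ?_⟩
  · obtain ⟨n, hn⟩ := h.inj 18490444 6960940 e ⟨2, by norm_num⟩
    have h1 : (0 : ℝ) < n := by linarith
    have h2 : (n : ℝ) < 1 := by linarith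
    have h3 : 0 < n := by exact_mod_cast h1
    have h4 : n < 1 := by exact_mod_cast h2
    omega
  · have := h.s12 e.symm
    rw [k] at this
    exact h.ne12 this
  · have := h.s20 e.symm
    rw [k] at this
    exact h.ne01 this.symm

theorem arc (h : LamW Γ F) {a b a₁ b₁ : ℝ} (p q : ℤ) (ha : 7 * a = a₁ + p * 40353264)
    (hb : 7 * b = b₁ + q * 40353264) (hba : b < a + 40353264)
    (h1 : a₁ < b₁) (h2 : b₁ < a₁ + 40353264) (hx1 : a < x) (hx2 : x < b) (e1 : Γ a = Γ x)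
    (e2 : Γ x = Γ b) : ∃ k : ℤ, a₁ < 7 * x - k * 40353264 ∧ 7 * x - k * 40353264 < b₁ := by
  obtain ⟨m, n, g1, g2, g3⟩ := h.ord a x b hx1 hx2 hba e1 e2
  have i1 : q + n - p = 0 := by
    have u1 : (((q + n - p : ℤ) : ℝ)) < 1 := by push_cast; linarith
    have u2 : (-1 : ℝ) < ((q + n - p : ℤ) : ℝ) := by push_cast; linarith
    have u3 : q + n - p < 1 := by exact_mod_cast u1
    have u4 : -1 < q + n - p := by exact_mod_cast u2
    omega
  have i2 : (q : ℝ) + n - p = 0 := by exact_mod_cast i1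
  have i3 : (n : ℝ) = p - q := by linarith
  rw [i3] at g2 g3
  exact ⟨p - m, by push_cast; linarith, by push_cast; linarith⟩

theorem arc_lt (h : LamW Γ F) {a a₁ : ℝ} (p : ℤ) (ha : 7 * a = a₁ + p * 40353264)
    (hx : a < x) (hxy : x < y) (hy : y < a + 40353264) (e1 : Γ a = Γ x) (e2 : Γ x = Γ y)
    {k l : ℤ} (x1 : a₁ < 7 * x - k * 40353264) (x2 : 7 * x - k * 40353264 < a₁ + 40353264)
    (y1 : a₁ < 7 * y - l * 40353264) (y2 : 7 * y - l * 40353264 < a₁ + 40353264) :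
    7 * x - k * 40353264 < 7 * y - l * 40353264 := by
  obtain ⟨m, n, g1, g2, g3⟩ := h.ord a x y hx hxy hy e1 e2
  have key : ∀ {i j : ℤ} {w : ℝ}, a₁ < w - i * 40353264 → w - i * 40353264 < a₁ + 40353264 →
      a₁ < w + j * 40353264 - p * 40353264 → w + j * 40353264 - p * 40353264 < a₁ + 40353264 →
      w - i * 40353264 = w + j * 40353264 - p * 40353264 := by
    intro i j w c1 c2 c3 c4
    have i1 : i + j - p = 0 := by
      have u1 : (((i + j - p : ℤ) : ℝ)) < 1 := by push_cast; linarith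
      have u2 : (-1 : ℝ) < ((i + j - p : ℤ) : ℝ) := by push_cast; linarith
      have u3 : i + j - p < 1 := by exact_mod_cast u1
      have u4 : -1 < i + j - p := by exact_mod_cast u2
      omega
    have i2 : (i : ℝ) + j - p = 0 := by exact_mod_cast i1
    linear_combination -40353264 * i2
  have kx := key x1 x2 (j := m) (by linarith) (by linarith)
  have ky := key y1 y2 (j := n) (by linarith) (by linarith)
  rw [kx, ky]
  linarith

end LamW

end Pool.Agent.JB
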