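import Pool.Agent.Lib.MP_8ebc20_an.B.Strict

/-!
# Part B: from weak to strict cuts (2): the class of `ω` has two angles
-/

set_option autoImplicit false

namespace Pool.Agent.JB

open Set

variable {Γ : ℝ → ℂ} {F : ℂ → ℂ} {x y s t u t0 t1 t2 t3 t4 t5 t6 : ℝ} {k : ℤ}

theorem int_bd {k a b : ℤ} {w : ℝ} (e : (k : ℝ) * 40353264 = w) (h1 : ((a : ℝ) - 1) * 40353264 < w)
    (h2 : w < ((b : ℝ) + 1) * 40353264) : a ≤ k ∧ k ≤ b := by
  constructor
  · by_contra hc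
    have : (k : ℝ) ≤ a - 1 := by exact_mod_cast (by omega : k ≤ a - 1)
    nlinarith
  · by_contra hc
    have : (b : ℝ) + 1 ≤ k := by exact_mod_cast (by omega : b + 1 ≤ k)
    nlinarith

theorem st0 (e : t1 = 7 * t0 - k * 40353264) (a1 : 6759844 < t0) (a2 : t0 < 18490444)
    (b1 : 6965644 < t1) (b2 : t1 < 8373316) (c : t0 ≤ 8612716 ∨ 14377468 ≤ t0) :
    (k = 1 ∧ t0 < 6960940) ∨ (k = 3 ∧ 18289348 < t0) := by
  obtain ⟨g1, g2⟩ := int_bd (a := 1) (b := 3) (k := k) (w := 7 * t0 - t1) (by linarith)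
    (by push_cast; linarith) (by push_cast; linarith)
  interval_cases k
  · left; exact ⟨rfl, by push_cast at e; linarith⟩
  · exfalso; push_cast at e; rcases c with c | c <;> linarith
  · right; exact ⟨rfl, by push_cast at e; linarith⟩

theorem st1 (e : t2 = 7 * t1 - k * 40353264) (a1 : 6965644 < t1) (a2 : t1 < 8373316)
    (b1 : 8406244 < t2) (b2 : t2 < 18259948) : k = 1 := by
  obtain ⟨g1, g2⟩ := int_bd (a := 1) (b := 1) (k := k) (w := 7 * t1 - t2) (by linarith)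
    (by push_cast; linarith) (by push_cast; linarith)
  omega

theorem st2 (e : t3 = 7 * t2 - k * 40353264) (a1 : 8406244 < t2) (a2 : t2 < 18259948)
    (b1 : 18490444 < t3) (b2 : t3 < 47113108) (c : t2 ≤ 8612716 ∨ 14377468 ≤ t2) :
    (k = 1 ∧ t3 ≤ 19935748) ∨ (k = 2 ∧ 19935748 ≤ t3) := by
  obtain ⟨g1, g2⟩ := int_bd (a := 1) (b := 2) (k := k) (w := 7 * t2 - t3) (by linarith)
    (by push_cast; linarith) (by push_cast; linarith)
  interval_cases k
  · left; refine ⟨rfl, ?_⟩; push_cast at e; rcases c with c | c <;> linarith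
  · right; refine ⟨rfl, ?_⟩; push_cast at e; rcases c with c | c <;> linarith

theorem st3 (e : t4 = 7 * t3 - k * 40353264) (a1 : 18490444 < t3) (a2 : t3 < 47113108)
    (b1 : 8373316 < t4) (b2 : t4 < 47318908) (c : t3 ≤ 19936420 ∨ 42995428 ≤ t3) :
    (k = 3 ∧ t4 ≤ 18495148) ∨ (k = 7 ∧ 18495148 ≤ t4) := by
  obtain ⟨g1, g2⟩ := int_bd (a := 3) (b := 7) (k := k) (w := 7 * t3 - t4) (by linarith)
    (by push_cast; linarith) (by push_cast; linarith)
  interval_cases k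
  · left; refine ⟨rfl, ?_⟩; push_cast at e; rcases c with c | c <;> linarith
  · exfalso; push_cast at e; rcases c with c | c <;> linarith
  · exfalso; push_cast at e; rcases c with c | c <;> linarith
  · exfalso; push_cast at e; rcases c with c | c <;> linarith
  · right; refine ⟨rfl, ?_⟩; push_cast at e; rcases c with c | c <;> linarith

theorem st4 (e : t5 = 7 * t4 - k * 40353264) (a1 : 8373316 < t4) (a2 : t4 < 47318908)
    (b1 : 18259948 < t5) (b2 : t5 < 48759508) (c : t4 ≤ 18490444 ∨ 47314204 ≤ t4)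
    (c' : t4 ≤ 8612716 ∨ 14377468 ≤ t4) :
    (k = 1 ∧ t5 ≤ 19935748) ∨ (k = 2 ∧ 19935748 ≤ t5 ∧ t5 ≤ 48726580) ∨
      (k = 7 ∧ 48726580 ≤ t5) := by
  obtain ⟨g1, g2⟩ := int_bd (a := 1) (b := 7) (k := k) (w := 7 * t4 - t5) (by linarith)
    (by push_cast; linarith) (by push_cast; linarith)
  interval_cases k
  · left; refine ⟨rfl, ?_⟩; push_cast at e
    rcases c with c | c <;> rcases c' with c' | c' <;> linarith
  · right; left; refine ⟨rfl, ?_, ?_⟩ <;> push_cast at e <;>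
      rcases c with c | c <;> rcases c' with c' | c' <;> linarith
  · exfalso; push_cast at e; rcases c with c | c <;> rcases c' with c' | c' <;> linarith
  · exfalso; push_cast at e; rcases c with c | c <;> rcases c' with c' | c' <;> linarith
  · exfalso; push_cast at e; rcases c with c | c <;> rcases c' with c' | c' <;> linarith
  · exfalso; push_cast at e; rcases c with c | c <;> rcases c' with c' | c' <;> linarith
  · right; right; refine ⟨rfl, ?_⟩; push_cast at e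
    rcases c with c | c <;> rcases c' with c' | c' <;> linarith

theorem st5 (e : t6 = 7 * t5 - k * 40353264) (a1 : 18259948 < t5) (a2 : t5 < 48759508)
    (b1 : 6759844 < t6) (b2 : t6 < 18490444) (c : t5 ≤ 18490444 ∨ 47314204 ≤ t5) :
    (k = 3 ∧ t6 ≤ 8373316) ∨ (k = 8 ∧ 8373316 ≤ t6) := by
  obtain ⟨g1, g2⟩ := int_bd (a := 3) (b := 8) (k := k) (w := 7 * t5 - t6) (by linarith)
    (by push_cast; linarith) (by push_cast; linarith)
  interval_cases k
  · left; refine ⟨rfl, ?_⟩; push_cast at e; rcases c with c | c <;> linarith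
  · exfalso; push_cast at e; rcases c with c | c <;> linarith
  · exfalso; push_cast at e; rcases c with c | c <;> linarith
  · exfalso; push_cast at e; rcases c with c | c <;> linarith
  · exfalso; push_cast at e; rcases c with c | c <;> linarith
  · right; refine ⟨rfl, ?_⟩; push_cast at e; rcases c with c | c <;> linarith

/-- six steps of a point of the class of `ω` in the arc between its two known angles -/
structure Orb (Γ : ℝ → ℂ) (t0 t1 t2 t3 t4 t5 t6 : ℝ) (k0 k1 k2 k3 k4 k5 : ℤ) : Prop where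
  e1 : t1 = 7 * t0 - k0 * 40353264
  e2 : t2 = 7 * t1 - k1 * 40353264
  e3 : t3 = 7 * t2 - k2 * 40353264
  e4 : t4 = 7 * t3 - k3 * 40353264
  e5 : t5 = 7 * t4 - k4 * 40353264
  e6 : t6 = 7 * t5 - k5 * 40353264
  r0 : 6759844 < t0 ∧ t0 < 18490444
  r1 : 6965644 < t1 ∧ t1 < 8373316
  r2 : 8406244 < t2 ∧ t2 < 18259948
  r3 : 18490444 < t3 ∧ t3 < 47113108
  r4 : 8373316 < t4 ∧ t4 < 47318908
  r5 : 18259948 < t5 ∧ t5 < 48759508
  r6 : 6759844 < t6 ∧ t6 < 18490444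
  g0 : Γ t0 = Γ 18490444
  g1 : Γ t1 = Γ 8373316
  g2 : Γ t2 = Γ 18259948
  g3 : Γ t3 = Γ 18490444
  g4 : Γ t4 = Γ 8373316
  g5 : Γ t5 = Γ 18259948
  g6 : Γ t6 = Γ 18490444

namespace LamW

theorem sh (h : LamW Γ F) (x : ℝ) (k : ℤ) : Γ (7 * x - k * 40353264) = Γ (7 * x) :=
  h.congr ⟨-k, by push_cast; ring⟩

theorem g47 (h : LamW Γ F) : Γ 47113108 = Γ 18490444 ∧ Γ 47318908 = Γ 8373316 ∧
    Γ 48759508 = Γ 18259948 := by
  refine ⟨?_, ?_, ?_⟩
  · rw [← h.om0]; exact h.congr ⟨1, by norm_num⟩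
  · rw [← h.om1]; exact h.congr ⟨1, by norm_num⟩
  · rw [← h.om2]; exact h.congr ⟨1, by norm_num⟩

theorem half2 (h : LamW Γ F) {t3 : ℝ} (r3 : 18490444 < t3 ∧ t3 < 47113108)
    (g3 : Γ t3 = Γ 18490444) : ∃ (t4 t5 t6 : ℝ) (k3 k4 k5 : ℤ),
    t4 = 7 * t3 - k3 * 40353264 ∧ t5 = 7 * t4 - k4 * 40353264 ∧ t6 = 7 * t5 - k5 * 40353264 ∧
    (8373316 < t4 ∧ t4 < 47318908) ∧ (18259948 < t5 ∧ t5 < 48759508) ∧
    (6759844 < t6 ∧ t6 < 18490444) ∧ Γ t4 = Γ 8373316 ∧ Γ t5 = Γ 18259948 ∧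
    Γ t6 = Γ 18490444 := by
  obtain ⟨c1, c2, c3⟩ := h.g47
  obtain ⟨k3, a1, a2⟩ := h.arc (a := 18490444) (b := 47113108) (a₁ := 8373316) (b₁ := 47318908)
    (x := t3) 3 7 (by norm_num) (by norm_num) (by norm_num) (by norm_num) (by norm_num) r3.1 r3.2
    g3.symm (by rw [g3, c1])
  have g4 : Γ (7 * t3 - k3 * 40353264) = Γ 8373316 := by rw [h.sh, h.s01 g3]
  set t4 := 7 * t3 - k3 * 40353264 with ht4
  obtain ⟨k4, b1, b2⟩ := h.arc (a := 8373316) (b := 47318908) (a₁ := 18259948) (b₁ := 48759508)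
    (x := t4) 1 7 (by norm_num) (by norm_num) (by norm_num) (by norm_num) (by norm_num) a1 a2
    g4.symm (by rw [g4, c2])
  have g5 : Γ (7 * t4 - k4 * 40353264) = Γ 18259948 := by rw [h.sh, h.s12 g4]
  set t5 := 7 * t4 - k4 * 40353264 with ht5
  obtain ⟨k5, d1, d2⟩ := h.arc (a := 18259948) (b := 48759508) (a₁ := 6759844) (b₁ := 18490444)
    (x := t5) 3 8 (by norm_num) (by norm_num) (by norm_num) (by norm_num) (by norm_num) b1 b2
    g5.symm (by rw [g5, c3])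
  have g6 : Γ (7 * t5 - k5 * 40353264) = Γ 18490444 := by rw [h.sh, h.s20 g5]
  exact ⟨t4, t5, _, k3, k4, k5, ht4, ht5, rfl, ⟨a1, a2⟩, ⟨b1, b2⟩, ⟨d1, d2⟩, g4, g5, g6⟩

theorem orb (h : LamW Γ F) {t0 : ℝ} (r0 : 6759844 < t0 ∧ t0 < 18490444)
    (g0 : Γ t0 = Γ 18490444) : ∃ (t1 t2 t3 t4 t5 t6 : ℝ) (k0 k1 k2 k3 k4 k5 : ℤ),
    Orb Γ t0 t1 t2 t3 t4 t5 t6 k0 k1 k2 k3 k4 k5 := by
  obtain ⟨k0, a1, a2⟩ := h.arc (a := 6759844) (b := 18490444) (a₁ := 6965644) (b₁ := 8373316)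
    (x := t0) 1 3 (by norm_num) (by norm_num) (by norm_num) (by norm_num) (by norm_num) r0.1 r0.2
    (by rw [h.om0, g0]) g0
  have g1 : Γ (7 * t0 - k0 * 40353264) = Γ 8373316 := by rw [h.sh, h.s01 g0]
  set t1 := 7 * t0 - k0 * 40353264 with ht1
  obtain ⟨k1, b1, b2⟩ := h.arc (a := 6965644) (b := 8373316) (a₁ := 8406244) (b₁ := 18259948)
    (x := t1) 1 1 (by norm_num) (by norm_num) (by norm_num) (by norm_num) (by norm_num) a1 a2
    (by rw [h.om1, g1]) g1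
  have g2 : Γ (7 * t1 - k1 * 40353264) = Γ 18259948 := by rw [h.sh, h.s12 g1]
  set t2 := 7 * t1 - k1 * 40353264 with ht2
  obtain ⟨k2, d1, d2⟩ := h.arc (a := 8406244) (b := 18259948) (a₁ := 18490444) (b₁ := 47113108)
    (x := t2) 1 2 (by norm_num) (by norm_num) (by norm_num) (by norm_num) (by norm_num) b1 b2
    (by rw [h.om2, g2]) g2
  have g3 : Γ (7 * t2 - k2 * 40353264) = Γ 18490444 := by rw [h.sh, h.s20 g2]
  set t3 := 7 * t2 - k2 * 40353264 with ht3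
  obtain ⟨t4, t5, t6, k3, k4, k5, e4, e5, e6, r4, r5, r6, g4, g5, g6⟩ := h.half2 ⟨d1, d2⟩ g3
  exact ⟨t1, t2, t3, t4, t5, t6, k0, k1, k2, k3, k4, k5, ht1, ht2, ht3, e4, e5, e6, r0, ⟨a1, a2⟩,
    ⟨b1, b2⟩, ⟨d1, d2⟩, r4, r5, r6, g0, g1, g2, g3, g4, g5, g6⟩

theorem orb_lt (h : LamW Γ F) {t0 t1 t2 t3 t4 t5 t6 : ℝ} {k0 k1 k2 k3 k4 k5 : ℤ}
    {s0 s1 s2 s3 s4 s5 s6 : ℝ} {l0 l1 l2 l3 l4 l5 : ℤ}
    (O : Orb Γ t0 t1 t2 t3 t4 t5 t6 k0 k1 k2 k3 k4 k5)
    (P : Orb Γ s0 s1 s2 s3 s4 s5 s6 l0 l1 l2 l3 l4 l5) (hts : t0 < s0) : t6 < s6 := by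
  obtain ⟨e1, e2, e3, e4, e5, e6, r0, r1, r2, r3, r4, r5, r6, g0, g1, g2, g3, g4, g5, g6⟩ := O
  obtain ⟨d1, d2, d3, d4, d5, d6, q0, q1, q2, q3, q4, q5, q6, f0, f1, f2, f3, f4, f5, f6⟩ := P
  have u1 : t1 < s1 := by
    rw [e1] at r1 ⊢
    rw [d1] at q1 ⊢
    exact h.arc_lt (a := 6759844) (a₁ := 6965644) 1 (by norm_num) r0.1 hts (by linarith [q0.2])
      (by rw [h.om0, g0]) (by rw [g0, f0]) r1.1 (by linarith [r1.2]) q1.1 (by linarith [q1.2])
  have u2 : t2 < s2 := by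
    rw [e2] at r2 ⊢
    rw [d2] at q2 ⊢
    exact h.arc_lt (a := 6965644) (a₁ := 8406244) 1 (by norm_num) r1.1 u1 (by linarith [q1.2])
      (by rw [h.om1, g1]) (by rw [g1, f1]) r2.1 (by linarith [r2.2]) q2.1 (by linarith [q2.2])
  have u3 : t3 < s3 := by
    rw [e3] at r3 ⊢
    rw [d3] at q3 ⊢
    exact h.arc_lt (a := 8406244) (a₁ := 18490444) 1 (by norm_num) r2.1 u2 (by linarith [q2.2])
      (by rw [h.om2, g2]) (by rw [g2, f2]) r3.1 (by linarith [r3.2]) q3.1 (by linarith [q3.2])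
  have u4 : t4 < s4 := by
    rw [e4] at r4 ⊢
    rw [d4] at q4 ⊢
    exact h.arc_lt (a := 18490444) (a₁ := 8373316) 3 (by norm_num) r3.1 u3 (by linarith [q3.2])
      g3.symm (by rw [g3, f3]) r4.1 (by linarith [r4.2]) q4.1 (by linarith [q4.2])
  have u5 : t5 < s5 := by
    rw [e5] at r5 ⊢
    rw [d5] at q5 ⊢
    exact h.arc_lt (a := 8373316) (a₁ := 18259948) 1 (by norm_num) r4.1 u4 (by linarith [q4.2])
      g4.symm (by rw [g4, f4]) r5.1 (by linarith [r5.2]) q5.1 (by linarith [q5.2])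
  rw [e6] at r6 ⊢
  rw [d6] at q6 ⊢
  exact h.arc_lt (a := 18259948) (a₁ := 6759844) 3 (by norm_num) r5.1 u5 (by linarith [q5.2])
    g5.symm (by rw [g5, f5]) r6.1 (by linarith [r6.2]) q6.1 (by linarith [q6.2])

theorem nev {a b : ℝ} (h1 : a < b) (h2 : b < a + 40353264) : ¬ Eqv b a := by
  rintro ⟨n, hn⟩
  have h3 : (0 : ℝ) < n := by nlinarith
  have h4 : (n : ℝ) < 1 := by nlinarith
  have h5 : 0 < n := by exact_mod_cast h3
  have h6 : n < 1 := by exact_mod_cast h4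
  omega

/-- the constraints of the cuts -/
theorem cuts (h : LamW Γ F) {t0 t1 t2 t3 t4 t5 t6 : ℝ} {k0 k1 k2 k3 k4 k5 : ℤ}
    (O : Orb Γ t0 t1 t2 t3 t4 t5 t6 k0 k1 k2 k3 k4 k5) :
    (t0 ≤ 8612716 ∨ 14377468 ≤ t0) ∧ (t2 ≤ 8612716 ∨ 14377468 ≤ t2) ∧
    (t3 ≤ 19936420 ∨ 42995428 ≤ t3) ∧ (t4 ≤ 18490444 ∨ 47314204 ≤ t4) ∧
    (t4 ≤ 8612716 ∨ 14377468 ≤ t4) ∧ (t5 ≤ 18490444 ∨ 47314204 ≤ t5) := by
  obtain ⟨e1, e2, e3, e4, e5, e6, r0, r1, r2, r3, r4, r5, r6, g0, g1, g2, g3, g4, g5, g6⟩ := O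
  have w1 := h.neW (θ := 8612716) ⟨10, by norm_num⟩
    (fun e => nev (a := 6965644) (b := 8612716) (by norm_num) (by norm_num) e)
  have w2 := h.neW (θ := 14377468) ⟨17, by norm_num⟩
    (fun e => nev (a := 6965644) (b := 14377468) (by norm_num) (by norm_num) e)
  have u1 := h.neU (θ := 2642164) ⟨3, by norm_num⟩
    (fun e => nev (a := 2642164) (b := 6759844) (by norm_num) (by norm_num) e.symm)
  have u2 := h.neU (θ := 19936420) ⟨24, by norm_num⟩
    (fun e => nev (a := 6759844) (b := 19936420) (by norm_num) (by norm_num) e)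
  have x1 := h.neX
  refine ⟨?_, ?_, ?_, ?_, ?_, ?_⟩
  · by_contra hc
    push Not at hc
    exact h.wcut h.wW g0 (n := 0) (m := 0) (by push_cast; linarith [hc.1])
      (by push_cast; linarith [hc.2]) (by norm_num) (by norm_num)
      (by rw [g0]; exact w1.1) (by rw [g0]; exact w2.1)
  · by_contra hc
    push Not at hc
    exact h.wcut h.wW g2 (n := 0) (m := 0) (by push_cast; linarith [hc.1])
      (by push_cast; linarith [hc.2]) (by norm_num) (by norm_num)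
      (by rw [g2]; exact w1.2.2) (by rw [g2]; exact w2.2.2)
  · by_contra hc
    push Not at hc
    exact h.wcut h.wU g3.symm (n := 0) (m := 0) (by norm_num) (by norm_num)
      (by push_cast; linarith [hc.1]) (by push_cast; linarith [hc.2]) u1 u2
  · by_contra hc
    push Not at hc
    exact h.wcut h.wX g4.symm (n := 0) (m := 0) (by norm_num) (by norm_num)
      (by push_cast; linarith [hc.1]) (by push_cast; linarith [hc.2]) x1.2.1 h.ne01.symm
  · by_contra hc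
    push Not at hc
    exact h.wcut h.wW g4 (n := 0) (m := 1) (by push_cast; linarith [hc.1])
      (by push_cast; linarith [hc.2]) (by norm_num) (by norm_num)
      (by rw [g4]; exact w1.2.1) (by rw [g4]; exact w2.2.1)
  · by_contra hc
    push Not at hc
    exact h.wcut h.wX g5.symm (n := 0) (m := 0) (by norm_num) (by norm_num)
      (by push_cast; linarith [hc.1]) (by push_cast; linarith [hc.2]) x1.2.2 h.ne20

theorem branch (h : LamW Γ F) {t0 t1 t2 t3 t4 t5 t6 : ℝ} {k0 k1 k2 k3 k4 k5 : ℤ}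
    (O : Orb Γ t0 t1 t2 t3 t4 t5 t6 k0 k1 k2 k3 k4 k5) :
    (t0 < 6960940 ∧ t0 < t6) ∨ (18289348 < t0 ∧ t6 < t0) := by
  obtain ⟨c0, c2, c3, c4, c4', c5⟩ := h.cuts O
  obtain ⟨e1, e2, e3, e4, e5, e6, r0, r1, r2, r3, r4, r5, r6, g0, g1, g2, g3, g4, g5, g6⟩ := O
  have a5 := st5 e6 r5.1 r5.2 r6.1 r6.2 c5
  have a4 := st4 e5 r4.1 r4.2 r5.1 r5.2 c4 c4'
  have a3 := st3 e4 r3.1 r3.2 r4.1 r4.2 c3
  have a2 := st2 e3 r2.1 r2.2 r3.1 r3.2 c2
  have a1 := st1 e2 r1.1 r1.2 r2.1 r2.2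
  have a0 := st0 e1 r0.1 r0.2 r1.1 r1.2 c0
  rw [a1] at e2
  push_cast at e2
  rcases a0 with ⟨a0, a0'⟩ | ⟨a0, a0'⟩
  · left
    refine ⟨a0', ?_⟩
    by_contra hc
    push Not at hc
    rw [a0] at e1
    push_cast at e1
    rcases a5 with ⟨a5, a5'⟩ | ⟨a5, a5'⟩
    · rw [a5] at e6
      push_cast at e6
      rcases a4 with ⟨a4, a4'⟩ | ⟨a4, a4', a4''⟩ | ⟨a4, a4'⟩
      · rw [a4] at e5
        push_cast at e5
        rcases a3 with ⟨a3, a3'⟩ | ⟨a3, a3'⟩
        · rw [a3] at e4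
          push_cast at e4
          rcases a2 with ⟨a2, a2'⟩ | ⟨a2, a2'⟩
          · rw [a2] at e3
            push_cast at e3
            linarith [r0.1]
          · linarith
        · linarith
      · linarith
      · linarith
    · linarith
  · right
    refine ⟨a0', ?_⟩
    by_contra hc
    push Not at hc
    rw [a0] at e1
    push_cast at e1
    rcases a5 with ⟨a5, a5'⟩ | ⟨a5, a5'⟩
    · linarith
    · rw [a5] at e6
      push_cast at e6
      rcases a4 with ⟨a4, a4'⟩ | ⟨a4, a4', a4''⟩ | ⟨a4, a4'⟩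
      · linarith
      · linarith
      · rw [a4] at e5
        push_cast at e5
        rcases a3 with ⟨a3, a3'⟩ | ⟨a3, a3'⟩
        · linarith
        · rw [a3] at e4
          push_cast at e4
          rcases a2 with ⟨a2, a2'⟩ | ⟨a2, a2'⟩
          · linarith
          · rw [a2] at e3
            push_cast at e3
            linarith [r0.2]

/-- no point of the class between its two known angles -/
theorem no_mid (h : LamW Γ F) {t0 : ℝ} (r0 : 6759844 < t0 ∧ t0 < 18490444)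
    (g0 : Γ t0 = Γ 18490444) : False := by
  -- the image of a point
  have img : ∀ t, 6759844 < t → t < 18490444 → Γ t = Γ 18490444 →
      ((t < 6960940 ∧ ∃ s, t < s ∧ s < 6960940 ∧ Γ s = Γ 18490444) ∨
        (18289348 < t ∧ ∃ s, s < t ∧ 18289348 < s ∧ Γ s = Γ 18490444)) := by
    intro t h1 h2 h3
    obtain ⟨t1, t2, t3, t4, t5, t6, k0, k1, k2, k3, k4, k5, O⟩ := h.orb ⟨h1, h2⟩ h3
    obtain ⟨s1, s2, s3, s4, s5, s6, l0, l1, l2, l3, l4, l5, P⟩ := h.orb O.r6 O.g6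
    rcases h.branch O with ⟨b1, b2⟩ | ⟨b1, b2⟩
    · left
      refine ⟨b1, t6, b2, ?_, O.g6⟩
      rcases h.branch P with ⟨d1, d2⟩ | ⟨d1, d2⟩
      · exact d1
      · exact absurd (h.orb_lt O P b2) (by linarith)
    · right
      refine ⟨b1, t6, b2, ?_, O.g6⟩
      rcases h.branch P with ⟨d1, d2⟩ | ⟨d1, d2⟩
      · exact absurd (h.orb_lt P O b2) (by linarith)
      · exact d1
  have hclosed : IsClosed {x : ℝ | Γ x = Γ 18490444} := isClosed_eq h.cont continuous_const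
  rcases img t0 r0.1 r0.2 g0 with ⟨b1, -⟩ | ⟨b1, -⟩
  · set K : Set ℝ := Icc t0 6960940 ∩ {x : ℝ | Γ x = Γ 18490444} with hK
    have hKc : IsCompact K := isCompact_Icc.inter_right hclosed
    have hKn : K.Nonempty := ⟨t0, ⟨le_refl _, b1.le⟩, g0⟩
    obtain ⟨m, ⟨⟨m1, m2⟩, m3⟩, m4⟩ := hKc.exists_isGreatest hKn
    rcases img m (by linarith [r0.1]) (by linarith) m3 with ⟨-, s, s1, s2, s3⟩ | ⟨c1, -⟩
    · have := m4 (show s ∈ K from ⟨⟨by linarith, s2.le⟩, s3⟩)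
      linarith
    · linarith
  · set K : Set ℝ := Icc 18289348 t0 ∩ {x : ℝ | Γ x = Γ 18490444} with hK
    have hKc : IsCompact K := isCompact_Icc.inter_right hclosed
    have hKn : K.Nonempty := ⟨t0, ⟨b1.le, le_refl _⟩, g0⟩
    obtain ⟨m, ⟨⟨m1, m2⟩, m3⟩, m4⟩ := hKc.exists_isLeast hKn
    rcases img m (by linarith) (by linarith [r0.2]) m3 with ⟨c1, -⟩ | ⟨-, s, s1, s2, s3⟩
    · linarith
    · have := m4 (show s ∈ K from ⟨⟨s2.le, by linarith⟩, s3⟩)
      linarith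

/-- the class of `ω` has exactly two angles -/
theorem two (h : LamW Γ F) (hu : Γ u = Γ 18490444) : Eqv u 6759844 ∨ Eqv u 18490444 := by
  set n : ℤ := ⌊(u - 6759844) / 40353264⌋ with hn
  have h1 : (n : ℝ) * 40353264 ≤ u - 6759844 := by
    have := Int.floor_le ((u - 6759844) / 40353264)
    rw [← hn, le_div_iff₀ (by norm_num)] at this
    exact this
  have h2 : u - 6759844 < (n + 1) * 40353264 := by
    have := Int.lt_floor_add_one ((u - 6759844) / 40353264)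
    rw [← hn, div_lt_iff₀ (by norm_num)] at this
    exact this
  set v : ℝ := u + ((-n : ℤ) : ℝ) * 40353264 with hv
  have hv' : v = u - n * 40353264 := by rw [hv]; push_cast; ring
  have hvu : Eqv u v := ⟨n, by rw [hv']; ring⟩
  have hgv : Γ v = Γ 18490444 := by rw [← h.congr hvu, hu]
  rcases eq_or_lt_of_le (show 6759844 ≤ v by rw [hv']; linarith) with e | e
  · left; rw [e]; exact hvu
  rcases lt_trichotomy v 18490444 with e' | e' | e'
  · exact absurd (h.no_mid ⟨e, e'⟩ hgv) id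
  · right; rw [← e']; exact hvu
  · obtain ⟨t4, t5, t6, k3, k4, k5, -, -, -, -, -, r6, -, -, g6⟩ :=
      h.half2 (t3 := v) ⟨e', by rw [hv']; linarith⟩ hgv
    exact absurd (h.no_mid r6 g6) id

/-- classes which are eventually the class of `ω` have at most two angles -/
theorem pig (h : LamW Γ F) {θ : ℝ} (n : ℕ) (hθ : Γ (7 ^ n * θ) = Γ 18490444) (h1 : Γ s = Γ θ)
    (h2 : Γ t = Γ θ) (n1 : ¬ Eqv s θ) (n2 : ¬ Eqv t θ) (n3 : ¬ Eqv s t) : False := by
  have a0 := h.two hθ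
  have a1 := h.two (u := 7 ^ n * s) (by rw [h.pow h1, hθ])
  have a2 := h.two (u := 7 ^ n * t) (by rw [h.pow h2, hθ])
  rcases a0 with a0 | a0 <;> rcases a1 with a1 | a1 <;> rcases a2 with a2 | a2
  · exact n1 (h.inj_pow h1 n (a1.trans a0.symm))
  · exact n1 (h.inj_pow h1 n (a1.trans a0.symm))
  · exact n2 (h.inj_pow h2 n (a2.trans a0.symm))
  · exact n3 (h.inj_pow (by rw [h1, h2]) n (a1.trans a2.symm))
  · exact n3 (h.inj_pow (by rw [h1, h2]) n (a1.trans a2.symm))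
  · exact n2 (h.inj_pow h2 n (a2.trans a0.symm))
  · exact n1 (h.inj_pow h1 n (a1.trans a0.symm))
  · exact n1 (h.inj_pow h1 n (a1.trans a0.symm))

theorem strict (h : LamW Γ F) {c d : ℝ} (n m : ℕ) (hcd : WCut Γ c d)
    (hc : Γ (7 ^ n * c) = Γ 18490444) (hd : Γ (7 ^ m * d) = Γ 18490444) :
    ∀ s t, Γ s = Γ t → c < s → s < d → d < t → t < c + 40353264 → False := by
  intro s t hst h1 h2 h3 h4
  have n3 : ¬ Eqv s t := fun e => nev (a := s) (b := t) (by linarith) (by linarith) e.symm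
  rcases hcd s t hst h1 h2 h3 h4 with g | g
  · exact h.pig n hc g (by rw [← hst, g]) (nev h1 (by linarith)) (nev (by linarith) h4) n3
  · refine h.pig m hd g (by rw [← hst, g]) (fun e => nev h2 (by linarith) e.symm)
      (nev h3 (by linarith)) n3

/-- BRIDGE: weak data give the lamination of part B -/
theorem lam (h : LamW Γ F) : Lam Γ F := by
  refine ⟨h.cont, h.per, h.conj, h.unl, h.inj, h.fib, h.noc, h.half, h.fixa, h.fixz, h.fixw,
    ?_, ?_, ?_⟩
  · refine h.strict 3 0 h.wX ?_ (by norm_num)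
    rw [← h.om0]; exact h.congr ⟨59, by norm_num⟩
  · refine h.strict 3 3 h.wU ?_ ?_
    · exact h.congr ⟨22, by norm_num⟩
    · exact h.congr ⟨169, by norm_num⟩
  · refine h.strict 2 2 h.wW ?_ ?_
    · exact h.congr ⟨10, by norm_num⟩
    · exact h.congr ⟨17, by norm_num⟩

end LamW

end Pool.Agent.JB
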