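import Pool.Agent.Lib.MP_8ebc20_an.B.Sep

/-!
# Part B: automorphisms fixing `0` fix the triple points between `α` and `0`
-/

set_option autoImplicit false

namespace Pool.Agent.JB

open Set

variable {Γ : ℝ → ℂ} {F : ℂ → ℂ} {x y s t s' t' u b z m m' c c' v : ℝ} {i : Fin 7} {H : ℝ ≃o ℝ}

theorem lam_lt (k : ℕ) : lam k < lam (k + 1) := by
  refine k_cases (fun k => lam k < lam (k + 1)) ?_ ?_ ?_ k
  · rw [lam0, lam1]; norm_num
  · have := lam_step 0
    rw [lam0] at this
    rw [lam1]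
    norm_num at this ⊢
    linarith
  · intro k hk
    have h1 := lam_step k
    have h2 := lam_step (k + 1)
    have h3 : k + 1 + 2 = k + 2 + 1 := by ring
    rw [h3] at h2
    linarith

theorem lam_mono : StrictMono lam := strictMono_nat_of_lt_succ lam_lt

theorem rt_ne (k : ℕ) : rho k ≠ thd k ∧ rho k < lam k ∧ thd k < lam k := by
  have h1 : rho k ≠ thd k := by
    refine k_cases (fun k => rho k ≠ thd k) ?_ ?_ ?_ k
    · rw [rho0, thd0]; norm_num
    · rw [rho1, thd1]; norm_num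
    · intro k hk e
      apply hk
      rw [← rho_step, ← thd_step, e]
  have h2 := lam_bd k
  have h3 := rho_bd k
  have h4 := thd_bd k
  exact ⟨h1, by linarith, by linarith⟩

theorem not_eqv_half (h1 : 0 < x) (h2 : x < 20176632) (h3 : 0 < y) (h4 : y < 20176632)
    (h5 : x ≠ y) : ¬ Eqv x y := by
  intro h
  exact h5 (small_eqv h (abs_lt.2 ⟨by linarith, by linarith⟩))

/-- the three angles of the class of `lam k` -/
theorem Lam.t_cls (h : Lam Γ F) {k : ℕ} (hu : Γ u = Γ (lam k)) :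
    Eqv u (rho k) ∨ Eqv u (thd k) ∨ Eqv u (lam k) := by
  obtain ⟨b, c, h1, h2, h3, h4, h5, h6⟩ := h.IsT_lam k
  have e := h.t_eq k
  have r := rt_ne k
  have b1 := lam_bd k
  have b2 := rho_bd k
  have b3 := thd_bd k
  have n1 : ¬ Eqv (rho k) (thd k) :=
    not_eqv_half b2.1 (by linarith) b3.1 (by linarith) r.1
  have n2 : ¬ Eqv (rho k) (lam k) :=
    not_eqv_half b2.1 (by linarith) (by linarith) b1.2 r.2.1.ne
  have n3 : ¬ Eqv (thd k) (lam k) :=
    not_eqv_half b3.1 (by linarith) (by linarith) b1.2 r.2.2.ne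
  rcases h6 u hu with g | g | g
  · exact Or.inr (Or.inr g)
  · rcases h6 _ e.1 with g1 | g1 | g1
    · exact absurd g1 n2
    · exact Or.inl (g.trans g1.symm)
    · rcases h6 _ e.2 with g2 | g2 | g2
      · exact absurd g2 n3
      · exact Or.inr (Or.inl (g.trans g2.symm))
      · exact absurd (g1.trans g2.symm) n1
  · rcases h6 _ e.1 with g1 | g1 | g1
    · exact absurd g1 n2
    · rcases h6 _ e.2 with g2 | g2 | g2
      · exact absurd g2 n3
      · exact absurd (g1.trans g2.symm) n1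
      · exact Or.inr (Or.inl (g.trans g2.symm))
    · exact Or.inl (g.trans g1.symm)

theorem Lam.t_cls' (h : Lam Γ F) {k : ℕ} (hu : Γ u = Γ (lam k)) (h0 : 0 < u)
    (hM : u < 20176632) : u = rho k ∨ u = thd k ∨ u = lam k := by
  have b1 := lam_bd k
  have b2 := rho_bd k
  have b3 := thd_bd k
  rcases h.t_cls hu with g | g | g
  · exact Or.inl (small_eqv g (abs_lt.2 ⟨by linarith, by linarith⟩))
  · exact Or.inr (Or.inl (small_eqv g (abs_lt.2 ⟨by linarith, by linarith⟩)))
  · exact Or.inr (Or.inr (small_eqv g (abs_lt.2 ⟨by linarith, by linarith⟩)))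

theorem Lam.lam_neA (h : Lam Γ F) (k : ℕ) : Γ 6961528 ≠ Γ (lam k) := by
  intro e
  have b1 := lam_bd k
  rcases h.exactA e.symm with g | g | g
  · exact not_eqv_of_lt (by linarith) (by linarith) g
  · exact not_eqv_of_lt (by linarith) (by linarith) g
  · exact not_eqv_of_lt (by linarith) (by linarith) g

theorem Lam.lam_ne0 (h : Lam Γ F) (k : ℕ) : Γ 0 ≠ Γ (lam k) := by
  have b1 := lam_bd k
  exact (h.emp01 _ (by linarith) b1.2).symm

theorem Lam.nCN_lam (h : Lam Γ F) (k : ℕ) : ¬ CN Γ (lam k) 6961528 0 := by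
  intro hc
  obtain ⟨n, hn⟩ := hc (h.lam_neA k) (h.lam_ne0 k) (Or.inr (h.IsT_lam k))
  have b1 := lam_bd k
  have b2 := rho_bd k
  rcases le_or_gt n 0 with hn0 | hn0
  · have : (n : ℝ) ≤ 0 := by exact_mod_cast hn0
    exact hn (rho k) (by rw [mem_uIcc]; right; constructor <;> linarith) (h.t_eq k).1
  · have : (1 : ℝ) ≤ n := by exact_mod_cast hn0
    exact hn (lam k) (by rw [mem_uIcc]; left; constructor <;> linarith) rfl

/-- automorphisms fixing `0` -/
structure G0 (Γ : ℝ → ℂ) (H : ℝ ≃o ℝ) : Prop where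
  aut : Aut Γ H
  z : H 0 = 0

theorem G0.symm (hH : G0 Γ H) : G0 Γ H.symm := ⟨hH.aut.symm, by
  rw [OrderIso.symm_apply_eq, hH.z]⟩

theorem G0.trans {K : ℝ ≃o ℝ} (hH : G0 Γ H) (hK : G0 Γ K) : G0 Γ (H.trans K) :=
  ⟨hH.aut.trans hK.aut, by rw [OrderIso.trans_apply, hH.z, hK.z]⟩

theorem G0.N (hH : G0 Γ H) : H 40353264 = 40353264 := by
  have := hH.aut.per 0
  rw [hH.z, zero_add] at this
  exact this

theorem G0.M (hH : G0 Γ H) (h : Lam Γ F) : H 20176632 = 20176632 := by
  have e : Γ (H 20176632) = Γ 0 := by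
    have := (hH.aut.rel 20176632 0).1 h.fixz
    rw [this, hH.z]
  have h1 : H 0 < H 20176632 := H.lt_iff_lt.2 (by norm_num)
  have h2 : H 20176632 < H 40353264 := H.lt_iff_lt.2 (by norm_num)
  rw [hH.z] at h1
  rw [hH.N] at h2
  rcases h.exact0 e with g | g
  · exact absurd g (not_eqv_of_lt h1 (by linarith))
  · exact small_eqv g (abs_lt.2 ⟨by linarith, by linarith⟩)

theorem G0.pos (hH : G0 Γ H) (h0 : 0 < x) : 0 < H x := by
  rw [← hH.z]; exact H.lt_iff_lt.2 h0

theorem G0.ltM (hH : G0 Γ H) (h : Lam Γ F) (h0 : x < 20176632) : H x < 20176632 := by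
  rw [← hH.M h]; exact H.lt_iff_lt.2 h0

theorem G0.A (hH : G0 Γ H) (h : Lam Γ F) : Γ (H 6961528) = Γ 6961528 := by
  rcases (h.rigid hH.aut).2 with g | g
  · exact g
  · exfalso
    have h1 := hH.pos (x := 6961528) (by norm_num)
    have h2 := hH.ltM h (x := 6961528) (by norm_num)
    rcases h.exactB g with e | e | e
    · exact not_eqv_of_lt (a := H 6961528) (by linarith) (by linarith) e.symm
    · exact not_eqv_of_lt (a := H 6961528) (by linarith) (by linarith) e.symm
    · exact not_eqv_of_lt (a := H 6961528) (by linarith) (by linarith) e.symm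

theorem G0.lam_ex (hH : G0 Γ H) (h : Lam Γ F) (k : ℕ) : ∃ j, H (lam k) = lam j := by
  have n1 := h.nCN_lam k
  rw [← hH.aut.CN_iff] at n1
  have n2 : ¬ CN Γ (H (lam k)) 6961528 0 :=
    fun hc => n1 (h.CN_congr (hH.A h).symm (by rw [hH.z]) hc)
  obtain ⟨j, hj⟩ := h.sep_cls (hH.aut.IsT1 (h.IsT_lam k)) n2
  refine ⟨j, ?_⟩
  have b1 := lam_bd k
  have p0 := hH.pos (x := lam k) (by linarith)
  have p1 := hH.ltM h b1.2
  have b2 := lam_bd j
  have r := rt_ne j
  have key : ¬ H (lam k) < lam j := by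
    intro hlt
    have q1 : lam k < H.symm (lam j) := by
      rw [← H.lt_iff_lt, H.apply_symm_apply]; exact hlt
    have q2 : Γ (H.symm (lam j)) = Γ (lam k) := by
      rw [hH.aut.rel, H.apply_symm_apply, hj]
    have q3 : H.symm (lam j) < 20176632 := hH.symm.ltM h b2.2
    have r' := rt_ne k
    rcases h.t_cls' q2 (by linarith) q3 with g | g | g <;> linarith
  rcases h.t_cls' hj p0 p1 with g | g | g
  · exact absurd (by rw [g]; exact r.2.1) key
  · exact absurd (by rw [g]; exact r.2.2) key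
  · exact g

theorem G0.lam_le (hH : G0 Γ H) (h : Lam Γ F) (k : ℕ) : lam k ≤ H (lam k) := by
  choose σ hσ using hH.lam_ex h
  have hm : StrictMono σ := by
    intro a b hab
    have h1 : H (lam a) < H (lam b) := H.lt_iff_lt.2 (lam_mono hab)
    rw [hσ, hσ] at h1
    exact lam_mono.lt_iff_lt.1 h1
  rw [hσ]
  exact lam_mono.monotone (hm.le_apply)

/-- the angles of the separating triple points are fixed -/
theorem G0.lam (hH : G0 Γ H) (h : Lam Γ F) (k : ℕ) : H (lam k) = lam k := by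
  apply le_antisymm _ (hH.lam_le h k)
  have := hH.symm.lam_le h k
  rwa [OrderIso.le_symm_apply] at this

theorem G0.rho (hH : G0 Γ H) (h : Lam Γ F) (k : ℕ) : H (rho k) = rho k := by
  have e := h.t_eq k
  have r := rt_ne k
  have b1 := lam_bd k
  have b2 := rho_bd k
  have b3 := thd_bd k
  have hl := hH.lam h k
  have e1 : Γ (H (JB.rho k)) = Γ (JB.lam k) := by
    have := (hH.aut.rel (JB.rho k) (JB.lam k)).1 e.1
    rw [this, hl]
  have e2 : Γ (H (thd k)) = Γ (JB.lam k) := by
    have := (hH.aut.rel (thd k) (JB.lam k)).1 e.2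
    rw [this, hl]
  have l1 : H (JB.rho k) < JB.lam k := by
    rw [← hl]; exact H.lt_iff_lt.2 r.2.1
  have l2 : H (thd k) < JB.lam k := by
    rw [← hl]; exact H.lt_iff_lt.2 r.2.2
  have g1 := h.t_cls' e1 (hH.pos b2.1) (by linarith)
  have g2 := h.t_cls' e2 (hH.pos b3.1) (by linarith)
  rcases g1 with g1 | g1 | g1
  · exact g1
  · exfalso
    rcases g2 with g2 | g2 | g2
    · rcases lt_or_gt_of_ne r.1 with g | g
      · have := H.lt_iff_lt.2 g
        linarith
      · have := H.lt_iff_lt.2 g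
        linarith
    · exact r.1 (H.injective (by rw [g1, g2]))
    · linarith
  · linarith

end Pool.Agent.JB
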