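import Pool.Agent.Lib.MP_8ebc20_an.B.Size

/-!
# Part B: triple points and marks are eventually fixed
-/

set_option autoImplicit false

namespace Pool.Agent.JB

open Set

variable {Γ : ℝ → ℂ} {F : ℂ → ℂ} {x y s t u b : ℝ} {p q r : ℕ}

theorem Lam.fib_pow (h : Lam Γ F) (n : ℕ) (hy : Γ y = Γ (7 ^ n * x)) :
    ∃ x', Γ x' = Γ x ∧ Eqv (7 ^ n * x') y := by
  induction n generalizing y with
  | zero => exact ⟨y, by simpa using hy, by simp; exact Eqv.refl _⟩
  | succ n ih =>
    rw [← pow7, h.conj] at hy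
    obtain ⟨y', h1, h2⟩ := h.fib _ _ hy
    obtain ⟨x', h3, h4⟩ := ih h1
    exact ⟨x', h3, by rw [← pow7]; exact h4.seven.trans h2⟩

theorem kcls_cases' : ∀ p < 68, p % 2 = 0 → partners p ≠ [p] →
    (partners p = [0, 34] ∨ partners p = [8, 14, 24] ∨ partners p = [42, 48, 58]) ∨
    ([0, 1, 2, 3, 4, 5].any fun n => Nat.beq (nxt^[n] p) 26 || Nat.beq (nxt^[n] p) 60) = true := by
  decide +kernel

/-- the state cycle of `ω` -/
theorem kcls_cases : ∀ p < 68, p % 2 = 0 → partners p ≠ [p] →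
    (partners p = [0, 34] ∨ partners p = [8, 14, 24] ∨ partners p = [42, 48, 58]) ∨
    ∃ n, nxt^[n] p = 26 ∨ nxt^[n] p = 60 := by
  intro p hp h2 h3
  rcases kcls_cases' p hp h2 h3 with h | h
  · exact Or.inl h
  · rw [List.any_eq_true] at h
    obtain ⟨n, -, hn⟩ := h
    rw [Bool.or_eq_true] at hn
    rcases hn with hn | hn
    · exact Or.inr ⟨n, Or.inl (Nat.eq_of_beq_eq_true hn)⟩
    · exact Or.inr ⟨n, Or.inr (Nat.eq_of_beq_eq_true hn)⟩

theorem partners_len : ∀ p < 68, p % 2 = 0 → partners p ≠ [p] →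
    (partners p).length = 2 ∨ partners p = [8, 14, 24] ∨ partners p = [42, 48, 58] := by
  decide +kernel

theorem n0 : ((lo 0 : ℕ) : ℝ) = 0 := by simp [lo, OL]
theorem n34 : ((lo 34 : ℕ) : ℝ) = 20176632 := by simp [lo, OL]
theorem n4 : ((lo 4 : ℕ) : ℝ) = 6759844 := by simp [lo, OL]
theorem n26 : ((lo 26 : ℕ) : ℝ) = 18490444 := by simp [lo, OL]
theorem n60 : ((lo 60 : ℕ) : ℝ) = 38667076 := by simp [lo, OL]
theorem n38 : ((lo 38 : ℕ) : ℝ) = 26936476 := by simp [lo, OL]
theorem n8 : ((lo 8 : ℕ) : ℝ) = 6961528 := by simp [lo, OL]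
theorem n14 : ((lo 14 : ℕ) : ℝ) = 8377432 := by simp [lo, OL]
theorem n24 : ((lo 24 : ℕ) : ℝ) = 18288760 := by simp [lo, OL]
theorem n42 : ((lo 42 : ℕ) : ℝ) = 27138160 := by simp [lo, OL]
theorem n48 : ((lo 48 : ℕ) : ℝ) = 28554064 := by simp [lo, OL]
theorem n58 : ((lo 58 : ℕ) : ℝ) = 38465392 := by simp [lo, OL]

theorem part0 : partners 0 = [0, 34] := by decide
theorem part8 : partners 8 = [8, 14, 24] := by decide
theorem part42 : partners 42 = [42, 48, 58] := by decide
theorem part26 : partners 26 = [4, 26] := by decide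
theorem part60 : partners 60 = [38, 60] := by decide

theorem Lam.exact0 (h : Lam Γ F) (hu : Γ u = Γ 0) : Eqv u 0 ∨ Eqv u 20176632 := by
  obtain ⟨q, hq, hqu⟩ := h.exact (u := u) (p := 0) (by norm_num) (by norm_num) (by decide)
    (by rw [n0]; exact hu)
  rw [part0] at hq
  simp only [List.mem_cons, List.not_mem_nil, or_false] at hq
  rcases hq with rfl | rfl
  · rw [n0] at hqu; exact Or.inl hqu
  · rw [n34] at hqu; exact Or.inr hqu

theorem Lam.exactA (h : Lam Γ F) (hu : Γ u = Γ 6961528) :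
    Eqv u 6961528 ∨ Eqv u 8377432 ∨ Eqv u 18288760 := by
  obtain ⟨q, hq, hqu⟩ := h.exact (u := u) (p := 8) (by norm_num) (by norm_num) (by decide)
    (by rw [n8]; exact hu)
  rw [part8] at hq
  simp only [List.mem_cons, List.not_mem_nil, or_false] at hq
  rcases hq with rfl | rfl | rfl
  · rw [n8] at hqu; exact Or.inl hqu
  · rw [n14] at hqu; exact Or.inr (Or.inl hqu)
  · rw [n24] at hqu; exact Or.inr (Or.inr hqu)

theorem Lam.exactB (h : Lam Γ F) (hu : Γ u = Γ 27138160) :
    Eqv u 27138160 ∨ Eqv u 28554064 ∨ Eqv u 38465392 := by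
  obtain ⟨q, hq, hqu⟩ := h.exact (u := u) (p := 42) (by norm_num) (by norm_num) (by decide)
    (by rw [n42]; exact hu)
  rw [part42] at hq
  simp only [List.mem_cons, List.not_mem_nil, or_false] at hq
  rcases hq with rfl | rfl | rfl
  · rw [n42] at hqu; exact Or.inl hqu
  · rw [n48] at hqu; exact Or.inr (Or.inl hqu)
  · rw [n58] at hqu; exact Or.inr (Or.inr hqu)

theorem Lam.exactO (h : Lam Γ F) (hu : Γ u = Γ 18490444) :
    Eqv u 6759844 ∨ Eqv u 18490444 := by
  obtain ⟨q, hq, hqu⟩ := h.exact (u := u) (p := 26) (by norm_num) (by norm_num) (by decide)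
    (by rw [n26]; exact hu)
  rw [part26] at hq
  simp only [List.mem_cons, List.not_mem_nil, or_false] at hq
  rcases hq with rfl | rfl
  · rw [n4] at hqu; exact Or.inl hqu
  · rw [n26] at hqu; exact Or.inr hqu

theorem Lam.be1 (h : Lam Γ F) : Γ 28554064 = Γ 27138160 :=
  h.halfInt h.al1 (by norm_num) (by norm_num)

theorem Lam.be2 (h : Lam Γ F) : Γ 38465392 = Γ 27138160 :=
  h.halfInt h.al2 (by norm_num) (by norm_num)

theorem Lam.exactO' (h : Lam Γ F) (hu : Γ u = Γ 38667076) :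
    Eqv u 26936476 ∨ Eqv u 38667076 := by
  obtain ⟨q, hq, hqu⟩ := h.exact (u := u) (p := 60) (by norm_num) (by norm_num) (by decide)
    (by rw [n60]; exact hu)
  rw [part60] at hq
  simp only [List.mem_cons, List.not_mem_nil, or_false] at hq
  rcases hq with rfl | rfl
  · rw [n38] at hqu; exact Or.inl hqu
  · rw [n60] at hqu; exact Or.inr hqu

/-- three pairwise inequivalent angles are eventually in the class of `α` or `- α` -/
theorem Lam.three (h : Lam Γ F) {b c : ℝ} (h1 : ¬ Eqv x b) (h2 : ¬ Eqv x c) (h3 : ¬ Eqv b c)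
    (hb : Γ b = Γ x) (hc : Γ c = Γ x) :
    ∃ n : ℕ, Γ (7 ^ n * x) = Γ 6961528 ∨ Γ (7 ^ n * x) = Γ 27138160 := by
  obtain ⟨n, p, q, hp, hq, hpq, e1, e2, hqp, g1, g2⟩ := h.classify hb.symm h1
  have hpp : partners p ≠ [p] := by
    intro h4
    rw [h4] at hqp
    simp only [List.mem_singleton] at hqp
    exact hpq hqp.symm
  refine ⟨n, ?_⟩
  have hxp : Γ (7 ^ n * x) = Γ (lo p) := h.congr g1
  rcases partners_len p hp e1 hpp with h4 | h4 | h4
  · exfalso
    obtain ⟨a₁, a₂, ha⟩ : ∃ a₁ a₂, partners p = [a₁, a₂] := by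
      match partners p, h4 with
      | [a₁, a₂], _ => exact ⟨a₁, a₂, rfl⟩
    have k : ∀ v, Γ v = Γ x → Eqv (7 ^ n * v) (lo a₁) ∨ Eqv (7 ^ n * v) (lo a₂) := by
      intro v hv
      obtain ⟨q', hq', hv'⟩ := h.exact hp e1 hpp (u := 7 ^ n * v) (by rw [h.pow hv, hxp])
      rw [ha] at hq'
      simp only [List.mem_cons, List.not_mem_nil, or_false] at hq'
      rcases hq' with rfl | rfl
      · exact Or.inl hv'
      · exact Or.inr hv'
    have i : ∀ v w, Γ v = Γ x → Γ w = Γ x → Eqv (7 ^ n * v) (7 ^ n * w) → Eqv v w :=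
      fun v w hv hw => h.inj_pow (by rw [hv, hw]) n
    rcases k x rfl with kx | kx <;> rcases k b hb with kb | kb <;> rcases k c hc with kc | kc
    · exact h1 (i _ _ rfl hb (kx.trans kb.symm))
    · exact h1 (i _ _ rfl hb (kx.trans kb.symm))
    · exact h2 (i _ _ rfl hc (kx.trans kc.symm))
    · exact h3 (i _ _ hb hc (kb.trans kc.symm))
    · exact h3 (i _ _ hb hc (kb.trans kc.symm))
    · exact h2 (i _ _ rfl hc (kx.trans kc.symm))
    · exact h1 (i _ _ rfl hb (kx.trans kb.symm))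
    · exact h1 (i _ _ rfl hb (kx.trans kb.symm))
  · left
    have := mem_partners p
    rw [h4] at this
    simp only [List.mem_cons, List.not_mem_nil, or_false] at this
    rcases this with rfl | rfl | rfl
    · rw [hxp, n8]
    · rw [hxp, n14, h.al1]
    · rw [hxp, n24, h.al2]
  · right
    have := mem_partners p
    rw [h4] at this
    simp only [List.mem_cons, List.not_mem_nil, or_false] at this
    rcases this with rfl | rfl | rfl
    · rw [hxp, n42]
    · rw [hxp, n48, h.be1]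
    · rw [hxp, n58, h.be2]

theorem Lam.IsT_ev (h : Lam Γ F) (hx : IsT Γ x) :
    ∃ n : ℕ, Γ (7 ^ n * x) = Γ 6961528 ∨ Γ (7 ^ n * x) = Γ 27138160 := by
  obtain ⟨b, c, h1, h2, h3, h4, h5, -⟩ := hx
  exact h.three h1 h2 h3 h4 h5

/-- `ω` is isolated -/
theorem Lam.iso_om (h : Lam Γ F) {x' b' : ℝ} (h1 : |x' - 18490444| < 100)
    (h2 : |b' - 6759844| < 100) (h3 : Γ x' = Γ b') : Γ x' = Γ 18490444 := by
  have hX : Cut Γ 6960940 18490444 := h.cutX
  obtain ⟨a1, a2⟩ := abs_lt.1 h1
  obtain ⟨b1, b2⟩ := abs_lt.1 h2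
  rcases lt_trichotomy x' 18490444 with c1 | c1 | c1
  · rcases lt_trichotomy b' 6759844 with c2 | c2 | c2
    · have := h.unl 6759844 x' 18490444 (b' + 40353264) (by linarith) c1 (by linarith)
        (by linarith) h.om0 (by rw [h.per, h3])
      rw [← this, h.om0]
    · rw [h3, c2, h.om0]
    · exfalso
      exact h.cut_int hX h3 (n := 0) (m := 1) (by push_cast; linarith) (by push_cast; linarith)
        (by push_cast; linarith) (by push_cast; linarith)
  · rw [c1]
  · rcases lt_trichotomy b' 6759844 with c2 | c2 | c2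
    · exfalso
      have h4 := h.pow h3 3
      exact h.cut_int hX h4.symm (n := -57) (m := -156) (by push_cast; linarith)
        (by push_cast; linarith) (by push_cast; linarith) (by push_cast; linarith)
    · rw [h3, c2, h.om0]
    · have := h.unl 6759844 b' 18490444 x' c2 (by linarith) c1
        (by linarith) h.om0 h3.symm
      rw [h3, ← this, h.om0]

end Pool.Agent.JB
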