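import Pool.Agent.Lib.MP_8ebc20_an.B.Sig

/-!
# Part B: the shifts of the strips
-/

set_option autoImplicit false

namespace Pool.Agent.JB

open Set

variable {Γ : ℝ → ℂ} {F : ℂ → ℂ} {x y s t s' t' u b z m m' c c' v : ℝ} {i : Fin 7}
  {H K : ℝ ≃o ℝ}

/-- a leaf crossing the strip `k` -/
noncomputable def omL (k : ℕ) : ℝ := 20176632 - 240884 / 7 ^ k
noncomputable def omR (k : ℕ) : ℝ := 6730444 / 7 ^ k

theorem omL_bd (k : ℕ) : 19935748 ≤ omL k ∧ omL k < 20176632 ∧ 0 < omR k ∧ omR k ≤ 6730444 := by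
  unfold omL omR
  have h7 : (1 : ℝ) ≤ 7 ^ k := one_le_pow₀ (by norm_num)
  have h0 : (0 : ℝ) < 7 ^ k := by positivity
  have e1 : (240884 : ℝ) / 7 ^ k ≤ 240884 := by rw [div_le_iff₀ h0]; nlinarith
  have e2 : (0 : ℝ) < 240884 / 7 ^ k := by positivity
  have e3 : (6730444 : ℝ) / 7 ^ k ≤ 6730444 := by rw [div_le_iff₀ h0]; nlinarith
  have e4 : (0 : ℝ) < 6730444 / 7 ^ k := by positivity
  exact ⟨by linarith, by linarith, e4, e3⟩

theorem omL_step (k : ℕ) : 7 * omL (k + 1) = omL k + 3 * 40353264 := by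
  unfold omL
  rw [pow_succ]
  field_simp
  ring
theorem omR_step (k : ℕ) : 7 * omR (k + 1) = omR k := by
  unfold omR
  rw [pow_succ]
  field_simp

theorem Lam.om_leaf (h : Lam Γ F) (k : ℕ) : Γ (omL k) = Γ (omR k) := by
  induction k with
  | zero =>
    have e1 : omL 0 = 19935748 := by unfold omL; norm_num
    have e2 : omR 0 = 6730444 := by unfold omR; norm_num
    rw [e1, e2]
    apply h.lp (i := 2) (inO2_hi (by norm_num) (by norm_num)) (inO2_lo (by norm_num) (by norm_num))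
    rw [h.congr (x := 7 * 19935748) (y := 18490444) ⟨3, by norm_num⟩,
      h.congr (x := 7 * 6730444) (y := 6759844) ⟨1, by norm_num⟩, h.om0]
  | succ k ih =>
    have b := omL_bd k
    have s1 := omL_step k
    have s2 := omR_step k
    have b' := omL_bd (k + 1)
    have i1 : inO 3 (omL (k + 1)) := inO3_hi (by linarith) b'.2.1
    have i2 : inO 3 (omR (k + 1)) := inO3_lo b'.2.2.1 (by linarith)
    apply h.lp i1 i2
    rw [s1, s2, ← ih]
    exact h.congr ⟨3, by push_cast; ring⟩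

theorem strip_vals (k : ℕ) : lam (2 * k) = 20176632 - 269696 / 7 ^ k ∧
    lam (2 * k + 1) = 20176632 - 240800 / 7 ^ k ∧ rho (2 * k) = 6759256 / 7 ^ k ∧
    rho (2 * k + 1) = 6730360 / 7 ^ k := by
  unfold lam rho
  rw [if_pos (by omega), if_neg (by omega), if_pos (by omega), if_neg (by omega),
    show (2 * k + 1) / 2 = k by omega, show 2 * k / 2 = k by omega]
  exact ⟨rfl, rfl, rfl, rfl⟩

theorem Lam.om_mem (h : Lam Γ F) (k : ℕ) : omL k ∈ Sig Γ k := by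
  obtain ⟨v1, v2, v3, v4⟩ := strip_vals k
  have h0 : (0 : ℝ) < 7 ^ k := by positivity
  refine ⟨?_, ?_, omR k, ?_, ?_, h.om_leaf k⟩
  · rw [v1]; unfold omL
    have : (240884 : ℝ) / 7 ^ k < 269696 / 7 ^ k := by gcongr; norm_num
    linarith
  · rw [v2]; unfold omL
    have : (240800 : ℝ) / 7 ^ k < 240884 / 7 ^ k := by gcongr; norm_num
    linarith
  · rw [v4]; unfold omR; gcongr; norm_num
  · rw [v3]; unfold omR; gcongr; norm_num

/-- conjugation by the symmetry -/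
noncomputable def cj (H : ℝ ≃o ℝ) : ℝ ≃o ℝ := (hf.trans H).trans hf.symm

theorem cj_apply (H : ℝ ≃o ℝ) (x : ℝ) : cj H x = H (x + 20176632) - 20176632 := by
  unfold cj
  rw [OrderIso.trans_apply, OrderIso.trans_apply, OrderIso.symm_apply_eq, hf_apply, hf_apply]
  ring

theorem cj_trans (H K : ℝ ≃o ℝ) : cj (H.trans K) = (cj H).trans (cj K) := by
  ext x
  rw [cj_apply, OrderIso.trans_apply, OrderIso.trans_apply, cj_apply, cj_apply, sub_add_cancel]

theorem cj_symm (H : ℝ ≃o ℝ) : cj H.symm = (cj H).symm := by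
  ext x
  symm
  rw [OrderIso.symm_apply_eq, cj_apply, cj_apply, sub_add_cancel, OrderIso.apply_symm_apply]
  ring

theorem cj_refl : cj (OrderIso.refl ℝ) = OrderIso.refl ℝ := by
  ext x
  rw [cj_apply]
  simp

theorem G0.cj (hH : G0 Γ H) (h : Lam Γ F) : G0 Γ (cj H) := by
  refine ⟨((h.hf_aut).trans hH.aut).trans (h.hf_aut).symm, ?_⟩
  rw [cj_apply, zero_add, hH.M h, sub_self]

theorem cj_cj (hH : Aut Γ H) : cj (cj H) = H := by
  ext x
  rw [cj_apply, cj_apply, show x + 20176632 + 20176632 = x + 40353264 by ring, hH.per]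
  ring

/-- the shift of the strip `k` -/
noncomputable def tau (Γ : ℝ → ℂ) (k : ℕ) (H : ℝ ≃o ℝ) : ℤ := cnt (Sig Γ k) (omL k) (H (omL k))

theorem tau_refl (k : ℕ) : tau Γ k (OrderIso.refl ℝ) = 0 := cnt_self _ _

theorem Lam.tau_trans (h : Lam Γ F) (k : ℕ) (hH : G0 Γ H) (hK : G0 Γ K) :
    tau Γ k (H.trans K) = tau Γ k H + tau Γ k K := by
  have m := h.om_mem k
  have mH := (hH.Sig_iff h k _).2 m
  have mK := (hK.Sig_iff h k _).2 m
  have mHK := (hK.Sig_iff h k _).2 mH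
  have := cnt_add (S := Sig Γ k) (A := lam (2 * k)) (B := lam (2 * k + 1)) (h.Sig_fin k)
    (x := omL k) (y := K (omL k)) (z := K (H (omL k))) ⟨m.1, m.2.1⟩ ⟨mK.1, mK.2.1⟩
    ⟨mHK.1, mHK.2.1⟩
  rw [cnt_map (hK.Sig_iff h k)] at this
  unfold tau
  rw [OrderIso.trans_apply, ← this]
  ring

/-- the invariant -/
noncomputable def psi (Γ : ℝ → ℂ) (k : ℕ) (H : ℝ ≃o ℝ) : ℤ := tau Γ k H + tau Γ k (cj H)

theorem psi_refl (k : ℕ) : psi Γ k (OrderIso.refl ℝ) = 0 := by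
  unfold psi
  rw [cj_refl, tau_refl]
  rfl

theorem Lam.psi_trans (h : Lam Γ F) (k : ℕ) (hH : G0 Γ H) (hK : G0 Γ K) :
    psi Γ k (H.trans K) = psi Γ k H + psi Γ k K := by
  unfold psi
  rw [cj_trans, h.tau_trans k hH hK, h.tau_trans k (hH.cj h) (hK.cj h)]
  ring

theorem psi_cj (k : ℕ) (hH : Aut Γ H) : psi Γ k (cj H) = psi Γ k H := by
  unfold psi
  rw [cj_cj hH]
  ring

theorem Lam.psi_symm (h : Lam Γ F) (k : ℕ) (hH : G0 Γ H) : psi Γ k H.symm = - psi Γ k H := by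
  have := h.psi_trans k hH hH.symm
  rw [OrderIso.self_trans_symm, psi_refl] at this
  linarith

theorem Lam.tau_close (h : Lam Γ F) (k : ℕ) (hH : G0 Γ H) :
    ∃ ε > 0, ∀ K, G0 Γ K → (∀ x, ‖Γ (K x) - Γ (H x)‖ < ε) → tau Γ k K = tau Γ k H := by
  have m := h.om_mem k
  obtain ⟨ε, hε, hs⟩ := h.Sig_sep k ((hH.Sig_iff h k _).2 m)
  refine ⟨ε, hε, fun K hK hx => ?_⟩
  have := hs _ ((hK.Sig_iff h k _).2 m) (hx _)
  unfold tau
  rw [this]

/-- LOCAL CONSTANCY -/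
theorem Lam.psi_close (h : Lam Γ F) (hneg : ∀ x, Γ (x + 20176632) = - Γ x) (k : ℕ)
    (hH : G0 Γ H) :
    ∃ ε > 0, ∀ K, G0 Γ K → (∀ x, ‖Γ (K x) - Γ (H x)‖ < ε) → psi Γ k K = psi Γ k H := by
  obtain ⟨ε₁, hε₁, h1⟩ := h.tau_close k hH
  obtain ⟨ε₂, hε₂, h2⟩ := h.tau_close k (hH.cj h)
  refine ⟨min ε₁ ε₂, lt_min hε₁ hε₂, fun K hK hx => ?_⟩
  unfold psi
  rw [h1 K hK (fun x => lt_of_lt_of_le (hx x) (min_le_left _ _)),
    h2 (cj K) (hK.cj h) (fun x => ?_)]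
  rw [cj_apply, cj_apply]
  have e : ∀ y, Γ (y - 20176632) = - Γ y := by
    intro y
    have := hneg (y - 20176632)
    rw [sub_add_cancel] at this
    rw [this, neg_neg]
  rw [e, e, neg_sub_neg, norm_sub_rev]
  exact lt_of_lt_of_le (hx _) (min_le_right _ _)

end Pool.Agent.JB
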