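import Pool.Agent.Lib.MP_8ebc20_an.B.Piece

/-!
# Part B: transfer of classes by `Q i`
-/

set_option autoImplicit false

namespace Pool.Agent.JB

open Set

variable {Γ : ℝ → ℂ} {F : ℂ → ℂ} {x y s t u : ℝ} {i : Fin 7}

/-- the class of `7 x` contains no critical value -/
def Av (Γ : ℝ → ℂ) (x : ℝ) : Prop := ∀ j : Fin 6, Γ (7 * x) ≠ Γ (V j)

theorem bdV (i : Fin 7) : (∃ j, (7 * A i - V j) % 40353264 = 0) ∧
    (∃ j, (7 * (A i + L i) - V j) % 40353264 = 0) ∧ (∃ j, (7 * B i - V j) % 40353264 = 0) ∧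
    (∃ j, (7 * (B i + (5764752 - L i)) - V j) % 40353264 = 0) := by
  revert i; decide

theorem eqv_of_bd {a : ℤ} {j : Fin 6} (h : (7 * a - V j) % 40353264 = 0) {n : ℤ}
    (hu : u + n * 40353264 = a) : Eqv (7 * u) (V j) := by
  have h1 := eqv_int h
  push_cast at h1
  rw [← hu] at h1
  refine Eqv.trans ?_ h1
  exact ⟨-7 * n, by push_cast; ring⟩

theorem bdry (hu : inP i u) : inO i u ∨ ∃ j, Eqv (7 * u) (V j) := by
  obtain ⟨⟨j1, h1⟩, ⟨j2, h2⟩, ⟨j3, h3⟩, ⟨j4, h4⟩⟩ := bdV i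
  obtain ⟨n, hn | hn⟩ := hu
  · rcases eq_or_lt_of_le hn.1 with h5 | h5
    · exact Or.inr ⟨j1, eqv_of_bd h1 h5.symm⟩
    rcases eq_or_lt_of_le hn.2 with h6 | h6
    · exact Or.inr ⟨j2, eqv_of_bd h2 (n := n) (by push_cast; linarith)⟩
    · exact Or.inl ⟨n, Or.inl ⟨h5, h6⟩⟩
  · rcases eq_or_lt_of_le hn.1 with h5 | h5
    · exact Or.inr ⟨j3, eqv_of_bd h3 h5.symm⟩
    rcases eq_or_lt_of_le hn.2 with h6 | h6
    · exact Or.inr ⟨j4, eqv_of_bd h4 (n := n) (by push_cast; linarith)⟩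
    · exact Or.inl ⟨n, Or.inr ⟨h5, h6⟩⟩

theorem mkA (i : Fin 7) (n a b : ℤ) (ha : A i = a) (hb : A i + L i = b)
    (h1 : (a : ℝ) ≤ x + n * 40353264) (h2 : x + n * 40353264 ≤ (b : ℝ)) : inP i x := by
  refine ⟨n, Or.inl ⟨by rw [ha]; exact h1, ?_⟩⟩
  have : (A i : ℝ) + L i = b := by exact_mod_cast hb
  rw [this]; exact h2

theorem mkB (i : Fin 7) (n a b : ℤ) (ha : B i = a) (hb : B i + (5764752 - L i) = b)
    (h1 : (a : ℝ) ≤ x + n * 40353264) (h2 : x + n * 40353264 ≤ (b : ℝ)) : inP i x := by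
  refine ⟨n, Or.inr ⟨by rw [ha]; exact h1, ?_⟩⟩
  have : (B i : ℝ) + (5764752 - L i) = b := by exact_mod_cast hb
  rw [this]; exact h2

/-- every angle is in some closed piece -/
theorem cover (x : ℝ) : ∃ i, inP i x := by
  set m : ℤ := ⌊(x + 240212) / 40353264⌋ with hm
  have hm1 : (m : ℝ) * 40353264 ≤ x + 240212 := by
    have := Int.floor_le ((x + 240212) / 40353264)
    rw [← hm, le_div_iff₀ (by norm_num)] at this
    exact this
  have hm2 : x + 240212 < (m + 1) * 40353264 := by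
    have := Int.lt_floor_add_one ((x + 240212) / 40353264)
    rw [← hm, div_lt_iff₀ (by norm_num)] at this
    exact this
  have hc : ((-m : ℤ) : ℝ) = -m := by push_cast; ring
  have y1 : -240212 ≤ x + ((-m : ℤ) : ℝ) * 40353264 := by rw [hc]; linarith
  have y2 : x + ((-m : ℤ) : ℝ) * 40353264 < 40113052 := by rw [hc]; linarith
  rcases le_or_gt (x + ((-m : ℤ) : ℝ) * 40353264) 2642164 with h1 | h1
  · exact ⟨3, mkA 3 (-m) (-240212) 2642164 rfl rfl (by exact_mod_cast y1) (by exact_mod_cast h1)⟩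
  rcases le_or_gt (x + ((-m : ℤ) : ℝ) * 40353264) 6960940 with h2 | h2
  · exact ⟨2, mkA 2 (-m) 2642164 6960940 rfl rfl (by exact_mod_cast h1.le)
      (by exact_mod_cast h2)⟩
  rcases le_or_gt (x + ((-m : ℤ) : ℝ) * 40353264) 8612716 with h3 | h3
  · exact ⟨1, mkA 1 (-m) 6960940 8612716 rfl rfl (by exact_mod_cast h2.le)
      (by exact_mod_cast h3)⟩
  rcases le_or_gt (x + ((-m : ℤ) : ℝ) * 40353264) 14377468 with h4 | h4
  · exact ⟨0, mkA 0 (-m) 8612716 14377468 rfl rfl (by exact_mod_cast h3.le)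
      (by exact_mod_cast h4)⟩
  rcases le_or_gt (x + ((-m : ℤ) : ℝ) * 40353264) 18490444 with h5 | h5
  · exact ⟨1, mkB 1 (-m) 14377468 18490444 rfl rfl (by exact_mod_cast h4.le)
      (by exact_mod_cast h5)⟩
  rcases le_or_gt (x + ((-m : ℤ) : ℝ) * 40353264) 19936420 with h6 | h6
  · exact ⟨2, mkB 2 (-m) 18490444 19936420 rfl rfl (by exact_mod_cast h5.le)
      (by exact_mod_cast h6)⟩
  rcases le_or_gt (x + ((-m : ℤ) : ℝ) * 40353264) 22818796 with h7 | h7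
  · exact ⟨3, mkB 3 (-m) 19936420 22818796 rfl rfl (by exact_mod_cast h6.le)
      (by exact_mod_cast h7)⟩
  rcases le_or_gt (x + ((-m : ℤ) : ℝ) * 40353264) 27137572 with h8 | h8
  · exact ⟨4, mkA 4 (-m) 22818796 27137572 rfl rfl (by exact_mod_cast h7.le)
      (by exact_mod_cast h8)⟩
  rcases le_or_gt (x + ((-m : ℤ) : ℝ) * 40353264) 28789348 with h9 | h9
  · exact ⟨5, mkA 5 (-m) 27137572 28789348 rfl rfl (by exact_mod_cast h8.le)
      (by exact_mod_cast h9)⟩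
  rcases le_or_gt (x + ((-m : ℤ) : ℝ) * 40353264) 34554100 with h10 | h10
  · exact ⟨6, mkA 6 (-m) 28789348 34554100 rfl rfl (by exact_mod_cast h9.le)
      (by exact_mod_cast h10)⟩
  rcases le_or_gt (x + ((-m : ℤ) : ℝ) * 40353264) 38667076 with h11 | h11
  · exact ⟨5, mkB 5 (-m) 34554100 38667076 rfl rfl (by exact_mod_cast h10.le)
      (by exact_mod_cast h11)⟩
  · exact ⟨4, mkB 4 (-m) 38667076 40113052 rfl rfl (by exact_mod_cast h11.le)
      (by exact_mod_cast y2.le)⟩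

theorem Lam.av_inO (h : Lam Γ F) (hx : Av Γ x) : ∃ i, inO i x := by
  obtain ⟨i, hi⟩ := cover x
  rcases bdry hi with h1 | ⟨j, hj⟩
  · exact ⟨i, h1⟩
  · exact absurd (h.congr hj) (hx j)

/-- outside the closed piece the value of `Q i` is critical -/
theorem Q_gapV (hu : ¬ inP i u) : ∃ j, Eqv (Q i u) (V j) := by
  obtain ⟨⟨j1, h1⟩, ⟨j2, h2⟩, -, -⟩ := bdV i
  rcases Q_not i u with h | ⟨n, hn⟩ | ⟨n, hn⟩
  · exact absurd h hu
  · have h3 := Q_gap1 i hn.1.le hn.2.le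
    rw [Q_add_int] at h3
    have h4 := eqv_int h2
    refine ⟨j2, Eqv.trans ?_ h4⟩
    exact ⟨-n, by push_cast; linarith⟩
  · have h3 := Q_gap2 i hn.1.le hn.2.le
    rw [Q_add_int] at h3
    have h4 := eqv_int h1
    refine ⟨j1, Eqv.trans ?_ h4⟩
    exact ⟨1 - n, by push_cast; linarith⟩

theorem Lam.tr (h : Lam Γ F) (hi : inO i x) (hx : Av Γ x) (u : ℝ) :
    Γ u = Γ x ↔ Γ (Q i u) = Γ (Q i x) := by
  have hx7 : Γ (Q i x) = Γ (7 * x) := h.congr (Q_inP hi.inP)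
  constructor
  · intro hu
    have h1 := h.same hi hu.symm
    rw [hx7, h.congr (Q_inP h1)]
    exact h.conjEq hu
  · intro hu
    rw [hx7] at hu
    by_cases hP : inP i u
    · rcases bdry hP with h1 | ⟨j, hj⟩
      · exact h.lp h1 hi (by rw [← h.congr (Q_inP hP)]; exact hu)
      · exact absurd (by rw [← hu, h.congr (Q_inP hP), h.congr hj]) (hx j)
    · obtain ⟨j, hj⟩ := Q_gapV hP
      exact absurd (by rw [← hu, h.congr hj]) (hx j)

/-- near an angle of the class of `x` the map `Q i` is injective -/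
theorem Lam.tr_inj (h : Lam Γ F) (hi : inO i x) (hx : Av Γ x) (hu : Γ u = Γ x) : inO i u := by
  rcases bdry (h.same hi hu.symm) with h1 | ⟨j, hj⟩
  · exact h1
  · exact absurd (by rw [← h.conjEq hu, h.congr hj]) (hx j)

end Pool.Agent.JB
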