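import Pool.Agent.Lib.MP_8ebc20_an.B.Pos

/-!
# Part B: blind points
-/

set_option autoImplicit false

namespace Pool.Agent.JB

open Set

variable {Γ : ℝ → ℂ} {F : ℂ → ℂ} {x y s t s' t' u b z m : ℝ} {i k : Fin 7}

/-- the classes of `α` and of the cycle of `ω` -/
def star : List ℤ :=
  [6961528, 8377432, 18288760, 18490444, 8373316, 18259948, 6759844, 6965644, 8406244]
/-- the class of `e` and a critical value -/
def eye : List ℤ := [6759256, 18491032, 19906936, 18495148]

/-- the piece `k` is not visible from `s` -/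
def hid (s : ℤ) (k : Fin 7) : Bool :=
  (List.finRange 7).any fun i => (i != k) && nPi (q i s) (val i k)

def starChk : Bool := star.all fun s => nPi s 0 && (List.finRange 7).all fun k =>
  star.contains (q k s % 40353264) || hid s k
def eyeChk : Bool := eye.all fun s => (List.finRange 7).all fun k =>
  star.contains (q k s % 40353264) || ((k == 3 && eye.contains (q k s % 40353264)) || hid s k)
def starChk' : Bool := star.all fun s => (List.finRange 7).all fun k =>
  if k == 1 || k == 2 then star.contains (q k s % 40353264) else hid s k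

theorem starChk_true : starChk = true := by decide +kernel
theorem eyeChk_true : eyeChk = true := by decide +kernel
theorem starChk'_true : starChk' = true := by decide +kernel

theorem Lam.hid_spec (h : Lam Γ F) {s : ℤ} (hs : hid s k = true) (hm : inO k m) :
    ¬ Pi Γ s m := by
  intro hp
  unfold hid at hs
  rw [List.any_eq_true] at hs
  obtain ⟨i, -, hi⟩ := hs
  rw [Bool.and_eq_true, bne_iff_ne] at hi
  have := h.Pi_Qo hp hi.1 hm
  rw [Q_int] at this
  exact h.nPi_spec hi.2 this

/-- one step down -/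
theorem Lam.step (h : Lam Γ F) (hx : IsM Γ x ∨ IsT Γ x) {P : ℂ → Prop} {n : ℕ}
    (hn : P (Γ (7 ^ (n + 1) * x))) :
    ∃ k, inO k x ∧ Av Γ x ∧ P (Γ (7 ^ n * Q k x)) := by
  have hav := h.TM_av hx
  obtain ⟨i, hi⟩ := h.av_inO hav
  refine ⟨i, hi, hav, ?_⟩
  have e1 : Γ (Q i x) = Γ (7 * x) := h.congr (Q_inP hi.inP)
  have e2 : Γ (7 ^ n * Q i x) = Γ (7 ^ (n + 1) * x) := by
    rw [h.pow e1]; congr 1; ring
  rw [e2]; exact hn

theorem Lam.blind_aux (h : Lam Γ F) (n : ℕ) : ∀ s ∈ star, ∀ m, IsM Γ m →
    Γ (7 ^ n * m) = Γ 0 → ¬ Pi Γ s m := by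
  induction n with
  | zero =>
    intro s hs m _ hm hp
    simp only [pow_zero, one_mul] at hm
    have g := starChk_true
    unfold starChk at g
    rw [List.all_eq_true] at g
    have g := g s hs
    rw [Bool.and_eq_true] at g
    have g1 := h.nPi_spec g.1
    push_cast at g1
    exact g1 (h.Pi_congr rfl hm hp)
  | succ n ih =>
    intro s hs m hm hn hp
    obtain ⟨k, hk, hav, hn'⟩ := h.step (P := fun c => c = Γ 0) (Or.inl hm) hn
    have g := starChk_true
    unfold starChk at g
    rw [List.all_eq_true] at g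
    have g := g s hs
    rw [Bool.and_eq_true, List.all_eq_true] at g
    have g := g.2 k (List.mem_finRange k)
    rw [Bool.or_eq_true, List.contains_iff_mem] at g
    rcases g with g | g
    · refine ih _ g (Q k m) ((h.IsM_Q hk hav).2 hm) hn' ?_
      refine h.Pi_congr ?_ rfl (h.Pi_Q hp k)
      rw [Q_int]
      exact (h.congr (eqv_mod _)).symm
    · exact h.hid_spec g hk hp

/-- BLIND: no mark is visible from the star -/
theorem Lam.blind (h : Lam Γ F) {s : ℤ} (hs : s ∈ star) (hm : IsM Γ m) : ¬ Pi Γ s m := by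
  obtain ⟨n, hn⟩ := h.IsM_ev hm
  exact h.blind_aux n s hs m hm hn

theorem q30 : q 3 0 = 0 := by decide +kernel

theorem Lam.eq0_of_Q3 (h : Lam Γ F) (hk : inO 3 m) (hav : Av Γ m) (hm : Γ (Q 3 m) = Γ 0) :
    Γ m = Γ 0 := by
  have h3 : Q 3 (0 : ℝ) = 0 := by
    have := Q_int 3 0
    rw [q30] at this
    push_cast at this
    exact this
  symm
  rw [h.tr hk hav, h3, hm]

theorem Lam.eye_aux (h : Lam Γ F) (n : ℕ) : ∀ s ∈ eye, ∀ m, IsM Γ m →
    Γ (7 ^ n * m) = Γ 0 → Pi Γ s m → Γ m = Γ 0 := by
  induction n with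
  | zero =>
    intro s hs m _ hm hp
    simpa using hm
  | succ n ih =>
    intro s hs m hm hn hp
    obtain ⟨k, hk, hav, hn'⟩ := h.step (P := fun c => c = Γ 0) (Or.inl hm) hn
    have hm' := (h.IsM_Q hk hav).2 hm
    have hpQ : Pi Γ ((q k s % 40353264 : ℤ) : ℝ) (Q k m) := by
      refine h.Pi_congr ?_ rfl (h.Pi_Q hp k)
      rw [Q_int]
      exact (h.congr (eqv_mod _)).symm
    have g := eyeChk_true
    unfold eyeChk at g
    rw [List.all_eq_true] at g
    have g := g s hs
    rw [List.all_eq_true] at g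
    have g := g k (List.mem_finRange k)
    rw [Bool.or_eq_true, List.contains_iff_mem, Bool.or_eq_true, Bool.and_eq_true,
      List.contains_iff_mem, beq_iff_eq] at g
    rcases g with g | ⟨g1, g2⟩ | g
    · exact absurd hpQ (h.blind g hm')
    · have := ih _ g2 (Q k m) hm' hn' hpQ
      subst g1
      exact h.eq0_of_Q3 hk hav this
    · exact absurd hp (h.hid_spec g hk)

/-- from `e` and from the critical value only `0` is visible -/
theorem Lam.eye (h : Lam Γ F) {s : ℤ} (hs : s ∈ eye) (hm : IsM Γ m) (hp : Pi Γ s m) :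
    Γ m = Γ 0 := by
  obtain ⟨n, hn⟩ := h.IsM_ev hm
  exact h.eye_aux n s hs m hm hn hp

end Pool.Agent.JB
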